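/-
MP_21db1f_lc (QFA of free solvable groups of class 3), common definitions.
-/
import Mathlib

set_option autoImplicit false

namespace Pool.Agent.Lib.MP_21db1f_lc

/-! ## 1. Words coded by lists of natural numbers -/

/-- The group element coded by the letter `l` : with `r = l % (2n)`, `r = 2i` codes `x i` and
`r = 2i+1` codes `(x i)⁻¹`. -/
def letter {H : Type*} [Group H] (n : ℕ) (x : ℕ → H) (l : ℕ) : H :=
  if (l % (2 * n)) % 2 = 0 then x ((l % (2 * n)) / 2) else (x ((l % (2 * n)) / 2))⁻¹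

/-- Evaluation of a word. -/
def evalW {H : Type*} [Group H] (n : ℕ) (x : ℕ → H) (w : List ℕ) : H :=
  (w.map (letter n x)).prod

/-- the commutator `x₀ x₁ x₀⁻¹ x₁⁻¹` -/
def cc {H : Type*} [Group H] (x : ℕ → H) : H := x 0 * x 1 * (x 0)⁻¹ * (x 1)⁻¹

/-! ## 2. Affine actions on `ℤ/q`, coded by lists of natural numbers
`θ = [q, m₀, β₀, m₀', β₀', m₁, β₁, m₁', β₁', …]`, `x i` acts by `z ↦ m_i z + β_i`
and `(x i)⁻¹` by `z ↦ m_i' z + β_i'`. -/

/-- the modulus -/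
def qq (θ : List ℕ) : ℕ := θ.getD 0 0
def mm (θ : List ℕ) (i : ℕ) : ℕ := θ.getD (1 + 4 * i) 0
def bb (θ : List ℕ) (i : ℕ) : ℕ := θ.getD (2 + 4 * i) 0
def mm' (θ : List ℕ) (i : ℕ) : ℕ := θ.getD (3 + 4 * i) 0
def bb' (θ : List ℕ) (i : ℕ) : ℕ := θ.getD (4 + 4 * i) 0

/-- action of a letter on `{0,…,q-1}` -/
def step (n : ℕ) (θ : List ℕ) (l k : ℕ) : ℕ :=
  (θ.getD (1 + 2 * (l % (2 * n))) 0 * k + θ.getD (2 + 2 * (l % (2 * n))) 0) % θ.getD 0 0

/-- image of `0` under the action of a word -/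
def kval (n : ℕ) (θ : List ℕ) (w : List ℕ) : ℕ := w.foldr (step n θ) 0

/-- Admissible parameter lists: `0 < q`, the maps of `x i` and `(x i)⁻¹` are inverse to each other
and the commutator `x₀ x₁ x₀⁻¹ x₁⁻¹` acts as `z ↦ z + 1`. -/
def Adm (n : ℕ) (θ : List ℕ) : Prop :=
  0 < qq θ ∧ (∀ i < n, mm θ i * mm' θ i ≡ 1 [MOD qq θ] ∧ mm θ i * bb' θ i + bb θ i ≡ 0 [MOD qq θ]) ∧
    mm θ 0 * bb θ 1 + bb θ 0 ≡ mm θ 1 * bb θ 0 + bb θ 1 + 1 [MOD qq θ]

/-- `∑_{s ∈ ℓ} j ^ (k_s(θ))` -/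
def pval (n : ℕ) (θ : List ℕ) (j : ℕ) (ℓ : List (List ℕ)) : ℕ :=
  (ℓ.map (fun s => j ^ kval n θ s)).sum

/-- Codes of elements of the integral group ring: `(ℓ⁺, ℓ⁻)` stands for
`∑_{s ∈ ℓ⁺} s - ∑_{s ∈ ℓ⁻} s`. -/
abbrev RCode := List (List ℕ) × List (List ℕ)

/-- Generators of the stabiliser of `0` (for the affine action given by `θ`). -/
def gens {H : Type*} [Group H] (n : ℕ) (x : ℕ → H) (θ : List ℕ) : Set H :=
  {t : H | ∃ i < n, t = (cc x ^ bb θ i)⁻¹ * x i} ∪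
    {t : H | ∃ i < n, t = (x i)⁻¹ * cc x * x i * (cc x ^ mm' θ i)⁻¹} ∪ {cc x ^ qq θ}

/-! ## 3. Fox derivatives of words (right version `D (u v) = D u * v + D v`) -/

/-- positive part of the `i`-th Fox derivative -/
def foxPos (n i : ℕ) : List ℕ → List (List ℕ)
  | [] => []
  | l :: s => if l % (2 * n) = 2 * i then s :: foxPos n i s else foxPos n i s

/-- negative part of the `i`-th Fox derivative -/
def foxNeg (n i : ℕ) : List ℕ → List (List ℕ)
  | [] => []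
  | l :: s => if l % (2 * n) = 2 * i + 1 then (l :: s) :: foxNeg n i s else foxNeg n i s

/-- inverse letter -/
def invL (n l : ℕ) : ℕ := if (l % (2 * n)) % 2 = 0 then l % (2 * n) + 1 else l % (2 * n) - 1

/-- inverse word -/
def invW (n : ℕ) (w : List ℕ) : List ℕ := (w.map (invL n)).reverse

/-- the word `x₀ x₁ x₀⁻¹ x₁⁻¹` -/
def cW : List ℕ := [0, 2, 1, 3]

/-- the word `w⁻¹ c w` -/
def uW (n : ℕ) (w : List ℕ) : List ℕ := invW n w ++ cW ++ w

/-- the word `u⁻¹ c⁻¹ u c` with `u = w⁻¹ c w` -/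
def yW (n : ℕ) (w : List ℕ) : List ℕ := invW n (uW n w) ++ invW n cW ++ uW n w ++ cW

/-- the word `d_i = x₀ x_i x₀⁻¹ x_i⁻¹` -/
def dW (i : ℕ) : List ℕ := [0, 2 * i, 1, 2 * i + 1]

/-- a fixed nontrivial element of `M` in the variables `x₀, x_i`: the word
`u⁻¹ d⁻¹ u d` with `d = d_i`, `u = x₀⁻¹ d x₀`. -/
def zW (n i : ℕ) : List ℕ :=
  invW n (([1] : List ℕ) ++ dW i ++ [0]) ++ invW n (dW i) ++ (([1] : List ℕ) ++ dW i ++ [0]) ++ dW i

/-! ## 4. First-order relations in a group -/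

section Relations
variable {H : Type} [Group H]

/-- conjugation `g⁻¹ a g` -/
def cj (g a : H) : H := g⁻¹ * a * g

/-- the set which is `G''` in the free solvable group of class 3 -/
def InM (g : H) : Prop := ∀ h : H, g * cj h g = cj h g * g

/-- `b ∈ M (t - 1)` -/
def InT (t b : H) : Prop := ∃ v, InM v ∧ b = cj t v * v⁻¹

/-- `b = k a` where `κ = c ^ k` -/
def Sc (c κ a b : H) : Prop :=
  ∀ u : H, ∃ e, InM e ∧ cj (cj u c) e * e⁻¹ = cj (cj u κ) a * a⁻¹ ∧ InT (cj u c) (b * e⁻¹)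

/-- `p = c ^ (k l)` where `κ = c ^ k`, `l' = c ^ l` -/
def MulR (c κ l p : H) : Prop :=
  p * c = c * p ∧ ∀ a b b', InM a → Sc c l a b → Sc c κ b b' → Sc c p a b'

/-- `s = c ^ (k ^ 2)` for some `k` -/
def SqR (c s : H) : Prop := ∃ α, α * c = c * α ∧ MulR c α α s

/-- the set `{c ^ k | k ∈ ℕ}` -/
def NN (c κ : H) : Prop :=
  ∃ s₁ s₂ s₃ s₄, SqR c s₁ ∧ SqR c s₂ ∧ SqR c s₃ ∧ SqR c s₄ ∧ κ = s₁ * s₂ * s₃ * s₄

end Relations

/-! ## 5. Formulas of arithmetic -/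

/-- `cons a e` prepends `a` to the assignment `e`. -/
def cons {α : Type*} (a : α) (e : ℕ → α) : ℕ → α
  | 0 => a
  | i + 1 => e i

/-- Formulas of arithmetic (de Bruijn variables). -/
inductive AF
  | eq (i j : ℕ)
  | one (i : ℕ)
  | add (i j k : ℕ)
  | mul (i j k : ℕ)
  | fal
  | imp (φ ψ : AF)
  | all (φ : AF)

/-- Truth in `ℕ`. -/
def AF.holds : AF → (ℕ → ℕ) → Prop
  | .eq i j, e => e i = e j
  | .one i, e => e i = 1
  | .add i j k, e => e i + e j = e k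
  | .mul i j k, e => e i * e j = e k
  | .fal, _ => False
  | .imp φ ψ, e => φ.holds e → ψ.holds e
  | .all φ, e => ∀ a, φ.holds (cons a e)

/-- Truth in the interpreted structure `NN c`, `k ↔ c ^ k`. -/
def AF.interp {H : Type} [Group H] (c : H) : AF → (ℕ → H) → Prop
  | .eq i j, e => e i = e j
  | .one i, e => e i = c
  | .add i j k, e => e i * e j = e k
  | .mul i j k, e => MulR c (e i) (e j) (e k)
  | .fal, _ => False
  | .imp φ ψ, e => φ.interp c e → ψ.interp c e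
  | .all φ, e => ∀ a, NN c a → φ.interp c (cons a e)

/-! ## 6. The groups -/

/-- the free group of rank `n` -/
abbrev FF (n : ℕ) := FreeGroup (Fin n)
/-- the free solvable group of class 3 -/
abbrev G3 (n : ℕ) := FF n ⧸ derivedSeries (FF n) 3
/-- the free metabelian group -/
abbrev G2 (n : ℕ) := FF n ⧸ derivedSeries (FF n) 2
/-- its integral group ring -/
abbrev Lam (n : ℕ) := MonoidAlgebra ℤ (G2 n)

/-- the generators, as a sequence (`1` beyond `n`) -/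
def xF (n : ℕ) (i : ℕ) : FF n := if h : i < n then FreeGroup.of ⟨i, h⟩ else 1
def x3 (n : ℕ) (i : ℕ) : G3 n := QuotientGroup.mk (xF n i)
def x2 (n : ℕ) (i : ℕ) : G2 n := QuotientGroup.mk (xF n i)

/-- the projection of the free solvable group onto the free metabelian group -/
def pr (n : ℕ) : G3 n →* G2 n :=
  QuotientGroup.map _ _ (MonoidHom.id _) (by
    rw [Subgroup.comap_id]
    exact derivedSeries_antitone (FF n) (by norm_num : 2 ≤ 3))

/-- group element as an element of the group ring -/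
noncomputable def sg {n : ℕ} (g : G2 n) : Lam n := MonoidAlgebra.of ℤ (G2 n) g

end Pool.Agent.Lib.MP_21db1f_lc
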