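import Pool.Agent.Lib.MP_21db1f_lc.Magnus
import Pool.Agent.Lib.MP_21db1f_lc.Defs

section

/-!
Semantic versions of the relations used in the axiomatization, in the free solvable group.
-/

set_option autoImplicit false

namespace Pool.Agent.Lib.MP_21db1f_lc

/-! ## Magnus coordinates on the free solvable group of class 3 -/

noncomputable def D3 (n : ℕ) : G3 n → Fin n → Lam n := (exists_D3 n).choose

theorem D3_injective (n : ℕ) : Function.Injective (D3 n) := (exists_D3 n).choose_spec.1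
theorem D3_mul (n : ℕ) (g h : G3 n) (i : Fin n) :
    D3 n (g * h) i = D3 n g i * sg (pr n h) + D3 n h i := (exists_D3 n).choose_spec.2.1 g h i
theorem D3_x (n : ℕ) (i : Fin n) : D3 n (x3 n i) = Pi.single i 1 :=
  (exists_D3 n).choose_spec.2.2.1 i
theorem D3_sum (n : ℕ) (g : G3 n) :
    ∑ i : Fin n, (sg (x2 n i) - 1) * D3 n g i = sg (pr n g) - 1 :=
  (exists_D3 n).choose_spec.2.2.2 g

/-- the element of the group ring coded by a ring code -/
noncomputable def toLam (n : ℕ) (ρ : RCode) : Lam n :=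
  (ρ.1.map (fun s => sg (evalW n (x2 n) s))).sum - (ρ.2.map (fun s => sg (evalW n (x2 n) s))).sum

/-- `b = a · ρ` in `M`. -/
def ActL (n : ℕ) (a : G3 n) (ρ : RCode) (b : G3 n) : Prop :=
  InM b ∧ ∀ i, D3 n b i = D3 n a i * toLam n ρ

/-! ## The relation `b ∈ D_θ` -/

section
variable {H : Type} [Group H]

def InDs (x : ℕ → H) (θ : List ℕ) : ℕ → H → Prop
  | 0, b => InT (cc x ^ qq θ) b
  | i + 1, b => ∃ b1 b2, InT ((cc x ^ bb θ i)⁻¹ * x i) b1 ∧
      InT ((x i)⁻¹ * cc x * x i * (cc x ^ mm' θ i)⁻¹) b2 ∧ InDs x θ i (b * (b1 * b2)⁻¹)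

/-- semantic version of the action relation, `V θ j = (P⁺(θ,j), P⁻(θ,j))` -/
def ActS (n : ℕ) (x : ℕ → H) (V : List ℕ → ℕ → ℕ × ℕ) (a b : H) : Prop :=
  InM b ∧ ∀ θ, Adm n θ → ∃ e, InM e ∧
    (∀ j : ℕ, ∃ v, InM v ∧ e * a ^ (V θ j).2 * (a ^ (V θ j).1)⁻¹ = cj (cc x) v * (v ^ j)⁻¹) ∧
    InDs x θ n (b * e⁻¹)

/-- `y_g = u⁻¹ c⁻¹ u c` with `u = g⁻¹ c g` -/
def yy (x : ℕ → H) (g : H) : H := (cj g (cc x))⁻¹ * (cc x)⁻¹ * cj g (cc x) * cc x

/-- the fixed elements `z_i` of `M` -/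
def zz (n : ℕ) (x : ℕ → H) (i : ℕ) : H := evalW n x (zW n i)

end

/-- `Y = ∑_{1 ≤ i ≤ k} z_i s_i` -/
def SpanS (n : ℕ) (s : ℕ → RCode) : ℕ → G3 n → Prop
  | 0, Y => Y = 1
  | i + 1, Y => ∃ b, ActL n (zz n (x3 n) (i + 1)) (s (i + 1)) b ∧ SpanS n s i (Y * b⁻¹)

/-- semantic version of the evaluation relation -/
def EVs (n : ℕ) (w : List ℕ) (g : G3 n) : Prop :=
  (∀ a, InM a → ActL n a ([w], []) (cj g a)) ∧
  ∃ (r : RCode) (s : ℕ → RCode), ¬ ActL n (zz n (x3 n) 1) r 1 ∧
    (∃ Y, ActL n (yy (x3 n) g) r Y ∧ SpanS n s (n - 1) Y) ∧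
    ∀ i, 1 ≤ i → i < n → ∀ a, InM a → ∃ a1 a2 a3,
      ActL n a (foxPos n i (yW n w), foxNeg n i (yW n w)) a1 ∧ ActL n a1 r a2 ∧
      ActL n a (foxPos n i (zW n i), foxNeg n i (zW n i)) a3 ∧ ActL n a3 (s i) a2

end Pool.Agent.Lib.MP_21db1f_lc
end

section

section

/-!
Affine actions separate finite subsets of the free metabelian group; the integral group ring of the
free metabelian group has no zero divisors.
-/

set_option autoImplicit false

namespace Pool.Agent.Lib.MP_21db1f_lc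
namespace SepAux
open MonoidAlgebra

/-! ## Exponents -/

/-- exponent vector of an element of `F/F'` -/
noncomputable def eqv (n : ℕ) (g : FF n ⧸ commutator (FF n)) : Fin n →₀ ℤ :=
  FreeAbelianGroup.equivFinsupp (Fin n) (Additive.ofMul (g : Abelianization (FF n)))

theorem eqv_inj (n : ℕ) : Function.Injective (eqv n) := by
  intro g h hgh
  exact Additive.ofMul.injective ((FreeAbelianGroup.equivFinsupp (Fin n)).injective hgh)

theorem eqv_mul (n : ℕ) (g h : FF n ⧸ commutator (FF n)) : eqv n (g * h) = eqv n g + eqv n h := by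
  exact (FreeAbelianGroup.equivFinsupp (Fin n)).map_add
    (Additive.ofMul (g : Abelianization (FF n))) (Additive.ofMul (h : Abelianization (FF n)))

theorem eqv_one (n : ℕ) : eqv n 1 = 0 := by
  have := eqv_mul n 1 1
  rw [mul_one] at this
  simpa using this

theorem eqv_of (n : ℕ) (i : Fin n) : eqv n (QuotientGroup.mk (FreeGroup.of i)) = Finsupp.single i 1 := by
  exact FreeAbelianGroup.toFinsupp_of i

/-- weight of an element of `F/F'` -/
noncomputable def wt (n B : ℕ) (g : FF n ⧸ commutator (FF n)) : ℤ :=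
  ∑ i : Fin n, eqv n g i * (B : ℤ) ^ (i : ℕ)

theorem wt_mul (n B : ℕ) (g h : FF n ⧸ commutator (FF n)) : wt n B (g * h) = wt n B g + wt n B h := by
  unfold wt
  rw [← Finset.sum_add_distrib]
  apply Finset.sum_congr rfl
  intro i _
  rw [eqv_mul, Finsupp.add_apply, add_mul]

theorem wt_one (n B : ℕ) : wt n B 1 = 0 := by
  simp [wt, eqv_one]

theorem wt_of (n B : ℕ) (i : Fin n) : wt n B (QuotientGroup.mk (FreeGroup.of i)) = (B : ℤ) ^ (i : ℕ) := by
  unfold wt
  rw [Finset.sum_eq_single i]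
  · rw [eqv_of]; simp
  · intro j _ hj
    rw [eqv_of, Finsupp.single_eq_of_ne hj, zero_mul]
  · intro h; exact absurd (Finset.mem_univ i) h

/-! ## Nonvanishing -/

theorem ev_ne (p : Polynomial ℤ) (hp : p ≠ 0) : ∀ᶠ B : ℕ in Filter.atTop, p.eval (B : ℤ) ≠ 0 := by
  have h1 : {z : ℤ | p.eval z = 0}.Finite := by
    apply (p.rootSet_finite ℤ).subset
    intro z hz
    rw [Polynomial.mem_rootSet]
    exact ⟨hp, by simpa using hz⟩
  have h2 : {B : ℕ | p.eval (B : ℤ) = 0}.Finite :=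
    h1.preimage (f := fun B : ℕ => (B : ℤ)) (fun a _ b _ h => by simpa using h)
  obtain ⟨M, hM⟩ := h2.bddAbove
  filter_upwards [Filter.eventually_gt_atTop M] with B hB h
  exact absurd (hM h) (not_le.2 hB)

theorem ev_vec (n : ℕ) (a : Fin n → ℤ) (ha : a ≠ 0) :
    ∀ᶠ B : ℕ in Filter.atTop, ∑ i : Fin n, a i * (B : ℤ) ^ (i : ℕ) ≠ 0 := by
  obtain ⟨i, hi⟩ := Function.ne_iff.1 ha
  have hp : (∑ i : Fin n, Polynomial.monomial (i : ℕ) (a i)) ≠ 0 := by
    intro h
    have h2 := congrArg (fun p => Polynomial.coeff p (i : ℕ)) h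
    simp only [Polynomial.finsetSum_coeff, Polynomial.coeff_monomial, Polynomial.coeff_zero] at h2
    rw [Finset.sum_eq_single i] at h2
    · simp only [if_true] at h2
      exact hi h2
    · intro j _ hj
      rw [if_neg]
      intro h3
      exact hj (Fin.ext h3)
    · intro h; exact absurd (Finset.mem_univ i) h
  filter_upwards [ev_ne _ hp] with B hB
  simpa [Polynomial.eval_finsetSum, Polynomial.eval_monomial] using hB

theorem ev_wt (n : ℕ) (E : Finset (FF n ⧸ commutator (FF n))) :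
    ∀ᶠ B : ℕ in Filter.atTop, Set.InjOn (wt n B) (E : Set (FF n ⧸ commutator (FF n))) := by
  have h1 : ∀ g ∈ E, ∀ h ∈ E, ∀ᶠ B : ℕ in Filter.atTop, g ≠ h → wt n B g ≠ wt n B h := by
    intro g _ h _
    by_cases hgh : g = h
    · exact Filter.Eventually.of_forall fun B hB => absurd hgh hB
    · have ha : (fun i => eqv n g i - eqv n h i) ≠ 0 := by
        intro h0
        apply hgh
        apply eqv_inj n
        ext i
        have := congrFun h0 i
        simp only [Pi.zero_apply] at this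
        omega
      filter_upwards [ev_vec n _ ha] with B hB _ heq
      apply hB
      unfold wt at heq
      simp only [sub_mul, Finset.sum_sub_distrib]
      rw [heq, sub_self]
  have h2 : ∀ᶠ B : ℕ in Filter.atTop, ∀ g ∈ E, ∀ h ∈ E, g ≠ h → wt n B g ≠ wt n B h := by
    rw [Filter.eventually_all_finset]
    intro g hg
    rw [Filter.eventually_all_finset]
    intro h hh
    exact h1 g hg h hh
  filter_upwards [h2] with B hB g hg h hh heq
  by_contra hne
  exact hB g hg h hh hne heq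

/-- the integer `∑_g d_g T^{N - wt g}` -/
noncomputable def pT (n B : ℕ) (N : ℤ) (d : MonoidAlgebra ℤ (FF n ⧸ commutator (FF n))) (T : ℕ) : ℤ :=
  ∑ g ∈ d.coeff.support, d.coeff g * (T : ℤ) ^ (N - wt n B g).toNat

theorem ev_pT (n B : ℕ) (N : ℤ) (d : MonoidAlgebra ℤ (FF n ⧸ commutator (FF n))) (hd : d ≠ 0)
    (hinj : Set.InjOn (wt n B) (d.coeff.support : Set (FF n ⧸ commutator (FF n))))
    (hN : ∀ g ∈ d.coeff.support, wt n B g ≤ N) :
    ∀ᶠ T : ℕ in Filter.atTop, pT n B N d T ≠ 0 := by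
  have hne : d.coeff ≠ 0 := by
    intro h
    exact hd (MonoidAlgebra.coeff_eq_zero.1 h)
  obtain ⟨g, hg⟩ := Finsupp.support_nonempty_iff.2 hne
  have hp : (∑ h ∈ d.coeff.support, Polynomial.monomial (N - wt n B h).toNat (d.coeff h)) ≠ 0 := by
    intro h0
    have h2 := congrArg (fun p => Polynomial.coeff p (N - wt n B g).toNat) h0
    simp only [Polynomial.finsetSum_coeff, Polynomial.coeff_monomial, Polynomial.coeff_zero] at h2
    rw [Finset.sum_eq_single g] at h2
    · simp only [if_true] at h2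
      exact (Finsupp.mem_support_iff.1 hg) h2
    · intro j hj hjg
      rw [if_neg]
      intro h3
      apply hjg
      apply hinj hj hg
      have e1 := hN j hj
      have e2 := hN g hg
      omega
    · intro h; exact absurd hg h
  filter_upwards [ev_ne _ hp] with T hT
  simpa [Polynomial.eval_finsetSum, Polynomial.eval_monomial, pT] using hT


/-! ## The affine actions -/

section Act
variable {K : Type} [Field K] (n B : ℕ) (T : K) (hT : T ≠ 0) (c : ℕ → K)

/-- the affine permutation `z ↦ m z + m c` -/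
def affP (m c : K) (hm : m ≠ 0) : Equiv.Perm K where
  toFun z := m * z + m * c
  invFun z := m⁻¹ * z - c
  left_inv z := by field_simp; ring
  right_inv z := by field_simp; ring

/-- the multiplier -/
noncomputable def chi : (FF n ⧸ commutator (FF n)) →* K where
  toFun g := T ^ wt n B g
  map_one' := by rw [wt_one, zpow_zero]
  map_mul' g h := by rw [wt_mul, zpow_add₀ hT]

noncomputable def chiInv : (FF n ⧸ commutator (FF n)) →* K where
  toFun g := T ^ (- wt n B g)
  map_one' := by rw [wt_one, neg_zero, zpow_zero]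
  map_mul' g h := by rw [wt_mul, neg_add, zpow_add₀ hT]

/-- evaluation of group ring elements -/
noncomputable def evK : MonoidAlgebra ℤ (FF n ⧸ commutator (FF n)) →ₐ[ℤ] K :=
  MonoidAlgebra.lift ℤ K _ (chiInv n B T hT)

theorem evK_of (g) : evK n B T hT (MonoidAlgebra.of ℤ _ g) = T ^ (- wt n B g) := by
  unfold evK
  rw [MonoidAlgebra.lift_of]
  rfl

/-- the value -/
noncomputable def valK (u : FF n) : K :=
  T ^ wt n B (QuotientGroup.mk u) * ∑ i : Fin n, evK n B T hT (DD (commutator (FF n)) u i) * c i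

noncomputable def act0 : FF n →* Equiv.Perm K :=
  FreeGroup.lift (fun i : Fin n => affP (T ^ (B ^ (i : ℕ))) (c i) (pow_ne_zero _ hT))

theorem valK_mul (u v : FF n) : valK n B T hT c (u * v) =
    T ^ wt n B (QuotientGroup.mk u) * valK n B T hT c v + valK n B T hT c u := by
  unfold valK
  have h1 : (QuotientGroup.mk (u * v) : FF n ⧸ commutator (FF n)) = QuotientGroup.mk u * QuotientGroup.mk v := rfl
  simp only [DD_mul, map_add, map_mul, evK_of, add_mul, Finset.sum_add_distrib]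
  rw [h1, wt_mul, zpow_add₀ hT, mul_add]
  have h2 : ∑ i : Fin n, evK n B T hT (DD (commutator (FF n)) u i) * T ^ (-wt n B (QuotientGroup.mk v)) * c i =
    T ^ (-wt n B (QuotientGroup.mk v)) * ∑ i : Fin n, evK n B T hT (DD (commutator (FF n)) u i) * c i := by
    rw [Finset.mul_sum]
    apply Finset.sum_congr rfl
    intro i _
    ring
  rw [h2]
  have h3 : T ^ (wt n B (QuotientGroup.mk v : FF n ⧸ commutator (FF n))) * T ^ (-wt n B (QuotientGroup.mk v)) = 1 := by
    rw [← zpow_add₀ hT, add_neg_cancel, zpow_zero]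
  linear_combination (T ^ wt n B (QuotientGroup.mk u) * ∑ i : Fin n, evK n B T hT (DD (commutator (FF n)) u i) * c i) * h3

theorem act0_apply (u : FF n) : ∀ z, act0 n B T hT c u z =
    T ^ wt n B (QuotientGroup.mk u) * z + valK n B T hT c u := by
  have hof : ∀ i : Fin n, valK n B T hT c (FreeGroup.of i) = T ^ (B ^ (i : ℕ)) * c i := by
    intro i
    unfold valK
    rw [wt_of, DD_of, Finset.sum_eq_single i]
    · rw [Pi.single_eq_same, map_one, one_mul]
      norm_cast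
    · intro j _ hj
      rw [Pi.single_eq_of_ne hj, map_zero, zero_mul]
    · intro h; exact absurd (Finset.mem_univ i) h
  have hone : valK n B T hT c 1 = 0 := by
    unfold valK
    simp [DD_one]
  induction u using FreeGroup.induction_on with
  | C1 =>
    intro z
    rw [hone]
    have : (QuotientGroup.mk (1 : FF n) : FF n ⧸ commutator (FF n)) = 1 := rfl
    rw [this, wt_one]
    simp
  | of i =>
    intro z
    rw [hof, wt_of]
    unfold act0
    rw [FreeGroup.lift_apply_of]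
    show T ^ (B ^ (i : ℕ)) * z + T ^ (B ^ (i : ℕ)) * c i = _
    norm_cast
  | inv_of i ih =>
    intro z
    have h1 := valK_mul n B T hT c (FreeGroup.of i) (FreeGroup.of i)⁻¹
    rw [mul_inv_cancel, hone] at h1
    have h2 : (QuotientGroup.mk (FreeGroup.of i)⁻¹ : FF n ⧸ commutator (FF n)) =
      (QuotientGroup.mk (FreeGroup.of i))⁻¹ := rfl
    have h3 : wt n B (QuotientGroup.mk (FreeGroup.of i)⁻¹) = - wt n B (QuotientGroup.mk (FreeGroup.of i)) := by
      have := wt_mul n B (QuotientGroup.mk (FreeGroup.of i)) (QuotientGroup.mk (FreeGroup.of i))⁻¹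
      rw [mul_inv_cancel, wt_one] at this
      rw [h2]
      linarith
    rw [h3, map_inv, Equiv.Perm.inv_def, Equiv.symm_apply_eq, ih]
    have h4 : T ^ (wt n B (QuotientGroup.mk (FreeGroup.of i) : FF n ⧸ commutator (FF n))) *
      T ^ (-wt n B (QuotientGroup.mk (FreeGroup.of i))) = 1 := by
      rw [← zpow_add₀ hT, add_neg_cancel, zpow_zero]
    linear_combination h1 - z * h4
  | mul u v hu hv =>
    intro z
    rw [map_mul, Equiv.Perm.mul_apply, hv, hu, valK_mul]
    have h1 : (QuotientGroup.mk (u * v) : FF n ⧸ commutator (FF n)) = QuotientGroup.mk u * QuotientGroup.mk v := rfl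
    rw [h1, wt_mul, zpow_add₀ hT]
    ring

theorem act0_ker (u : FF n) (hu : u ∈ derivedSeries (FF n) 2) : act0 n B T hT c u = 1 := by
  have h1 : u ∈ ⁅commutator (FF n), commutator (FF n)⁆ := hu
  have h2 : u ∈ commutator (FF n) := Subgroup.commutator_le_left _ _ h1
  have h3 : (QuotientGroup.mk u : FF n ⧸ commutator (FF n)) = 1 := (QuotientGroup.eq_one_iff u).2 h2
  have h4 := DD_comm _ u h1
  ext z
  rw [act0_apply, h3, wt_one]
  unfold valK
  simp [h4]

/-- the action of `G2 n` -/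
noncomputable def act : G2 n →* Equiv.Perm K :=
  QuotientGroup.lift (derivedSeries (FF n) 2) (act0 n B T hT c) (act0_ker n B T hT c)

theorem act_mk (u : FF n) (z : K) : act n B T hT c (QuotientGroup.mk u) z =
    T ^ wt n B (QuotientGroup.mk u) * z + valK n B T hT c u := by
  rw [← act0_apply]
  rfl

theorem act_x2 (i : ℕ) (hi : i < n) (z : K) : act n B T hT c (x2 n i) z =
    T ^ (B ^ i) * z + T ^ (B ^ i) * c i := by
  have h1 : x2 n i = QuotientGroup.mk (FreeGroup.of (⟨i, hi⟩ : Fin n)) := by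
    unfold x2 xF
    rw [dif_pos hi]
  rw [h1]
  show act0 n B T hT c (FreeGroup.of (⟨i, hi⟩ : Fin n)) z = _
  unfold act0
  rw [FreeGroup.lift_apply_of]
  rfl

/-- the value is the image of an integer, up to units -/
theorem act_zero (u : FF n) (N : ℤ) (t : ℕ) (ht : (t : K) = T) (δ : K) (C : ℕ)
    (hc : ∀ i, c i = (C : K) ^ i / δ)
    (hN : ∀ i : Fin n, ∀ g ∈ (DD (commutator (FF n)) u i).coeff.support, wt n B g ≤ N) :
    act n B T hT c (QuotientGroup.mk u) 0 * (T ^ N * δ) =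
      T ^ wt n B (QuotientGroup.mk u) *
      ((∑ i : Fin n, pT n B N (DD (commutator (FF n)) u i) t * (C : ℤ) ^ (i : ℕ) : ℤ) : K) *
      (δ / δ) := by
  rw [act_mk, mul_zero, zero_add]
  unfold valK
  have h1 : ∀ i : Fin n, evK n B T hT (DD (commutator (FF n)) u i) * T ^ N =
      ((pT n B N (DD (commutator (FF n)) u i) t : ℤ) : K) := by
    intro i
    unfold evK pT
    rw [MonoidAlgebra.lift_apply', Finsupp.sum, Finset.sum_mul, Int.cast_sum]
    apply Finset.sum_congr rfl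
    intro g hg
    push_cast
    rw [ht]
    have h2 : ((N - wt n B g).toNat : ℤ) = N - wt n B g := Int.toNat_of_nonneg (by linarith [hN i g hg])
    have h3 : T ^ (N - wt n B g).toNat = T ^ (- wt n B g) * T ^ N := by
      rw [← zpow_natCast, h2, ← zpow_add₀ hT]
      congr 1
      ring
    rw [h3, mul_assoc]
    rfl
  rw [mul_assoc, mul_assoc, Finset.sum_mul, Int.cast_sum, Finset.sum_mul]
  congr 1
  apply Finset.sum_congr rfl
  intro i _
  rw [Int.cast_mul, ← h1, hc]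
  push_cast
  ring

end Act


theorem delta_aux {K : Type} [Field K] (a b c : K) (h : (a - 1) * b * c - (b - 1) * a ≠ 0) :
    (a - 1) * (b * (c / ((a - 1) * b * c - (b - 1) * a))) -
      (b - 1) * (a * (1 / ((a - 1) * b * c - (b - 1) * a))) = 1 := by
  have h1 : (a - 1) * (b * (c / ((a - 1) * b * c - (b - 1) * a))) -
      (b - 1) * (a * (1 / ((a - 1) * b * c - (b - 1) * a))) =
      ((a - 1) * b * c - (b - 1) * a) / ((a - 1) * b * c - (b - 1) * a) := by ring
  rw [h1, div_self h]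

/-- choice of the parameters -/
theorem select (n : ℕ) (S : Finset (FF n)) (hS : ∀ u ∈ S, u ∉ derivedSeries (FF n) 2) :
    ∃ (B t C : ℕ) (N : ℤ), 2 ≤ t ∧
      (∀ u ∈ S, ∀ i : Fin n, ∀ g ∈ (DD (commutator (FF n)) u i).coeff.support, wt n B g ≤ N) ∧
      (∀ u ∈ S, (∑ i : Fin n, pT n B N (DD (commutator (FF n)) u i) t * (C : ℤ) ^ (i : ℕ)) ≠ 0) ∧
      ((t : ℤ) - 1) * t ^ B * C - ((t : ℤ) ^ B - 1) * t ≠ 0 := by
  classical
  -- nonzero derivative
  have hne : ∀ u ∈ S, ∃ i : Fin n, DD (commutator (FF n)) u i ≠ 0 := by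
    intro u hu
    by_contra hcon
    push Not at hcon
    have h0 : DD (commutator (FF n)) u = 0 := funext hcon
    have h1 := DD_sum (commutator (FF n)) u
    simp only [hcon, mul_zero, Finset.sum_const_zero] at h1
    have h2 : (QuotientGroup.mk u : FF n ⧸ commutator (FF n)) = 1 := by
      have h3 : MonoidAlgebra.of ℤ (FF n ⧸ commutator (FF n)) (QuotientGroup.mk u) =
          MonoidAlgebra.of ℤ (FF n ⧸ commutator (FF n)) 1 := by
        rw [map_one]
        exact (sub_eq_zero.1 h1.symm)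
      exact MonoidAlgebra.of_injective h3
    have h3 : u ∈ commutator (FF n) := (QuotientGroup.eq_one_iff u).1 h2
    exact hS u hu (DD_ker _ u h3 h0)
  obtain ⟨E, hE⟩ : ∃ E : Finset (FF n ⧸ commutator (FF n)), ∀ u ∈ S, ∀ i : Fin n,
      (DD (commutator (FF n)) u i).coeff.support ⊆ E := by
    refine ⟨S.biUnion fun u => Finset.univ.biUnion fun i => (DD (commutator (FF n)) u i).coeff.support, ?_⟩
    intro u hu i g hg
    rw [Finset.mem_biUnion]
    exact ⟨u, hu, Finset.mem_biUnion.2 ⟨i, Finset.mem_univ i, hg⟩⟩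
  obtain ⟨B, hB, hB1⟩ := ((ev_wt n E).and (Filter.eventually_ge_atTop 1)).exists
  obtain ⟨N, hN⟩ : ∃ N : ℤ, ∀ g ∈ E, wt n B g ≤ N := by
    obtain ⟨N, hN⟩ := (E.image (wt n B)).bddAbove
    exact ⟨N, fun g hg => hN (Finset.mem_coe.2 (Finset.mem_image_of_mem _ hg))⟩
  have hT : ∀ᶠ t : ℕ in Filter.atTop, ∀ u ∈ S, ∃ i : Fin n, pT n B N (DD (commutator (FF n)) u i) t ≠ 0 := by
    rw [Filter.eventually_all_finset]
    intro u hu
    obtain ⟨i, hi⟩ := hne u hu
    have := ev_pT n B N (DD (commutator (FF n)) u i) hi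
      (hB.mono (by exact_mod_cast hE u hu i)) (fun g hg => hN g (hE u hu i hg))
    filter_upwards [this] with t ht
    exact ⟨i, ht⟩
  obtain ⟨t, ht, ht2⟩ := (hT.and (Filter.eventually_ge_atTop 2)).exists
  have hC : ∀ᶠ C : ℕ in Filter.atTop, ∀ u ∈ S,
      (∑ i : Fin n, pT n B N (DD (commutator (FF n)) u i) t * (C : ℤ) ^ (i : ℕ)) ≠ 0 := by
    rw [Filter.eventually_all_finset]
    intro u hu
    obtain ⟨i, hi⟩ := ht u hu
    exact ev_vec n (fun i => pT n B N (DD (commutator (FF n)) u i) t)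
      (fun h0 => hi (congrFun h0 i))
  have hC2 : ∀ᶠ C : ℕ in Filter.atTop, ((t : ℤ) - 1) * t ^ B * C - ((t : ℤ) ^ B - 1) * t ≠ 0 := by
    filter_upwards [Filter.eventually_ge_atTop (t + 1)] with C hC
    have h1 : (2 : ℤ) ≤ t := by exact_mod_cast ht2
    have h2 : (t : ℤ) + 1 ≤ C := by exact_mod_cast hC
    have h3 : (1 : ℤ) ≤ (t : ℤ) ^ B := one_le_pow₀ (by linarith)
    have h4 : (1 : ℤ) * ((t : ℤ) ^ B * t) + 1 ≤ ((t : ℤ) - 1) * t ^ B * C := by
      have h5 : (t : ℤ) ^ B * (t + 1) ≤ ((t : ℤ) - 1) * t ^ B * C := by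
        have h6 : (t : ℤ) ^ B * (t + 1) ≤ (t : ℤ) ^ B * C := mul_le_mul_of_nonneg_left h2 (by linarith)
        have h7 : (1 : ℤ) * ((t : ℤ) ^ B * C) ≤ ((t : ℤ) - 1) * ((t : ℤ) ^ B * C) :=
          mul_le_mul_of_nonneg_right (by linarith) (by positivity)
        calc (t : ℤ) ^ B * (t + 1) ≤ (t : ℤ) ^ B * C := h6
          _ = (1 : ℤ) * ((t : ℤ) ^ B * C) := by ring
          _ ≤ ((t : ℤ) - 1) * ((t : ℤ) ^ B * C) := h7
          _ = _ := by ring
      nlinarith
    intro h0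
    nlinarith
  obtain ⟨C, hC, hC2⟩ := (hC.and hC2).exists
  exact ⟨B, t, C, N, ht2, fun u hu i g hg => hN g (hE u hu i hg), hC, hC2⟩

theorem lift_set (n : ℕ) (S : Finset (G2 n)) (h1 : (1 : G2 n) ∉ S) :
    ∃ S' : Finset (FF n), (∀ u ∈ S', u ∉ derivedSeries (FF n) 2) ∧
      ∀ s ∈ S, ∃ u ∈ S', (QuotientGroup.mk u : G2 n) = s := by
  classical
  refine ⟨S.image Quotient.out, ?_, ?_⟩
  · intro u hu hu2
    obtain ⟨s, hs, rfl⟩ := Finset.mem_image.1 hu
    have h2 : (QuotientGroup.mk (Quotient.out s) : G2 n) = 1 := (QuotientGroup.eq_one_iff _).2 hu2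
    rw [QuotientGroup.out_eq'] at h2
    exact h1 (h2 ▸ hs)
  · intro s hs
    exact ⟨_, Finset.mem_image_of_mem _ hs, QuotientGroup.out_eq' s⟩

theorem sep_field (n : ℕ) (S : Finset (G2 n)) (h1 : (1 : G2 n) ∉ S) :
    ∃ (B t C : ℕ) (bad : Finset ℤ), 2 ≤ t ∧ (0 : ℤ) ∉ bad ∧
      ((t : ℤ) - 1) * t ^ B * C - ((t : ℤ) ^ B - 1) * t ∈ bad ∧ (t : ℤ) ∈ bad ∧
      ∀ (K : Type) [Field K], (∀ b ∈ bad, (b : K) ≠ 0) →
        ∃ ρ : G2 n →* Equiv.Perm K,
          (∀ i < n, ∀ z, ρ (x2 n i) z = (t : K) ^ (B ^ i) * z +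
            (t : K) ^ (B ^ i) * ((C : K) ^ i / (((t : K) - 1) * (t : K) ^ B * C - ((t : K) ^ B - 1) * t))) ∧
          ∀ s ∈ S, ρ s 0 ≠ 0 := by
  classical
  obtain ⟨S', hS', hS2⟩ := lift_set n S h1
  obtain ⟨B, t, C, N, ht, hN, hP, hδ⟩ := select n S' hS'
  refine ⟨B, t, C, insert (((t : ℤ) - 1) * t ^ B * C - ((t : ℤ) ^ B - 1) * t) (insert (t : ℤ)
    (S'.image fun u => ∑ i : Fin n, pT n B N (DD (commutator (FF n)) u i) t * (C : ℤ) ^ (i : ℕ))), ht, ?_, ?_, ?_, ?_⟩
  · intro h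
    rcases Finset.mem_insert.1 h with h | h
    · exact hδ h.symm
    · rcases Finset.mem_insert.1 h with h | h
      · have : (0 : ℤ) < t := by exact_mod_cast (by omega : 0 < t)
        omega
      · obtain ⟨u, hu, h⟩ := Finset.mem_image.1 h
        exact hP u hu h
  · exact Finset.mem_insert_self _ _
  · exact Finset.mem_insert_of_mem (Finset.mem_insert_self _ _)
  · intro K _ hK
    have hT : (t : K) ≠ 0 := by
      have := hK (t : ℤ) (Finset.mem_insert_of_mem (Finset.mem_insert_self _ _))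
      exact_mod_cast this
    have hd : (((t : K) - 1) * (t : K) ^ B * C - ((t : K) ^ B - 1) * t) ≠ 0 := by
      have := hK _ (Finset.mem_insert_self _ _)
      push_cast at this
      exact this
    refine ⟨act n B (t : K) hT (fun i => (C : K) ^ i / (((t : K) - 1) * (t : K) ^ B * C - ((t : K) ^ B - 1) * t)),
      fun i hi z => act_x2 n B (t : K) hT _ i hi z, ?_⟩
    intro s hs h0
    obtain ⟨u, hu, rfl⟩ := hS2 s hs
    have h2 := act_zero n B (t : K) hT
      (fun i => (C : K) ^ i / (((t : K) - 1) * (t : K) ^ B * C - ((t : K) ^ B - 1) * t)) u N t rfl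
      (((t : K) - 1) * (t : K) ^ B * C - ((t : K) ^ B - 1) * t) C (fun i => rfl) (fun i g hg => hN u hu i g hg)
    rw [h0, zero_mul, div_self hd, mul_one] at h2
    have h3 := hK (∑ i : Fin n, pT n B N (DD (commutator (FF n)) u i) t * (C : ℤ) ^ (i : ℕ))
      (Finset.mem_insert_of_mem (Finset.mem_insert_of_mem (Finset.mem_image_of_mem _ hu)))
    exact (mul_ne_zero (zpow_ne_zero _ hT) h3) h2.symm

end SepAux
open SepAux

/-- Affine actions on the rational line separate finite subsets of the free metabelian group. -/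
theorem sep_rat (n : ℕ) (hn : 2 ≤ n) (S : Finset (G2 n)) (h1 : (1 : G2 n) ∉ S) :
    ∃ (m β : ℕ → ℚ) (ρ : G2 n →* Equiv.Perm ℚ), (∀ i, 0 < m i) ∧
      (m 0 - 1) * β 1 - (m 1 - 1) * β 0 = 1 ∧
      (∀ i < n, ∀ z, ρ (x2 n i) z = m i * z + β i) ∧ (∀ s ∈ S, ρ s 0 ≠ 0) := by
  obtain ⟨B, t, C, bad, ht, h0, hδ, htb, h⟩ := sep_field n S h1
  have hbad : ∀ b ∈ bad, (b : ℚ) ≠ 0 := by
    intro b hb hb0
    have : b = 0 := by exact_mod_cast hb0
    exact h0 (this ▸ hb)
  obtain ⟨ρ, hρ, hS⟩ := h ℚ hbad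
  have hd := hbad _ hδ
  push_cast at hd
  refine ⟨fun i => (t : ℚ) ^ (B ^ i), fun i => (t : ℚ) ^ (B ^ i) * ((C : ℚ) ^ i /
    (((t : ℚ) - 1) * (t : ℚ) ^ B * C - ((t : ℚ) ^ B - 1) * t)), ρ, ?_, ?_, hρ, hS⟩
  · intro i
    have : (0 : ℚ) < t := by exact_mod_cast (by omega : 0 < t)
    positivity
  · simp only [pow_zero, pow_one]
    exact delta_aux _ _ _ hd

theorem lam_uniqueProds (n : ℕ) (hn : 2 ≤ n) : UniqueProds (G2 n) := by
  classical
  refine ⟨?_⟩
  intro A₀ B₀ hA hB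
  obtain ⟨m, β, ρ, hm, _, hρ, hS⟩ := sep_rat n hn
    (((B₀ ×ˢ B₀).image fun p => p.1⁻¹ * p.2).erase 1) (Finset.notMem_erase _ _)
  have hmono : ∀ g : G2 n, StrictMono (ρ g) := by
    have hgen : ∀ i : Fin n, StrictMono (ρ (QuotientGroup.mk (FreeGroup.of i))) := by
      intro i a b hab
      have h1 : (QuotientGroup.mk (FreeGroup.of i) : G2 n) = x2 n i := by
        unfold x2 xF
        rw [dif_pos i.2]
      rw [h1, hρ i i.2, hρ i i.2]
      have := mul_lt_mul_of_pos_left hab (hm i)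
      linarith
    intro g
    obtain ⟨u, rfl⟩ := QuotientGroup.mk_surjective g
    induction u using FreeGroup.induction_on with
    | C1 =>
      have : (QuotientGroup.mk (1 : FF n) : G2 n) = 1 := rfl
      rw [this, map_one]
      exact fun a b hab => hab
    | of i => exact hgen i
    | inv_of i ih =>
      have : (QuotientGroup.mk (FreeGroup.of i)⁻¹ : G2 n) = (QuotientGroup.mk (FreeGroup.of i))⁻¹ := rfl
      rw [this, map_inv]
      intro a b hab
      rw [← ih.lt_iff_lt]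
      simpa using hab
    | mul u v hu hv =>
      have : (QuotientGroup.mk (u * v) : G2 n) = QuotientGroup.mk u * QuotientGroup.mk v := rfl
      rw [this, map_mul]
      exact hu.comp hv
  have hB0 : ∀ b ∈ B₀, ∀ b' ∈ B₀, ρ b 0 = ρ b' 0 → b = b' := by
    intro b hb b' hb' heq
    by_contra hne
    have hmem : b⁻¹ * b' ∈ ((B₀ ×ˢ B₀).image fun p => p.1⁻¹ * p.2).erase 1 := by
      rw [Finset.mem_erase]
      refine ⟨fun h => hne (inv_mul_eq_one.1 h), ?_⟩
      exact Finset.mem_image.2 ⟨(b, b'), Finset.mem_product.2 ⟨hb, hb'⟩, rfl⟩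
    apply hS _ hmem
    rw [map_mul, map_inv, Equiv.Perm.mul_apply, ← heq]
    simp
  obtain ⟨b₁, hb₁, hb₁max⟩ := Finset.exists_max_image B₀ (fun b => ρ b 0) hB
  obtain ⟨a₁, ha₁, ha₁max⟩ := Finset.exists_max_image A₀ (fun a => ρ a (ρ b₁ 0)) hA
  refine ⟨a₁, ha₁, b₁, hb₁, ?_⟩
  intro a b ha hb hab
  have h1 : ρ a (ρ b 0) = ρ a₁ (ρ b₁ 0) := by
    rw [← Equiv.Perm.mul_apply, ← map_mul, hab, map_mul, Equiv.Perm.mul_apply]
  have h2 : ρ a (ρ b₁ 0) ≤ ρ a (ρ b 0) := by rw [h1]; exact ha₁max a ha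
  have h3 : ρ b₁ 0 ≤ ρ b 0 := (hmono a).le_iff_le.1 h2
  have h4 : b = b₁ := hB0 b hb b₁ hb₁ (le_antisymm (hb₁max b hb) h3)
  subst h4
  exact ⟨mul_right_cancel hab, rfl⟩

theorem lam_noZeroDivisors (n : ℕ) (hn : 2 ≤ n) : NoZeroDivisors (Lam n) := by
  have := lam_uniqueProds n hn
  exact inferInstance

theorem sep_mod (n : ℕ) (hn : 2 ≤ n) (S : Finset (G2 n)) (h1 : (1 : G2 n) ∉ S) :
    ∃ (θ : List ℕ) (ρ : G2 n →* Equiv.Perm (ZMod (qq θ))), Adm n θ ∧
      (∀ i < n, ∀ z, ρ (x2 n i) z = (mm θ i : ZMod (qq θ)) * z + (bb θ i : ZMod (qq θ))) ∧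
      (∀ s ∈ S, ρ s 0 ≠ 0) := by
  obtain ⟨B, t, C, bad, ht, h0, hδ, htb, h⟩ := sep_field n S h1
  -- a large prime
  obtain ⟨M, hM⟩ : ∃ M : ℕ, ∀ b ∈ bad, b.natAbs < M := by
    refine ⟨(bad.sup Int.natAbs) + 1, fun b hb => Nat.lt_succ_of_le (Finset.le_sup (f := Int.natAbs) hb)⟩
  obtain ⟨q, hqM, hq⟩ := Nat.exists_infinite_primes M
  have : Fact q.Prime := ⟨hq⟩
  have hbad : ∀ b ∈ bad, (b : ZMod q) ≠ 0 := by
    intro b hb hb0
    rw [ZMod.intCast_zmod_eq_zero_iff_dvd] at hb0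
    have h2 := Int.natAbs_dvd_natAbs.2 hb0
    rw [Int.natAbs_natCast] at h2
    have h3 : b.natAbs ≠ 0 := by
      intro h4
      exact h0 ((Int.natAbs_eq_zero.1 h4) ▸ hb)
    have h4 := Nat.le_of_dvd (Nat.pos_of_ne_zero h3) h2
    have h5 := hM b hb
    omega
  obtain ⟨ρ, hρ, hS⟩ := h (ZMod q) hbad
  have hd := hbad _ hδ
  have htne := hbad _ htb
  push_cast at hd htne
  let m : ℕ → ZMod q := fun i => (t : ZMod q) ^ (B ^ i)
  let be : ℕ → ZMod q := fun i => (t : ZMod q) ^ (B ^ i) * ((C : ZMod q) ^ i /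
    (((t : ZMod q) - 1) * (t : ZMod q) ^ B * C - ((t : ZMod q) ^ B - 1) * t))
  have hm : ∀ i, m i ≠ 0 := fun i => pow_ne_zero _ htne
  have hδ1 : (m 0 - 1) * be 1 - (m 1 - 1) * be 0 = 1 := by
    simp only [m, be, pow_zero, pow_one]
    exact delta_aux _ _ _ hd
  let f : ℕ → ℕ := fun k =>
    if k % 4 = 0 then (m (k / 4)).val else if k % 4 = 1 then (be (k / 4)).val
      else if k % 4 = 2 then ((m (k / 4))⁻¹).val else (-((m (k / 4))⁻¹ * be (k / 4))).val
  let θ : List ℕ := q :: (List.range (4 * n)).map f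
  have hθ : ∀ k < 4 * n, θ.getD (k + 1) 0 = f k := by
    intro k hk
    simp [θ, List.getD, hk]
  have hqq : qq θ = q := rfl
  have hmm : ∀ i < n, mm θ i = (m i).val := by
    intro i hi
    have h2 := hθ (4 * i) (by omega)
    have e1 : (4 * i) % 4 = 0 := by omega
    have e2 : (4 * i) / 4 = i := by omega
    simp only [f, e1, e2, if_true] at h2
    unfold mm
    rw [add_comm]
    exact h2
  have hbb : ∀ i < n, bb θ i = (be i).val := by
    intro i hi
    have h2 := hθ (4 * i + 1) (by omega)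
    have e1 : (4 * i + 1) % 4 = 1 := by omega
    have e2 : (4 * i + 1) / 4 = i := by omega
    simp only [f, e1, e2] at h2
    unfold bb
    rw [show 2 + 4 * i = 4 * i + 1 + 1 by ring]
    simpa using h2
  have hmm' : ∀ i < n, mm' θ i = ((m i)⁻¹).val := by
    intro i hi
    have h2 := hθ (4 * i + 2) (by omega)
    have e1 : (4 * i + 2) % 4 = 2 := by omega
    have e2 : (4 * i + 2) / 4 = i := by omega
    simp only [f, e1, e2] at h2
    unfold mm'
    rw [show 3 + 4 * i = 4 * i + 2 + 1 by ring]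
    simpa using h2
  have hbb' : ∀ i < n, bb' θ i = (-((m i)⁻¹ * be i)).val := by
    intro i hi
    have h2 := hθ (4 * i + 3) (by omega)
    have e1 : (4 * i + 3) % 4 = 3 := by omega
    have e2 : (4 * i + 3) / 4 = i := by omega
    simp only [f, e1, e2] at h2
    unfold bb'
    rw [show 4 + 4 * i = 4 * i + 3 + 1 by ring]
    simpa using h2
  refine ⟨θ, ρ, ⟨?_, ?_, ?_⟩, ?_, hS⟩
  · exact hq.pos
  · intro i hi
    rw [hmm i hi, hmm' i hi, hbb i hi, hbb' i hi]
    constructor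
    · have : ((m i).val * ((m i)⁻¹).val ≡ 1 [MOD q]) := by
        rw [← ZMod.natCast_eq_natCast_iff]
        push_cast
        rw [ZMod.natCast_zmod_val, ZMod.natCast_zmod_val, mul_inv_cancel₀ (hm i)]
      exact this
    · have : ((m i).val * (-((m i)⁻¹ * be i)).val + (be i).val ≡ 0 [MOD q]) := by
        rw [← ZMod.natCast_eq_natCast_iff]
        push_cast
        rw [ZMod.natCast_zmod_val, ZMod.natCast_zmod_val, ZMod.natCast_zmod_val]
        have := mul_inv_cancel₀ (hm i)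
        linear_combination (- be i) * this
      exact this
  · rw [hmm 0 (by omega), hbb 1 (by omega), hbb 0 (by omega), hmm 1 (by omega)]
    have : ((m 0).val * (be 1).val + (be 0).val ≡ (m 1).val * (be 0).val + (be 1).val + 1 [MOD q]) := by
      rw [← ZMod.natCast_eq_natCast_iff]
      push_cast
      rw [ZMod.natCast_zmod_val, ZMod.natCast_zmod_val, ZMod.natCast_zmod_val, ZMod.natCast_zmod_val]
      linear_combination hδ1
    exact this
  · intro i hi z
    rw [hmm i hi, hbb i hi]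
    have h3 := hρ i hi z
    have e1 : (((m i).val : ℕ) : ZMod q) = m i := ZMod.natCast_zmod_val _
    have e2 : (((be i).val : ℕ) : ZMod q) = be i := ZMod.natCast_zmod_val _
    refine h3.trans ?_
    have h4 : (m i : ZMod q) * (show ZMod q from z) + be i =
      (((m i).val : ℕ) : ZMod q) * (show ZMod q from z) + (((be i).val : ℕ) : ZMod q) := by
      rw [e1, e2]
    exact h4

end Pool.Agent.Lib.MP_21db1f_lc
end

section

set_option autoImplicit false

namespace Pool.Agent.Lib.MP_21db1f_lc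

namespace Affine

/-- the affine permutation `z ↦ u z + b` of `ℤ/q` -/
def aff (q : ℕ) (u : (ZMod q)ˣ) (b : ZMod q) : Equiv.Perm (ZMod q) where
  toFun z := u * z + b
  invFun z := (u⁻¹ : (ZMod q)ˣ) * (z - b)
  left_inv z := by simp
  right_inv z := by simp

theorem aff_apply (q : ℕ) (u : (ZMod q)ˣ) (b z : ZMod q) : aff q u b z = u * z + b := rfl

/-- A homomorphism to the permutations of a commutative ring by affine maps kills the second
derived subgroup. -/
theorem kills_second {F R : Type*} [Group F] [CommRing R] (m : F →* Rˣ) (ρ : F →* Equiv.Perm R)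
    (h : ∀ g z, ρ g z = (m g : R) * z + ρ g 0) : derivedSeries F 2 ≤ ρ.ker := by
  have h1 : derivedSeries F 1 ≤ m.ker := by
    rw [derivedSeries_one]
    exact Abelianization.commutator_subset_ker m
  have h2 : ∀ g ∈ derivedSeries F 1, ∀ z, ρ g z = z + ρ g 0 := by
    intro g hg z
    rw [h g z, (h1 hg : m g = 1)]
    simp
  rw [derivedSeries_succ, Subgroup.commutator_le]
  intro a ha b hb
  rw [MonoidHom.mem_ker, map_commutatorElement, commutatorElement_eq_one_iff_mul_comm]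
  ext z
  rw [Equiv.Perm.mul_apply, Equiv.Perm.mul_apply, h2 a ha (ρ b z), h2 b hb z, h2 b hb (ρ a z),
    h2 a ha z]
  ring

end Affine

open scoped commutatorElement
open Pool.Agent.Lib.MP_21db1f_lc.Affine

theorem exists_affine_mod (n : ℕ) (θ : List ℕ) (hθ : Adm n θ) :
    ∃ ρ : G2 n →* Equiv.Perm (ZMod (qq θ)),
      ∀ i < n, ∀ z, ρ (x2 n i) z = (mm θ i : ZMod (qq θ)) * z + (bb θ i : ZMod (qq θ)) := by
  obtain ⟨hq, hinv, hc⟩ := hθ
  have hu : ∀ i : Fin n, (mm θ i : ZMod (qq θ)) * (mm' θ i : ZMod (qq θ)) = 1 := by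
    intro i
    have := (ZMod.natCast_eq_natCast_iff _ _ _).2 (hinv i i.2).1
    push_cast at this
    exact this
  let u : Fin n → (ZMod (qq θ))ˣ := fun i =>
    ⟨(mm θ i : ZMod (qq θ)), (mm' θ i : ZMod (qq θ)), hu i, by rw [mul_comm]; exact hu i⟩
  let ρ₀ : FF n →* Equiv.Perm (ZMod (qq θ)) :=
    FreeGroup.lift (fun i => aff (qq θ) (u i) (bb θ i : ZMod (qq θ)))
  let m : FF n →* (ZMod (qq θ))ˣ := FreeGroup.lift u
  have hinvaff : ∀ i : Fin n, ∀ z, (ρ₀ (FreeGroup.of i))⁻¹ z =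
      ((u i)⁻¹ : (ZMod (qq θ))ˣ) * z + (ρ₀ (FreeGroup.of i))⁻¹ 0 := by
    intro i z
    have h1 : ρ₀ (FreeGroup.of i) = aff (qq θ) (u i) (bb θ i : ZMod (qq θ)) :=
      FreeGroup.lift_apply_of
    rw [h1]
    show ((u i)⁻¹ : (ZMod (qq θ))ˣ) * (z - _) = ((u i)⁻¹ : (ZMod (qq θ))ˣ) * z +
      ((u i)⁻¹ : (ZMod (qq θ))ˣ) * (0 - _)
    ring
  have haff : ∀ g z, ρ₀ g z = (m g : ZMod (qq θ)) * z + ρ₀ g 0 := by
    intro g
    induction g using FreeGroup.induction_on with
    | C1 => intro z; simp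
    | of i =>
      intro z
      have h1 : ρ₀ (FreeGroup.of i) = aff (qq θ) (u i) (bb θ i : ZMod (qq θ)) :=
        FreeGroup.lift_apply_of
      have h2 : m (FreeGroup.of i) = u i := FreeGroup.lift_apply_of
      rw [h1, h2, aff_apply, aff_apply]
      ring
    | inv_of i _ =>
      intro z
      have h2 : m (FreeGroup.of i) = u i := FreeGroup.lift_apply_of
      rw [map_inv, map_inv, h2]
      exact hinvaff i z
    | mul a b ha hb =>
      intro z
      rw [map_mul, map_mul, Equiv.Perm.mul_apply, Equiv.Perm.mul_apply, ha (ρ₀ b z), hb z,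
        ha (ρ₀ b 0), Units.val_mul]
      ring
  have hk := kills_second m ρ₀ haff
  refine ⟨QuotientGroup.lift _ ρ₀ (fun g hg => hk hg), ?_⟩
  intro i hi z
  have h1 : (QuotientGroup.lift (derivedSeries (FF n) 2) ρ₀ (fun g hg => hk hg)) (x2 n i) =
      ρ₀ (FreeGroup.of ⟨i, hi⟩) := by
    unfold x2 xF
    rw [dif_pos hi]
    rfl
  rw [h1]
  have h2 : ρ₀ (FreeGroup.of ⟨i, hi⟩) = aff (qq θ) (u ⟨i, hi⟩) (bb θ i : ZMod (qq θ)) :=
    FreeGroup.lift_apply_of
  rw [h2, aff_apply]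

/-- one letter -/
theorem coset_step {Γ : Type} [Group Γ]
    (hab : ∀ a ∈ commutator Γ, ∀ b ∈ commutator Γ, a * b = b * a)
    (n : ℕ) (x : ℕ → Γ) (θ : List ℕ) (hθ : Adm n θ) (i : ℕ) (hi : i < n) (k : ℤ) :
    ∃ t ∈ Subgroup.closure (gens n x θ),
      x i * cc x ^ k = cc x ^ ((mm θ i : ℤ) * k + (bb θ i : ℤ)) * t := by
  set T := Subgroup.closure (gens n x θ) with hT
  set c := cc x with hc
  set X := x i * c * (x i)⁻¹ with hX
  have hcmem : c ∈ commutator Γ := by
    have : c = ⁅x 0, x 1⁆ := rfl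
    rw [this]
    exact Subgroup.commutator_mem_commutator (Subgroup.mem_top _) (Subgroup.mem_top _)
  have hXmem : X ∈ commutator Γ := (inferInstance : (commutator Γ).Normal).conj_mem c hcmem (x i)
  have hcomm : Commute c X := hab c hcmem X hXmem
  have hti : (c ^ bb θ i)⁻¹ * x i ∈ T :=
    Subgroup.subset_closure (Or.inl (Or.inl ⟨i, hi, rfl⟩))
  have hui : (x i)⁻¹ * c * x i * (c ^ mm' θ i)⁻¹ ∈ T :=
    Subgroup.subset_closure (Or.inl (Or.inr ⟨i, hi, rfl⟩))
  have hq : c ^ qq θ ∈ T := Subgroup.subset_closure (Or.inr rfl)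
  -- the powers of `X`
  have hXz : ∀ j : ℤ, X ^ j = x i * c ^ j * (x i)⁻¹ := by
    intro j
    rw [hX, conj_zpow]
  -- `c X^{-m'} ∈ T`
  have h1 : c * X ^ (-(mm' θ i : ℤ)) ∈ T := by
    have h := T.mul_mem (T.mul_mem hti hui) (T.inv_mem hti)
    have h2 : (c ^ bb θ i)⁻¹ * x i * ((x i)⁻¹ * c * x i * (c ^ mm' θ i)⁻¹) *
        ((c ^ bb θ i)⁻¹ * x i)⁻¹ = (c ^ bb θ i)⁻¹ * (c * X ^ (-(mm' θ i : ℤ))) * c ^ bb θ i := by
      rw [hXz, zpow_neg, zpow_natCast]
      group
    rw [h2] at h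
    have h3 : (c ^ bb θ i)⁻¹ * (c * X ^ (-(mm' θ i : ℤ))) * c ^ bb θ i =
        c * X ^ (-(mm' θ i : ℤ)) := by
      have h4 : Commute (c ^ bb θ i) (c * X ^ (-(mm' θ i : ℤ))) :=
        (((Commute.refl c).pow_left _).mul_right ((hcomm.zpow_right _).pow_left _))
      rw [mul_assoc, ← h4.eq, inv_mul_cancel_left]
    rwa [h3] at h
  -- `X^q ∈ T`
  have h2 : X ^ (qq θ : ℤ) ∈ T := by
    have h := T.mul_mem (T.mul_mem hti hq) (T.inv_mem hti)
    have h2 : (c ^ bb θ i)⁻¹ * x i * c ^ qq θ *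
        ((c ^ bb θ i)⁻¹ * x i)⁻¹ = (c ^ bb θ i)⁻¹ * (X ^ (qq θ : ℤ)) * c ^ bb θ i := by
      rw [hXz, zpow_natCast]
      group
    rw [h2] at h
    have h3 : (c ^ bb θ i)⁻¹ * (X ^ (qq θ : ℤ)) * c ^ bb θ i = X ^ (qq θ : ℤ) := by
      have h4 : Commute (c ^ bb θ i) (X ^ (qq θ : ℤ)) := ((hcomm.zpow_right _).pow_left _)
      rw [mul_assoc, ← h4.eq, inv_mul_cancel_left]
    rwa [h3] at h
  -- `c^m X⁻¹ ∈ T`
  obtain ⟨l, hl⟩ : ∃ l : ℤ, (mm θ i : ℤ) * mm' θ i = 1 + qq θ * l := by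
    have h := (hθ.2.1 i hi).1
    rw [← Int.natCast_modEq_iff] at h
    have := h.symm.dvd
    obtain ⟨l, hl⟩ := this
    refine ⟨l, ?_⟩
    push_cast at hl
    linarith
  have h3 : c ^ (mm θ i : ℤ) * X ^ (-1 : ℤ) ∈ T := by
    have h := T.mul_mem (T.zpow_mem h1 (mm θ i)) (T.zpow_mem h2 l)
    have h4 : (c * X ^ (-(mm' θ i : ℤ))) ^ (mm θ i : ℤ) * (X ^ (qq θ : ℤ)) ^ l =
        c ^ (mm θ i : ℤ) * X ^ (-1 : ℤ) := by
      rw [(hcomm.zpow_right _).mul_zpow, ← zpow_mul, ← zpow_mul, mul_assoc, ← zpow_add]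
      congr 2
      linarith
    rwa [h4] at h
  -- conclusion
  refine ⟨(c ^ (mm θ i : ℤ) * X ^ (-1 : ℤ)) ^ (-k) * ((c ^ bb θ i)⁻¹ * x i),
    T.mul_mem (T.zpow_mem h3 _) hti, ?_⟩
  have h5 : x i * c ^ k = X ^ k * x i := by
    rw [hXz]
    group
  rw [h5, ((hcomm.zpow_left _).zpow_right _).mul_zpow, ← zpow_mul, ← zpow_mul]
  have h6 : c ^ ((mm θ i : ℤ) * k + (bb θ i : ℤ)) *
      (c ^ ((mm θ i : ℤ) * -k) * X ^ ((-1 : ℤ) * -k) * ((c ^ bb θ i)⁻¹ * x i)) =
      (c ^ ((mm θ i : ℤ) * k + (bb θ i : ℤ)) * c ^ ((mm θ i : ℤ) * -k)) * X ^ k *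
        (c ^ (-(bb θ i : ℤ))) * x i := by
    rw [show ((-1 : ℤ) * -k) = k by ring, zpow_neg c, zpow_natCast]
    simp only [mul_assoc]
  rw [h6, ← zpow_add, show (mm θ i : ℤ) * k + (bb θ i : ℤ) + (mm θ i : ℤ) * -k = (bb θ i : ℤ) by ring,
    ((hcomm.zpow_left _).zpow_right _).eq, mul_assoc (X ^ k), ← zpow_add, add_neg_cancel, zpow_zero,
    mul_one]

theorem coset_lemma {Γ : Type} [Group Γ]
    (hab : ∀ a ∈ commutator Γ, ∀ b ∈ commutator Γ, a * b = b * a)
    (n : ℕ) (hn : 2 ≤ n) (x : ℕ → Γ) (θ : List ℕ) (hθ : Adm n θ) (w : List ℕ) :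
    ∃ t ∈ Subgroup.closure (gens n x θ), evalW n x w = cc x ^ kval n θ w * t := by
  set T := Subgroup.closure (gens n x θ) with hT
  have hq : cc x ^ (qq θ : ℤ) ∈ T := by
    rw [zpow_natCast]
    exact Subgroup.subset_closure (Or.inr rfl)
  -- changing exponents modulo `q`
  have hmod : ∀ a b : ℤ, a ≡ b [ZMOD qq θ] → ∃ t ∈ T, cc x ^ a = cc x ^ b * t := by
    intro a b hab'
    obtain ⟨l, hl⟩ := hab'.symm.dvd
    refine ⟨(cc x ^ (qq θ : ℤ)) ^ l, T.zpow_mem hq l, ?_⟩
    rw [← zpow_mul, ← zpow_add]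
    congr 1
    linarith
  induction w with
  | nil => exact ⟨1, T.one_mem, by simp [evalW, kval]⟩
  | cons l w ih =>
    obtain ⟨t, ht, hw⟩ := ih
    have hk : kval n θ (l :: w) = step n θ l (kval n θ w) := rfl
    have he : evalW n x (l :: w) = letter n x l * evalW n x w := by
      simp [evalW]
    rw [he, hw, hk]
    set k := kval n θ w with hkdef
    have hr : l % (2 * n) < 2 * n := Nat.mod_lt _ (by omega)
    set r := l % (2 * n) with hrdef
    by_cases hpar : r % 2 = 0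
    · -- positive letter
      obtain ⟨i, hi⟩ : ∃ i, r = 2 * i := ⟨r / 2, by omega⟩
      have hin : i < n := by omega
      have hlet : letter n x l = x i := by
        unfold letter
        rw [← hrdef, if_pos hpar]
        congr 1
        omega
      have hstep : step n θ l k = (mm θ i * k + bb θ i) % qq θ := by
        unfold step mm bb qq
        rw [← hrdef, hi, show 1 + 2 * (2 * i) = 1 + 4 * i by ring,
          show 2 + 2 * (2 * i) = 2 + 4 * i by ring]
      obtain ⟨t₁, ht₁, h₁⟩ := coset_step hab n x θ hθ i hin k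
      obtain ⟨t₂, ht₂, h₂⟩ := hmod ((mm θ i : ℤ) * k + (bb θ i : ℤ))
        (((mm θ i * k + bb θ i) % qq θ : ℕ) : ℤ) (by
          push_cast
          exact (Int.mod_modEq _ _).symm)
      refine ⟨t₂ * t₁ * t, T.mul_mem (T.mul_mem ht₂ ht₁) ht, ?_⟩
      rw [hlet, ← mul_assoc, ← zpow_natCast (cc x) k, h₁, h₂, hstep, zpow_natCast]
      simp only [mul_assoc]
    · -- inverse letter
      obtain ⟨i, hi⟩ : ∃ i, r = 2 * i + 1 := ⟨r / 2, by omega⟩
      have hin : i < n := by omega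
      have hlet : letter n x l = (x i)⁻¹ := by
        unfold letter
        rw [← hrdef, if_neg hpar]
        congr 2
        omega
      have hstep : step n θ l k = (mm' θ i * k + bb' θ i) % qq θ := by
        unfold step mm' bb' qq
        rw [← hrdef, hi, show 1 + 2 * (2 * i + 1) = 3 + 4 * i by ring,
          show 2 + 2 * (2 * i + 1) = 4 + 4 * i by ring]
      set k' := (mm' θ i * k + bb' θ i) % qq θ with hk'
      obtain ⟨t₁, ht₁, h₁⟩ := coset_step hab n x θ hθ i hin k'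
      have hcong : ((mm θ i : ℤ) * (k' : ℤ) + (bb θ i : ℤ)) ≡ (k : ℤ) [ZMOD qq θ] := by
        have e1 : (k' : ℤ) ≡ (mm' θ i : ℤ) * k + bb' θ i [ZMOD qq θ] := by
          rw [hk']
          push_cast
          exact Int.mod_modEq _ _
        have e2 : (mm θ i : ℤ) * mm' θ i ≡ 1 [ZMOD qq θ] := by
          have h := (hθ.2.1 i hin).1
          rw [← Int.natCast_modEq_iff] at h
          push_cast at h
          exact h
        have e3 : (mm θ i : ℤ) * bb' θ i + bb θ i ≡ 0 [ZMOD qq θ] := by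
          have h := (hθ.2.1 i hin).2
          rw [← Int.natCast_modEq_iff] at h
          push_cast at h
          exact h
        calc ((mm θ i : ℤ) * (k' : ℤ) + (bb θ i : ℤ))
            ≡ (mm θ i : ℤ) * ((mm' θ i : ℤ) * k + bb' θ i) + bb θ i [ZMOD qq θ] :=
              (e1.mul_left _).add_right _
          _ = ((mm θ i : ℤ) * mm' θ i) * k + ((mm θ i : ℤ) * bb' θ i + bb θ i) := by ring
          _ ≡ 1 * k + 0 [ZMOD qq θ] := (e2.mul_right _).add e3
          _ = k := by ring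
      obtain ⟨t₂, ht₂, h₂⟩ := hmod _ _ hcong
      refine ⟨(t₂ * t₁)⁻¹ * t, T.mul_mem (T.inv_mem (T.mul_mem ht₂ ht₁)) ht, ?_⟩
      rw [hlet, hstep]
      have h3 : x i * cc x ^ (k' : ℤ) = cc x ^ (k : ℤ) * (t₂ * t₁) := by
        rw [h₁, h₂, mul_assoc]
      have h4 : cc x ^ (k : ℤ) = x i * cc x ^ (k' : ℤ) * (t₂ * t₁)⁻¹ := by
        rw [h3]; group
      rw [← zpow_natCast (cc x) k, ← zpow_natCast (cc x) k', h4]
      group

theorem stab_gens (n : ℕ) (hn : 2 ≤ n) (θ : List ℕ) (hθ : Adm n θ)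
    (ρ : G2 n →* Equiv.Perm (ZMod (qq θ)))
    (hρ : ∀ i < n, ∀ z, ρ (x2 n i) z = (mm θ i : ZMod (qq θ)) * z + (bb θ i : ZMod (qq θ))) :
    (∀ z, ρ (cc (x2 n)) z = z + 1) ∧ ∀ t ∈ Subgroup.closure (gens n (x2 n) θ), ρ t 0 = 0 := by
  have hc : ∀ z, ρ (cc (x2 n)) z = z + 1 := by
    intro z
    have hadm : (mm θ 0 : ZMod (qq θ)) * bb θ 1 + bb θ 0 = mm θ 1 * bb θ 0 + bb θ 1 + 1 := by
      have := (ZMod.natCast_eq_natCast_iff _ _ _).2 hθ.2.2
      push_cast at this
      exact this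
    unfold cc
    rw [map_mul, map_mul, map_mul, map_inv, map_inv, Equiv.Perm.mul_apply, Equiv.Perm.mul_apply,
      Equiv.Perm.mul_apply]
    set y := (ρ (x2 n 0))⁻¹ ((ρ (x2 n 1))⁻¹ z) with hy
    have hz : z = ρ (x2 n 1) (ρ (x2 n 0) y) := by
      rw [hy]
      exact ((Equiv.apply_symm_apply (ρ (x2 n 1)) z).symm.trans
        (congrArg (ρ (x2 n 1)) (Equiv.apply_symm_apply (ρ (x2 n 0)) _).symm))
    rw [hz, hρ 0 (by omega), hρ 1 (by omega), hρ 1 (by omega), hρ 0 (by omega)]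
    linear_combination hadm
  refine ⟨hc, ?_⟩
  have hcn : ∀ (k : ℕ) z, ρ (cc (x2 n) ^ k) z = z + k := by
    intro k
    induction k with
    | zero => intro z; simp
    | succ k ih =>
      intro z
      rw [pow_succ, map_mul, Equiv.Perm.mul_apply, hc, ih]
      push_cast
      ring
  have hcinv : ∀ (k : ℕ) z, ρ ((cc (x2 n) ^ k)⁻¹) z = z - k := by
    intro k z
    rw [map_inv, Equiv.Perm.inv_eq_iff_eq, hcn]
    ring
  intro t ht
  induction ht using Subgroup.closure_induction with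
  | mem t ht =>
    rcases ht with (⟨i, hi, rfl⟩ | ⟨i, hi, rfl⟩) | h
    · rw [map_mul, Equiv.Perm.mul_apply, hρ i hi, hcinv]
      ring
    · have hm : (mm θ i : ZMod (qq θ)) * (mm' θ i : ZMod (qq θ)) = 1 := by
        have := (ZMod.natCast_eq_natCast_iff _ _ _).2 (hθ.2.1 i hi).1
        push_cast at this
        exact this
      rw [map_mul, map_mul, map_mul, Equiv.Perm.mul_apply, Equiv.Perm.mul_apply,
        Equiv.Perm.mul_apply, hcinv, hρ i hi, hc, map_inv, Equiv.Perm.inv_eq_iff_eq, hρ i hi]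
      linear_combination -hm
    · rw [Set.mem_singleton_iff] at h
      rw [h, hcn]
      simp
  | one => simp
  | mul a b _ _ ha hb => rw [map_mul, Equiv.Perm.mul_apply, hb, ha]
  | inv a _ ha => rw [map_inv, Equiv.Perm.inv_eq_iff_eq, ha]

end Pool.Agent.Lib.MP_21db1f_lc
end
end
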