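import Pool.Agent.Lib.MP_21db1f_lc.Magnus
import Pool.Agent.Lib.MP_21db1f_lc.Affine

/-!
The axioms (formula level) and their definability.
-/

set_option autoImplicit false

namespace Pool.Agent.Lib.MP_21db1f_lc
set_option linter.all false

/-! ## Codes -/

def dl : ℕ → List ℕ := Denumerable.ofNat (List ℕ)
def dr : ℕ → RCode := Denumerable.ofNat RCode
def ds (i k : ℕ) : RCode := dr ((dl k).getD i 0)

/-- `A` expresses `(e 3, e 4) = Val(F (e 0), θ = e 1, j = e 2)`. -/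
def IsVal (n : ℕ) (F : ℕ → RCode) (A : AF) : Prop :=
  ∀ e, A.holds e ↔ e 3 = pval n (dl (e 1)) (e 2) (F (e 0)).1 ∧ e 4 = pval n (dl (e 1)) (e 2) (F (e 0)).2

/-- The arithmetical formulas used. -/
structure AData (n : ℕ) where
  adm : AF
  h_adm : ∀ e, adm.holds e ↔ Adm n (dl (e 0))
  get : ℕ → AF
  h_get : ∀ k e, (get k).holds e ↔ e 1 = (dl (e 0)).getD k 0
  word : AF
  h_word : IsVal n (fun w => ([dl w], [])) word
  ring : AF
  h_ring : IsVal n dr ring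
  foxY : ℕ → AF
  h_foxY : ∀ i, IsVal n (fun w => (foxPos n i (yW n (dl w)), foxNeg n i (yW n (dl w)))) (foxY i)
  const : ℕ → AF
  h_const : ∀ i, IsVal n (fun _ => (foxPos n i (zW n i), foxNeg n i (zW n i))) (const i)
  gets : ℕ → AF
  h_gets : ∀ i, IsVal n (ds i) (gets i)
  len : AF
  h_len : ∀ e, len.holds e ↔ (dl (e 0)).length ≤ e 1
  ext : ℕ → AF
  h_ext : ∀ l e, (ext l).holds e ↔ ∃ l', l' % (2 * n) = l ∧ dl (e 1) = dl (e 0) ++ [l']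
  triv : AF
  h_triv : ∀ e, triv.holds e ↔ ∀ i < n, ∀ θ, Adm n θ → ∀ j : ℕ,
      pval n θ j (foxPos n i (dl (e 0))) = pval n θ j (foxNeg n i (dl (e 0)))

/-! ## Formula-level relations -/

section
variable {H : Type} [Group H]

def env (l : List H) : ℕ → H := l.foldr cons (fun _ => 1)

def InDr {n : ℕ} (D : AData n) (x : ℕ → H) (θ : H) : ℕ → H → Prop
  | 0, b => ∃ κ, NN (cc x) κ ∧ (D.get 0).interp (cc x) (env [θ, κ]) ∧ InT κ b
  | i + 1, b => ∃ κ l b1 b2, NN (cc x) κ ∧ NN (cc x) l ∧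
      (D.get (2 + 4 * i)).interp (cc x) (env [θ, κ]) ∧
      (D.get (3 + 4 * i)).interp (cc x) (env [θ, l]) ∧
      InT (κ⁻¹ * x i) b1 ∧ InT ((x i)⁻¹ * cc x * x i * l⁻¹) b2 ∧ InDr D x θ i (b * (b1 * b2)⁻¹)

/-- the action relation given by the arithmetical formula `A` -/
def ActR {n : ℕ} (D : AData n) (x : ℕ → H) (A : AF) (a w b : H) : Prop :=
  InM b ∧ ∀ θ, NN (cc x) θ → D.adm.interp (cc x) (env [θ]) → ∃ e, InM e ∧
    (∀ j, NN (cc x) j → ∃ p p', NN (cc x) p ∧ NN (cc x) p' ∧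
      A.interp (cc x) (env [w, θ, j, p, p']) ∧
      ∃ v α α' ν, InM v ∧ Sc (cc x) p a α ∧ Sc (cc x) p' a α' ∧ Sc (cc x) j v ν ∧
        e * α' * α⁻¹ = cj (cc x) v * ν⁻¹) ∧
    InDr D x θ n (b * e⁻¹)

def SpanR {n : ℕ} (D : AData n) (x : ℕ → H) (s : H) : ℕ → H → Prop
  | 0, Y => Y = 1
  | i + 1, Y => ∃ b, ActR D x (D.gets (i + 1)) (zz n x (i + 1)) s b ∧ SpanR D x s i (Y * b⁻¹)

/-- the evaluation relation -/
def EVr {n : ℕ} (D : AData n) (x : ℕ → H) (w g : H) : Prop :=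
  (∀ a, InM a → ActR D x D.word a w (cj g a)) ∧
  ∃ r s, NN (cc x) r ∧ NN (cc x) s ∧ ¬ ActR D x D.ring (zz n x 1) r 1 ∧
    (∃ Y, ActR D x D.ring (yy x g) r Y ∧ SpanR D x s (n - 1) Y) ∧
    ∀ i, i < n → (1 ≤ i → ∀ a, InM a → ∃ a1 a2 a3,
      ActR D x (D.foxY i) a w a1 ∧ ActR D x D.ring a1 r a2 ∧
      ActR D x (D.const i) a 1 a3 ∧ ActR D x (D.gets i) a3 s a2)

/-- balls -/
def BR {n : ℕ} (D : AData n) (x : ℕ → H) (κ h : H) : Prop :=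
  ∃ w, NN (cc x) w ∧ D.len.interp (cc x) (env [w, κ]) ∧ EVr D x w h

/-- The axioms on the generators `x`. -/
structure Ax {n : ℕ} (D : AData n) (x : ℕ → H) : Prop where
  n1 : NN (cc x) 1
  nc : ∀ κ, NN (cc x) κ → NN (cc x) (κ * cc x)
  nadd : ∀ κ l, NN (cc x) κ → NN (cc x) l → NN (cc x) (κ * l) ∧ κ * l = l * κ
  pred : ∀ κ, NN (cc x) κ → κ = 1 ∨ ∃ l, NN (cc x) l ∧ κ = l * cc x
  ne : ∀ κ, NN (cc x) κ → κ * cc x ≠ 1
  mulex : ∀ κ l, NN (cc x) κ → NN (cc x) l → ∃ p, NN (cc x) p ∧ MulR (cc x) κ l p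
  muluniq : ∀ κ l p p', NN (cc x) κ → NN (cc x) l → NN (cc x) p → NN (cc x) p' →
    MulR (cc x) κ l p → MulR (cc x) κ l p' → p = p'
  mul0 : ∀ κ, NN (cc x) κ → MulR (cc x) κ 1 1
  mulS : ∀ κ l p, NN (cc x) κ → NN (cc x) l → NN (cc x) p →
    MulR (cc x) κ l p → MulR (cc x) κ (l * cc x) (p * κ)
  b0 : BR D x 1 1
  b1 : ∀ κ l h h', NN (cc x) κ → NN (cc x) l → BR D x κ h → BR D x l h' → BR D x (κ * l) (h * h')
  bmon : ∀ κ l h, NN (cc x) κ → NN (cc x) l → BR D x κ h → BR D x (κ * l) h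
  bsurj : ∀ h, ∃ κ, NN (cc x) κ ∧ BR D x κ h
  bnot : ∀ κ, NN (cc x) κ → ∃ h, ¬ BR D x κ h
  e1 : ∀ w g g', NN (cc x) w → EVr D x w g → EVr D x w g' → g = g'
  e2 : EVr D x 1 1
  e3 : ∀ l, l < 2 * n → ∀ w w' g, NN (cc x) w → NN (cc x) w' → (D.ext l).interp (cc x) (env [w, w']) →
    EVr D x w g → EVr D x w' (g * letter n x l)
  e4 : ∀ g, ∃ w, NN (cc x) w ∧ EVr D x w g
  e5 : ∀ w, NN (cc x) w → (EVr D x w 1 ↔ D.triv.interp (cc x) (env [w]))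

end

end Pool.Agent.Lib.MP_21db1f_lc
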