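import Mathlib
import Pool.Agent.Lib.MP_21db1f_lc.Defs
import Pool.Agent.Lib.MP_21db1f_lc.Axioms

section

/-!
# Recursively enumerable relations are definable in arithmetic

Port of `Pool/Agent/Lib/MP_3ad381_lc/Arith.lean` to the formulas `AF`.
-/

set_option autoImplicit false

namespace Pool.Agent.Lib.MP_21db1f_lc

/-! ### Renaming variables -/

/-- A renaming under a quantifier. -/
def liftR (ρ : ℕ → ℕ) : ℕ → ℕ
  | 0 => 0
  | n + 1 => ρ n + 1

/-- Rename the free variables of a formula. -/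
def AF.ren : (ℕ → ℕ) → AF → AF
  | ρ, .eq i j => .eq (ρ i) (ρ j)
  | ρ, .one i => .one (ρ i)
  | ρ, .add i j k => .add (ρ i) (ρ j) (ρ k)
  | ρ, .mul i j k => .mul (ρ i) (ρ j) (ρ k)
  | _, .fal => .fal
  | ρ, .imp φ ψ => .imp (φ.ren ρ) (ψ.ren ρ)
  | ρ, .all φ => .all (φ.ren (liftR ρ))

theorem cons_liftR {α : Type} (x : α) (e : ℕ → α) (ρ : ℕ → ℕ) :
    (fun i => cons x e (liftR ρ i)) = cons x (fun i => e (ρ i)) := by
  funext i
  cases i <;> rfl

theorem holds_ren : ∀ (φ : AF) (ρ : ℕ → ℕ) (e : ℕ → ℕ),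
    (φ.ren ρ).holds e ↔ φ.holds (fun i => e (ρ i))
  | .eq i j, ρ, e => Iff.rfl
  | .one i, ρ, e => Iff.rfl
  | .add i j k, ρ, e => Iff.rfl
  | .mul i j k, ρ, e => Iff.rfl
  | .fal, _, _ => Iff.rfl
  | .imp φ ψ, ρ, e => by simp only [AF.ren, AF.holds, holds_ren φ, holds_ren ψ]
  | .all φ, ρ, e => by
    simp only [AF.ren, AF.holds, holds_ren φ, cons_liftR]

/-! ### Definable predicates -/

/-- `P` is definable. -/
def ADef (P : (ℕ → ℕ) → Prop) : Prop := ∃ φ : AF, ∀ e : ℕ → ℕ, φ.holds e ↔ P e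

/-- `F` has a definable graph. -/
def TDef (F : (ℕ → ℕ) → ℕ) : Prop := ADef (fun e => e 0 = F (fun i => e (i + 1)))

theorem ADef.congr {P Q : (ℕ → ℕ) → Prop} (h : ADef P) (hPQ : ∀ e, Q e ↔ P e) : ADef Q := by
  obtain ⟨φ, h3⟩ := h
  exact ⟨φ, fun e => (h3 e).trans (hPQ e).symm⟩

theorem ADef.imp {P Q : (ℕ → ℕ) → Prop} (hP : ADef P) (hQ : ADef Q) :
    ADef (fun e => P e → Q e) := by
  obtain ⟨φ, h3⟩ := hP
  obtain ⟨ψ, g3⟩ := hQ
  exact ⟨.imp φ ψ, fun e => by simp only [AF.holds, h3, g3]⟩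

theorem ADef.fal : ADef (fun _ => False) := ⟨.fal, fun _ => Iff.rfl⟩

theorem ADef.not {P : (ℕ → ℕ) → Prop} (hP : ADef P) : ADef (fun e => ¬ P e) :=
  (hP.imp ADef.fal).congr fun _ => Iff.rfl

theorem ADef.and {P Q : (ℕ → ℕ) → Prop} (hP : ADef P) (hQ : ADef Q) :
    ADef (fun e => P e ∧ Q e) :=
  (hP.imp hQ.not).not.congr fun e => by tauto

theorem ADef.or {P Q : (ℕ → ℕ) → Prop} (hP : ADef P) (hQ : ADef Q) :
    ADef (fun e => P e ∨ Q e) :=
  (hP.not.imp hQ).congr fun e => by tauto

theorem ADef.all {P : (ℕ → ℕ) → ℕ → Prop}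
    (hP : ADef (fun e => P (fun i => e (i + 1)) (e 0))) :
    ADef (fun e => ∀ x, P e x) := by
  obtain ⟨φ, h3⟩ := hP
  refine ⟨.all φ, fun e => ?_⟩
  simp only [AF.holds]
  exact forall_congr' fun x => h3 (cons x e)

theorem ADef.ex {P : (ℕ → ℕ) → ℕ → Prop}
    (hP : ADef (fun e => P (fun i => e (i + 1)) (e 0))) :
    ADef (fun e => ∃ x, P e x) := by
  have h : ADef (fun e => ¬ ∀ x, ¬ P e x) :=
    (ADef.all (P := fun e x => ¬ P e x) hP.not).not
  exact h.congr fun e => by push Not; rfl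

theorem ADef.ren {P : (ℕ → ℕ) → Prop} (hP : ADef P) (ρ : ℕ → ℕ) :
    ADef (fun e => P (fun i => e (ρ i))) := by
  obtain ⟨φ, h3⟩ := hP
  exact ⟨φ.ren ρ, fun e => (holds_ren φ ρ e).trans (h3 _)⟩

/-- Substitution of a function with definable graph. -/
theorem ADef.sub {P : (ℕ → ℕ) → ℕ → Prop}
    (hP : ADef (fun e => P (fun i => e (i + 1)) (e 0))) {F : (ℕ → ℕ) → ℕ} (hF : TDef F) :
    ADef (fun e => P e (F e)) :=
  (ADef.ex (P := fun e x => x = F e ∧ P e x) (ADef.and hF hP)).congr fun e => by simp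

theorem TDef.var (i : ℕ) : TDef (fun e => e i) := ⟨.eq 0 (i + 1), fun _ => Iff.rfl⟩

theorem TDef.zero : TDef (fun _ => 0) := ⟨.add 0 0 0, fun e => by
  simp only [AF.holds]
  omega⟩

theorem TDef.one : TDef (fun _ => 1) := ⟨.one 0, fun _ => Iff.rfl⟩

/-- shift of a function with definable graph -/
theorem TDef.ren {F : (ℕ → ℕ) → ℕ} (hF : TDef F) (ρ : ℕ → ℕ) :
    TDef (fun e => F (fun i => e (ρ i))) :=
  (ADef.ren hF (liftR ρ)).congr fun _ => Iff.rfl

theorem ADef.eq {F G : (ℕ → ℕ) → ℕ} (hF : TDef F) (hG : TDef G) :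
    ADef (fun e => F e = G e) := by
  have h : ADef (fun e => ∃ x, x = F e ∧ x = G e) := ADef.ex (ADef.and hF hG)
  exact h.congr fun e => by
    constructor
    · intro h
      exact ⟨_, rfl, h⟩
    · rintro ⟨x, rfl, h⟩
      exact h

theorem TDef.add {F G : (ℕ → ℕ) → ℕ} (hF : TDef F) (hG : TDef G) :
    TDef (fun e => F e + G e) := by
  have h : ADef (fun e => ∃ x, x = F (fun i => e (i + 1)) ∧
      ∃ y, y = G (fun i => e (i + 1)) ∧ x + y = e 0) := by
    refine ADef.ex (ADef.and ?_ (ADef.ex (ADef.and ?_ ?_)))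
    · exact TDef.ren hF (fun i => i + 1)
    · exact TDef.ren hG (fun i => i + 2)
    · exact ⟨.add 1 0 2, fun _ => Iff.rfl⟩
  exact h.congr fun e => by
    constructor
    · intro h
      exact ⟨_, rfl, _, rfl, h.symm⟩
    · rintro ⟨x, rfl, y, rfl, h⟩
      exact h.symm

theorem TDef.mul {F G : (ℕ → ℕ) → ℕ} (hF : TDef F) (hG : TDef G) :
    TDef (fun e => F e * G e) := by
  have h : ADef (fun e => ∃ x, x = F (fun i => e (i + 1)) ∧
      ∃ y, y = G (fun i => e (i + 1)) ∧ x * y = e 0) := by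
    refine ADef.ex (ADef.and ?_ (ADef.ex (ADef.and ?_ ?_)))
    · exact TDef.ren hF (fun i => i + 1)
    · exact TDef.ren hG (fun i => i + 2)
    · exact ⟨.mul 1 0 2, fun _ => Iff.rfl⟩
  exact h.congr fun e => by
    constructor
    · intro h
      exact ⟨_, rfl, _, rfl, h.symm⟩
    · rintro ⟨x, rfl, y, rfl, h⟩
      exact h.symm

theorem ADef.lt {F G : (ℕ → ℕ) → ℕ} (hF : TDef F) (hG : TDef G) :
    ADef (fun e => F e < G e) := by
  have h : ADef (fun e => ∃ d, F e + (d + 1) = G e) := by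
    refine ADef.ex (ADef.eq (TDef.add (TDef.ren hF (fun i => i + 1))
      (TDef.add (.var 0) .one)) (TDef.ren hG (fun i => i + 1)))
  exact h.congr fun e => by
    constructor
    · intro h
      exact ⟨G e - F e - 1, by omega⟩
    · rintro ⟨d, hd⟩
      omega

/-- A binary relation as a predicate of the variables 0 and 1. -/
theorem ADef.app₂ {r : ℕ → ℕ → Prop} (h : ADef (fun e => r (e 0) (e 1))) (i j : ℕ) :
    ADef (fun e => r (e i) (e j)) :=
  h.ren (fun n => if n = 0 then i else j)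

/-- A ternary relation as a predicate of the variables 0, 1 and 2. -/
theorem ADef.app₃ {r : ℕ → ℕ → ℕ → Prop} (h : ADef (fun e => r (e 0) (e 1) (e 2)))
    (i j l : ℕ) : ADef (fun e => r (e i) (e j) (e l)) :=
  h.ren (fun n => if n = 0 then i else if n = 1 then j else l)

theorem adef_pair : ADef (fun e => e 2 = Nat.pair (e 0) (e 1)) := by
  have h : ADef (fun e => (e 0 < e 1 ∧ e 2 = e 1 * e 1 + e 0) ∨
      (¬ e 0 < e 1 ∧ e 2 = e 0 * e 0 + e 0 + e 1)) := by
    refine ADef.or (ADef.and (ADef.lt (.var 0) (.var 1))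
      (ADef.eq (.var 2) (.add (.mul (.var 1) (.var 1))
        (.var 0))))
      (ADef.and (ADef.not (ADef.lt (.var 0) (.var 1)))
      (ADef.eq (.var 2) (.add (.add (.mul (.var 0) (.var 0))
        (.var 0)) (.var 1))))
  refine h.congr fun e => ?_
  rw [Nat.pair]
  split_ifs with h1 <;> simp [h1]

theorem adef_pair' (i j l : ℕ) :
    ADef (fun e => e l = Nat.pair (e i) (e j)) :=
  ADef.app₃ (r := fun a b c => c = Nat.pair a b) adef_pair i j l

theorem beta_iff (n i r : ℕ) : r = Nat.beta n i ↔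
    ∃ a b q, n = Nat.pair a b ∧ a = q * ((i + 1) * b + 1) + r ∧ r < (i + 1) * b + 1 := by
  constructor
  · rintro rfl
    refine ⟨n.unpair.1, n.unpair.2, n.unpair.1 / ((i + 1) * n.unpair.2 + 1),
      (Nat.pair_unpair n).symm, ?_, Nat.mod_lt _ (Nat.succ_pos _)⟩
    rw [Nat.beta, mul_comm]
    exact (Nat.div_add_mod _ _).symm
  · rintro ⟨a, b, q, rfl, ha, hr⟩
    rw [Nat.beta, Nat.unpair_pair]
    dsimp only
    rw [ha, mul_comm, Nat.mul_add_mod, Nat.mod_eq_of_lt hr]

theorem adef_beta : ADef (fun e => e 2 = Nat.beta (e 0) (e 1)) := by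
  have h : ADef (fun e => ∃ a b q, e 0 = Nat.pair a b ∧
      a = q * ((e 1 + 1) * b + 1) + e 2 ∧ e 2 < (e 1 + 1) * b + 1) := by
    refine ADef.ex (ADef.ex (ADef.ex (ADef.and ?_ (ADef.and ?_ ?_))))
    · exact adef_pair' 2 1 3
    · exact ADef.eq (.var 2) (.add (.mul (.var 0) (.add (.mul (.add
        (.var 4) .one) (.var 1)) .one)) (.var 5))
    · exact ADef.lt (.var 5) (.add (.mul (.add
        (.var 4) .one) (.var 1)) .one)
  exact h.congr fun e => beta_iff _ _ _

theorem adef_beta' (i j l : ℕ) :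
    ADef (fun e => e l = Nat.beta (e i) (e j)) :=
  ADef.app₃ (r := fun a b c => c = Nat.beta a b) adef_beta i j l

/-- Graph of a partial function. -/
def GDef (f : ℕ →. ℕ) : Prop := ADef (fun e => e 1 ∈ f (e 0))

theorem GDef.app {f : ℕ →. ℕ} (h : GDef f) (i j : ℕ) :
    ADef (fun e => e j ∈ f (e i)) :=
  ADef.app₂ (r := fun a b => b ∈ f a) h i j

theorem mem_prec (f g : ℕ →. ℕ) (a n v : ℕ) :
    v ∈ (n.rec (f a) fun y IH => IH.bind fun i => g (Nat.pair a (Nat.pair y i)) : Part ℕ) ↔
      ∃ c, Nat.beta c 0 ∈ f a ∧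
        (∀ y < n, Nat.beta c (y + 1) ∈ g (Nat.pair a (Nat.pair y (Nat.beta c y)))) ∧
        v = Nat.beta c n := by
  constructor
  · intro hv
    have key : ∀ n v, v ∈ (n.rec (f a) fun y IH => IH.bind fun i => g (Nat.pair a (Nat.pair y i)) :
        Part ℕ) → ∃ l : ℕ → ℕ, l 0 ∈ f a ∧
          (∀ y < n, l (y + 1) ∈ g (Nat.pair a (Nat.pair y (l y)))) ∧ v = l n := by
      intro n
      induction n with
      | zero =>
        intro v hv
        exact ⟨fun _ => v, hv, fun y hy => absurd hy (by omega), rfl⟩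
      | succ n ih =>
        intro v hv
        obtain ⟨u, hu, hv⟩ := Part.mem_bind_iff.1 hv
        obtain ⟨l, h0, h1, rfl⟩ := ih u hu
        refine ⟨fun i => if i = n + 1 then v else l i, by simpa using h0, ?_, by simp⟩
        intro y hy
        rcases Nat.lt_succ_iff_lt_or_eq.1 hy with h | rfl
        · simp only [Nat.add_right_cancel_iff]
          rw [if_neg (by omega), if_neg (by omega)]
          exact h1 y h
        · simp only [if_true]
          rw [if_neg (by omega)]
          exact hv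
    obtain ⟨l, h0, h1, h2⟩ := key n v hv
    let L : List ℕ := List.ofFn (fun i : Fin (n + 1) => l i)
    have hL : ∀ i, i ≤ n → Nat.beta (Nat.unbeta L) i = l i := by
      intro i hi
      have hlen : i < L.length := by simp [L]; omega
      have := Nat.beta_unbeta_coe L ⟨i, hlen⟩
      rw [this]
      simp only [L, Fin.getElem_fin, List.getElem_ofFn]
    refine ⟨Nat.unbeta L, ?_, ?_, ?_⟩
    · rw [hL 0 (by omega)]
      exact h0
    · intro y hy
      rw [hL (y + 1) (by omega), hL y (by omega)]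
      exact h1 y hy
    · rw [hL n le_rfl]
      exact h2
  · rintro ⟨c, h0, h1, rfl⟩
    have key : ∀ m ≤ n, Nat.beta c m ∈ (m.rec (f a) fun y IH => IH.bind fun i =>
        g (Nat.pair a (Nat.pair y i)) : Part ℕ) := by
      intro m
      induction m with
      | zero => intro _; exact h0
      | succ m ih =>
        intro hm
        exact Part.mem_bind_iff.2 ⟨_, ih (by omega), h1 m (by omega)⟩
    exact key n le_rfl

theorem gdef_prec {f g : ℕ →. ℕ} (hf : GDef f) (hg : GDef g) :
    GDef (Nat.unpaired fun a n =>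
      n.rec (f a) fun y IH => do let i ← IH; g (Nat.pair a (Nat.pair y i))) := by
  have h : ADef (fun e => ∃ a n c, e 0 = Nat.pair a n ∧
      (∃ z u, z = 0 ∧ u = Nat.beta c z ∧ u ∈ f a) ∧
      (∀ y, y < n → ∃ y' s t p q, y' = y + 1 ∧ s = Nat.beta c y' ∧ t = Nat.beta c y ∧
        p = Nat.pair y t ∧ q = Nat.pair a p ∧ s ∈ g q) ∧
      e 1 = Nat.beta c n) := by
    refine ADef.ex (ADef.ex (ADef.ex (ADef.and ?_ (ADef.and ?_ (ADef.and ?_ ?_)))))
    · exact adef_pair' 2 1 3
    · refine ADef.ex (ADef.ex (ADef.and ?_ (ADef.and ?_ ?_)))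
      · exact ADef.eq (.var 1) .zero
      · exact adef_beta' 2 1 0
      · exact hf.app 4 0
    · refine ADef.all (ADef.imp ?_ ?_)
      · exact ADef.lt (.var 0) (.var 2)
      · refine ADef.ex (ADef.ex (ADef.ex (ADef.ex (ADef.ex (ADef.and ?_ (ADef.and ?_
          (ADef.and ?_ (ADef.and ?_ (ADef.and ?_ ?_)))))))))
        · exact ADef.eq (.var 4) (.add (.var 5) .one)
        · exact adef_beta' 6 4 3
        · exact adef_beta' 6 5 2
        · exact adef_pair' 5 2 1
        · exact adef_pair' 8 1 0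
        · exact hg.app 0 3
    · exact adef_beta' 0 1 4
  refine h.congr fun e => ?_
  have h1 := mem_prec f g (e 0).unpair.1 (e 0).unpair.2 (e 1)
  refine Iff.trans h1 ?_
  constructor
  · rintro ⟨c, h2, h3, h4⟩
    exact ⟨_, _, c, (Nat.pair_unpair _).symm, ⟨0, _, rfl, rfl, h2⟩,
      fun y hy => ⟨_, _, _, _, _, rfl, rfl, rfl, rfl, rfl, h3 y hy⟩, h4⟩
  · rintro ⟨a, n, c, ha, ⟨z, u, rfl, rfl, h2⟩, h3, h4⟩
    rw [ha, Nat.unpair_pair]
    refine ⟨c, h2, ?_, h4⟩
    intro y hy
    obtain ⟨y', s, t, p, q, rfl, rfl, rfl, rfl, rfl, h5⟩ := h3 y hy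
    exact h5

theorem gdef_rfind {f : ℕ →. ℕ} (hf : GDef f) :
    GDef (fun a => Nat.rfind fun n => (fun m => decide (m = 0)) <$> f (Nat.pair a n)) := by
  have h : ADef (fun e => (∃ p z, p = Nat.pair (e 0) (e 1) ∧ z = 0 ∧ z ∈ f p) ∧
      ∀ m, m < e 1 → ∃ p v, p = Nat.pair (e 0) m ∧ ¬ v = 0 ∧ v ∈ f p) := by
    refine ADef.and (ADef.ex (ADef.ex (ADef.and ?_ (ADef.and ?_ ?_))))
      (ADef.all (ADef.imp ?_ (ADef.ex (ADef.ex (ADef.and ?_ (ADef.and ?_ ?_))))))
    · exact adef_pair' 2 3 1
    · exact ADef.eq (.var 0) .zero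
    · exact hf.app 1 0
    · exact ADef.lt (.var 0) (.var 2)
    · exact adef_pair' 3 2 1
    · exact ADef.not (ADef.eq (.var 0) .zero)
    · exact hf.app 1 0
  refine h.congr fun e => ?_
  refine Iff.trans Nat.mem_rfind ?_
  simp only [Part.map_eq_map, Part.mem_map_iff, decide_eq_true_eq, decide_eq_false_iff_not]
  constructor
  · rintro ⟨⟨a, ha, ha0⟩, h2⟩
    subst ha0
    refine ⟨⟨_, _, rfl, rfl, ha⟩, fun m hm => ?_⟩
    obtain ⟨v, hv, hv0⟩ := h2 hm
    exact ⟨_, v, rfl, hv0, hv⟩
  · rintro ⟨⟨p, z, rfl, rfl, h2⟩, h3⟩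
    refine ⟨⟨0, h2, rfl⟩, fun {m} hm => ?_⟩
    obtain ⟨p, v, rfl, hv0, hv⟩ := h3 m hm
    exact ⟨v, hv, hv0⟩

theorem gdef_of_partrec {f : ℕ →. ℕ} (h : Nat.Partrec f) : GDef f := by
  induction h with
  | zero =>
    refine (ADef.eq (.var 1) .zero : ADef (fun e => e 1 = 0)).congr fun e => ?_
    exact Part.mem_some_iff
  | succ =>
    refine (ADef.eq (.var 1) (.add (.var 0) .one) :
      ADef (fun e => e 1 = e 0 + 1)).congr fun e => ?_
    exact Part.mem_some_iff
  | left =>
    refine (ADef.ex (adef_pair' 2 0 1) :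
      ADef (fun e => ∃ b, e 0 = Nat.pair (e 1) b)).congr fun e => ?_
    refine Iff.trans Part.mem_some_iff ?_
    constructor
    · intro h
      exact ⟨(e 0).unpair.2, by rw [h, Nat.pair_unpair]⟩
    · rintro ⟨b, hb⟩
      rw [hb]
      simp only [Nat.unpair_pair]
  | right =>
    refine (ADef.ex (adef_pair' 0 2 1) :
      ADef (fun e => ∃ b, e 0 = Nat.pair b (e 1))).congr fun e => ?_
    refine Iff.trans Part.mem_some_iff ?_
    constructor
    · intro h
      exact ⟨(e 0).unpair.1, by rw [h, Nat.pair_unpair]⟩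
    · rintro ⟨b, hb⟩
      rw [hb]
      simp only [Nat.unpair_pair]
  | @pair f g _ _ hf hg =>
    have h : ADef (fun e => ∃ u v, u ∈ f (e 0) ∧ v ∈ g (e 0) ∧ e 1 = Nat.pair u v) := by
      refine ADef.ex (ADef.ex (ADef.and ?_ (ADef.and ?_ ?_)))
      · exact hf.app 2 1
      · exact hg.app 2 0
      · exact adef_pair' 1 0 3
    refine h.congr fun e => ?_
    simp only [Seq.seq, Part.map_eq_map, Part.mem_bind_iff, Part.mem_map_iff]
    constructor
    · rintro ⟨F, ⟨u, hu, rfl⟩, v, hv, h⟩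
      exact ⟨u, v, hu, hv, h.symm⟩
    · rintro ⟨u, v, hu, hv, h⟩
      exact ⟨_, ⟨u, hu, rfl⟩, v, hv, h.symm⟩
  | @comp f g _ _ hf hg =>
    have h : ADef (fun e => ∃ z, z ∈ g (e 0) ∧ e 1 ∈ f z) := by
      refine ADef.ex (ADef.and ?_ ?_)
      · exact hg.app 1 0
      · exact hf.app 0 2
    refine h.congr fun e => ?_
    exact Part.mem_bind_iff
  | prec _ _ hf hg => exact gdef_prec hf hg
  | rfind _ hf => exact gdef_rfind hf


theorem adef_encode (k : ℕ) :
    TDef (fun e => Encodable.encode ((List.range k).map e)) := by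
  -- general: encode of the list e a, e (a+1), ..., e (a+k-1)
  have h : ∀ k a : ℕ, TDef (fun e => Encodable.encode ((List.range' a k).map e)) := by
    intro k
    induction k with
    | zero =>
      intro a
      exact TDef.zero
    | succ k ih =>
      intro a
      have h1 : ADef (fun e => ∃ y, y = Encodable.encode ((List.range' (a + 1) k).map
          (fun i => e (i + 1))) ∧ ∃ x, x = e (a + 1) ∧ ∃ p, p = Nat.pair x y ∧ e 0 = p + 1) := by
        refine ADef.ex (ADef.and ?_ (ADef.ex (ADef.and ?_ (ADef.ex (ADef.and ?_ ?_)))))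
        · exact TDef.ren (ih (a + 1)) (fun i => i + 1)
        · exact ADef.eq (.var 0) (.var (a + 3))
        · exact adef_pair' 1 2 0
        · exact ADef.eq (.var 3) (.add (.var 0) .one)
      refine h1.congr fun e => ?_
      simp only [List.range'_succ, List.map_cons, Encodable.encode_list_cons, Encodable.encode_nat]
      constructor
      · intro h
        exact ⟨_, rfl, _, rfl, _, rfl, h⟩
      · rintro ⟨y, rfl, x, rfl, p, rfl, h⟩
        exact h
  have := h k 0
  rwa [← List.range_eq_range'] at this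

/-- Every recursively enumerable relation is definable in arithmetic. -/
theorem AF.of_re (R : List ℕ → Prop) (hR : REPred R) (k : ℕ) :
    ∃ φ : AF, ∀ e : ℕ → ℕ, φ.holds e ↔ R ((List.range k).map e) := by
  have h1 : ∃ F : ℕ →. ℕ, Nat.Partrec F ∧ ∀ l, R l ↔ ∃ v, v ∈ F (Encodable.encode l) := by
    refine ⟨_, hR, fun l => ?_⟩
    simp only [Encodable.encodek, Part.coe_some, Part.bind_some, Part.mem_map_iff,
      Part.mem_assert_iff]
    constructor
    · intro h
      exact ⟨_, (), ⟨h, Part.mem_some _⟩, rfl⟩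
    · rintro ⟨_, _, ⟨h, _⟩, _⟩
      exact h
  obtain ⟨F, hF, hR'⟩ := h1
  have h3 : ADef (fun e => ∃ z, z = Encodable.encode ((List.range k).map e) ∧ ∃ v, v ∈ F z) := by
    refine ADef.ex (ADef.and ?_ (ADef.ex ?_))
    · exact adef_encode k
    · exact GDef.app (gdef_of_partrec hF) 1 0
  refine h3.congr fun e => ?_
  rw [hR']
  constructor
  · rintro ⟨v, hv⟩
    exact ⟨_, rfl, v, hv⟩
  · rintro ⟨z, rfl, v, hv⟩
    exact ⟨v, hv⟩

end Pool.Agent.Lib.MP_21db1f_lc
end

section

/-!
Words, standard interpretations.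
-/

set_option autoImplicit false

namespace Pool.Agent.Lib.MP_21db1f_lc
set_option linter.all false

theorem dl_surj : Function.Surjective dl :=
  fun L => ⟨Encodable.encode L, Denumerable.ofNat_encode L⟩

theorem dr_surj : Function.Surjective dr :=
  fun L => ⟨Encodable.encode L, Denumerable.ofNat_encode L⟩

theorem dl_zero : dl 0 = [] := by
  have : dl (Encodable.encode ([] : List ℕ)) = [] := Denumerable.ofNat_encode _
  exact this

theorem dl_eq_nil {w : ℕ} (h : dl w = []) : w = 0 := by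
  have h2 : Encodable.encode (dl w) = w := Denumerable.encode_ofNat w
  rw [h] at h2
  exact h2.symm

section Words
variable {H K : Type*} [Group H] [Group K]

theorem evalW_nil (n : ℕ) (x : ℕ → H) : evalW n x [] = 1 := rfl

theorem evalW_cons (n : ℕ) (x : ℕ → H) (l : ℕ) (w : List ℕ) :
    evalW n x (l :: w) = letter n x l * evalW n x w := by
  simp [evalW]

theorem evalW_append (n : ℕ) (x : ℕ → H) (w w' : List ℕ) :
    evalW n x (w ++ w') = evalW n x w * evalW n x w' := by
  simp [evalW]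

theorem map_letter (f : H →* K) (n : ℕ) (x : ℕ → H) (l : ℕ) :
    f (letter n x l) = letter n (fun i => f (x i)) l := by
  unfold letter
  split_ifs <;> simp

theorem map_evalW (f : H →* K) (n : ℕ) (x : ℕ → H) (w : List ℕ) :
    f (evalW n x w) = evalW n (fun i => f (x i)) w := by
  induction w with
  | nil => simp [evalW]
  | cons l w ih => rw [evalW_cons, evalW_cons, map_mul, ih, map_letter]

theorem letter_mod (n : ℕ) (x : ℕ → H) (l : ℕ) : letter n x (l % (2 * n)) = letter n x l := by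
  unfold letter
  rw [Nat.mod_mod]

theorem letter_pos (n : ℕ) (x : ℕ → H) (i : ℕ) (hi : i < n) : letter n x (2 * i) = x i := by
  unfold letter
  have h : (2 * i) % (2 * n) = 2 * i := Nat.mod_eq_of_lt (by omega)
  rw [h]
  simp

theorem letter_neg (n : ℕ) (x : ℕ → H) (i : ℕ) (hi : i < n) :
    letter n x (2 * i + 1) = (x i)⁻¹ := by
  unfold letter
  have h : (2 * i + 1) % (2 * n) = 2 * i + 1 := Nat.mod_eq_of_lt (by omega)
  have h2 : (2 * i + 1) % 2 = 1 := by omega
  have h3 : (2 * i + 1) / 2 = i := by omega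
  rw [h, h2, h3]
  simp

end Words

theorem exists_word (n : ℕ) (u : FF n) : ∃ w : List ℕ, u = evalW n (xF n) w := by
  induction u using FreeGroup.induction_on with
  | C1 => exact ⟨[], rfl⟩
  | of i =>
    refine ⟨[2 * i.1], ?_⟩
    rw [evalW_cons, evalW_nil, mul_one, letter_pos n _ _ i.2]
    unfold xF
    rw [dif_pos i.2]
  | inv_of i _ =>
    refine ⟨[2 * i.1 + 1], ?_⟩
    rw [evalW_cons, evalW_nil, mul_one, letter_neg n _ _ i.2]
    unfold xF
    rw [dif_pos i.2]
  | mul u v hu hv =>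
    obtain ⟨w, rfl⟩ := hu
    obtain ⟨w', rfl⟩ := hv
    exact ⟨w ++ w', (evalW_append _ _ _ _).symm⟩

theorem exists_word3 (n : ℕ) (g : G3 n) : ∃ w : List ℕ, g = evalW n (x3 n) w := by
  obtain ⟨u, rfl⟩ := QuotientGroup.mk_surjective g
  obtain ⟨w, rfl⟩ := exists_word n u
  exact ⟨w, map_evalW (QuotientGroup.mk' _) n (xF n) w⟩

/-- `c` interprets the standard natural numbers. -/
structure Std {H : Type} [Group H] (c : H) : Prop where
  nn : ∀ κ, NN c κ ↔ ∃ k : ℕ, κ = c ^ k
  inj : Function.Injective (fun k : ℕ => c ^ k)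
  mul : ∀ k l m : ℕ, MulR c (c ^ k) (c ^ l) (c ^ m) ↔ m = k * l

theorem Std.interp {H : Type} [Group H] {c : H} (hc : Std c) (φ : AF) :
    ∀ e : ℕ → ℕ, φ.interp c (fun i => c ^ e i) ↔ φ.holds e := by
  induction φ with
  | eq i j => intro e; exact ⟨fun h => hc.inj h, fun h => by show c ^ e i = c ^ e j; rw [show e i = e j from h]⟩
  | one i =>
    intro e
    constructor
    · intro h
      have h' : c ^ e i = c ^ 1 := by rw [pow_one]; exact h
      exact hc.inj h'
    · intro h
      show c ^ e i = c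
      rw [show e i = 1 from h, pow_one]
  | add i j k =>
    intro e
    show c ^ e i * c ^ e j = c ^ e k ↔ e i + e j = e k
    rw [← pow_add]
    exact ⟨fun h => hc.inj h, fun h => by rw [h]⟩
  | mul i j k =>
    intro e
    show MulR c (c ^ e i) (c ^ e j) (c ^ e k) ↔ e i * e j = e k
    rw [hc.mul]
    exact eq_comm
  | fal => intro e; exact Iff.rfl
  | imp φ ψ hφ hψ => intro e; exact imp_congr (hφ e) (hψ e)
  | all φ hφ =>
    intro e
    show (∀ a, NN c a → φ.interp c (cons a fun i => c ^ e i)) ↔ ∀ a, φ.holds (cons a e)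
    have hcons : ∀ a : ℕ, (fun i => c ^ (cons a e) i) = cons (c ^ a) (fun i => c ^ e i) := by
      intro a
      funext i
      cases i <;> rfl
    constructor
    · intro h a
      rw [← hφ, hcons]
      exact h _ ((hc.nn _).2 ⟨a, rfl⟩)
    · intro h a ha
      obtain ⟨k, rfl⟩ := (hc.nn _).1 ha
      rw [← hcons, hφ]
      exact h k

def envN (l : List ℕ) : ℕ → ℕ := l.foldr cons (fun _ => 0)

theorem env_map {H : Type} [Group H] (c : H) (l : List ℕ) :
    env (l.map (fun k => c ^ k)) = fun i => c ^ envN l i := by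
  induction l with
  | nil => funext i; simp [env, envN]
  | cons a l ih =>
    funext i
    cases i with
    | zero => rfl
    | succ i => exact congrFun ih i

theorem Std.interpL {H : Type} [Group H] {c : H} (hc : Std c) (φ : AF) (l : List ℕ) :
    φ.interp c (env (l.map (fun k => c ^ k))) ↔ φ.holds (envN l) := by
  rw [env_map]; exact hc.interp φ _

end Pool.Agent.Lib.MP_21db1f_lc
end

section

section

set_option autoImplicit false

namespace Pool.Agent.Lib.MP_21db1f_lc

open Primrec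

theorem prim_pow : Primrec₂ (fun j k : ℕ => j ^ k) := by
  have h : Primrec (fun x : ℕ × ℕ =>
      Nat.rec (motive := fun _ => ℕ) 1 (fun _ acc => acc * x.1) x.2) :=
    Primrec.nat_rec' (f := fun x : ℕ × ℕ => x.2) (g := fun _ => 1)
      (h := fun x y => y.2 * x.1) Primrec.snd (Primrec.const 1)
      ((nat_mul.comp (Primrec.snd.comp Primrec.snd) (Primrec.fst.comp Primrec.fst)).to₂)
  refine (h.of_eq fun x => ?_)
  obtain ⟨j, k⟩ := x
  show _ = j ^ k
  induction k with
  | zero => rfl
  | succ k ih => 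
    show (Nat.rec (motive := fun _ => ℕ) 1 (fun _ acc => acc * j) k) * j = _
    rw [pow_succ, ← ih]

/-- primitive recursive functions into lists: `getD` -/
theorem prim_getD {α : Type*} [Primcodable α] {f : α → List ℕ} {g : α → ℕ}
    (hf : Primrec f) (hg : Primrec g) : Primrec (fun a => (f a).getD (g a) 0) :=
  (Primrec.list_getD 0).comp hf hg

theorem prim_step (n : ℕ) {α : Type*} [Primcodable α] {θ : α → List ℕ} {l k : α → ℕ}
    (hθ : Primrec θ) (hl : Primrec l) (hk : Primrec k) :
    Primrec (fun a => step n (θ a) (l a) (k a)) := by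
  unfold step
  have hr : Primrec (fun a => l a % (2 * n)) := nat_mod.comp hl (Primrec.const _)
  have h2r : Primrec (fun a => 2 * (l a % (2 * n))) := nat_mul.comp (Primrec.const 2) hr
  exact nat_mod.comp
    (nat_add.comp (nat_mul.comp (prim_getD hθ (nat_add.comp (Primrec.const 1) h2r)) hk)
      (prim_getD hθ (nat_add.comp (Primrec.const 2) h2r)))
    (prim_getD hθ (Primrec.const 0))

theorem comp_kval (n : ℕ) : Primrec (fun x : List ℕ × List ℕ => kval n x.1 x.2) := by
  unfold kval
  exact Primrec.list_foldr (f := fun x : List ℕ × List ℕ => x.2) (g := fun _ => 0)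
    (h := fun x y => step n x.1 y.1 y.2) Primrec.snd (Primrec.const 0)
    ((prim_step n (Primrec.fst.comp Primrec.fst) (Primrec.fst.comp Primrec.snd)
      (Primrec.snd.comp Primrec.snd)).to₂)

theorem comp_pval (n : ℕ) :
    Primrec (fun x : List ℕ × ℕ × List (List ℕ) => pval n x.1 x.2.1 x.2.2) := by
  have h : Primrec (fun x : List ℕ × ℕ × List (List ℕ) =>
      x.2.2.foldr (fun s acc => x.2.1 ^ kval n x.1 s + acc) 0) :=
    Primrec.list_foldr (f := fun x : List ℕ × ℕ × List (List ℕ) => x.2.2) (g := fun _ => 0)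
      (h := fun x y => x.2.1 ^ kval n x.1 y.1 + y.2) (Primrec.snd.comp Primrec.snd)
      (Primrec.const 0)
      ((nat_add.comp
        (prim_pow.comp (Primrec.fst.comp (Primrec.snd.comp Primrec.fst))
          ((comp_kval n).comp ((Primrec.fst.comp Primrec.fst).pair
            (Primrec.fst.comp Primrec.snd))))
        (Primrec.snd.comp Primrec.snd)).to₂)
  refine h.of_eq fun x => ?_
  obtain ⟨θ, j, ℓ⟩ := x
  show _ = pval n θ j ℓ
  unfold pval
  induction ℓ with
  | nil => rfl
  | cons s ℓ ih =>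
    simp only [List.foldr_cons, List.map_cons, List.sum_cons]
    simp only at ih
    rw [ih]

theorem comp_foxPos (n i : ℕ) : Primrec (foxPos n i) := by
  have h : Primrec (fun w : List ℕ => List.rec (motive := fun _ => List (List ℕ)) []
      (fun l s acc => if l % (2 * n) = 2 * i then s :: acc else acc) w) :=
    Primrec.list_rec (f := fun w : List ℕ => w) (g := fun _ => ([] : List (List ℕ)))
      (h := fun _ y => if y.1 % (2 * n) = 2 * i then y.2.1 :: y.2.2 else y.2.2)
      Primrec.id (Primrec.const _)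
      ((Primrec.ite
        (Primrec.eq.comp (nat_mod.comp (Primrec.fst.comp Primrec.snd) (Primrec.const _))
          (Primrec.const _))
        (Primrec.list_cons.comp (Primrec.fst.comp (Primrec.snd.comp Primrec.snd))
          (Primrec.snd.comp (Primrec.snd.comp Primrec.snd)))
        (Primrec.snd.comp (Primrec.snd.comp Primrec.snd))).to₂)
  refine h.of_eq fun w => ?_
  induction w with
  | nil => rfl
  | cons l s ih =>
    show (if l % (2 * n) = 2 * i then s :: _ else _) = if l % (2 * n) = 2 * i then _ else _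
    rw [ih]

theorem comp_foxNeg (n i : ℕ) : Primrec (foxNeg n i) := by
  have h : Primrec (fun w : List ℕ => List.rec (motive := fun _ => List (List ℕ)) []
      (fun l s acc => if l % (2 * n) = 2 * i + 1 then (l :: s) :: acc else acc) w) :=
    Primrec.list_rec (f := fun w : List ℕ => w) (g := fun _ => ([] : List (List ℕ)))
      (h := fun _ y => if y.1 % (2 * n) = 2 * i + 1 then (y.1 :: y.2.1) :: y.2.2 else y.2.2)
      Primrec.id (Primrec.const _)
      ((Primrec.ite
        (Primrec.eq.comp (nat_mod.comp (Primrec.fst.comp Primrec.snd) (Primrec.const _))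
          (Primrec.const _))
        (Primrec.list_cons.comp
          (Primrec.list_cons.comp (Primrec.fst.comp Primrec.snd)
            (Primrec.fst.comp (Primrec.snd.comp Primrec.snd)))
          (Primrec.snd.comp (Primrec.snd.comp Primrec.snd)))
        (Primrec.snd.comp (Primrec.snd.comp Primrec.snd))).to₂)
  refine h.of_eq fun w => ?_
  induction w with
  | nil => rfl
  | cons l s ih =>
    show (if l % (2 * n) = 2 * i + 1 then (l :: s) :: _ else _) =
      if l % (2 * n) = 2 * i + 1 then _ else _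
    rw [ih]

theorem comp_invL (n : ℕ) : Primrec (invL n) := by
  unfold invL
  have hr : Primrec (fun l => l % (2 * n)) := nat_mod.comp Primrec.id (Primrec.const _)
  exact Primrec.ite (Primrec.eq.comp (nat_mod.comp hr (Primrec.const 2)) (Primrec.const 0))
    (nat_add.comp hr (Primrec.const 1)) (nat_sub.comp hr (Primrec.const 1))

theorem comp_invW (n : ℕ) : Primrec (invW n) := by
  unfold invW
  exact Primrec.list_reverse.comp
    (Primrec.list_map Primrec.id ((comp_invL n).comp Primrec.snd).to₂)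

theorem comp_uW (n : ℕ) : Primrec (uW n) := by
  unfold uW
  exact Primrec.list_append.comp
    (Primrec.list_append.comp (comp_invW n) (Primrec.const _)) Primrec.id

theorem comp_yW (n : ℕ) : Primrec (yW n) := by
  unfold yW
  exact Primrec.list_append.comp
    (Primrec.list_append.comp
      (Primrec.list_append.comp ((comp_invW n).comp (comp_uW n)) (Primrec.const _))
      (comp_uW n)) (Primrec.const _)

theorem comp_Adm (n : ℕ) : PrimrecPred (Adm n) := by
  have hg : ∀ {β : Type} [Primcodable β] {f : β → List ℕ} {g : β → ℕ} (c d : ℕ),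
      Primrec f → Primrec g → Primrec (fun b => (f b).getD (c + d * g b) 0) := by
    intro β _ f g c d hf hg
    exact prim_getD hf (nat_add.comp (Primrec.const c) (nat_mul.comp (Primrec.const d) hg))
  have hmod : ∀ {β : Type} [Primcodable β] {a b c : β → ℕ},
      Primrec a → Primrec b → Primrec c → PrimrecPred (fun x => a x ≡ b x [MOD c x]) := by
    intro β _ a b c ha hb hc
    exact Primrec.eq.comp (nat_mod.comp ha hc) (nat_mod.comp hb hc)
  have hrel : PrimrecRel (fun (i : ℕ) (θ : List ℕ) =>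
      mm θ i * mm' θ i ≡ 1 [MOD qq θ] ∧ mm θ i * bb' θ i + bb θ i ≡ 0 [MOD qq θ]) := by
    have hm : Primrec (fun x : ℕ × List ℕ => mm x.2 x.1) := hg 1 4 Primrec.snd Primrec.fst
    have hm' : Primrec (fun x : ℕ × List ℕ => mm' x.2 x.1) := hg 3 4 Primrec.snd Primrec.fst
    have hb : Primrec (fun x : ℕ × List ℕ => bb x.2 x.1) := hg 2 4 Primrec.snd Primrec.fst
    have hb' : Primrec (fun x : ℕ × List ℕ => bb' x.2 x.1) := hg 4 4 Primrec.snd Primrec.fst
    have hq : Primrec (fun x : ℕ × List ℕ => qq x.2) := prim_getD Primrec.snd (Primrec.const 0)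
    exact PrimrecPred.and (hmod (nat_mul.comp hm hm') (Primrec.const 1) hq)
      (hmod (nat_add.comp (nat_mul.comp hm hb') hb) (Primrec.const 0) hq)
  have h1 : PrimrecPred (fun θ : List ℕ => 0 < qq θ) :=
    nat_lt.comp (Primrec.const 0) (prim_getD Primrec.id (Primrec.const 0))
  have h2 : PrimrecPred (fun θ : List ℕ => ∀ i < n,
      mm θ i * mm' θ i ≡ 1 [MOD qq θ] ∧ mm θ i * bb' θ i + bb θ i ≡ 0 [MOD qq θ]) :=
    ((hrel.forall_mem_list).comp (Primrec.const (List.range n)) Primrec.id).of_eq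
      (fun θ => by simp)
  have h3 : PrimrecPred (fun θ : List ℕ =>
      mm θ 0 * bb θ 1 + bb θ 0 ≡ mm θ 1 * bb θ 0 + bb θ 1 + 1 [MOD qq θ]) := by
    have hc : ∀ c, Primrec (fun θ : List ℕ => θ.getD c 0) := fun c =>
      prim_getD Primrec.id (Primrec.const c)
    exact hmod (nat_add.comp (nat_mul.comp (hc _) (hc _)) (hc _))
      (nat_add.comp (nat_add.comp (nat_mul.comp (hc _) (hc _)) (hc _)) (Primrec.const 1)) (hc _)
  exact PrimrecPred.and h1 (PrimrecPred.and h2 h3)

end Pool.Agent.Lib.MP_21db1f_lc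
end

section

/-!
Existence of the arithmetical formulas used in the axioms.
-/

set_option autoImplicit false

namespace Pool.Agent.Lib.MP_21db1f_lc
set_option linter.all false

theorem primrec_dl : Primrec dl := Primrec.ofNat (List ℕ)
theorem primrec_dr : Primrec dr := Primrec.ofNat RCode

theorem AF.of_prim (R : List ℕ → Prop) (hR : PrimrecPred R) (k : ℕ) :
    ∃ φ : AF, ∀ e : ℕ → ℕ, φ.holds e ↔ R ((List.range k).map e) := by
  apply AF.of_re
  obtain ⟨_, h⟩ := hR
  exact ComputablePred.to_re ⟨_, h.to_comp⟩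

theorem prim_get (k : ℕ) : Primrec (fun L : List ℕ => L.getD k 0) :=
  prim_getD Primrec.id (Primrec.const k)

theorem exists_val (n : ℕ) (F : ℕ → RCode) (hF : Primrec F) : ∃ A : AF, IsVal n F A := by
  have h1 : Primrec (fun L : List ℕ => pval n (dl (L.getD 1 0)) (L.getD 2 0) (F (L.getD 0 0)).1) :=
    (comp_pval n).comp ((primrec_dl.comp (prim_get 1)).pair
      ((prim_get 2).pair (Primrec.fst.comp (hF.comp (prim_get 0)))))
  have h2 : Primrec (fun L : List ℕ => pval n (dl (L.getD 1 0)) (L.getD 2 0) (F (L.getD 0 0)).2) :=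
    (comp_pval n).comp ((primrec_dl.comp (prim_get 1)).pair
      ((prim_get 2).pair (Primrec.snd.comp (hF.comp (prim_get 0)))))
  obtain ⟨φ, hφ⟩ := AF.of_prim (fun L =>
    L.getD 3 0 = pval n (dl (L.getD 1 0)) (L.getD 2 0) (F (L.getD 0 0)).1 ∧
    L.getD 4 0 = pval n (dl (L.getD 1 0)) (L.getD 2 0) (F (L.getD 0 0)).2)
    (PrimrecPred.and (Primrec.eq.comp (prim_get 3) h1) (Primrec.eq.comp (prim_get 4) h2)) 5
  exact ⟨φ, fun e => hφ e⟩

theorem prim_ball {P : ℕ → List ℕ → Prop} (hP : ∀ i, PrimrecPred (P i)) (m : ℕ) :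
    PrimrecPred (fun L => ∀ i < m, P i L) := by
  induction m with
  | zero => exact (PrimrecPred.of_eq (Primrec.eq.comp (Primrec.const 0) (Primrec.const 0) :
      PrimrecPred (fun _ : List ℕ => (0:ℕ) = 0))) (by simp)
  | succ m ih =>
    refine (PrimrecPred.and ih (hP m)).of_eq ?_
    intro L
    constructor
    · rintro ⟨h1, h2⟩ i hi
      rcases Nat.lt_succ_iff_lt_or_eq.1 hi with h | rfl
      · exact h1 i h
      · exact h2
    · intro h
      exact ⟨fun i hi => h i (Nat.lt_succ_of_lt hi), h m (Nat.lt_succ_self m)⟩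

theorem exists_AData (n : ℕ) : Nonempty (AData n) := by
  obtain ⟨adm, h_adm⟩ := AF.of_prim (fun L => Adm n (dl (L.getD 0 0)))
    ((comp_Adm n).comp (primrec_dl.comp (prim_get 0))) 1
  have hget : ∀ k, ∃ φ : AF, ∀ e, φ.holds e ↔ e 1 = (dl (e 0)).getD k 0 := by
    intro k
    obtain ⟨φ, hφ⟩ := AF.of_prim (fun L => L.getD 1 0 = (dl (L.getD 0 0)).getD k 0)
      (Primrec.eq.comp (prim_get 1) (prim_getD (primrec_dl.comp (prim_get 0)) (Primrec.const k))) 2
    exact ⟨φ, fun e => hφ e⟩
  choose get h_get using hget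
  obtain ⟨word, h_word⟩ := exists_val n (fun w => ([dl w], []))
    ((Primrec.list_cons.comp primrec_dl (Primrec.const [])).pair (Primrec.const []))
  obtain ⟨ring, h_ring⟩ := exists_val n dr primrec_dr
  have hfox : ∀ i, ∃ A, IsVal n (fun w => (foxPos n i (yW n (dl w)), foxNeg n i (yW n (dl w)))) A :=
    fun i => exists_val n _ (((comp_foxPos n i).comp ((comp_yW n).comp primrec_dl)).pair
      ((comp_foxNeg n i).comp ((comp_yW n).comp primrec_dl)))
  choose foxY h_foxY using hfox
  have hconst : ∀ i, ∃ A, IsVal n (fun _ => (foxPos n i (zW n i), foxNeg n i (zW n i))) A :=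
    fun i => exists_val n _ (Primrec.const _)
  choose const h_const using hconst
  have hgets : ∀ i, ∃ A, IsVal n (ds i) A :=
    fun i => exists_val n _ (primrec_dr.comp (prim_getD primrec_dl (Primrec.const i)))
  choose gets h_gets using hgets
  obtain ⟨len, h_len⟩ := AF.of_prim (fun L => (dl (L.getD 0 0)).length ≤ L.getD 1 0)
    (Primrec.nat_le.comp (Primrec.list_length.comp (primrec_dl.comp (prim_get 0))) (prim_get 1)) 2
  have hext : ∀ l, ∃ φ : AF, ∀ e, φ.holds e ↔ ∃ l', l' % (2 * n) = l ∧ dl (e 1) = dl (e 0) ++ [l'] := by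
    intro l
    have hx : Primrec (fun L : List ℕ => (dl (L.getD 1 0)).getD (dl (L.getD 0 0)).length 0) :=
      prim_getD (primrec_dl.comp (prim_get 1)) (Primrec.list_length.comp (primrec_dl.comp (prim_get 0)))
    obtain ⟨φ, hφ⟩ := AF.of_prim (fun L =>
      (dl (L.getD 1 0)).getD (dl (L.getD 0 0)).length 0 % (2 * n) = l ∧
      dl (L.getD 1 0) = dl (L.getD 0 0) ++ [(dl (L.getD 1 0)).getD (dl (L.getD 0 0)).length 0])
      (PrimrecPred.and (Primrec.eq.comp (Primrec.nat_mod.comp hx (Primrec.const _)) (Primrec.const l))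
        (Primrec.eq.comp (primrec_dl.comp (prim_get 1))
          (Primrec.list_append.comp (primrec_dl.comp (prim_get 0))
            (Primrec.list_cons.comp hx (Primrec.const []))))) 2
    refine ⟨φ, fun e => (hφ e).trans ?_⟩
    show ((dl (e 1)).getD (dl (e 0)).length 0 % (2 * n) = l ∧
      dl (e 1) = dl (e 0) ++ [(dl (e 1)).getD (dl (e 0)).length 0]) ↔ _
    constructor
    · rintro ⟨h1, h2⟩
      exact ⟨_, h1, h2⟩
    · rintro ⟨l', h1, h2⟩
      have h3 : (dl (e 1)).getD (dl (e 0)).length 0 = l' := by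
        rw [h2]
        simp
      rw [h3]
      exact ⟨h1, h2⟩
  choose ext h_ext using hext
  have hmat : PrimrecPred (fun L : List ℕ => Adm n (dl (L.getD 1 0)) → ∀ i < n,
      pval n (dl (L.getD 1 0)) (L.getD 0 0) (foxPos n i (dl (L.getD 2 0))) =
      pval n (dl (L.getD 1 0)) (L.getD 0 0) (foxNeg n i (dl (L.getD 2 0)))) := by
    have h1 : PrimrecPred (fun L : List ℕ => ∀ i < n,
      pval n (dl (L.getD 1 0)) (L.getD 0 0) (foxPos n i (dl (L.getD 2 0))) =
      pval n (dl (L.getD 1 0)) (L.getD 0 0) (foxNeg n i (dl (L.getD 2 0)))) := by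
      apply prim_ball
      intro i
      exact Primrec.eq.comp
        ((comp_pval n).comp ((primrec_dl.comp (prim_get 1)).pair ((prim_get 0).pair
          ((comp_foxPos n i).comp (primrec_dl.comp (prim_get 2))))))
        ((comp_pval n).comp ((primrec_dl.comp (prim_get 1)).pair ((prim_get 0).pair
          ((comp_foxNeg n i).comp (primrec_dl.comp (prim_get 2))))))
    have h2 : PrimrecPred (fun L : List ℕ => Adm n (dl (L.getD 1 0))) :=
      (comp_Adm n).comp (primrec_dl.comp (prim_get 1))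
    exact ((PrimrecPred.not h2).or h1).of_eq (fun L => by tauto)
  obtain ⟨mat, h_mat⟩ := AF.of_prim _ hmat 3
  refine ⟨{ adm := adm, h_adm := fun e => h_adm e, get := get, h_get := h_get, word := word,
            h_word := h_word, ring := ring, h_ring := h_ring, foxY := foxY, h_foxY := h_foxY,
            const := const, h_const := h_const, gets := gets, h_gets := h_gets, len := len,
            h_len := fun e => h_len e, ext := ext, h_ext := h_ext,
            triv := .all (.all mat), h_triv := ?_ }⟩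
  intro e
  have hsurj : Function.Surjective dl := fun L => ⟨Encodable.encode L, Denumerable.ofNat_encode L⟩
  constructor
  · intro h i hi θ hθ j
    obtain ⟨a, rfl⟩ := hsurj θ
    exact (h_mat _).1 (h a j) hθ i hi
  · intro h a b
    refine (h_mat _).2 ?_
    intro hθ i hi
    exact h i hi (dl a) hθ b

end Pool.Agent.Lib.MP_21db1f_lc
end
end
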