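import Mathlib
import Pool.Agent.Lib.MP_21db1f_lc.Defs
import Pool.Agent.Lib.MP_21db1f_lc.Affine

section

set_option autoImplicit false

namespace Pool.Agent.Lib.MP_21db1f_lc

section Functional

variable {Γ : Type} [Group Γ]

open Classical in
/-- the function which is `z ^ k` at `g c ^ k` and `0` elsewhere -/
noncomputable def phi (c g : Γ) (z : ℚ) (x : Γ) : ℚ :=
  if h : ∃ k : ℤ, x = g * c ^ k then z ^ h.choose else 0

theorem phi_pow {c : Γ} (hc : ∀ k : ℤ, c ^ k = 1 → k = 0) (g : Γ) (z : ℚ) (k : ℤ) :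
    phi c g z (g * c ^ k) = z ^ k := by
  have h : ∃ l : ℤ, g * c ^ k = g * c ^ l := ⟨k, rfl⟩
  unfold phi
  rw [dif_pos h]
  have h1 := h.choose_spec
  have h2 : c ^ (k - h.choose) = 1 := by
    rw [zpow_sub, ← mul_left_cancel h1, mul_inv_cancel]
  have h3 := hc _ h2
  congr 1
  omega

theorem phi_of_not {c g x : Γ} (z : ℚ) (h : ∀ k : ℤ, x ≠ g * c ^ k) : phi c g z x = 0 := by
  unfold phi
  rw [dif_neg (by rintro ⟨k, hk⟩; exact h k hk)]

theorem phi_mul {c : Γ} (hc : ∀ k : ℤ, c ^ k = 1 → k = 0) (g : Γ) {z : ℚ} (hz : z ≠ 0) (x : Γ) :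
    phi c g z (x * c) = phi c g z x * z := by
  by_cases h : ∃ k : ℤ, x = g * c ^ k
  · obtain ⟨k, rfl⟩ := h
    rw [phi_pow hc, mul_assoc, ← zpow_add_one, phi_pow hc, zpow_add_one₀ hz]
  · rw [phi_of_not z (fun k hk => h ⟨k, hk⟩), zero_mul]
    apply phi_of_not
    intro k hk
    refine h ⟨k - 1, ?_⟩
    rw [zpow_sub_one, ← mul_assoc, ← hk, mul_inv_cancel_right]

/-- the functional `d ↦ ∑ d(g c ^ k) z ^ k` -/
noncomputable def Lf (c g : Γ) (z : ℚ) : MonoidAlgebra ℤ Γ →+ ℚ :=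
  MonoidAlgebra.liftNC (Int.castAddHom ℚ) (phi c g z)

theorem Lf_single (c g : Γ) (z : ℚ) (x : Γ) (r : ℤ) :
    Lf c g z (MonoidAlgebra.single x r) = r * phi c g z x := by
  unfold Lf
  rw [MonoidAlgebra.liftNC_single]
  rfl

theorem Lf_of (c g : Γ) (z : ℚ) (x : Γ) :
    Lf c g z (MonoidAlgebra.of ℤ Γ x) = phi c g z x := by
  rw [MonoidAlgebra.of_apply, Lf_single, Int.cast_one, one_mul]

theorem Lf_mul {c : Γ} (hc : ∀ k : ℤ, c ^ k = 1 → k = 0) (g : Γ) {z : ℚ} (hz : z ≠ 0)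
    (v : MonoidAlgebra ℤ Γ) :
    Lf c g z (v * MonoidAlgebra.of ℤ Γ c) = Lf c g z v * z := by
  induction v using MonoidAlgebra.induction_linear with
  | zero => simp
  | add v w hv hw => rw [add_mul, map_add, hv, hw, map_add, add_mul]
  | single x r =>
    rw [MonoidAlgebra.of_apply, MonoidAlgebra.single_mul_single, mul_one, Lf_single, Lf_single,
      phi_mul hc g hz]
    ring

theorem Lf_eq_sum (c g : Γ) (z : ℚ) (d : MonoidAlgebra ℤ Γ) :
    Lf c g z d = ∑ x ∈ d.coeff.support, (d.coeff x : ℚ) * phi c g z x := by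
  conv_lhs => rw [← MonoidAlgebra.sum_coeff_single d]
  rw [Finsupp.sum, map_sum]
  exact Finset.sum_congr rfl (fun x _ => Lf_single c g z x _)

end Functional

open Classical in
theorem eval_zero {Γ : Type} [Group Γ] (c : Γ) (hc : ∀ k : ℤ, c ^ k = 1 → k = 0)
    (d : MonoidAlgebra ℤ Γ)
    (h : ∀ j : ℕ, ∃ v : MonoidAlgebra ℤ Γ, d = v * (MonoidAlgebra.of ℤ Γ c - (j : MonoidAlgebra ℤ Γ))) :
    d = 0 := by
  rw [← MonoidAlgebra.coeff_eq_zero]
  ext g
  rw [Finsupp.coe_zero, Pi.zero_apply]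
  -- the exponents
  let ex : Γ → ℤ := fun x => if h : ∃ k : ℤ, x = g * c ^ k then h.choose else 0
  have hex : ∀ k : ℤ, ex (g * c ^ k) = k := by
    intro k
    have h : ∃ l : ℤ, g * c ^ k = g * c ^ l := ⟨k, rfl⟩
    show (if h : ∃ l : ℤ, g * c ^ k = g * c ^ l then h.choose else 0) = k
    rw [dif_pos h]
    have h1 := h.choose_spec
    have h2 : c ^ (k - h.choose) = 1 := by
      rw [zpow_sub, ← mul_left_cancel h1, mul_inv_cancel]
    have h3 := hc _ h2
    omega
  obtain ⟨K, hK⟩ : ∃ K : ℕ, ∀ x ∈ d.coeff.support, 0 ≤ ex x + K := by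
    refine ⟨∑ x ∈ d.coeff.support, (ex x).natAbs, fun x hx => ?_⟩
    have h1 : (ex x).natAbs ≤ ∑ x ∈ d.coeff.support, (ex x).natAbs :=
      Finset.single_le_sum (f := fun x => (ex x).natAbs) (fun _ _ => Nat.zero_le _) hx
    omega
  let P : Polynomial ℚ := ∑ x ∈ d.coeff.support,
    if (∃ k : ℤ, x = g * c ^ k) then Polynomial.monomial (ex x + K).toNat (d.coeff x : ℚ) else 0
  have hP : ∀ j : ℕ, P.eval ((j : ℚ) + 1) = 0 := by
    intro j
    have hj : (j : ℚ) + 1 ≠ 0 := by positivity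
    have h1 : P.eval ((j : ℚ) + 1) = ((j : ℚ) + 1) ^ K * Lf c g ((j : ℚ) + 1) d := by
      rw [Lf_eq_sum, Polynomial.eval_finsetSum, Finset.mul_sum]
      refine Finset.sum_congr rfl (fun x hx => ?_)
      by_cases hk : ∃ k : ℤ, x = g * c ^ k
      · rw [if_pos hk, Polynomial.eval_monomial]
        have hKx := hK x hx
        obtain ⟨k, rfl⟩ := hk
        rw [hex] at hKx ⊢
        rw [phi_pow hc]
        have h2 : ((j : ℚ) + 1) ^ (k + K).toNat = ((j : ℚ) + 1) ^ k * ((j : ℚ) + 1) ^ K := by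
          rw [← zpow_natCast, Int.toNat_of_nonneg hKx, zpow_add₀ hj, zpow_natCast]
        rw [h2]
        ring
      · rw [if_neg hk, Polynomial.eval_zero, phi_of_not _ (fun k hk' => hk ⟨k, hk'⟩)]
        ring
    rw [h1]
    obtain ⟨v, hv⟩ := h (j + 1)
    have h3 : Lf c g ((j : ℚ) + 1) d = 0 := by
      rw [hv, mul_sub, map_sub, Lf_mul hc g hj]
      have h4 : v * ((j + 1 : ℕ) : MonoidAlgebra ℤ Γ) = (j + 1) • v := by
        rw [nsmul_eq_mul, Nat.cast_comm]
      rw [h4, map_nsmul, nsmul_eq_mul]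
      push_cast
      ring
    rw [h3, mul_zero]
  have hP0 : P = 0 := by
    apply Polynomial.eq_zero_of_infinite_isRoot
    refine Set.Infinite.mono ?_ (Set.infinite_range_of_injective (f := fun j : ℕ => (j : ℚ) + 1) ?_)
    · rintro _ ⟨j, rfl⟩
      exact hP j
    · intro i j hij
      have : (i : ℚ) + 1 = (j : ℚ) + 1 := hij
      exact_mod_cast add_right_cancel this
  by_contra hg
  have hgs : g ∈ d.coeff.support := Finsupp.mem_support_iff.mpr hg
  have hcoeff : P.coeff K = (d.coeff g : ℚ) := by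
    show (∑ x ∈ d.coeff.support, if (∃ k : ℤ, x = g * c ^ k) then
      Polynomial.monomial (ex x + K).toNat (d.coeff x : ℚ) else 0).coeff K = _
    rw [Polynomial.finsetSum_coeff, Finset.sum_eq_single g]
    · rw [if_pos ⟨0, by simp⟩, Polynomial.coeff_monomial]
      have h1 : ex g = 0 := by simpa using hex 0
      rw [h1]
      simp
    · intro x hx hxg
      by_cases hk : ∃ k : ℤ, x = g * c ^ k
      · rw [if_pos hk, Polynomial.coeff_monomial, if_neg]
        intro h5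
        obtain ⟨k, rfl⟩ := hk
        have hKx := hK _ hx
        rw [hex] at h5 hKx
        have : k = 0 := by omega
        rw [this] at hxg
        simp at hxg
      · rw [if_neg hk, Polynomial.coeff_zero]
    · intro h6
      exact absurd hgs h6
  rw [hP0, Polynomial.coeff_zero] at hcoeff
  exact hg (by exact_mod_cast hcoeff.symm)

theorem conj_zero {Γ : Type} [Group Γ] (t : ℕ → Γ)
    (ht : ∀ i j : ℕ, ∀ a b : ℤ, i ≠ j → t i ^ a = t j ^ b → a = 0)
    (d : MonoidAlgebra ℤ Γ)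
    (h : ∀ j : ℕ, ∃ v : MonoidAlgebra ℤ Γ, d = v * (MonoidAlgebra.of ℤ Γ (t j) - 1)) :
    d = 0 := by
  have hinf : ∀ j : ℕ, ∀ k : ℤ, t j ^ k = 1 → k = 0 := fun j k hk =>
    ht j (j + 1) k 0 (by omega) (by rw [hk, zpow_zero])
  rw [← MonoidAlgebra.coeff_eq_zero]
  ext g
  rw [Finsupp.coe_zero, Pi.zero_apply]
  by_contra hg
  have hex : ∀ j : ℕ, ∃ k : ℤ, k ≠ 0 ∧ g * t j ^ k ∈ d.coeff.support := by
    intro j
    by_contra hcon
    push Not at hcon
    obtain ⟨v, hv⟩ := h j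
    have h1 : Lf (t j) g 1 d = 0 := by
      rw [hv, mul_sub, map_sub, Lf_mul (hinf j) g one_ne_zero, mul_one, mul_one, sub_self]
    rw [Lf_eq_sum, Finset.sum_eq_single g] at h1
    · have h2 : phi (t j) g 1 g = 1 := by
        have := phi_pow (hinf j) g 1 0
        rwa [zpow_zero, mul_one, zpow_zero] at this
      rw [h2, mul_one] at h1
      exact hg (by exact_mod_cast h1)
    · intro x hx hxg
      rw [phi_of_not, mul_zero]
      intro k hk
      by_cases hk0 : k = 0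
      · rw [hk0, zpow_zero, mul_one] at hk
        exact hxg hk
      · exact hcon k hk0 (hk ▸ hx)
    · intro hg'
      exact absurd (Finsupp.mem_support_iff.mpr hg) hg'
  choose k hk0 hk using hex
  have hinj : Function.Injective (fun j : ℕ => g * t j ^ k j) := by
    intro i j hij
    by_contra hne
    exact hk0 i (ht i j (k i) (k j) hne (mul_left_cancel hij))
  exact Set.infinite_range_of_injective hinj
    (d.coeff.support.finite_toSet.subset (by rintro _ ⟨j, rfl⟩; exact hk j))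

theorem coset_sum {Γ : Type} [Group Γ] (c : Γ) (hc : ∀ k : ℤ, c ^ k = 1 → k = 0)
    (a b v : Γ) (d : MonoidAlgebra ℤ Γ)
    (h : d * (MonoidAlgebra.of ℤ Γ c - 1) =
      (MonoidAlgebra.of ℤ Γ a - MonoidAlgebra.of ℤ Γ b) * (MonoidAlgebra.of ℤ Γ v - 1))
    (h1 : ∀ k : ℤ, a * v ≠ b * c ^ k) (h2 : ∀ k : ℤ, a ≠ b * c ^ k) :
    ∃ k : ℤ, v = c ^ k := by
  by_contra hcon
  push Not at hcon
  have h3 := congrArg (Lf c b 1) h
  rw [mul_sub, map_sub, Lf_mul hc b one_ne_zero, mul_one, mul_one, sub_self, sub_mul, mul_sub,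
    mul_sub, ← map_mul, ← map_mul, mul_one, mul_one, map_sub, map_sub, map_sub, Lf_of, Lf_of,
    Lf_of, Lf_of, phi_of_not 1 h1, phi_of_not 1 h2] at h3
  have h4 : phi c b 1 b = 1 := by
    have := phi_pow hc b 1 0
    rwa [zpow_zero, mul_one, zpow_zero] at this
  have h5 : phi c b 1 (b * v) = 0 :=
    phi_of_not 1 (fun k hk => hcon k (mul_left_cancel hk))
  rw [h4, h5] at h3
  norm_num at h3

end Pool.Agent.Lib.MP_21db1f_lc
end

section

set_option autoImplicit false

namespace Pool.Agent.Lib.MP_21db1f_lc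

open Pool.Agent.Lib.MP_21db1f_lc.Affine

/-- the affine permutation `z ↦ u z + b` of a field -/
def affK {K : Type} [Field K] (u : Kˣ) (b : K) : Equiv.Perm K where
  toFun z := u * z + b
  invFun z := (u⁻¹ : Kˣ) * (z - b)
  left_inv z := by simp
  right_inv z := by simp

theorem affK_apply {K : Type} [Field K] (u : Kˣ) (b z : K) : affK u b z = u * z + b := rfl

/-- The free metabelian group acts by affine maps with arbitrary nonzero multipliers. -/
theorem exists_affine_field (n : ℕ) {K : Type} [Field K] (m β : ℕ → K) (hm : ∀ i, m i ≠ 0) :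
    ∃ ρ : G2 n →* Equiv.Perm K, ∀ i < n, ∀ z, ρ (x2 n i) z = m i * z + β i := by
  let u : Fin n → Kˣ := fun i => Units.mk0 (m i) (hm i)
  let ρ₀ : FF n →* Equiv.Perm K := FreeGroup.lift (fun i => affK (u i) (β i))
  let mu : FF n →* Kˣ := FreeGroup.lift u
  have haff : ∀ g z, ρ₀ g z = (mu g : K) * z + ρ₀ g 0 := by
    intro g
    induction g using FreeGroup.induction_on with
    | C1 => intro z; simp
    | of i =>
      intro z
      have h1 : ρ₀ (FreeGroup.of i) = affK (u i) (β i) := FreeGroup.lift_apply_of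
      have h2 : mu (FreeGroup.of i) = u i := FreeGroup.lift_apply_of
      rw [h1, h2, affK_apply, affK_apply]
      ring
    | inv_of i _ =>
      intro z
      have h1 : ρ₀ (FreeGroup.of i) = affK (u i) (β i) := FreeGroup.lift_apply_of
      have h2 : mu (FreeGroup.of i) = u i := FreeGroup.lift_apply_of
      rw [map_inv, map_inv, h1, h2]
      show ((u i)⁻¹ : Kˣ) * (z - _) = ((u i)⁻¹ : Kˣ) * z + ((u i)⁻¹ : Kˣ) * (0 - _)
      ring
    | mul a b ha hb =>
      intro z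
      rw [map_mul, map_mul, Equiv.Perm.mul_apply, Equiv.Perm.mul_apply, ha (ρ₀ b z), hb z,
        ha (ρ₀ b 0), Units.val_mul]
      ring
  have hk := kills_second mu ρ₀ haff
  refine ⟨QuotientGroup.lift _ ρ₀ (fun g hg => hk hg), ?_⟩
  intro i hi z
  have h1 : (QuotientGroup.lift (derivedSeries (FF n) 2) ρ₀ (fun g hg => hk hg)) (x2 n i) =
      ρ₀ (FreeGroup.of ⟨i, hi⟩) := by
    unfold x2 xF
    rw [dif_pos hi]
    rfl
  rw [h1]
  have h2 : ρ₀ (FreeGroup.of ⟨i, hi⟩) = affK (u ⟨i, hi⟩) (β i) := FreeGroup.lift_apply_of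
  rw [h2, affK_apply]
  rfl

end Pool.Agent.Lib.MP_21db1f_lc
end

section

set_option autoImplicit false

namespace Pool.Agent.Lib.MP_21db1f_lc
open scoped commutatorElement

/-! ## Basic rules for the Magnus coordinates -/

section basic
variable {n : ℕ}

theorem Scalars.sg_one : sg (1 : G2 n) = 1 := map_one _
theorem Scalars.sg_mul (g h : G2 n) : sg (g * h) = sg g * sg h := map_mul _ g h
theorem Scalars.sg_inj {g h : G2 n} (H : sg g = sg h) : g = h := MonoidAlgebra.of_injective H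

theorem Scalars.D_one (i : Fin n) : D3 n 1 i = 0 := by
  have h := D3_mul n 1 1 i
  rw [mul_one, map_one, Scalars.sg_one, mul_one] at h
  exact left_eq_add.mp h

theorem Scalars.D_mulM (g h : G3 n) (hh : pr n h = 1) (i : Fin n) :
    D3 n (g * h) i = D3 n g i + D3 n h i := by
  rw [D3_mul, hh, Scalars.sg_one, mul_one]

theorem Scalars.D_inv (g : G3 n) (i : Fin n) :
    D3 n g⁻¹ i = - (D3 n g i * sg (pr n g)⁻¹) := by
  have h := D3_mul n g g⁻¹ i
  rw [mul_inv_cancel, Scalars.D_one, map_inv] at h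
  rw [eq_neg_iff_add_eq_zero, add_comm]
  exact h.symm

theorem Scalars.D_invM (g : G3 n) (hg : pr n g = 1) (i : Fin n) :
    D3 n g⁻¹ i = - D3 n g i := by
  rw [Scalars.D_inv, hg, inv_one, Scalars.sg_one, mul_one]

theorem Scalars.D_cj (g a : G3 n) (ha : pr n a = 1) (i : Fin n) :
    D3 n (cj g a) i = D3 n a i * sg (pr n g) := by
  unfold cj
  rw [D3_mul, D3_mul, ha, Scalars.sg_one, mul_one, Scalars.D_inv, add_mul, neg_mul, mul_assoc,
    ← Scalars.sg_mul, inv_mul_cancel, Scalars.sg_one, mul_one]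
  abel

theorem Scalars.pr_cj (g a : G3 n) (ha : pr n a = 1) : pr n (cj g a) = 1 := by
  unfold cj
  rw [map_mul, map_mul, ha, map_inv]
  group

theorem Scalars.ext {g h : G3 n} (H : ∀ i, D3 n g i = D3 n h i) : g = h :=
  D3_injective n (funext H)

theorem Scalars.eq_one {g : G3 n} (H : ∀ i, D3 n g i = 0) : g = 1 :=
  Scalars.ext (fun i => by rw [H i, Scalars.D_one])

theorem Scalars.exists_ne {g : G3 n} (H : g ≠ 1) : ∃ i, D3 n g i ≠ 0 := by
  by_contra h
  push Not at h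
  exact H (Scalars.eq_one h)

theorem Scalars.comm_M {a b : G3 n} (ha : pr n a = 1) (hb : pr n b = 1) : a * b = b * a := by
  apply Scalars.ext
  intro i
  rw [Scalars.D_mulM a b hb, Scalars.D_mulM b a ha, add_comm]

theorem Scalars.D_pow (a : G3 n) (ha : pr n a = 1) (k : ℤ) (i : Fin n) :
    D3 n (a ^ k) i = k • D3 n a i := by
  have hk : ∀ k : ℤ, pr n (a ^ k) = 1 := by
    intro k; rw [map_zpow, ha, one_zpow]
  induction k using Int.induction_on with
  | zero => rw [zpow_zero, Scalars.D_one, zero_smul]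
  | succ k ih =>
    rw [zpow_add_one, Scalars.D_mulM _ _ ha, ih, add_smul, one_smul]
  | pred k ih =>
    rw [zpow_sub_one, Scalars.D_mulM _ _ (by rw [map_inv, ha, inv_one]), Scalars.D_invM a ha, ih,
      sub_smul, one_smul]
    abel

theorem Scalars.InM_of_pr {g : G3 n} (h : pr n g = 1) : InM g := by
  intro k
  exact Scalars.comm_M h (Scalars.pr_cj k g h)

theorem Scalars.pr_x3 (i : ℕ) : pr n (x3 n i) = x2 n i := rfl

theorem Scalars.pr_cc : pr n (cc (x3 n)) = cc (x2 n) := by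
  unfold cc
  simp only [map_mul, map_inv, Scalars.pr_x3]

end basic

/-! ## Affine actions -/

section act
variable {n : ℕ}

/-- the commutator `x_0 x_i x_0⁻¹ x_i⁻¹` acts by a translation -/
theorem Scalars.act_d {K : Type} [Field K] {m β : ℕ → K} {ρ : G2 n →* Equiv.Perm K}
    (hρ : ∀ i < n, ∀ z, ρ (x2 n i) z = m i * z + β i) (i : ℕ) (hn : 0 < n) (hi : i < n) (z : K) :
    ρ (x2 n 0 * x2 n i * (x2 n 0)⁻¹ * (x2 n i)⁻¹) z = z + ((m 0 - 1) * β i - (m i - 1) * β 0) := by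
  rw [map_mul, map_mul, map_mul, map_inv, map_inv, Equiv.Perm.mul_apply, Equiv.Perm.mul_apply,
    Equiv.Perm.mul_apply]
  set y := (ρ (x2 n 0))⁻¹ ((ρ (x2 n i))⁻¹ z) with hy
  have hz : z = ρ (x2 n i) (ρ (x2 n 0) y) := by
    rw [hy]
    exact ((Equiv.apply_symm_apply (ρ (x2 n i)) z).symm.trans
      (congrArg (ρ (x2 n i)) (Equiv.apply_symm_apply (ρ (x2 n 0)) _).symm))
  rw [hz, hρ 0 hn, hρ i hi, hρ i hi, hρ 0 hn]
  ring

theorem Scalars.act_zpow {K : Type} [Field K] {ρ : G2 n →* Equiv.Perm K} {g : G2 n} {δ : K}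
    (h : ∀ z, ρ g z = z + δ) (k : ℤ) (z : K) : ρ (g ^ k) z = z + k * δ := by
  have hinv : ∀ z, (ρ g)⁻¹ z = z - δ := by
    intro z
    rw [Equiv.Perm.inv_eq_iff_eq, h]; ring
  induction k using Int.induction_on generalizing z with
  | zero => simp
  | succ k ih =>
    rw [zpow_add_one, map_mul, Equiv.Perm.mul_apply, h, ih]; push_cast; ring
  | pred k ih =>
    rw [zpow_sub_one, map_mul, map_inv, Equiv.Perm.mul_apply, hinv, ih]; push_cast; ring

theorem Scalars.act_pow {K : Type} [Field K] {ρ : G2 n →* Equiv.Perm K} {g : G2 n} {μ : K}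
    (h : ∀ z, ρ g z = μ * z) (j : ℕ) (z : K) : ρ (g ^ j) z = μ ^ j * z := by
  induction j generalizing z with
  | zero => simp
  | succ j ih => rw [pow_succ, map_mul, Equiv.Perm.mul_apply, h, ih]; ring

theorem Scalars.act_conj {K : Type} [Field K] {ρ : G2 n →* Equiv.Perm K} {g c : G2 n} {μ : K}
    (hμ : μ ≠ 0) (h : ∀ z, ρ g z = μ * z) (hc : ∀ z, ρ c z = z + 1) (j : ℕ) (z : K) :
    ρ ((g ^ j)⁻¹ * c * g ^ j) z = z + (μ ^ j)⁻¹ := by
  rw [map_mul, map_mul, map_inv, Equiv.Perm.mul_apply, Equiv.Perm.mul_apply,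
    Equiv.Perm.inv_eq_iff_eq, hc, Scalars.act_pow h, Scalars.act_pow h, mul_add,
    mul_inv_cancel₀ (pow_ne_zero _ hμ)]

/-- the element `x_0 x_i x_0⁻¹ x_i⁻¹` -/
def Scalars.dd {H : Type} [Group H] (x : ℕ → H) (i : ℕ) : H := x 0 * x i * (x 0)⁻¹ * (x i)⁻¹

theorem Scalars.exists_rho (n : ℕ) (μ : ℚ) (h0 : μ ≠ 0) (h1 : μ ≠ 1) :
    ∃ ρ : G2 n →* Equiv.Perm ℚ, (0 < n → ∀ z, ρ (x2 n 0) z = μ * z) ∧
      (∀ i, 1 ≤ i → i < n → ∀ z, ρ (x2 n i) z = z + (μ - 1)⁻¹) ∧
      (∀ i, 1 ≤ i → i < n → ∀ z, ρ (Scalars.dd (x2 n) i) z = z + 1) := by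
  obtain ⟨ρ, hρ⟩ := exists_affine_field n (K := ℚ) (fun i => if i = 0 then μ else 1)
    (fun i => if i = 0 then 0 else (μ - 1)⁻¹) (by intro i; split_ifs <;> simp [h0])
  refine ⟨ρ, ?_, ?_, ?_⟩
  · intro hn z
    rw [hρ 0 hn]; simp
  · intro i hi hin z
    rw [hρ i hin]
    have : i ≠ 0 := by omega
    simp [this]
  · intro i hi hin z
    have h2 := Scalars.act_d hρ i (by omega) hin z
    have h3 : i ≠ 0 := by omega
    unfold Scalars.dd
    rw [h2]
    have h4 : μ - 1 ≠ 0 := sub_ne_zero.2 h1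
    simp [h3, mul_inv_cancel₀ h4]

theorem Scalars.pr_dd (i : ℕ) : pr n (Scalars.dd (x3 n) i) = Scalars.dd (x2 n) i := by
  unfold Scalars.dd
  simp only [map_mul, map_inv, Scalars.pr_x3]

theorem Scalars.dd_order (i : ℕ) (hi : 1 ≤ i) (hin : i < n) (k : ℤ)
    (h : Scalars.dd (x2 n) i ^ k = 1) : k = 0 := by
  obtain ⟨ρ, -, -, h3⟩ := Scalars.exists_rho n 2 (by norm_num) (by norm_num)
  have h4 := Scalars.act_zpow (h3 i hi hin) k 0
  rw [h] at h4
  simp at h4
  exact_mod_cast h4.symm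

theorem Scalars.D_dd (i : ℕ) (hi : 1 ≤ i) (hin : i < n) :
    D3 n (Scalars.dd (x3 n) i) ⟨i, hin⟩ =
      sg ((x2 n 0)⁻¹ * (x2 n i)⁻¹) - sg ((x2 n i)⁻¹) := by
  have e0 : D3 n (x3 n 0) ⟨i, hin⟩ = 0 := by
    have h := D3_x n ⟨0, by omega⟩
    simp only at h
    rw [h]
    apply Pi.single_eq_of_ne
    intro h'
    have := congrArg Fin.val h'
    simp at this
    omega
  have e1 : D3 n (x3 n i) ⟨i, hin⟩ = 1 := by
    have h := D3_x n ⟨i, hin⟩
    simp only at h
    rw [h, Pi.single_eq_same]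
  unfold Scalars.dd
  rw [D3_mul, D3_mul, D3_mul, Scalars.D_inv, Scalars.D_inv, e0, e1]
  simp only [Scalars.pr_x3, map_inv, Scalars.sg_mul]
  noncomm_ring

theorem Scalars.D_comm {g h : G3 n} (H : g * h = h * g) (i : Fin n) :
    D3 n g i * (sg (pr n h) - 1) = D3 n h i * (sg (pr n g) - 1) := by
  have h1 := D3_mul n g h i
  rw [H, D3_mul] at h1
  rw [mul_sub, mul_sub, mul_one, mul_one, sub_eq_sub_iff_add_eq_add]
  exact h1.symm

theorem Scalars.comm_dd (i : ℕ) (hi : 1 ≤ i) (hin : i < n) (g : G3 n)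
    (H : g * Scalars.dd (x3 n) i = Scalars.dd (x3 n) i * g) :
    ∃ k : ℤ, pr n g = Scalars.dd (x2 n) i ^ k := by
  have h1 := Scalars.D_comm H ⟨i, hin⟩
  rw [Scalars.D_dd i hi hin, Scalars.pr_dd] at h1
  obtain ⟨ρ, r0, r1, r2⟩ := Scalars.exists_rho n 2 (by norm_num) (by norm_num)
  have r0' := r0 (by omega)
  have r1' := r1 i hi hin
  have r2' := r2 i hi hin
  norm_num at r1'
  have hv : ∀ z, ρ (pr n g) (z + 1) = ρ (pr n g) z + 1 := by
    intro z
    have h2 := congrArg (fun t => ρ (pr n t) z) H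
    simp only [map_mul, Scalars.pr_dd, Equiv.Perm.mul_apply] at h2
    rw [r2', r2'] at h2
    exact h2
  have i0 : ∀ z, (ρ (x2 n 0))⁻¹ z = z / 2 := by
    intro z; rw [Equiv.Perm.inv_eq_iff_eq, r0']; ring
  have i1 : ∀ z, (ρ (x2 n i))⁻¹ z = z - 1 := by
    intro z; rw [Equiv.Perm.inv_eq_iff_eq, r1']; ring
  have hck := Scalars.act_zpow r2'
  apply coset_sum (Scalars.dd (x2 n) i) (Scalars.dd_order i hi hin) ((x2 n 0)⁻¹ * (x2 n i)⁻¹)
    ((x2 n i)⁻¹) (pr n g) (D3 n g ⟨i, hin⟩) h1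
  · intro k hk
    have e0 := congrArg (fun t => ρ t 0) hk
    have e1 := congrArg (fun t => ρ t 1) hk
    simp only [map_mul, map_inv, Equiv.Perm.mul_apply, i0, i1, hck] at e0 e1
    have hv0 := hv 0
    rw [zero_add] at hv0
    rw [hv0] at e1
    linarith
  · intro k hk
    have e0 := congrArg (fun t => ρ t 0) hk
    have e1 := congrArg (fun t => ρ t 1) hk
    simp only [map_mul, map_inv, Equiv.Perm.mul_apply, i0, i1, hck] at e0 e1
    linarith

/-! ## Words -/

theorem Scalars.evalW_append {H : Type} [Group H] (n : ℕ) (x : ℕ → H) (v w : List ℕ) :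
    evalW n x (v ++ w) = evalW n x v * evalW n x w := by
  unfold evalW
  rw [List.map_append, List.prod_append]

theorem Scalars.letter_invL {H : Type} [Group H] (n : ℕ) (hn : 1 ≤ n) (x : ℕ → H) (l : ℕ) :
    letter n x (invL n l) = (letter n x l)⁻¹ := by
  have hr : l % (2 * n) < 2 * n := Nat.mod_lt _ (by omega)
  unfold letter invL
  set r := l % (2 * n) with hrd
  by_cases h : r % 2 = 0
  · rw [if_pos h, if_pos h]
    have h1 : (r + 1) % (2 * n) = r + 1 := Nat.mod_eq_of_lt (by omega)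
    rw [h1, if_neg (by omega)]
    congr 2
    omega
  · rw [if_neg h, if_neg h]
    have h1 : (r - 1) % (2 * n) = r - 1 := Nat.mod_eq_of_lt (by omega)
    rw [h1, if_pos (by omega), inv_inv]
    congr 1
    omega

theorem Scalars.evalW_invW {H : Type} [Group H] (n : ℕ) (hn : 1 ≤ n) (x : ℕ → H) (w : List ℕ) :
    evalW n x (invW n w) = (evalW n x w)⁻¹ := by
  induction w with
  | nil => simp [evalW, invW]
  | cons l w ih =>
    have h1 : invW n (l :: w) = invW n w ++ [invL n l] := by simp [invW]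
    have h2 : evalW n x (l :: w) = letter n x l * evalW n x w := by simp [evalW]
    rw [h1, Scalars.evalW_append, ih, h2, mul_inv_rev]
    congr 1
    simp [evalW, Scalars.letter_invL n hn x l]

theorem Scalars.letter_even {H : Type} [Group H] (n : ℕ) (x : ℕ → H) (i : ℕ) (hi : i < n) :
    letter n x (2 * i) = x i := by
  have h : (2 * i) % (2 * n) = 2 * i := Nat.mod_eq_of_lt (by omega)
  unfold letter
  rw [h, if_pos (by omega)]
  congr 1
  omega

theorem Scalars.letter_odd {H : Type} [Group H] (n : ℕ) (x : ℕ → H) (i : ℕ) (hi : i < n) :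
    letter n x (2 * i + 1) = (x i)⁻¹ := by
  have h : (2 * i + 1) % (2 * n) = 2 * i + 1 := Nat.mod_eq_of_lt (by omega)
  unfold letter
  rw [h, if_neg (by omega)]
  congr 2
  omega

theorem Scalars.evalW_dW {H : Type} [Group H] (n : ℕ) (x : ℕ → H) (i : ℕ) (hi : i < n) :
    evalW n x (dW i) = Scalars.dd x i := by
  have h0 : letter n x 0 = x 0 := Scalars.letter_even n x 0 (by omega)
  have h1 : letter n x 1 = (x 0)⁻¹ := Scalars.letter_odd n x 0 (by omega)
  simp only [evalW, dW, List.map_cons, List.map_nil, List.prod_cons, List.prod_nil, h0, h1,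
    Scalars.letter_even n x i hi, Scalars.letter_odd n x i hi, mul_one, Scalars.dd, mul_assoc]

theorem Scalars.zz_eq {H : Type} [Group H] (n : ℕ) (x : ℕ → H) (i : ℕ) (hi : i < n) :
    zz n x i = ((x 0)⁻¹ * Scalars.dd x i * x 0)⁻¹ * (Scalars.dd x i)⁻¹ *
      ((x 0)⁻¹ * Scalars.dd x i * x 0) * Scalars.dd x i := by
  have h0 : evalW n x [0] = x 0 := by
    simp only [evalW, List.map_cons, List.map_nil, List.prod_cons, List.prod_nil, mul_one]
    exact Scalars.letter_even n x 0 (by omega)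
  have h1 : evalW n x [1] = (x 0)⁻¹ := by
    simp only [evalW, List.map_cons, List.map_nil, List.prod_cons, List.prod_nil, mul_one]
    exact Scalars.letter_odd n x 0 (by omega)
  unfold zz zW
  rw [Scalars.evalW_append, Scalars.evalW_append, Scalars.evalW_append,
    Scalars.evalW_invW n (by omega), Scalars.evalW_invW n (by omega), Scalars.evalW_append,
    Scalars.evalW_append, Scalars.evalW_dW n x i hi, h0, h1]

end act

/-! ## The requested theorems -/

theorem Scalars.cc_eq {H : Type} [Group H] (x : ℕ → H) : cc x = Scalars.dd x 1 := rfl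

theorem cc2_order (n : ℕ) (hn : 2 ≤ n) (k : ℤ) (h : cc (x2 n) ^ k = 1) : k = 0 :=
  Scalars.dd_order 1 le_rfl hn k h

theorem Scalars.comm2 {n : ℕ} (hn : 2 ≤ n) {a b : G2 n} (ha : a ∈ commutator (G2 n))
    (hb : b ∈ commutator (G2 n)) : a * b = b * a := by
  have h1 : commutator (G2 n) = (commutator (FF n)).map (QuotientGroup.mk' (derivedSeries (FF n) 2)) := by
    rw [commutator_def, commutator_def, Subgroup.map_commutator]
    congr 1 <;> exact (MonoidHom.range_eq_map _).symm.trans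
      (MonoidHom.range_eq_top.2 (QuotientGroup.mk'_surjective _)) |>.symm
  rw [h1] at ha hb
  obtain ⟨u, hu, rfl⟩ := ha
  obtain ⟨v, hv, rfl⟩ := hb
  rw [← map_mul, ← map_mul]
  apply QuotientGroup.eq.2
  have h2 : (u * v)⁻¹ * (v * u) = ⁅v⁻¹, u⁻¹⁆ := by
    simp [commutatorElement_def, mul_assoc]
  rw [h2, derivedSeries_succ, derivedSeries_one]
  exact Subgroup.commutator_mem_commutator (inv_mem hv) (inv_mem hu)

theorem exists_M (n : ℕ) (hn : 2 ≤ n) (i : ℕ) (hi : 1 ≤ i) (hi2 : i < n) :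
    InM (zz n (x3 n) i) ∧ zz n (x3 n) i ≠ 1 := by
  have hz := Scalars.zz_eq n (x3 n) i hi2
  have hd : Scalars.dd (x2 n) i ∈ commutator (G2 n) :=
    Subgroup.commutator_mem_commutator (Subgroup.mem_top _) (Subgroup.mem_top _)
  have hu : (x2 n 0)⁻¹ * Scalars.dd (x2 n) i * x2 n 0 ∈ commutator (G2 n) := by
    have := (inferInstance : (commutator (G2 n)).Normal).conj_mem _ hd (x2 n 0)⁻¹
    rwa [inv_inv] at this
  constructor
  · apply Scalars.InM_of_pr
    rw [hz]
    simp only [map_mul, map_inv, Scalars.pr_dd, Scalars.pr_x3]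
    have h1 := Scalars.comm2 hn hu hd
    set u := (x2 n 0)⁻¹ * Scalars.dd (x2 n) i * x2 n 0
    have h2 : u⁻¹ * (Scalars.dd (x2 n) i)⁻¹ * u * Scalars.dd (x2 n) i =
        u⁻¹ * (Scalars.dd (x2 n) i)⁻¹ * (u * Scalars.dd (x2 n) i) := by group
    rw [h2, h1]
    group
  · intro h
    rw [hz] at h
    set u := (x3 n 0)⁻¹ * Scalars.dd (x3 n) i * x3 n 0 with hud
    have h1 : u * Scalars.dd (x3 n) i = Scalars.dd (x3 n) i * u := by
      have h2 : u⁻¹ * (Scalars.dd (x3 n) i)⁻¹ * (u * Scalars.dd (x3 n) i) = 1 := by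
        rw [← h]; group
      have h3 := eq_inv_of_mul_eq_one_right h2
      rw [h3]; group
    obtain ⟨k, hk⟩ := Scalars.comm_dd i hi hi2 u h1
    obtain ⟨ρ, r0, -, r2⟩ := Scalars.exists_rho n 2 (by norm_num) (by norm_num)
    have e := congrArg (fun t => ρ t 0) hk
    have h4 : pr n u = (x2 n 0 ^ 1)⁻¹ * Scalars.dd (x2 n) i * x2 n 0 ^ 1 := by
      rw [hud, pow_one]
      simp only [map_mul, map_inv, Scalars.pr_dd, Scalars.pr_x3]
    simp only [h4] at e
    rw [Scalars.act_conj (by norm_num) (r0 (by omega)) (r2 i hi hi2),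
      Scalars.act_zpow (r2 i hi hi2)] at e
    simp only [zero_add, pow_one, mul_one] at e
    have h5 : (1 : ℚ) = 2 * k := by
      rw [← e]; norm_num
    have h6 : (1 : ℤ) = 2 * k := by exact_mod_cast h5
    omega

theorem Scalars.sg_ne {n : ℕ} {g : G2 n} (h : g ≠ 1) : sg g - 1 ≠ 0 := by
  intro h1
  apply h
  apply Scalars.sg_inj
  rw [Scalars.sg_one]
  exact sub_eq_zero.1 h1

theorem InM_iff (n : ℕ) (hn : 2 ≤ n) (g : G3 n) : InM g ↔ pr n g = 1 := by
  have := lam_noZeroDivisors n hn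
  refine ⟨?_, Scalars.InM_of_pr⟩
  intro hg
  by_contra hne
  -- a nontrivial element of the kernel
  have hz := Scalars.zz_eq n (x3 n) 1 (by omega)
  obtain ⟨m, hm, hm1⟩ : ∃ m : G3 n, pr n m = 1 ∧ m ≠ 1 := by
    refine ⟨zz n (x3 n) 1, ?_, (exists_M n hn 1 le_rfl (by omega)).2⟩
    have hd : Scalars.dd (x2 n) 1 ∈ commutator (G2 n) :=
      Subgroup.commutator_mem_commutator (Subgroup.mem_top _) (Subgroup.mem_top _)
    have hu : (x2 n 0)⁻¹ * Scalars.dd (x2 n) 1 * x2 n 0 ∈ commutator (G2 n) := by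
      have := (inferInstance : (commutator (G2 n)).Normal).conj_mem _ hd (x2 n 0)⁻¹
      rwa [inv_inv] at this
    rw [hz]
    simp only [map_mul, map_inv, Scalars.pr_dd, Scalars.pr_x3]
    have h1 := Scalars.comm2 hn hu hd
    set u := (x2 n 0)⁻¹ * Scalars.dd (x2 n) 1 * x2 n 0
    have h2 : u⁻¹ * (Scalars.dd (x2 n) 1)⁻¹ * u * Scalars.dd (x2 n) 1 =
        u⁻¹ * (Scalars.dd (x2 n) 1)⁻¹ * (u * Scalars.dd (x2 n) 1) := by group
    rw [h2, h1]
    group
  obtain ⟨i, hi⟩ := Scalars.exists_ne hm1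
  have hmm := hg m
  have hpr : pr n (cj m g) = pr n g := by
    unfold cj
    rw [map_mul, map_mul, map_inv, hm]
    group
  have hD : D3 n (cj m g) i = D3 n g i - D3 n m i * (sg (pr n g) - 1) := by
    unfold cj
    rw [D3_mul, D3_mul, hm, Scalars.sg_one, mul_one, Scalars.D_invM m hm]
    noncomm_ring
  have h1 := Scalars.D_comm hmm i
  rw [hpr, hD, sub_mul] at h1
  have h2 : D3 n m i * (sg (pr n g) - 1) * (sg (pr n g) - 1) = 0 := by
    have := sub_eq_self.1 h1.symm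
    exact this
  rcases mul_eq_zero.1 h2 with h3 | h3
  · rcases mul_eq_zero.1 h3 with h4 | h4
    · exact hi h4
    · exact Scalars.sg_ne hne h4
  · exact Scalars.sg_ne hne h3

theorem Scalars.cc_ne (n : ℕ) (hn : 2 ≤ n) : cc (x2 n) ≠ 1 := by
  intro h
  have := cc2_order n hn 1 (by rw [h, one_zpow])
  omega

theorem cent_iff (n : ℕ) (hn : 2 ≤ n) (g : G3 n) :
    g * cc (x3 n) = cc (x3 n) * g ↔ ∃ k : ℤ, g = cc (x3 n) ^ k := by
  have := lam_noZeroDivisors n hn
  constructor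
  · intro h
    obtain ⟨k, hk⟩ := Scalars.comm_dd 1 le_rfl hn g h
    refine ⟨k, ?_⟩
    have hk' : pr n g = pr n (cc (x3 n) ^ k) := by
      rw [hk, map_zpow, Scalars.pr_cc]; rfl
    set m := (cc (x3 n) ^ k)⁻¹ * g with hm
    have hm1 : pr n m = 1 := by
      rw [hm, map_mul, map_inv, ← hk', inv_mul_cancel]
    have hcomm : m * cc (x3 n) = cc (x3 n) * m := by
      have h1 : Commute (cc (x3 n)) g := h.symm
      have h2 : Commute (cc (x3 n)) ((cc (x3 n) ^ k)⁻¹) :=
        ((Commute.refl (cc (x3 n))).zpow_right k).inv_right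
      exact (h2.mul_right h1).symm
    have hm0 : m = 1 := by
      apply Scalars.eq_one
      intro i
      have h3 := Scalars.D_comm hcomm i
      rw [hm1, Scalars.sg_one, sub_self, mul_zero, Scalars.pr_cc] at h3
      rcases mul_eq_zero.1 h3 with h4 | h4
      · exact h4
      · exact absurd h4 (Scalars.sg_ne (Scalars.cc_ne n hn))
    rw [hm, inv_mul_eq_one] at hm0
    exact hm0.symm
  · rintro ⟨k, rfl⟩
    exact ((Commute.refl (cc (x3 n))).zpow_left k)

/-- the explicit solution `e = a (1 + t + … + t^(k-1))` -/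
theorem Scalars.exists_e {n : ℕ} (t a : G3 n) (ha : pr n a = 1) (k : ℤ) :
    ∃ e, pr n e = 1 ∧ cj t e * e⁻¹ = cj (t ^ k) a * a⁻¹ ∧ ∃ v, pr n v = 1 ∧ a ^ k * e⁻¹ = cj t v * v⁻¹ := by
  have hcj : ∀ (g b : G3 n), pr n b = 1 → pr n (cj g b) = 1 := fun g b hb => Scalars.pr_cj g b hb
  have hpa : ∀ k : ℤ, pr n (a ^ k) = 1 := by intro k; rw [map_zpow, ha, one_zpow]
  induction k using Int.induction_on with
  | zero =>
    refine ⟨1, map_one _, ?_, 1, map_one _, ?_⟩ <;> simp [cj]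
  | succ k ih =>
    obtain ⟨e, he, h1, v, hv, h2⟩ := ih
    refine ⟨e * cj (t ^ (k : ℤ)) a, by rw [map_mul, he, hcj _ _ ha, one_mul], ?_,
      v * e⁻¹, by rw [map_mul, map_inv, hv, he]; simp, ?_⟩
    · apply Scalars.ext
      intro i
      have h1' := congrArg (fun g => D3 n g i) h1
      beta_reduce at h1'
      rw [Scalars.D_mulM _ _ (by rw [map_inv, he, inv_one]), Scalars.D_mulM _ _ (by rw [map_inv, ha, inv_one]),
        Scalars.D_invM _ he, Scalars.D_invM _ ha, Scalars.D_cj _ _ he, Scalars.D_cj _ _ ha] at h1'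
      have hea : pr n (e * cj (t ^ (k : ℤ)) a) = 1 := by rw [map_mul, he, hcj _ _ ha, one_mul]
      rw [Scalars.D_mulM _ _ (by rw [map_inv, hea, inv_one]), Scalars.D_mulM _ _ (by rw [map_inv, ha, inv_one]),
        Scalars.D_invM _ hea, Scalars.D_invM _ ha, Scalars.D_cj _ _ hea, Scalars.D_cj _ _ ha,
        Scalars.D_mulM _ _ (hcj _ _ ha), Scalars.D_cj _ _ ha, zpow_add_one, map_mul, Scalars.sg_mul]
      have h3 : D3 n e i * sg (pr n t) - D3 n e i = D3 n a i * sg (pr n (t ^ (k : ℤ))) - D3 n a i := by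
        rw [sub_eq_add_neg, h1', sub_eq_add_neg]
      have h4 : D3 n e i * sg (pr n t) = D3 n e i + D3 n a i * sg (pr n (t ^ (k : ℤ))) - D3 n a i := by
        rw [add_sub_assoc, ← h3]; abel
      rw [add_mul, h4, mul_assoc]
      abel
    · apply Scalars.ext
      intro i
      have h1' := congrArg (fun g => D3 n g i) h1
      have h2' := congrArg (fun g => D3 n g i) h2
      beta_reduce at h1' h2'
      rw [Scalars.D_mulM _ _ (by rw [map_inv, he, inv_one]), Scalars.D_mulM _ _ (by rw [map_inv, ha, inv_one]),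
        Scalars.D_invM _ he, Scalars.D_invM _ ha, Scalars.D_cj _ _ he, Scalars.D_cj _ _ ha] at h1'
      rw [Scalars.D_mulM _ _ (by rw [map_inv, he, inv_one]), Scalars.D_mulM _ _ (by rw [map_inv, hv, inv_one]),
        Scalars.D_invM _ he, Scalars.D_invM _ hv, Scalars.D_cj _ _ hv] at h2'
      have hea : pr n (e * cj (t ^ (k : ℤ)) a) = 1 := by rw [map_mul, he, hcj _ _ ha, one_mul]
      have hve : pr n (v * e⁻¹) = 1 := by rw [map_mul, map_inv, hv, he]; simp
      rw [Scalars.D_mulM _ _ (by rw [map_inv, hea, inv_one]), Scalars.D_mulM _ _ (by rw [map_inv, hve, inv_one]),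
        Scalars.D_invM _ hea, Scalars.D_invM _ hve, Scalars.D_cj _ _ hve,
        Scalars.D_mulM _ _ (hcj _ _ ha), Scalars.D_cj _ _ ha, Scalars.D_mulM _ _ (by rw [map_inv, he, inv_one]),
        Scalars.D_invM _ he, zpow_add_one, Scalars.D_mulM _ _ ha]
      have h3 : D3 n e i * sg (pr n t) = D3 n e i + D3 n a i * sg (pr n (t ^ (k : ℤ))) - D3 n a i := by
        have : D3 n e i * sg (pr n t) - D3 n e i = D3 n a i * sg (pr n (t ^ (k : ℤ))) - D3 n a i := by
          rw [sub_eq_add_neg, h1', sub_eq_add_neg]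
        rw [add_sub_assoc, ← this]; abel
      have h4 : D3 n (a ^ (k : ℤ)) i = D3 n e i + (D3 n v i * sg (pr n t) - D3 n v i) := by
        rw [sub_eq_add_neg, ← h2']; abel
      rw [add_mul, neg_mul, h3, h4]
      abel
  | pred k ih =>
    obtain ⟨e, he, h1, v, hv, h2⟩ := ih
    have hea : pr n (e * (cj (t ^ (-(k : ℤ) - 1)) a)⁻¹) = 1 := by
      rw [map_mul, map_inv, he, hcj _ _ ha, inv_one, mul_one]
    have key : ∀ i, D3 n (e * (cj (t ^ (-(k : ℤ) - 1)) a)⁻¹) i * sg (pr n t) =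
        D3 n (e * (cj (t ^ (-(k : ℤ) - 1)) a)⁻¹) i + D3 n a i * sg (pr n (t ^ (-(k : ℤ) - 1)))
          - D3 n a i := by
      intro i
      have h1' := congrArg (fun g => D3 n g i) h1
      beta_reduce at h1'
      rw [Scalars.D_mulM _ _ (by rw [map_inv, he, inv_one]), Scalars.D_mulM _ _ (by rw [map_inv, ha, inv_one]),
        Scalars.D_invM _ he, Scalars.D_invM _ ha, Scalars.D_cj _ _ he, Scalars.D_cj _ _ ha] at h1'
      have h3 : D3 n e i * sg (pr n t) = D3 n e i + D3 n a i * sg (pr n (t ^ (-(k : ℤ)))) - D3 n a i := by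
        have : D3 n e i * sg (pr n t) - D3 n e i = D3 n a i * sg (pr n (t ^ (-(k : ℤ)))) - D3 n a i := by
          rw [sub_eq_add_neg, h1', sub_eq_add_neg]
        rw [add_sub_assoc, ← this]; abel
      have h5 : D3 n a i * sg (pr n (t ^ (-(k : ℤ) - 1))) * sg (pr n t) =
          D3 n a i * sg (pr n (t ^ (-(k : ℤ)))) := by
        rw [mul_assoc, ← Scalars.sg_mul, ← map_mul, ← zpow_add_one, sub_add_cancel]
      rw [Scalars.D_mulM _ _ (by rw [map_inv, hcj _ _ ha, inv_one]), Scalars.D_invM _ (hcj _ _ ha),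
        Scalars.D_cj _ _ ha, add_mul, neg_mul, h5, h3]
      abel
    have hve : pr n (v * (e * (cj (t ^ (-(k : ℤ) - 1)) a)⁻¹)) = 1 := by rw [map_mul, hv, hea, one_mul]
    refine ⟨e * (cj (t ^ (-(k : ℤ) - 1)) a)⁻¹, hea, ?_, v * (e * (cj (t ^ (-(k : ℤ) - 1)) a)⁻¹), hve, ?_⟩
    · apply Scalars.ext
      intro i
      rw [Scalars.D_mulM _ _ (by rw [map_inv, hea, inv_one]), Scalars.D_mulM _ _ (by rw [map_inv, ha, inv_one]),
        Scalars.D_invM _ hea, Scalars.D_invM _ ha, Scalars.D_cj _ _ hea, Scalars.D_cj _ _ ha, key]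
      abel
    · apply Scalars.ext
      intro i
      have h2' := congrArg (fun g => D3 n g i) h2
      beta_reduce at h2'
      rw [Scalars.D_mulM _ _ (by rw [map_inv, he, inv_one]), Scalars.D_mulM _ _ (by rw [map_inv, hv, inv_one]),
        Scalars.D_invM _ he, Scalars.D_invM _ hv, Scalars.D_cj _ _ hv] at h2'
      have h4 : D3 n (a ^ (-(k : ℤ))) i = D3 n e i + (D3 n v i * sg (pr n t) - D3 n v i) := by
        rw [sub_eq_add_neg, ← h2']; abel
      rw [Scalars.D_mulM _ _ (by rw [map_inv, hea, inv_one]), Scalars.D_mulM _ _ (by rw [map_inv, hve, inv_one]),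
        Scalars.D_invM _ hea, Scalars.D_invM _ hve, Scalars.D_cj _ _ hve, Scalars.D_mulM _ _ hea,
        add_mul, key, zpow_sub_one, Scalars.D_mulM _ _ (by rw [map_inv, ha, inv_one]),
        Scalars.D_invM _ ha, h4, Scalars.D_mulM _ _ (by rw [map_inv, hcj _ _ ha, inv_one]),
        Scalars.D_invM _ (hcj _ _ ha), Scalars.D_cj _ _ ha]
      abel

theorem Scalars.cj_zpow {n : ℕ} (u c : G3 n) (k : ℤ) : cj u (c ^ k) = (cj u c) ^ k := by
  unfold cj
  have := conj_zpow (i := k) (a := u⁻¹) (b := c)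
  rw [inv_inv] at this
  exact this.symm

theorem Sc_iff (n : ℕ) (hn : 2 ≤ n) (k : ℤ) (a b : G3 n) (ha : InM a) :
    Sc (cc (x3 n)) (cc (x3 n) ^ k) a b ↔ b = a ^ k := by
  have := lam_noZeroDivisors n hn
  rw [InM_iff n hn] at ha
  have hpa : ∀ k : ℤ, pr n (a ^ k) = 1 := by intro k; rw [map_zpow, ha, one_zpow]
  constructor
  · intro h
    -- `b ∈ M`
    have hb : pr n b = 1 := by
      obtain ⟨e, he, -, v, hv, hv2⟩ := h 1
      rw [InM_iff n hn] at he hv
      have h1 := congrArg (pr n) hv2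
      rw [map_mul, map_mul, map_inv, map_inv, he, hv, Scalars.pr_cj _ _ hv] at h1
      simpa using h1
    have hba : pr n (b * (a ^ k)⁻¹) = 1 := by rw [map_mul, map_inv, hb, hpa]; simp
    -- key: `b a^{-k} ∈ M (t - 1)` for all conjugates `t` of `c`
    have key : ∀ u : G3 n, ∃ w, pr n w = 1 ∧
        ∀ i, D3 n (b * (a ^ k)⁻¹) i = D3 n w i * (sg (pr n (cj u (cc (x3 n)))) - 1) := by
      intro u
      obtain ⟨e, he, he2, v, hv, hv2⟩ := h u
      rw [InM_iff n hn] at he hv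
      obtain ⟨e0, he0, he02, v0, hv0, hv02⟩ := Scalars.exists_e (cj u (cc (x3 n))) a ha k
      rw [Scalars.cj_zpow] at he2
      have hne : pr n (cj u (cc (x3 n))) ≠ 1 := by
        intro h1
        apply Scalars.cc_ne n hn
        rw [← Scalars.pr_cc]
        unfold cj at h1
        rw [map_mul, map_mul, map_inv] at h1
        have h2 : pr n (cc (x3 n)) = pr n u * ((pr n u)⁻¹ * pr n (cc (x3 n)) * pr n u) * (pr n u)⁻¹ := by
          group
        rw [h2, h1]; group
      have hee : e = e0 := by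
        apply Scalars.ext
        intro i
        have h1 := congrArg (fun g => D3 n g i) (he2.trans he02.symm)
        beta_reduce at h1
        rw [Scalars.D_mulM _ _ (by rw [map_inv, he, inv_one]), Scalars.D_mulM _ _ (by rw [map_inv, he0, inv_one]),
          Scalars.D_invM _ he, Scalars.D_invM _ he0, Scalars.D_cj _ _ he, Scalars.D_cj _ _ he0] at h1
        have h2 : (D3 n e i - D3 n e0 i) * (sg (pr n (cj u (cc (x3 n)))) - 1) = 0 := by
          have h3 : D3 n e i * sg (pr n (cj u (cc (x3 n)))) - D3 n e i =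
            D3 n e0 i * sg (pr n (cj u (cc (x3 n)))) - D3 n e0 i := by
            rw [sub_eq_add_neg, h1, sub_eq_add_neg]
          rw [mul_sub, mul_one, sub_mul]
          rw [sub_eq_sub_iff_add_eq_add] at h3
          rw [sub_eq_zero, sub_eq_sub_iff_add_eq_add, h3]
          abel
        rcases mul_eq_zero.1 h2 with h3 | h3
        · exact sub_eq_zero.1 h3
        · exact absurd h3 (Scalars.sg_ne hne)
      refine ⟨v * v0⁻¹, by rw [map_mul, map_inv, hv, hv0]; simp, ?_⟩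
      intro i
      rw [← hee] at hv02
      have h1 := congrArg (fun g => D3 n g i) hv2
      have h2 := congrArg (fun g => D3 n g i) hv02
      beta_reduce at h1 h2
      rw [Scalars.D_mulM _ _ (by rw [map_inv, he, inv_one]), Scalars.D_mulM _ _ (by rw [map_inv, hv, inv_one]),
        Scalars.D_invM _ he, Scalars.D_invM _ hv, Scalars.D_cj _ _ hv] at h1
      rw [Scalars.D_mulM _ _ (by rw [map_inv, he, inv_one]), Scalars.D_mulM _ _ (by rw [map_inv, hv0, inv_one]),
        Scalars.D_invM _ he, Scalars.D_invM _ hv0, Scalars.D_cj _ _ hv0] at h2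
      rw [Scalars.D_mulM _ _ (by rw [map_inv, hpa, inv_one]), Scalars.D_invM _ (hpa k),
        Scalars.D_mulM _ _ (by rw [map_inv, hv0, inv_one]), Scalars.D_invM _ hv0]
      have h3 : D3 n b i = D3 n e i + (D3 n v i * sg (pr n (cj u (cc (x3 n)))) - D3 n v i) := by
        rw [sub_eq_add_neg, ← h1]; abel
      have h4 : D3 n (a ^ k) i = D3 n e i + (D3 n v0 i * sg (pr n (cj u (cc (x3 n)))) - D3 n v0 i) := by
        rw [sub_eq_add_neg, ← h2]; abel
      rw [h3, h4]
      noncomm_ring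
    -- conclusion
    have hfin : b * (a ^ k)⁻¹ = 1 := by
      apply Scalars.eq_one
      intro i
      apply conj_zero (fun j => pr n (cj (x3 n 0 ^ j) (cc (x3 n))))
      · intro j1 j2 p q hj hpq
        have hform : ∀ j : ℕ, pr n (cj (x3 n 0 ^ j) (cc (x3 n))) =
            (x2 n 0 ^ j)⁻¹ * Scalars.dd (x2 n) 1 * x2 n 0 ^ j := by
          intro j
          unfold cj
          rw [map_mul, map_mul, map_inv, map_pow, Scalars.pr_x3, Scalars.pr_cc]
          rfl
        have hact : ∀ μ : ℚ, μ ≠ 0 → μ ≠ 1 → (p : ℚ) * μ ^ j2 = q * μ ^ j1 := by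
          intro μ h0 h1
          obtain ⟨ρ, r0, -, r2⟩ := Scalars.exists_rho n μ h0 h1
          have e := congrArg (fun t => ρ t 0) hpq
          beta_reduce at e
          have hc := fun j => Scalars.act_conj h0 (r0 (by omega)) (r2 1 le_rfl (by omega)) j
          rw [hform, hform, Scalars.act_zpow (hc j1), Scalars.act_zpow (hc j2), zero_add, zero_add] at e
          have hj1 : μ ^ j1 ≠ 0 := pow_ne_zero _ h0
          have hj2 : μ ^ j2 ≠ 0 := pow_ne_zero _ h0
          field_simp at e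
          linarith
        have e2 := hact 2 (by norm_num) (by norm_num)
        have e3 := hact 3 (by norm_num) (by norm_num)
        by_contra hp
        have hp' : (p : ℚ) ≠ 0 := by exact_mod_cast hp
        have h6 : (2 : ℚ) ^ j1 * 3 ^ j2 = 3 ^ j1 * 2 ^ j2 := by
          have hq : (q : ℚ) ≠ 0 := by
            intro hq
            rw [hq, zero_mul] at e2
            rcases mul_eq_zero.1 e2 with h | h
            · exact hp' h
            · exact absurd h (by positivity)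
          have : (p * q : ℚ) * (2 ^ j1 * 3 ^ j2) = (p * q : ℚ) * (3 ^ j1 * 2 ^ j2) := by
            calc (p * q : ℚ) * (2 ^ j1 * 3 ^ j2) = (p * 3 ^ j2) * (q * 2 ^ j1) := by ring
              _ = (q * 3 ^ j1) * (p * 2 ^ j2) := by rw [e3, ← e2]
              _ = _ := by ring
          exact mul_left_cancel₀ (mul_ne_zero hp' hq) this
        have h7 : (2 : ℕ) ^ j1 * 3 ^ j2 = 3 ^ j1 * 2 ^ j2 := by exact_mod_cast h6
        rcases lt_or_gt_of_ne hj with h8 | h8
        · obtain ⟨d, rfl⟩ := Nat.exists_eq_add_of_lt h8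
          have : 3 ^ (d + 1) = 2 ^ (d + 1) := by
            have h9 : (2 ^ j1 * 3 ^ j1) * 3 ^ (d + 1) = (2 ^ j1 * 3 ^ j1) * 2 ^ (d + 1) := by
              have e1 : j1 + d + 1 = j1 + (d + 1) := by omega
              have a2 : (2 : ℕ) ^ (j1 + (d + 1)) = 2 ^ j1 * 2 ^ (d + 1) := pow_add _ _ _
              have a3 : (3 : ℕ) ^ (j1 + (d + 1)) = 3 ^ j1 * 3 ^ (d + 1) := pow_add _ _ _
              rw [e1, a2, a3] at h7
              calc (2 ^ j1 * 3 ^ j1) * 3 ^ (d + 1) = 2 ^ j1 * (3 ^ j1 * 3 ^ (d + 1)) := by ring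
                _ = 3 ^ j1 * (2 ^ j1 * 2 ^ (d + 1)) := h7
                _ = _ := by ring
            exact Nat.eq_of_mul_eq_mul_left (by positivity) h9
          have h10 : 2 ^ (d + 1) < 3 ^ (d + 1) := Nat.pow_lt_pow_left (by norm_num) (by omega)
          omega
        · obtain ⟨d, rfl⟩ := Nat.exists_eq_add_of_lt h8
          have : 3 ^ (d + 1) = 2 ^ (d + 1) := by
            have h9 : (2 ^ j2 * 3 ^ j2) * 3 ^ (d + 1) = (2 ^ j2 * 3 ^ j2) * 2 ^ (d + 1) := by
              have e1 : j2 + d + 1 = j2 + (d + 1) := by omega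
              have a2 : (2 : ℕ) ^ (j2 + (d + 1)) = 2 ^ j2 * 2 ^ (d + 1) := pow_add _ _ _
              have a3 : (3 : ℕ) ^ (j2 + (d + 1)) = 3 ^ j2 * 3 ^ (d + 1) := pow_add _ _ _
              rw [e1, a2, a3] at h7
              calc (2 ^ j2 * 3 ^ j2) * 3 ^ (d + 1) = (3 ^ j2 * 3 ^ (d + 1)) * 2 ^ j2 := by ring
                _ = 2 ^ j2 * 2 ^ (d + 1) * 3 ^ j2 := h7.symm
                _ = _ := by ring
            exact Nat.eq_of_mul_eq_mul_left (by positivity) h9
          have h10 : 2 ^ (d + 1) < 3 ^ (d + 1) := Nat.pow_lt_pow_left (by norm_num) (by omega)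
          omega
      · intro j
        obtain ⟨w, -, hw⟩ := key (x3 n 0 ^ j)
        exact ⟨D3 n w i, hw i⟩
    rwa [mul_inv_eq_one] at hfin
  · rintro rfl u
    obtain ⟨e, he, he2, v, hv, hv2⟩ := Scalars.exists_e (cj u (cc (x3 n))) a ha k
    refine ⟨e, Scalars.InM_of_pr he, ?_, v, Scalars.InM_of_pr hv, hv2⟩
    rw [he2, Scalars.cj_zpow]

theorem Scalars.zpow_inj {n : ℕ} {a : G3 n} (ha : pr n a = 1) (h1 : a ≠ 1) {k l : ℤ}
    (h : a ^ k = a ^ l) : k = l := by
  obtain ⟨i, hi⟩ := Scalars.exists_ne h1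
  have h2 := congrArg (fun g => D3 n g i) h
  beta_reduce at h2
  rw [Scalars.D_pow _ ha, Scalars.D_pow _ ha] at h2
  by_contra hne
  apply hi
  have h3 : (k - l) • D3 n a i = 0 := by rw [sub_smul, h2, sub_self]
  rcases smul_eq_zero.1 h3 with h4 | h4
  · exact absurd (sub_eq_zero.1 h4) hne
  · exact h4

theorem MulR_iff (n : ℕ) (hn : 2 ≤ n) (k l : ℤ) (p : G3 n) :
    MulR (cc (x3 n)) (cc (x3 n) ^ k) (cc (x3 n) ^ l) p ↔ p = cc (x3 n) ^ (k * l) := by
  have hpow : ∀ (a : G3 n) (k : ℤ), InM a → InM (a ^ k) := by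
    intro a k ha
    rw [InM_iff n hn] at ha ⊢
    rw [map_zpow, ha, one_zpow]
  constructor
  · rintro ⟨h1, h2⟩
    obtain ⟨j, rfl⟩ := (cent_iff n hn p).1 h1
    obtain ⟨ha, hne⟩ := exists_M n hn 1 le_rfl (by omega)
    set a := zz n (x3 n) 1
    have h3 := h2 a (a ^ l) ((a ^ l) ^ k) ha ((Sc_iff n hn l a _ ha).2 rfl)
      ((Sc_iff n hn k _ _ (hpow a l ha)).2 rfl)
    rw [Sc_iff n hn j a _ ha, ← zpow_mul] at h3
    have h4 := Scalars.zpow_inj ((InM_iff n hn a).1 ha) hne h3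
    rw [← h4, mul_comm]
  · rintro rfl
    refine ⟨(cent_iff n hn _).2 ⟨_, rfl⟩, ?_⟩
    intro a b b' ha h1 h2
    rw [Sc_iff n hn l a b ha] at h1
    subst h1
    rw [Sc_iff n hn k _ b' (hpow a l ha)] at h2
    subst h2
    rw [Sc_iff n hn _ a _ ha, ← zpow_mul, mul_comm]

theorem NN_iff (n : ℕ) (hn : 2 ≤ n) (κ : G3 n) :
    NN (cc (x3 n)) κ ↔ ∃ k : ℕ, κ = cc (x3 n) ^ k := by
  have hSq : ∀ s : G3 n, SqR (cc (x3 n)) s ↔ ∃ k : ℤ, s = cc (x3 n) ^ (k * k) := by
    intro s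
    constructor
    · rintro ⟨α, h1, h2⟩
      obtain ⟨j, rfl⟩ := (cent_iff n hn α).1 h1
      exact ⟨j, (MulR_iff n hn j j s).1 h2⟩
    · rintro ⟨k, rfl⟩
      exact ⟨cc (x3 n) ^ k, (cent_iff n hn _).2 ⟨_, rfl⟩, (MulR_iff n hn k k _).2 rfl⟩
  constructor
  · rintro ⟨s1, s2, s3, s4, h1, h2, h3, h4, rfl⟩
    rw [hSq] at h1 h2 h3 h4
    obtain ⟨k1, rfl⟩ := h1
    obtain ⟨k2, rfl⟩ := h2
    obtain ⟨k3, rfl⟩ := h3
    obtain ⟨k4, rfl⟩ := h4
    refine ⟨(k1 * k1 + k2 * k2 + k3 * k3 + k4 * k4).toNat, ?_⟩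
    rw [← zpow_add, ← zpow_add, ← zpow_add, ← zpow_natCast, Int.toNat_of_nonneg]
    nlinarith [mul_self_nonneg k1, mul_self_nonneg k2, mul_self_nonneg k3, mul_self_nonneg k4]
  · rintro ⟨k, rfl⟩
    obtain ⟨a, b, c, d, h⟩ := Nat.sum_four_squares k
    refine ⟨cc (x3 n) ^ ((a : ℤ) * a), cc (x3 n) ^ ((b : ℤ) * b), cc (x3 n) ^ ((c : ℤ) * c),
      cc (x3 n) ^ ((d : ℤ) * d), (hSq _).2 ⟨_, rfl⟩, (hSq _).2 ⟨_, rfl⟩, (hSq _).2 ⟨_, rfl⟩,
      (hSq _).2 ⟨_, rfl⟩, ?_⟩
    rw [← zpow_add, ← zpow_add, ← zpow_add, ← zpow_natCast]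
    congr 1
    rw [← h]
    push_cast
    ring

end Pool.Agent.Lib.MP_21db1f_lc
end
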