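import Mathlib
import Pool.Agent.Lib.MP_21db1f_lc.Affine
import Pool.Agent.Lib.MP_21db1f_lc.Scalars

section

set_option autoImplicit false

namespace Pool.Agent.Lib.MP_21db1f_lc

namespace Act

/-! ### Calculus of Magnus coordinates -/

theorem sg_mul {n : ℕ} (g h : G2 n) : sg (g * h) = sg g * sg h := map_mul _ g h
theorem sg_one {n : ℕ} : sg (1 : G2 n) = 1 := map_one _
theorem sg_pow {n : ℕ} (g : G2 n) (k : ℕ) : sg (g ^ k) = sg g ^ k := map_pow _ g k

theorem D_one (n : ℕ) (i : Fin n) : D3 n 1 i = 0 := by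
  have h := D3_mul n 1 1 i
  rw [mul_one, map_one, sg_one, mul_one] at h
  exact (add_eq_left.1 h.symm)

theorem D_mul {n : ℕ} (g h : G3 n) (hh : pr n h = 1) (i : Fin n) :
    D3 n (g * h) i = D3 n g i + D3 n h i := by
  rw [D3_mul, hh, sg_one, mul_one]

theorem D_inv {n : ℕ} (g : G3 n) (hg : pr n g = 1) (i : Fin n) : D3 n g⁻¹ i = - D3 n g i := by
  have h := D_mul g⁻¹ g hg i
  rw [inv_mul_cancel, D_one] at h
  exact eq_neg_of_add_eq_zero_left h.symm

theorem pr_cj {n : ℕ} (g a : G3 n) (ha : pr n a = 1) : pr n (cj g a) = 1 := by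
  unfold cj
  rw [map_mul, map_mul, ha, mul_one, map_inv, inv_mul_cancel]

theorem D_cj {n : ℕ} (g a : G3 n) (ha : pr n a = 1) (i : Fin n) :
    D3 n (cj g a) i = D3 n a i * sg (pr n g) := by
  unfold cj
  have h1 : D3 n g⁻¹ i * sg (pr n g) + D3 n g i = 0 := by
    rw [← D3_mul, inv_mul_cancel, D_one]
  rw [mul_assoc, D3_mul, D3_mul, map_mul, ha, one_mul, add_left_comm, h1, add_zero]

theorem pr_pow {n : ℕ} (a : G3 n) (ha : pr n a = 1) (k : ℕ) : pr n (a ^ k) = 1 := by
  rw [map_pow, ha, one_pow]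

theorem pr_inv {n : ℕ} (a : G3 n) (ha : pr n a = 1) : pr n a⁻¹ = 1 := by
  rw [map_inv, ha, inv_one]

theorem pr_mul {n : ℕ} (a b : G3 n) (ha : pr n a = 1) (hb : pr n b = 1) : pr n (a * b) = 1 := by
  rw [map_mul, ha, hb, one_mul]

theorem D_pow {n : ℕ} (a : G3 n) (ha : pr n a = 1) (k : ℕ) (i : Fin n) :
    D3 n (a ^ k) i = D3 n a i * (k : Lam n) := by
  induction k with
  | zero => rw [pow_zero, D_one, Nat.cast_zero, mul_zero]
  | succ k ih => rw [pow_succ, D_mul _ _ ha, ih, Nat.cast_succ, mul_add, mul_one]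

theorem pr_surj (n : ℕ) : Function.Surjective (pr n) := by
  intro g
  obtain ⟨u, rfl⟩ := QuotientGroup.mk_surjective g
  exact ⟨QuotientGroup.mk u, rfl⟩

theorem pr_x3 (n i : ℕ) : pr n (x3 n i) = x2 n i := rfl

theorem pr_cc (n : ℕ) : pr n (cc (x3 n)) = cc (x2 n) := by
  unfold cc
  rw [map_mul, map_mul, map_mul, map_inv, map_inv, pr_x3, pr_x3]

/-- the existence of products -/
theorem exists_act' (n : ℕ) (a : G3 n) (ha : pr n a = 1) (f : Lam n) :
    ∃ b, pr n b = 1 ∧ ∀ i, D3 n b i = D3 n a i * f := by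
  induction f using MonoidAlgebra.induction_linear with
  | zero => exact ⟨1, map_one _, fun i => by rw [D_one, mul_zero]⟩
  | add v w hv hw =>
    obtain ⟨b, hb, hb'⟩ := hv
    obtain ⟨c, hc, hc'⟩ := hw
    exact ⟨b * c, pr_mul b c hb hc, fun i => by rw [D_mul b c hc, hb', hc', mul_add]⟩
  | single x r =>
    obtain ⟨g, rfl⟩ := pr_surj n x
    have key : ∀ k : ℕ, ∃ b, pr n b = 1 ∧
        ∀ i, D3 n b i = D3 n a i * MonoidAlgebra.single (pr n g) (k : ℤ) := by
      intro k
      refine ⟨cj g (a ^ k), pr_cj _ _ (pr_pow _ ha k), fun i => ?_⟩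
      rw [D_cj _ _ (pr_pow _ ha k), D_pow _ ha, mul_assoc]
      congr 1
      unfold sg
      rw [MonoidAlgebra.of_apply, ← nsmul_eq_mul, MonoidAlgebra.smul_single, nsmul_eq_mul, mul_one]
    obtain ⟨k, rfl | rfl⟩ := Int.eq_nat_or_neg r
    · exact key k
    · obtain ⟨b, hb, hb'⟩ := key k
      refine ⟨b⁻¹, pr_inv b hb, fun i => ?_⟩
      rw [D_inv b hb, hb', MonoidAlgebra.single_neg, mul_neg]

end Act

open Act

theorem exists_act (n : ℕ) (hn : 2 ≤ n) (a : G3 n) (ha : InM a) (f : Lam n) :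
    ∃ b, InM b ∧ ∀ i, D3 n b i = D3 n a i * f := by
  obtain ⟨b, hb, hb'⟩ := exists_act' n a ((InM_iff n hn a).1 ha) f
  exact ⟨b, (InM_iff n hn b).2 hb, hb'⟩

theorem kval_eq (n : ℕ) (hn : 2 ≤ n) (θ : List ℕ) (hθ : Adm n θ) (ρ : G2 n →* Equiv.Perm (ZMod (qq θ)))
    (hρ : ∀ i < n, ∀ z, ρ (x2 n i) z = (mm θ i : ZMod (qq θ)) * z + (bb θ i : ZMod (qq θ)))
    (w : List ℕ) : kval n θ w < qq θ ∧ ρ (evalW n (x2 n) w) 0 = (kval n θ w : ZMod (qq θ)) := by
  obtain ⟨hq, hinv, -⟩ := hθ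
  induction w with
  | nil => exact ⟨hq, by simp [evalW, kval]⟩
  | cons l w ih =>
    obtain ⟨-, ih⟩ := ih
    have hk : kval n θ (l :: w) = step n θ l (kval n θ w) := rfl
    have he : evalW n (x2 n) (l :: w) = letter n (x2 n) l * evalW n (x2 n) w := by
      simp [evalW]
    rw [he, hk, map_mul, Equiv.Perm.mul_apply, ih]
    refine ⟨Nat.mod_lt _ hq, ?_⟩
    have hr : l % (2 * n) < 2 * n := Nat.mod_lt _ (by omega)
    by_cases hpar : l % (2 * n) % 2 = 0
    · obtain ⟨i, hi⟩ : ∃ i, l % (2 * n) = 2 * i := ⟨l % (2 * n) / 2, by omega⟩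
      have hlet : letter n (x2 n) l = x2 n i := by
        unfold letter
        rw [if_pos hpar]
        congr 1
        omega
      have hstep : step n θ l (kval n θ w) = (mm θ i * kval n θ w + bb θ i) % qq θ := by
        unfold step mm bb qq
        rw [hi, show 1 + 2 * (2 * i) = 1 + 4 * i by ring,
          show 2 + 2 * (2 * i) = 2 + 4 * i by ring]
      rw [hlet, hρ i (by omega), hstep, ZMod.natCast_mod]
      push_cast
      rfl
    · obtain ⟨i, hi⟩ : ∃ i, l % (2 * n) = 2 * i + 1 := ⟨l % (2 * n) / 2, by omega⟩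
      have hin : i < n := by omega
      have hlet : letter n (x2 n) l = (x2 n i)⁻¹ := by
        unfold letter
        rw [if_neg hpar]
        congr 2
        omega
      have hstep : step n θ l (kval n θ w) = (mm' θ i * kval n θ w + bb' θ i) % qq θ := by
        unfold step mm' bb' qq
        rw [hi, show 1 + 2 * (2 * i + 1) = 3 + 4 * i by ring,
          show 2 + 2 * (2 * i + 1) = 4 + 4 * i by ring]
      have h1 : (mm θ i : ZMod (qq θ)) * (mm' θ i : ZMod (qq θ)) = 1 := by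
        have := (ZMod.natCast_eq_natCast_iff _ _ _).2 (hinv i hin).1
        push_cast at this
        exact this
      have h2 : (mm θ i : ZMod (qq θ)) * (bb' θ i : ZMod (qq θ)) + (bb θ i : ZMod (qq θ)) = 0 := by
        have := (ZMod.natCast_eq_natCast_iff _ _ _).2 (hinv i hin).2
        push_cast at this
        exact this
      rw [hlet, hstep, ZMod.natCast_mod, map_inv, Equiv.Perm.inv_eq_iff_eq, hρ i hin]
      push_cast
      linear_combination -(kval n θ w : ZMod (qq θ)) * h1 - h2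

namespace Act

theorem eval_dvd {n : ℕ} (c : Lam n) (P : Polynomial ℤ) (j : ℤ) :
    ∃ Q : Lam n, Polynomial.aeval c P - ((P.eval j : ℤ) : Lam n) = Q * (c - (j : Lam n)) := by
  obtain ⟨Q, hQ⟩ := Polynomial.X_sub_C_dvd_sub_C_eval (p := P) (a := j)
  refine ⟨Polynomial.aeval c Q, ?_⟩
  have h := congrArg (Polynomial.aeval c) hQ
  rw [mul_comm] at h
  simpa using h

/-- the polynomial `∑ z ^ k_s` -/
noncomputable def PP (n : ℕ) (θ : List ℕ) (ℓ : List (List ℕ)) : Polynomial ℤ :=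
  (ℓ.map (fun s => (Polynomial.X : Polynomial ℤ) ^ kval n θ s)).sum

theorem PP_eval (n : ℕ) (θ : List ℕ) (ℓ : List (List ℕ)) (j : ℕ) :
    (PP n θ ℓ).eval (j : ℤ) = (pval n θ j ℓ : ℤ) := by
  induction ℓ with
  | nil => simp [PP, pval]
  | cons s ℓ ih =>
    have h1 : PP n θ (s :: ℓ) = Polynomial.X ^ kval n θ s + PP n θ ℓ := rfl
    have h2 : pval n θ j (s :: ℓ) = j ^ kval n θ s + pval n θ j ℓ := rfl
    rw [h1, h2, Polynomial.eval_add, ih, Polynomial.eval_pow, Polynomial.eval_X]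
    push_cast
    rfl

/-- the vectors `D(v) (t - 1)` -/
noncomputable def MT (n : ℕ) (t : G2 n) : AddSubgroup (Fin n → Lam n) where
  carrier := {d | ∃ v : G3 n, pr n v = 1 ∧ ∀ i, d i = D3 n v i * (sg t - 1)}
  zero_mem' := ⟨1, map_one _, fun i => by rw [D_one, zero_mul]; rfl⟩
  add_mem' := by
    rintro d e ⟨v, hv, hd⟩ ⟨w, hw, he⟩
    exact ⟨v * w, pr_mul v w hv hw, fun i => by
      rw [Pi.add_apply, hd, he, D_mul v w hw, add_mul]⟩
  neg_mem' := by
    rintro d ⟨v, hv, hd⟩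
    exact ⟨v⁻¹, pr_inv v hv, fun i => by rw [Pi.neg_apply, hd, D_inv v hv, neg_mul]⟩

theorem mem_MT {n : ℕ} {t : G2 n} {d : Fin n → Lam n} :
    d ∈ MT n t ↔ ∃ v : G3 n, pr n v = 1 ∧ ∀ i, d i = D3 n v i * (sg t - 1) := Iff.rfl

/-- the sum of the `M (t - 1)` -/
noncomputable def MD (n : ℕ) (θ : List ℕ) : ℕ → AddSubgroup (Fin n → Lam n)
  | 0 => MT n (cc (x2 n) ^ qq θ)
  | k + 1 => MD n θ k ⊔ (MT n ((cc (x2 n) ^ bb θ k)⁻¹ * x2 n k) ⊔
      MT n ((x2 n k)⁻¹ * cc (x2 n) * x2 n k * (cc (x2 n) ^ mm' θ k)⁻¹))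

theorem D_ct {n : ℕ} (t v : G3 n) (hv : pr n v = 1) (i : Fin n) :
    D3 n (cj t v * v⁻¹) i = D3 n v i * (sg (pr n t) - 1) := by
  rw [D_mul _ _ (pr_inv v hv), D_cj t v hv, D_inv v hv, mul_sub, mul_one, sub_eq_add_neg]

theorem InT_iff {n : ℕ} (hn : 2 ≤ n) (t b : G3 n) : InT t b ↔ D3 n b ∈ MT n (pr n t) := by
  constructor
  · rintro ⟨v, hv, rfl⟩
    rw [InM_iff n hn] at hv
    exact ⟨v, hv, D_ct t v hv⟩
  · rintro ⟨v, hv, h⟩
    refine ⟨v, (InM_iff n hn v).2 hv, D3_injective n ?_⟩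
    funext i
    rw [h, D_ct t v hv]

theorem InT_pr {n : ℕ} (hn : 2 ≤ n) (t b : G3 n) (h : InT t b) : pr n b = 1 := by
  obtain ⟨v, hv, rfl⟩ := h
  rw [InM_iff n hn] at hv
  exact pr_mul _ _ (pr_cj _ _ hv) (pr_inv v hv)

theorem exists_of_MT {n : ℕ} (t : G3 n) (d : Fin n → Lam n) (h : d ∈ MT n (pr n t)) :
    ∃ b, pr n b = 1 ∧ D3 n b = d := by
  obtain ⟨v, hv, h⟩ := h
  exact ⟨cj t v * v⁻¹, pr_mul _ _ (pr_cj _ _ hv) (pr_inv v hv),
    funext fun i => by rw [h, D_ct t v hv]⟩

theorem pr_t1 (n : ℕ) (θ : List ℕ) (k : ℕ) :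
    pr n ((cc (x3 n) ^ bb θ k)⁻¹ * x3 n k) = (cc (x2 n) ^ bb θ k)⁻¹ * x2 n k := by
  rw [map_mul, map_inv, map_pow, pr_cc, pr_x3]

theorem pr_t2 (n : ℕ) (θ : List ℕ) (k : ℕ) :
    pr n ((x3 n k)⁻¹ * cc (x3 n) * x3 n k * (cc (x3 n) ^ mm' θ k)⁻¹) =
      (x2 n k)⁻¹ * cc (x2 n) * x2 n k * (cc (x2 n) ^ mm' θ k)⁻¹ := by
  rw [map_mul, map_mul, map_mul, map_inv, map_inv, map_pow, pr_cc, pr_x3]

theorem InDs_iff {n : ℕ} (hn : 2 ≤ n) (θ : List ℕ) (k : ℕ) :
    ∀ b : G3 n, InDs (x3 n) θ k b ↔ pr n b = 1 ∧ D3 n b ∈ MD n θ k := by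
  induction k with
  | zero =>
    intro b
    have h1 : InDs (x3 n) θ 0 b ↔ InT (cc (x3 n) ^ qq θ) b := Iff.rfl
    have h2 : MD n θ 0 = MT n (cc (x2 n) ^ qq θ) := rfl
    rw [h1, h2]
    constructor
    · intro h
      refine ⟨InT_pr hn _ _ h, ?_⟩
      have := (InT_iff hn _ _).1 h
      rwa [map_pow, pr_cc] at this
    · rintro ⟨-, h⟩
      rw [InT_iff hn, map_pow, pr_cc]
      exact h
  | succ k ih =>
    intro b
    have h2 : MD n θ (k + 1) = MD n θ k ⊔ (MT n ((cc (x2 n) ^ bb θ k)⁻¹ * x2 n k) ⊔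
      MT n ((x2 n k)⁻¹ * cc (x2 n) * x2 n k * (cc (x2 n) ^ mm' θ k)⁻¹)) := rfl
    rw [h2]
    constructor
    · rintro ⟨b1, b2, hb1, hb2, hb⟩
      obtain ⟨hp, hD⟩ := (ih _).1 hb
      have p1 := InT_pr hn _ _ hb1
      have p2 := InT_pr hn _ _ hb2
      have p3 := pr_mul _ _ p1 p2
      have hD1 := (InT_iff hn _ _).1 hb1
      have hD2 := (InT_iff hn _ _).1 hb2
      rw [pr_t1] at hD1
      rw [pr_t2] at hD2
      refine ⟨?_, ?_⟩
      · have h3 : b = b * (b1 * b2)⁻¹ * (b1 * b2) := by group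
        rw [h3]
        exact pr_mul _ _ hp p3
      · have h3 : D3 n b = D3 n (b * (b1 * b2)⁻¹) + (D3 n b1 + D3 n b2) := by
          funext i
          rw [Pi.add_apply, Pi.add_apply, ← D_mul b1 b2 p2, ← D_mul _ _ p3]
          congr 2
          group
        rw [h3]
        exact AddSubgroup.add_mem_sup hD (AddSubgroup.add_mem_sup hD1 hD2)
    · rintro ⟨hp, hD⟩
      obtain ⟨y, hy, z, hz, hyz⟩ := AddSubgroup.mem_sup.1 hD
      obtain ⟨z1, hz1, z2, hz2, rfl⟩ := AddSubgroup.mem_sup.1 hz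
      rw [← pr_t1] at hz1
      rw [← pr_t2] at hz2
      obtain ⟨b1, p1, hb1⟩ := exists_of_MT _ _ hz1
      obtain ⟨b2, p2, hb2⟩ := exists_of_MT _ _ hz2
      have p3 := pr_mul _ _ p1 p2
      refine ⟨b1, b2, (InT_iff hn _ _).2 (hb1 ▸ hz1), (InT_iff hn _ _).2 (hb2 ▸ hz2),
        (ih _).2 ⟨pr_mul _ _ hp (pr_inv _ p3), ?_⟩⟩
      have h3 : D3 n (b * (b1 * b2)⁻¹) = y := by
        funext i
        rw [D_mul _ _ (pr_inv _ p3), D_inv _ p3, D_mul _ _ p2, hb1, hb2, ← hyz, Pi.add_apply,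
          Pi.add_apply]
        abel
      rw [h3]
      exact hy

theorem MD_mono {n : ℕ} (θ : List ℕ) {k l : ℕ} (h : k ≤ l) : MD n θ k ≤ MD n θ l := by
  induction h with
  | refl => exact le_rfl
  | step _ ih => exact ih.trans le_sup_left

theorem MT_mul {n : ℕ} {S : AddSubgroup (Fin n → Lam n)} {s t : G2 n} (hs : MT n s ≤ S)
    (ht : MT n t ≤ S) : MT n (s * t) ≤ S := by
  rintro d ⟨v, hv, hd⟩
  obtain ⟨g, hg⟩ := pr_surj n s
  have h1 : (fun i => D3 n (cj g v) i * (sg t - 1)) ∈ S :=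
    ht ⟨cj g v, pr_cj _ _ hv, fun i => rfl⟩
  have h2 : (fun i => D3 n v i * (sg s - 1)) ∈ S := hs ⟨v, hv, fun i => rfl⟩
  have h3 : d = (fun i => D3 n (cj g v) i * (sg t - 1)) + (fun i => D3 n v i * (sg s - 1)) := by
    funext i
    rw [Pi.add_apply, hd, D_cj g v hv, hg, sg_mul]
    simp only [mul_sub, mul_one, mul_assoc]
    abel
  rw [h3]
  exact S.add_mem h1 h2

theorem MT_inv {n : ℕ} {S : AddSubgroup (Fin n → Lam n)} {t : G2 n} (ht : MT n t ≤ S) :
    MT n t⁻¹ ≤ S := by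
  rintro d ⟨v, hv, hd⟩
  obtain ⟨g, hg⟩ := pr_surj n t⁻¹
  have h1 : (fun i => D3 n (cj g v) i * (sg t - 1)) ∈ S :=
    ht ⟨cj g v, pr_cj _ _ hv, fun i => rfl⟩
  have h3 : d = -(fun i => D3 n (cj g v) i * (sg t - 1)) := by
    funext i
    rw [Pi.neg_apply, hd, D_cj g v hv, hg, mul_sub, mul_sub, mul_one, mul_one, mul_assoc,
      ← sg_mul, inv_mul_cancel, sg_one, mul_one]
    abel
  rw [h3]
  exact S.neg_mem h1

theorem MT_closure {n : ℕ} (θ : List ℕ) (t : G2 n)
    (ht : t ∈ Subgroup.closure (gens n (x2 n) θ)) : MT n t ≤ MD n θ n := by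
  induction ht using Subgroup.closure_induction with
  | mem t ht =>
    rcases ht with (⟨i, hi, rfl⟩ | ⟨i, hi, rfl⟩) | h
    · exact (le_sup_left.trans le_sup_right).trans (MD_mono θ (Nat.succ_le_of_lt hi))
    · exact (le_sup_right.trans le_sup_right).trans (MD_mono θ (Nat.succ_le_of_lt hi))
    · rw [Set.mem_singleton_iff] at h
      rw [h]
      exact MD_mono θ (Nat.zero_le n)
  | one =>
    rintro d ⟨v, hv, hd⟩
    have : d = 0 := by
      funext i
      rw [hd, sg_one, sub_self, mul_zero]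
      rfl
    rw [this]
    exact AddSubgroup.zero_mem _
  | mul a b _ _ ha hb => exact MT_mul ha hb
  | inv a _ ha => exact MT_inv ha

open scoped commutatorElement in
theorem metab (n : ℕ) : ∀ a ∈ commutator (G2 n), ∀ b ∈ commutator (G2 n), a * b = b * a := by
  have h := map_derivedSeries_eq (QuotientGroup.mk'_surjective (derivedSeries (FF n) 2)) 2
  rw [QuotientGroup.map_mk'_self] at h
  intro a ha b hb
  have h3 : ⁅a, b⁆ ∈ derivedSeries (G2 n) 2 :=
    Subgroup.commutator_mem_commutator (by rw [derivedSeries_one]; exact ha)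
      (by rw [derivedSeries_one]; exact hb)
  rw [← h, Subgroup.mem_bot, commutatorElement_eq_one_iff_mul_comm] at h3
  exact h3

/-- the difference between words and powers of `c` -/
theorem word_mem {n : ℕ} (hn : 2 ≤ n) (θ : List ℕ) (hθ : Adm n θ) (a : G3 n) (ha : pr n a = 1)
    (ℓ : List (List ℕ)) :
    (fun i => D3 n a i * ((ℓ.map (fun s => sg (evalW n (x2 n) s))).sum -
      Polynomial.aeval (sg (cc (x2 n))) (PP n θ ℓ))) ∈ MD n θ n := by
  induction ℓ with
  | nil =>
    have : (fun i => D3 n a i * ((([] : List (List ℕ)).map (fun s => sg (evalW n (x2 n) s))).sum -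
      Polynomial.aeval (sg (cc (x2 n))) (PP n θ []))) = 0 := by
      funext i
      simp [PP]
    rw [this]
    exact AddSubgroup.zero_mem _
  | cons s ℓ ih =>
    obtain ⟨t, ht, hs⟩ := coset_lemma (metab n) n hn (x2 n) θ hθ s
    obtain ⟨g, hg⟩ := pr_surj n (cc (x2 n) ^ kval n θ s)
    have h1 : (fun i => D3 n (cj g a) i * (sg t - 1)) ∈ MD n θ n :=
      MT_closure θ t ht ⟨cj g a, pr_cj _ _ ha, fun i => rfl⟩
    have h2 : PP n θ (s :: ℓ) = Polynomial.X ^ kval n θ s + PP n θ ℓ := rfl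
    have h3 : (fun i => D3 n a i * (((s :: ℓ).map (fun s => sg (evalW n (x2 n) s))).sum -
      Polynomial.aeval (sg (cc (x2 n))) (PP n θ (s :: ℓ)))) =
      (fun i => D3 n (cj g a) i * (sg t - 1)) + (fun i => D3 n a i *
        ((ℓ.map (fun s => sg (evalW n (x2 n) s))).sum -
      Polynomial.aeval (sg (cc (x2 n))) (PP n θ ℓ))) := by
      funext i
      rw [Pi.add_apply, D_cj g a ha, hg, List.map_cons, List.sum_cons, hs, h2, map_add,
        map_pow, Polynomial.aeval_X, sg_mul, sg_pow]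
      simp only [mul_sub, mul_add, mul_one, mul_assoc]
      abel
    rw [h3]
    exact AddSubgroup.add_mem _ h1 ih

theorem key_iff {n : ℕ} (a e v : G3 n) (ha : pr n a = 1) (hv : pr n v = 1)
    (p r j : ℕ) : e * a ^ r * (a ^ p)⁻¹ = cj (cc (x3 n)) v * (v ^ j)⁻¹ ↔
      ∀ i, D3 n e i - D3 n a i * ((p : Lam n) - (r : Lam n)) =
        D3 n v i * (sg (cc (x2 n)) - (j : Lam n)) := by
  have h1 : ∀ i, D3 n (e * a ^ r * (a ^ p)⁻¹) i =
      D3 n e i - D3 n a i * ((p : Lam n) - (r : Lam n)) := by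
    intro i
    rw [D_mul _ _ (pr_inv _ (pr_pow a ha p)), D_mul _ _ (pr_pow a ha r),
      D_inv _ (pr_pow a ha p), D_pow a ha, D_pow a ha, mul_sub]
    abel
  have h2 : ∀ i, D3 n (cj (cc (x3 n)) v * (v ^ j)⁻¹) i =
      D3 n v i * (sg (cc (x2 n)) - (j : Lam n)) := by
    intro i
    rw [D_mul _ _ (pr_inv _ (pr_pow v hv j)), D_cj _ v hv, D_inv _ (pr_pow v hv j), D_pow v hv,
      pr_cc, mul_sub]
    abel
  constructor
  · intro h i
    rw [← h1, ← h2, h]
  · intro h
    apply D3_injective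
    funext i
    rw [h1, h2, h]

/-- the functional counting the elements of the group with a given image of `0` -/
noncomputable def cnt {n : ℕ} {X : Type} [DecidableEq X] (φ : G2 n → X) (z : X) : Lam n →+ ℤ :=
  MonoidAlgebra.liftNC (AddMonoidHom.id ℤ) (fun g => if φ g = z then (1 : ℤ) else 0)

theorem cnt_single {n : ℕ} {X : Type} [DecidableEq X] (φ : G2 n → X) (z : X) (g : G2 n) (r : ℤ) :
    cnt φ z (MonoidAlgebra.single g r) = r * (if φ g = z then (1 : ℤ) else 0) := by
  unfold cnt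
  rw [MonoidAlgebra.liftNC_single]
  rfl

theorem cnt_eq {n : ℕ} {X : Type} [DecidableEq X] (φ : G2 n → X) (z : X) (d : Lam n) :
    cnt φ z d = ∑ g ∈ d.coeff.support, d.coeff g * (if φ g = z then (1 : ℤ) else 0) := by
  conv_lhs => rw [← MonoidAlgebra.sum_coeff_single d]
  rw [Finsupp.sum, map_sum]
  exact Finset.sum_congr rfl (fun x _ => cnt_single φ z x _)

theorem cnt_kill {n : ℕ} {X : Type} [DecidableEq X] (φ : G2 n → X) (z : X) (t : G2 n)
    (ht : ∀ g, φ (g * t) = φ g) (d : Lam n) : cnt φ z (d * (sg t - 1)) = 0 := by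
  rw [mul_sub, mul_one, map_sub, sub_eq_zero]
  induction d using MonoidAlgebra.induction_linear with
  | zero => simp
  | add v w hv hw => rw [add_mul, map_add, hv, hw, map_add]
  | single x r =>
    unfold sg
    rw [MonoidAlgebra.of_apply, MonoidAlgebra.single_mul_single, mul_one, cnt_single, cnt_single,
      ht]

theorem cnt_MD {n : ℕ} {X : Type} [DecidableEq X] (φ : G2 n → X) (z : X) (θ : List ℕ)
    (hφ : ∀ t ∈ gens n (x2 n) θ, ∀ g, φ (g * t) = φ g) (d : Fin n → Lam n)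
    (hd : d ∈ MD n θ n) (i : Fin n) : cnt φ z (d i) = 0 := by
  let W : AddSubgroup (Fin n → Lam n) :=
    { carrier := {d | cnt φ z (d i) = 0}
      zero_mem' := by simp
      add_mem' := by
        intro a b ha hb
        show cnt φ z ((a + b) i) = 0
        rw [Pi.add_apply, map_add, ha, hb, add_zero]
      neg_mem' := by
        intro a ha
        show cnt φ z ((-a) i) = 0
        rw [Pi.neg_apply, map_neg, ha, neg_zero] }
  have hW : ∀ t ∈ gens n (x2 n) θ, MT n t ≤ W := by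
    rintro t ht d ⟨v, hv, h⟩
    show cnt φ z (d i) = 0
    rw [h, cnt_kill φ z t (hφ t ht)]
  have hM : ∀ k ≤ n, MD n θ k ≤ W := by
    intro k
    induction k with
    | zero => intro _; exact hW _ (Or.inr rfl)
    | succ k ih =>
      intro hk
      exact sup_le (ih (by omega)) (sup_le (hW _ (Or.inl (Or.inl ⟨k, by omega, rfl⟩)))
        (hW _ (Or.inl (Or.inr ⟨k, by omega, rfl⟩))))
  exact hM n le_rfl hd

end Act

theorem ActS_iff (n : ℕ) (hn : 2 ≤ n) (a b : G3 n) (ha : InM a) (ρ : RCode) :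
    ActS n (x3 n) (fun θ j => (pval n θ j ρ.1, pval n θ j ρ.2)) a b ↔ ActL n a ρ b := by
  classical
  have ha' := (InM_iff n hn a).1 ha
  have hP : ∀ (θ : List ℕ) (j : ℕ), ∃ Q : Lam n,
      Polynomial.aeval (sg (cc (x2 n))) (PP n θ ρ.1 - PP n θ ρ.2) -
        ((pval n θ j ρ.1 : Lam n) - (pval n θ j ρ.2 : Lam n)) =
          Q * (sg (cc (x2 n)) - (j : Lam n)) := by
    intro θ j
    obtain ⟨Q, hQ⟩ := eval_dvd (sg (cc (x2 n))) (PP n θ ρ.1 - PP n θ ρ.2) j
    refine ⟨Q, ?_⟩
    rw [Polynomial.eval_sub, PP_eval, PP_eval] at hQ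
    push_cast at hQ
    exact hQ
  have hword : ∀ θ, Adm n θ → (fun i => D3 n a i * toLam n ρ -
      D3 n a i * Polynomial.aeval (sg (cc (x2 n))) (PP n θ ρ.1 - PP n θ ρ.2)) ∈ MD n θ n := by
    intro θ hθ
    have h1 := word_mem hn θ hθ a ha' ρ.1
    have h2 := word_mem hn θ hθ a ha' ρ.2
    have h3 := AddSubgroup.sub_mem _ h1 h2
    refine (congrArg (· ∈ MD n θ n) ?_).mp h3
    funext i
    rw [Pi.sub_apply, map_sub]
    unfold toLam
    simp only [mul_sub]
    abel
  constructor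
  · rintro ⟨hb, h⟩
    have hb' := (InM_iff n hn b).1 hb
    refine ⟨hb, ?_⟩
    have hdiff : ∀ θ, Adm n θ → (fun i => D3 n b i - D3 n a i * toLam n ρ) ∈ MD n θ n := by
      intro θ hθ
      obtain ⟨e, he, h1, h2⟩ := h θ hθ
      have he' := (InM_iff n hn e).1 he
      have h3 : ∀ i, D3 n e i = D3 n a i *
          Polynomial.aeval (sg (cc (x2 n))) (PP n θ ρ.1 - PP n θ ρ.2) := by
        intro i
        rw [← sub_eq_zero]
        apply eval_zero (cc (x2 n)) (fun k => cc2_order n hn k)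
        intro j
        obtain ⟨v, hv, hv2⟩ := h1 j
        rw [InM_iff n hn] at hv
        obtain ⟨Q, hQ⟩ := hP θ j
        have h4 := (key_iff a e v ha' hv _ _ j).1 hv2 i
        refine ⟨D3 n v i - D3 n a i * Q, ?_⟩
        change _ = _ * (sg (cc (x2 n)) - (j : Lam n))
        rw [sub_mul, mul_assoc, ← hQ, ← h4]
        simp only [mul_sub]
        abel
      obtain ⟨-, h4⟩ := (InDs_iff hn θ n _).1 h2
      have h5 := AddSubgroup.sub_mem _ h4 (hword θ hθ)
      refine (congrArg (· ∈ MD n θ n) ?_).mp h5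
      funext i
      rw [Pi.sub_apply, D_mul _ _ (pr_inv e he'), D_inv e he', h3]
      abel
    intro i
    rw [← sub_eq_zero]
    by_contra hne
    set d : Lam n := D3 n b i - D3 n a i * toLam n ρ with hd
    have hne' : d.coeff ≠ 0 := fun h0 => hne (MonoidAlgebra.coeff_eq_zero.1 h0)
    obtain ⟨s₀, hs₀⟩ := Finsupp.ne_iff.1 hne'
    rw [Finsupp.coe_zero, Pi.zero_apply] at hs₀
    obtain ⟨θ, φ, hθ, hφ, hS⟩ := sep_mod n hn
      (((d.coeff.support ×ˢ d.coeff.support).image (fun p => p.1⁻¹ * p.2)).erase 1)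
      (Finset.notMem_erase _ _)
    have hstab := (stab_gens n hn θ hθ φ hφ).2
    have h1 := cnt_MD (fun g => φ g 0) (φ s₀ 0) θ (by
      intro t ht g
      show φ (g * t) 0 = φ g 0
      rw [map_mul, Equiv.Perm.mul_apply, hstab t (Subgroup.subset_closure ht)])
      _ (hdiff θ hθ) i
    rw [← hd, cnt_eq, Finset.sum_eq_single s₀, if_pos rfl, mul_one] at h1
    · exact hs₀ h1
    · intro g hg hgs
      rw [if_neg, mul_zero]
      intro h2
      have h3 : s₀⁻¹ * g ≠ 1 := by
        intro h3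
        exact hgs (inv_mul_eq_one.1 h3).symm
      refine hS (s₀⁻¹ * g) (Finset.mem_erase.2 ⟨h3, Finset.mem_image.2 ⟨(s₀, g),
        Finset.mem_product.2 ⟨Finsupp.mem_support_iff.2 hs₀, hg⟩, rfl⟩⟩) ?_
      rw [map_mul, map_inv, Equiv.Perm.mul_apply, Equiv.Perm.inv_eq_iff_eq]
      exact h2
    · intro h2
      exact absurd (Finsupp.mem_support_iff.2 hs₀) h2
  · rintro ⟨hb, h⟩
    have hb' := (InM_iff n hn b).1 hb
    refine ⟨hb, fun θ hθ => ?_⟩
    obtain ⟨e, he, he2⟩ := exists_act n hn a ha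
      (Polynomial.aeval (sg (cc (x2 n))) (PP n θ ρ.1 - PP n θ ρ.2))
    have he' := (InM_iff n hn e).1 he
    refine ⟨e, he, ?_, ?_⟩
    · intro j
      obtain ⟨Q, hQ⟩ := hP θ j
      obtain ⟨v, hv, hv2⟩ := exists_act n hn a ha Q
      have hv' := (InM_iff n hn v).1 hv
      refine ⟨v, hv, (key_iff a e v ha' hv' _ _ j).2 (fun i => ?_)⟩
      rw [hv2, he2, mul_assoc, ← hQ]
      exact (mul_sub _ _ _).symm
    · rw [InDs_iff hn]
      refine ⟨pr_mul _ _ hb' (pr_inv e he'), ?_⟩
      refine (congrArg (· ∈ MD n θ n) ?_).mp (hword θ hθ)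
      funext i
      rw [D_mul _ _ (pr_inv e he'), D_inv e he', h, he2, sub_eq_add_neg]

end Pool.Agent.Lib.MP_21db1f_lc
end

section

set_option autoImplicit false

namespace Pool.Agent.Lib.MP_21db1f_lc

namespace Ore

open MonoidAlgebra

/-! ### Growth -/

/-- A function `ℕ → ℕ` of polynomial growth, positive at `0`, does not double along an arithmetic
progression. -/
theorem exists_small_growth (f : ℕ → ℕ) (r d : ℕ) (h0 : 0 < f 0)
    (hf : ∀ E, f E ≤ (2 * E + 1) ^ r) : ∃ E, f (E + d) < 2 * f E := by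
  by_contra hcon
  push Not at hcon
  have hk : ∀ k : ℕ, 2 ^ k ≤ f (k * d) := by
    intro k
    induction k with
    | zero => simpa using (show 1 ≤ f 0 from h0)
    | succ k ih =>
      have h1 := hcon (k * d)
      have h2 : (k + 1) * d = k * d + d := by ring
      rw [h2, pow_succ]
      omega
  have hlim := tendsto_pow_const_div_const_pow_of_one_lt r (one_lt_two : (1 : ℝ) < 2)
  have hpos : (0 : ℝ) < 1 / ((2 * d + 1 : ℕ) : ℝ) ^ r := by positivity
  have hev := (hlim.eventually (gt_mem_nhds hpos)).and (Filter.eventually_ge_atTop 1)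
  obtain ⟨k, hk1, hk2⟩ := hev.exists
  have h1 : (2 : ℕ) ^ k ≤ (k * (2 * d + 1)) ^ r := by
    refine (hk k).trans ((hf _).trans ?_)
    refine Nat.pow_le_pow_left ?_ r
    have : 2 * (k * d) + 1 ≤ k * (2 * d) + k * 1 := by
      have : 2 * (k * d) = k * (2 * d) := by ring
      omega
    calc 2 * (k * d) + 1 ≤ k * (2 * d) + k * 1 := this
      _ = k * (2 * d + 1) := by ring
  have h2 : ((2 : ℝ)) ^ k ≤ (k : ℝ) ^ r * ((2 * d + 1 : ℕ) : ℝ) ^ r := by
    have : (((2 : ℕ) ^ k : ℕ) : ℝ) ≤ (((k * (2 * d + 1)) ^ r : ℕ) : ℝ) := by exact_mod_cast h1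
    rw [mul_pow] at this
    push_cast at this ⊢
    exact this
  have h3 : (0 : ℝ) < ((2 * d + 1 : ℕ) : ℝ) ^ r := by positivity
  have h4 : (0 : ℝ) < (2 : ℝ) ^ k := by positivity
  rw [div_lt_div_iff₀ h4 h3] at hk1
  linarith

variable {Γ : Type} [Group Γ]

/-! ### Components -/

/-- the `x`-component `∑_{n ∈ N} f (x n) n` -/
noncomputable def compo (N : Subgroup Γ) (x : Γ) : MonoidAlgebra ℤ Γ →+ MonoidAlgebra ℤ N :=
  comapDomainAddMonoidHom (fun n : N => x * (n : Γ))
    (fun a b h => Subtype.ext (mul_left_cancel (show x * (a : Γ) = x * b from h)))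

theorem coeff_compo (N : Subgroup Γ) (x : Γ) (f : MonoidAlgebra ℤ Γ) (n : N) :
    (compo N x f).coeff n = f.coeff (x * n) := by
  simp [compo]

/-- the embedding of the group ring of `N` -/
noncomputable def iota (N : Subgroup Γ) : MonoidAlgebra ℤ N →+* MonoidAlgebra ℤ Γ :=
  mapDomainRingHom ℤ N.subtype

theorem iota_single (N : Subgroup Γ) (n : N) (c : ℤ) :
    iota N (single n c) = single (n : Γ) c := by
  simp [iota]

theorem compo_mul_iota (N : Subgroup Γ) (x : Γ) (f : MonoidAlgebra ℤ Γ) (c : MonoidAlgebra ℤ N) :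
    compo N x (f * iota N c) = compo N x f * c := by
  induction c using MonoidAlgebra.induction_linear with
  | zero => simp
  | add a b ha hb => rw [map_add, mul_add, map_add, ha, hb, mul_add]
  | single n c =>
    rw [iota_single]
    ext m
    rw [coeff_compo, coeff_mul_single_apply, coeff_mul_single_apply, coeff_compo]
    simp [mul_assoc]

theorem compo_of_mul_iota_self (N : Subgroup Γ) (x : Γ) (c : MonoidAlgebra ℤ N) :
    compo N x (of ℤ Γ x * iota N c) = c := by
  rw [compo_mul_iota]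
  have : compo N x (of ℤ Γ x) = 1 := by
    ext m
    rw [coeff_compo]
    simp only [of_apply, coeff_single, one_def]
    classical
    rw [Finsupp.single_apply, Finsupp.single_apply]
    simp [eq_comm]
  rw [this, one_mul]

theorem compo_of_mul_iota_ne (N : Subgroup Γ) (x y : Γ) (h : x⁻¹ * y ∉ N)
    (c : MonoidAlgebra ℤ N) :
    compo N x (of ℤ Γ y * iota N c) = 0 := by
  rw [compo_mul_iota]
  have : compo N x (of ℤ Γ y) = 0 := by
    ext m
    rw [coeff_compo]
    simp only [of_apply, coeff_single, coeff_zero]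
    classical
    rw [Finsupp.single_apply, if_neg]
    · rfl
    · intro hm
      apply h
      rw [hm]
      simp
  rw [this, zero_mul]

/-! ### Boxes -/

/-- `f` is supported on the preimage of the box of radius `E` -/
def Supp {r : ℕ} (φ : Γ →* Multiplicative (Fin r → ℤ)) (E : ℕ) (f : MonoidAlgebra ℤ Γ) : Prop :=
  ∀ g : Γ, f.coeff g ≠ 0 → ∀ i, |(φ g).toAdd i| ≤ E

theorem Supp.add {r : ℕ} {φ : Γ →* Multiplicative (Fin r → ℤ)} {E : ℕ}
    {f g : MonoidAlgebra ℤ Γ} (hf : Supp φ E f) (hg : Supp φ E g) : Supp φ E (f + g) := by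
  intro x hx
  by_cases h : f.coeff x = 0
  · apply hg x
    intro h'
    apply hx
    rw [coeff_add, Finsupp.add_apply, h, h', add_zero]
  · exact hf x h

theorem Supp.sum {r : ℕ} {φ : Γ →* Multiplicative (Fin r → ℤ)} {E : ℕ} {ι : Type}
    (s : Finset ι) (f : ι → MonoidAlgebra ℤ Γ) (hf : ∀ i ∈ s, Supp φ E (f i)) :
    Supp φ E (∑ i ∈ s, f i) := by
  classical
  induction s using Finset.induction_on with
  | empty => intro x hx; simp at hx
  | insert a s ha ih =>
    rw [Finset.sum_insert ha]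
    exact (hf a (Finset.mem_insert_self _ _)).add
      (ih fun i hi => hf i (Finset.mem_insert_of_mem hi))

theorem Supp.mul {r : ℕ} {φ : Γ →* Multiplicative (Fin r → ℤ)} {D E : ℕ}
    {f g : MonoidAlgebra ℤ Γ} (hf : Supp φ D f) (hg : Supp φ E g) : Supp φ (E + D) (f * g) := by
  classical
  intro x hx i
  have hx' : x ∈ (f * g).coeff.support := Finsupp.mem_support_iff.2 hx
  have := support_coeff_mul_subset f g hx'
  obtain ⟨a, ha, b, hb, rfl⟩ := Finset.mem_mul.1 this
  have h1 := hf a (Finsupp.mem_support_iff.1 ha) i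
  have h2 := hg b (Finsupp.mem_support_iff.1 hb) i
  rw [map_mul, toAdd_mul, Pi.add_apply]
  refine (abs_add_le _ _).trans ?_
  push_cast
  linarith

theorem exists_supp {r : ℕ} (φ : Γ →* Multiplicative (Fin r → ℤ)) (f : MonoidAlgebra ℤ Γ) :
    ∃ D, Supp φ D f := by
  classical
  refine ⟨∑ g ∈ f.coeff.support, ∑ i, ((φ g).toAdd i).natAbs, ?_⟩
  intro g hg i
  have h1 : ((φ g).toAdd i).natAbs ≤ ∑ i, ((φ g).toAdd i).natAbs :=
    Finset.single_le_sum (f := fun i => ((φ g).toAdd i).natAbs) (fun _ _ => Nat.zero_le _)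
      (Finset.mem_univ i)
  have h2 : ∑ i, ((φ g).toAdd i).natAbs ≤
      ∑ g ∈ f.coeff.support, ∑ i, ((φ g).toAdd i).natAbs :=
    Finset.single_le_sum (f := fun g => ∑ i, ((φ g).toAdd i).natAbs) (fun _ _ => Nat.zero_le _)
      (Finsupp.mem_support_iff.2 hg)
  rw [Int.abs_eq_natAbs]
  exact_mod_cast h1.trans h2

theorem Supp.mono {r : ℕ} {φ : Γ →* Multiplicative (Fin r → ℤ)} {D E : ℕ}
    {f : MonoidAlgebra ℤ Γ} (hf : Supp φ D f) (h : D ≤ E) : Supp φ E f :=
  fun g hg i => (hf g hg i).trans (by exact_mod_cast h)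

/-- `single (x) * iota c` is supported on the coset of `x` -/
theorem Supp.of_mul_iota {r : ℕ} {φ : Γ →* Multiplicative (Fin r → ℤ)} {E : ℕ}
    (x : Γ) (hx : ∀ i, |(φ x).toAdd i| ≤ E) (c : MonoidAlgebra ℤ φ.ker) :
    Supp φ E (of ℤ Γ x * iota φ.ker c) := by
  have h1 : Supp φ E (of ℤ Γ x) := by
    intro g hg
    classical
    rw [of_apply, coeff_single, Finsupp.single_apply] at hg
    split_ifs at hg with h
    · rw [← h]; exact hx
    · exact absurd rfl hg
  have h2 : Supp φ 0 (iota φ.ker c) := by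
    induction c using MonoidAlgebra.induction_linear with
    | zero => intro g hg; simp at hg
    | add a b ha hb => rw [map_add]; exact ha.add hb
    | single n c =>
      rw [iota_single]
      intro g hg i
      classical
      rw [coeff_single, Finsupp.single_apply] at hg
      split_ifs at hg with h
      · have : φ g = 1 := by rw [← h]; exact n.2
        rw [this]
        simp
      · exact absurd rfl hg
  exact (h1.mul h2).mono (by omega)

/-- the box of radius `E` in the image of `φ` -/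
noncomputable def Box {r : ℕ} (φ : Γ →* Multiplicative (Fin r → ℤ)) (E : ℕ) :
    Finset (Fin r → ℤ) := by
  classical
  exact (Fintype.piFinset (fun _ : Fin r => Finset.Icc (-(E : ℤ)) E)).filter
    (fun e => ∃ g, (φ g).toAdd = e)

theorem mem_Box {r : ℕ} (φ : Γ →* Multiplicative (Fin r → ℤ)) (E : ℕ) (e : Fin r → ℤ) :
    e ∈ Box φ E ↔ (∀ i, |e i| ≤ E) ∧ ∃ g, (φ g).toAdd = e := by
  classical
  unfold Box
  simp [abs_le]

theorem card_Box_le {r : ℕ} (φ : Γ →* Multiplicative (Fin r → ℤ)) (E : ℕ) :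
    (Box φ E).card ≤ (2 * E + 1) ^ r := by
  classical
  unfold Box
  refine (Finset.card_filter_le _ _).trans ?_
  rw [Fintype.card_piFinset_const]
  simp only [Int.card_Icc]
  apply le_of_eq
  congr 1
  omega

theorem card_Box_zero {r : ℕ} (φ : Γ →* Multiplicative (Fin r → ℤ)) :
    0 < (Box φ 0).card := by
  rw [Finset.card_pos]
  exact ⟨0, (mem_Box φ 0 0).2 ⟨by simp, 1, by simp⟩⟩

end Ore

open MonoidAlgebra Ore in
/-- **Ore condition** for the integral group ring of a group that is an extension of an abelian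
group by a subgroup of `ℤ^r`, provided the group ring is a domain. -/
theorem ore_general {Γ : Type} [Group Γ] [NoZeroDivisors (MonoidAlgebra ℤ Γ)] (r : ℕ)
    (φ : Γ →* Multiplicative (Fin r → ℤ))
    (hker : ∀ a b : Γ, φ a = 1 → φ b = 1 → a * b = b * a)
    (p q : MonoidAlgebra ℤ Γ) (hq : q ≠ 0) :
    ∃ a b : MonoidAlgebra ℤ Γ, a ≠ 0 ∧ p * a = q * b := by
  classical
  obtain ⟨d₁, hd₁⟩ := exists_supp φ p
  obtain ⟨d₂, hd₂⟩ := exists_supp φ q
  obtain ⟨d, hpd, hqd⟩ : ∃ d, Supp φ d p ∧ Supp φ d q :=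
    ⟨max d₁ d₂, hd₁.mono (le_max_left _ _), hd₂.mono (le_max_right _ _)⟩
  obtain ⟨E, hE⟩ := exists_small_growth (fun E => (Box φ E).card) r d (card_Box_zero φ)
    (card_Box_le φ)
  -- the base ring
  let instR : CommRing (MonoidAlgebra ℤ φ.ker) :=
    { (inferInstance : Ring (MonoidAlgebra ℤ φ.ker)) with
      mul_comm := by
        intro a b
        induction a using MonoidAlgebra.induction_linear with
        | zero => rw [zero_mul, mul_zero]
        | add a b ha hb => rw [add_mul, mul_add, ha, hb]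
        | single m c =>
          induction b using MonoidAlgebra.induction_linear with
          | zero => rw [zero_mul, mul_zero]
          | add a b ha hb => rw [add_mul, mul_add, ha, hb]
          | single n c' =>
            rw [single_mul_single, single_mul_single]
            have : m * n = n * m := Subtype.ext (hker _ _ m.2 n.2)
            rw [this, mul_comm c c'] }
  have : Nontrivial (MonoidAlgebra ℤ φ.ker) := inferInstance
  -- representatives
  have hx : ∀ E, ∀ e : Box φ E, ∃ g : Γ, (φ g).toAdd = (e : Fin r → ℤ) := fun E e =>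
    ((mem_Box φ E _).1 e.2).2
  choose x hx using hx
  let w : Bool → MonoidAlgebra ℤ Γ := fun b => if b then p else -q
  let M : Matrix (Box φ (E + d)) (Bool × Box φ E) (MonoidAlgebra ℤ φ.ker) :=
    fun e' i => compo φ.ker (x _ e') (w i.1 * of ℤ Γ (x _ i.2))
  have hnot : ¬ Function.Injective M.mulVecLin := by
    intro hinj
    have := card_le_of_injective (MonoidAlgebra ℤ φ.ker) M.mulVecLin hinj
    simp only [Fintype.card_prod, Fintype.card_bool, Fintype.card_coe] at this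
    omega
  obtain ⟨v, hv, hv0⟩ : ∃ v : Bool × Box φ E → MonoidAlgebra ℤ φ.ker,
      M.mulVecLin v = 0 ∧ v ≠ 0 := by
    by_contra hcon
    push Not at hcon
    apply hnot
    rw [injective_iff_map_eq_zero]
    exact fun a ha => hcon a ha
  let A : Bool → MonoidAlgebra ℤ Γ := fun b =>
    ∑ e : Box φ E, of ℤ Γ (x _ e) * iota φ.ker (v (b, e))
  have hA : ∀ b (e : Box φ E), compo φ.ker (x _ e) (A b) = v (b, e) := by
    intro b e
    show compo φ.ker (x _ e) (∑ e' : Box φ E, of ℤ Γ (x _ e') * iota φ.ker (v (b, e'))) = _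
    rw [map_sum, Finset.sum_eq_single e]
    · exact compo_of_mul_iota_self _ _ _
    · intro e' _ hne
      apply compo_of_mul_iota_ne
      intro hmem
      apply hne
      apply Subtype.ext
      rw [← hx _ e, ← hx _ e']
      rw [MonoidHom.mem_ker, map_mul, map_inv, inv_mul_eq_one] at hmem
      rw [hmem]
    · intro h; exact absurd (Finset.mem_univ _) h
  have hsuppA : ∀ b, Supp φ E (A b) := by
    intro b
    apply Supp.sum
    intro e _
    apply Supp.of_mul_iota
    intro i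
    rw [hx]
    exact ((mem_Box φ E _).1 e.2).1 i
  -- the relation
  have hzero : w true * A true + w false * A false = 0 := by
    have hs : Supp φ (E + d) (w true * A true + w false * A false) := by
      refine Supp.add (Supp.mul ?_ (hsuppA _)) (Supp.mul ?_ (hsuppA _))
      · simpa [w] using hpd
      · have : Supp φ d (-q) := by
          intro g hg
          apply hqd g
          intro h
          apply hg
          simp [h]
        simpa [w] using this
    ext g
    by_contra hg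
    have hg' : (w true * A true + w false * A false).coeff g ≠ 0 := by simpa using hg
    have hbox : (φ g).toAdd ∈ Box φ (E + d) :=
      (mem_Box φ _ _).2 ⟨fun i => by exact_mod_cast hs g hg' i, g, rfl⟩
    have hk : (x _ ⟨_, hbox⟩)⁻¹ * g ∈ φ.ker := by
      rw [MonoidHom.mem_ker, map_mul, map_inv, inv_mul_eq_one]
      exact Multiplicative.toAdd.injective (hx _ ⟨_, hbox⟩)
    have h1 : (compo φ.ker (x _ ⟨_, hbox⟩) (w true * A true + w false * A false)) = 0 := by
      have h2 := congrFun hv ⟨_, hbox⟩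
      rw [Matrix.mulVecLin_apply] at h2
      have h3 : ∀ b, compo φ.ker (x _ ⟨_, hbox⟩) (w b * A b) =
          ∑ e : Box φ E, M ⟨_, hbox⟩ (b, e) * v (b, e) := by
        intro b
        show compo φ.ker _ (w b * ∑ e : Box φ E, of ℤ Γ (x _ e) * iota φ.ker (v (b, e))) = _
        rw [Finset.mul_sum, map_sum]
        refine Finset.sum_congr rfl fun e _ => ?_
        rw [← mul_assoc, compo_mul_iota]
      rw [map_add, h3, h3]
      have h4 : (M.mulVec v) ⟨_, hbox⟩ = ∑ i : Bool × Box φ E, M ⟨_, hbox⟩ i * v i := rfl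
      rw [h4, Fintype.sum_prod_type, Fintype.sum_bool] at h2
      exact h2
    have h5 := congrArg (fun f => f.coeff ⟨_, hk⟩) h1
    simp only [coeff_compo] at h5
    apply hg'
    simpa using h5
  have hrel : p * A true = q * A false := by
    have : w true * A true + w false * A false = p * A true - q * A false := by
      simp [w, sub_eq_add_neg]
    rw [this] at hzero
    exact sub_eq_zero.1 hzero
  refine ⟨A true, A false, ?_, hrel⟩
  intro h0
  rw [h0, mul_zero] at hrel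
  have hb0 : A false = 0 := by
    rcases mul_eq_zero.1 hrel.symm with h | h
    · exact absurd h hq
    · exact h
  apply hv0
  funext i
  obtain ⟨b, e⟩ := i
  rw [← hA b e]
  cases b
  · rw [hb0, map_zero]; rfl
  · rw [h0, map_zero]; rfl

end Pool.Agent.Lib.MP_21db1f_lc
end
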