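import Mathlib
import Pool.Agent.Lib.MP_21db1f_lc.Affine
import Pool.Agent.Lib.MP_21db1f_lc.Ore
import Pool.Agent.Lib.MP_21db1f_lc.Scalars
import Pool.Agent.Lib.MP_21db1f_lc.AData

section

set_option autoImplicit false

namespace Pool.Agent.Lib.MP_21db1f_lc

namespace Triv

/-! ## Evaluation of words under an affine action -/

theorem kval_spec (n : ℕ) (hn : 2 ≤ n) (θ : List ℕ) (hθ : Adm n θ)
    (ρ : G2 n →* Equiv.Perm (ZMod (qq θ)))
    (hρ : ∀ i < n, ∀ z, ρ (x2 n i) z = (mm θ i : ZMod (qq θ)) * z + (bb θ i : ZMod (qq θ)))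
    (w : List ℕ) : kval n θ w < qq θ ∧ ρ (evalW n (x2 n) w) 0 = (kval n θ w : ZMod (qq θ)) := by
  induction w with
  | nil =>
    refine ⟨hθ.1, ?_⟩
    simp [kval, evalW]
  | cons l w ih =>
    have h1 : kval n θ (l :: w) = step n θ l (kval n θ w) := rfl
    have h2 : evalW n (x2 n) (l :: w) = letter n (x2 n) l * evalW n (x2 n) w := by
      simp [evalW]
    rw [h1, h2, map_mul, Equiv.Perm.mul_apply, ih.2]
    refine ⟨Nat.mod_lt _ hθ.1, ?_⟩
    have hlt : l % (2 * n) < 2 * n := Nat.mod_lt _ (by omega)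
    unfold step letter
    have hcast : ∀ a : ℕ, ((a % θ.getD 0 0 : ℕ) : ZMod (qq θ)) = (a : ZMod (qq θ)) := by
      intro a
      exact ZMod.natCast_mod a (qq θ)
    rw [hcast]
    push_cast
    by_cases hpar : (l % (2 * n)) % 2 = 0
    · rw [if_pos hpar]
      have hi : l % (2 * n) / 2 < n := by omega
      rw [hρ _ hi]
      unfold mm bb
      have e1 : 1 + 4 * (l % (2 * n) / 2) = 1 + 2 * (l % (2 * n)) := by omega
      have e2 : 2 + 4 * (l % (2 * n) / 2) = 2 + 2 * (l % (2 * n)) := by omega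
      rw [e1, e2]
    · rw [if_neg hpar]
      have hi : l % (2 * n) / 2 < n := by omega
      rw [map_inv, Equiv.Perm.inv_eq_iff_eq, hρ _ hi]
      obtain ⟨ha, hb⟩ := hθ.2.1 _ hi
      have ha' := (ZMod.natCast_eq_natCast_iff _ _ _).2 ha
      have hb' := (ZMod.natCast_eq_natCast_iff _ _ _).2 hb
      push_cast at ha' hb'
      have e1 : 3 + 4 * (l % (2 * n) / 2) = 1 + 2 * (l % (2 * n)) := by omega
      have e2 : 4 + 4 * (l % (2 * n) / 2) = 2 + 2 * (l % (2 * n)) := by omega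
      have e3 : mm' θ (l % (2 * n) / 2) = θ.getD (1 + 2 * (l % (2 * n))) 0 := by
        unfold mm'
        rw [e1]
      have e4 : bb' θ (l % (2 * n) / 2) = θ.getD (2 + 2 * (l % (2 * n))) 0 := by
        unfold bb'
        rw [e2]
      rw [← e3, ← e4]
      linear_combination (-(kval n θ w : ZMod (qq θ))) * ha' - hb'

/-! ## Fox derivatives of words -/

theorem pr_x3 (n : ℕ) (i : ℕ) : pr n (x3 n i) = x2 n i := rfl

theorem D3_one (n : ℕ) (i : Fin n) : D3 n 1 i = 0 := by
  have h := D3_mul n 1 1 i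
  rw [mul_one, map_one] at h
  have h1 : sg (1 : G2 n) = 1 := map_one _
  rw [h1, mul_one] at h
  have h2 : D3 n 1 i + D3 n 1 i = D3 n 1 i + 0 := by rw [add_zero]; exact h.symm
  exact add_left_cancel h2

theorem sg_mul {n : ℕ} (g h : G2 n) : sg (g * h) = sg g * sg h := map_mul _ _ _

theorem D3_inv (n : ℕ) (g : G3 n) (i : Fin n) : D3 n g⁻¹ i = - D3 n g i * sg (pr n g)⁻¹ := by
  have h := D3_mul n g g⁻¹ i
  rw [mul_inv_cancel, D3_one, map_inv] at h
  rw [neg_mul]
  exact (neg_eq_of_add_eq_zero_right h.symm).symm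

theorem pr_letter (n : ℕ) (l : ℕ) : pr n (letter n (x3 n) l) = letter n (x2 n) l := by
  unfold letter
  split_ifs
  · rfl
  · rw [map_inv]; rfl

theorem pr_evalW (n : ℕ) (w : List ℕ) : pr n (evalW n (x3 n) w) = evalW n (x2 n) w := by
  induction w with
  | nil => simp [evalW]
  | cons l w ih =>
    have h2 : evalW n (x2 n) (l :: w) = letter n (x2 n) l * evalW n (x2 n) w := by
      simp [evalW]
    have h3 : evalW n (x3 n) (l :: w) = letter n (x3 n) l * evalW n (x3 n) w := by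
      simp [evalW]
    rw [h2, h3, map_mul, ih, pr_letter]

theorem D3_x' (n : ℕ) (k : ℕ) (hk : k < n) (i : Fin n) :
    D3 n (x3 n k) i = if k = (i : ℕ) then 1 else 0 := by
  have h := D3_x n ⟨k, hk⟩
  have h1 : D3 n (x3 n k) = Pi.single (⟨k, hk⟩ : Fin n) 1 := h
  rw [h1]
  by_cases hki : k = (i : ℕ)
  · have : i = ⟨k, hk⟩ := Fin.ext hki.symm
    rw [if_pos hki, this, Pi.single_eq_same]
  · rw [if_neg hki, Pi.single_eq_of_ne]
    intro h2
    exact hki (congrArg Fin.val h2).symm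

theorem foxPos_cons (n i l : ℕ) (w : List ℕ) : foxPos n i (l :: w) =
    if l % (2 * n) = 2 * i then w :: foxPos n i w else foxPos n i w := rfl

theorem foxNeg_cons (n i l : ℕ) (w : List ℕ) : foxNeg n i (l :: w) =
    if l % (2 * n) = 2 * i + 1 then (l :: w) :: foxNeg n i w else foxNeg n i w := rfl

theorem fox_spec (n : ℕ) (hn : 2 ≤ n) (w : List ℕ) (i : Fin n) :
    D3 n (evalW n (x3 n) w) i = toLam n (foxPos n i w, foxNeg n i w) := by
  induction w with
  | nil =>
    have : evalW n (x3 n) [] = 1 := by simp [evalW]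
    rw [this, D3_one]
    simp [toLam, foxPos, foxNeg]
  | cons l w ih =>
    have h3 : evalW n (x3 n) (l :: w) = letter n (x3 n) l * evalW n (x3 n) w := by
      simp [evalW]
    have h2 : evalW n (x2 n) (l :: w) = letter n (x2 n) l * evalW n (x2 n) w := by
      simp [evalW]
    rw [h3, D3_mul, ih, pr_evalW]
    have hlt : l % (2 * n) < 2 * n := Nat.mod_lt _ (by omega)
    have hi : l % (2 * n) / 2 < n := by omega
    rw [foxPos_cons, foxNeg_cons]
    unfold toLam
    by_cases hpar : (l % (2 * n)) % 2 = 0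
    · have hne : ¬ (l % (2 * n) = 2 * (i : ℕ) + 1) := by omega
      rw [if_neg hne]
      have hlet : letter n (x3 n) l = x3 n (l % (2 * n) / 2) := by
        unfold letter
        rw [if_pos hpar]
      rw [hlet, D3_x' n _ hi]
      by_cases he : l % (2 * n) = 2 * (i : ℕ)
      · rw [if_pos he, if_pos (by omega)]
        simp only [List.map_cons, List.sum_cons, one_mul]
        rw [add_sub_assoc]
      · rw [if_neg he, if_neg (by omega)]
        simp only [zero_mul, zero_add]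
    · have hne : ¬ (l % (2 * n) = 2 * (i : ℕ)) := by omega
      rw [if_neg hne]
      have hlet : letter n (x3 n) l = (x3 n (l % (2 * n) / 2))⁻¹ := by
        unfold letter
        rw [if_neg hpar]
      rw [hlet, D3_inv, pr_x3, D3_x' n _ hi]
      by_cases he : l % (2 * n) = 2 * (i : ℕ) + 1
      · rw [if_pos he, if_pos (by omega)]
        simp only [List.map_cons, List.sum_cons]
        rw [h2, sg_mul]
        have hlet2 : letter n (x2 n) l = (x2 n (l % (2 * n) / 2))⁻¹ := by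
          unfold letter
          rw [if_neg hpar]
        rw [hlet2]
        noncomm_ring
      · rw [if_neg he, if_neg (by omega)]
        simp

/-! ## Polynomials from group ring elements -/

/-- `∑ f(g) g ↦ ∑ f(g) X ^ F(g)` -/
noncomputable def PF (n : ℕ) (F : G2 n → ℕ) : Lam n →+ Polynomial ℤ :=
  MonoidAlgebra.liftNC (Int.castAddHom (Polynomial ℤ)) (fun g => Polynomial.X ^ F g)

theorem PF_single (n : ℕ) (F : G2 n → ℕ) (x : G2 n) (r : ℤ) :
    PF n F (MonoidAlgebra.single x r) = (r : Polynomial ℤ) * Polynomial.X ^ F x := by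
  unfold PF
  rw [MonoidAlgebra.liftNC_single]
  rfl

theorem PF_sg (n : ℕ) (F : G2 n → ℕ) (x : G2 n) : PF n F (sg x) = Polynomial.X ^ F x := by
  unfold sg
  rw [MonoidAlgebra.of_apply, PF_single, Int.cast_one, one_mul]

theorem PF_eq_sum (n : ℕ) (F : G2 n → ℕ) (d : Lam n) :
    PF n F d = ∑ x ∈ d.coeff.support, ((d.coeff x : ℤ) : Polynomial ℤ) * Polynomial.X ^ F x := by
  conv_lhs => rw [← MonoidAlgebra.sum_coeff_single d]
  rw [Finsupp.sum, map_sum]
  exact Finset.sum_congr rfl (fun x _ => PF_single n F x _)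

theorem PF_sum (n : ℕ) (F : G2 n → ℕ) (ℓ : List (List ℕ)) (j : ℕ) (θ : List ℕ)
    (hF : ∀ s, F (evalW n (x2 n) s) = kval n θ s) :
    (PF n F ((ℓ.map (fun s => sg (evalW n (x2 n) s))).sum)).eval (j : ℤ) = (pval n θ j ℓ : ℤ) := by
  unfold pval
  induction ℓ with
  | nil => simp
  | cons s ℓ ih =>
    simp only [List.map_cons, List.sum_cons]
    rw [map_add, Polynomial.eval_add, ih, PF_sg, hF]
    simp

theorem PF_toLam (n : ℕ) (F : G2 n → ℕ) (ρ : RCode) (j : ℕ) (θ : List ℕ)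
    (hF : ∀ s, F (evalW n (x2 n) s) = kval n θ s) :
    (PF n F (toLam n ρ)).eval (j : ℤ) = (pval n θ j ρ.1 : ℤ) - (pval n θ j ρ.2 : ℤ) := by
  unfold toLam
  rw [map_sub, Polynomial.eval_sub, PF_sum n F _ j θ hF, PF_sum n F _ j θ hF]

theorem F_spec (n : ℕ) (hn : 2 ≤ n) (θ : List ℕ) (hθ : Adm n θ)
    (ρ : G2 n →* Equiv.Perm (ZMod (qq θ)))
    (hρ : ∀ i < n, ∀ z, ρ (x2 n i) z = (mm θ i : ZMod (qq θ)) * z + (bb θ i : ZMod (qq θ)))
    (s : List ℕ) : (ρ (evalW n (x2 n) s) 0).val = kval n θ s := by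
  obtain ⟨h1, h2⟩ := kval_spec n hn θ hθ ρ hρ s
  rw [h2]
  exact ZMod.val_cast_of_lt h1

/-- A ring code is zero iff all its values agree. -/
theorem toLam_eq_zero_iff (n : ℕ) (hn : 2 ≤ n) (ρ : RCode) :
    toLam n ρ = 0 ↔ ∀ θ, Adm n θ → ∀ j : ℕ, pval n θ j ρ.1 = pval n θ j ρ.2 := by
  classical
  constructor
  · intro h θ hθ j
    obtain ⟨σ, hσ⟩ := exists_affine_mod n θ hθ
    have h1 := PF_toLam n (fun g => (σ g 0).val) ρ j θ (fun s => F_spec n hn θ hθ σ hσ s)
    rw [h, map_zero, Polynomial.eval_zero] at h1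
    have h2 : (pval n θ j ρ.1 : ℤ) = (pval n θ j ρ.2 : ℤ) := by linarith
    exact_mod_cast h2
  · intro h
    by_contra hne
    set f := toLam n ρ with hf
    have hsupp : f.coeff.support.Nonempty := by
      rw [Finset.nonempty_iff_ne_empty]
      intro h0
      apply hne
      have : f.coeff = 0 := Finsupp.support_eq_empty.1 h0
      exact MonoidAlgebra.coeff_eq_zero.1 this
    obtain ⟨g₀, hg₀⟩ := hsupp
    set S : Finset (G2 n) := (f.coeff.support.erase g₀).image (fun g => g₀⁻¹ * g) with hS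
    have h1 : (1 : G2 n) ∉ S := by
      intro h1
      rw [hS, Finset.mem_image] at h1
      obtain ⟨g, hg, hg1⟩ := h1
      have : g = g₀ := (inv_mul_eq_one.1 hg1).symm
      exact (Finset.mem_erase.1 hg).1 this
    obtain ⟨θ, σ, hθ, hσ, hsep⟩ := sep_mod n hn S h1
    have : NeZero (qq θ) := ⟨hθ.1.ne'⟩
    set F : G2 n → ℕ := fun g => (σ g 0).val with hF
    have hpoly : PF n F f = 0 := by
      apply Polynomial.eq_zero_of_infinite_isRoot
      apply Set.Infinite.mono (s := Set.range (fun j : ℕ => (j : ℤ)))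
      · rintro _ ⟨j, rfl⟩
        show Polynomial.eval _ _ = 0
        rw [hf, PF_toLam n F ρ j θ (fun s => F_spec n hn θ hθ σ hσ s), h θ hθ j, sub_self]
      · exact Set.infinite_range_of_injective Nat.cast_injective
    have hco := congrArg (fun p => Polynomial.coeff p (F g₀)) hpoly
    simp only [Polynomial.coeff_zero] at hco
    rw [PF_eq_sum, Polynomial.finsetSum_coeff, Finset.sum_eq_single g₀] at hco
    · have h3 : (((f.coeff g₀ : ℤ) : Polynomial ℤ) * Polynomial.X ^ F g₀).coeff (F g₀) =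
          f.coeff g₀ := by
        rw [← Polynomial.C_eq_intCast, Polynomial.coeff_C_mul, Polynomial.coeff_X_pow, if_pos rfl]
        simp
      rw [h3] at hco
      exact (Finsupp.mem_support_iff.1 hg₀) hco
    · intro g hg hgne
      rw [← Polynomial.C_eq_intCast, Polynomial.coeff_C_mul, Polynomial.coeff_X_pow, if_neg,
        mul_zero]
      intro heq
      have h4 : σ g₀ 0 = σ g 0 := ZMod.val_injective _ heq
      have h5 : σ (g₀⁻¹ * g) 0 = 0 := by
        rw [map_mul, Equiv.Perm.mul_apply, ← h4, map_inv]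
        exact Equiv.symm_apply_apply (σ g₀) 0
      refine hsep (g₀⁻¹ * g) ?_ h5
      rw [hS, Finset.mem_image]
      exact ⟨g, Finset.mem_erase.2 ⟨hgne, hg⟩, rfl⟩
    · intro h0
      exact absurd hg₀ h0

end Triv

theorem triv_iff (n : ℕ) (hn : 2 ≤ n) (w : List ℕ) :
    evalW n (x3 n) w = 1 ↔ ∀ i < n, ∀ θ, Adm n θ → ∀ j : ℕ,
      pval n θ j (foxPos n i w) = pval n θ j (foxNeg n i w) := by
  constructor
  · intro h i hi
    have h1 := Triv.fox_spec n hn w ⟨i, hi⟩
    rw [h, Triv.D3_one] at h1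
    exact (Triv.toLam_eq_zero_iff n hn _).1 h1.symm
  · intro h
    apply D3_injective n
    funext i
    rw [Triv.fox_spec n hn w i, Triv.D3_one]
    exact (Triv.toLam_eq_zero_iff n hn _).2 (h i i.2)

end Pool.Agent.Lib.MP_21db1f_lc
end

section

/-!
The evaluation relation is correct.
-/

set_option autoImplicit false

namespace Pool.Agent.Lib.MP_21db1f_lc

open scoped commutatorElement

namespace EvalAux

section
variable {H : Type} [Group H]

theorem evalW_nil (n : ℕ) (x : ℕ → H) : evalW n x [] = 1 := rfl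

theorem evalW_cons (n : ℕ) (x : ℕ → H) (l : ℕ) (w : List ℕ) :
    evalW n x (l :: w) = letter n x l * evalW n x w := by
  simp [evalW]

theorem evalW_append (n : ℕ) (x : ℕ → H) (v w : List ℕ) :
    evalW n x (v ++ w) = evalW n x v * evalW n x w := by
  simp [evalW]

theorem letter_invL (n : ℕ) (hn : 0 < n) (x : ℕ → H) (l : ℕ) :
    letter n x (invL n l) = (letter n x l)⁻¹ := by
  have hr : l % (2 * n) < 2 * n := Nat.mod_lt _ (by omega)
  by_cases h : (l % (2 * n)) % 2 = 0
  · have e1 : invL n l = l % (2 * n) + 1 := by unfold invL; rw [if_pos h]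
    have e2 : (l % (2 * n) + 1) % (2 * n) = l % (2 * n) + 1 := Nat.mod_eq_of_lt (by omega)
    unfold letter
    rw [e1, e2, if_pos h, if_neg (by omega)]
    congr 2
    omega
  · have e1 : invL n l = l % (2 * n) - 1 := by unfold invL; rw [if_neg h]
    have e2 : (l % (2 * n) - 1) % (2 * n) = l % (2 * n) - 1 := Nat.mod_eq_of_lt (by omega)
    unfold letter
    rw [e1, e2, if_neg h, if_pos (by omega), inv_inv]
    congr 1
    omega

theorem evalW_invW (n : ℕ) (hn : 0 < n) (x : ℕ → H) (w : List ℕ) :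
    evalW n x (invW n w) = (evalW n x w)⁻¹ := by
  induction w with
  | nil => simp [invW, evalW]
  | cons l w ih =>
    have e : invW n (l :: w) = invW n w ++ [invL n l] := by simp [invW]
    rw [e, evalW_append, ih, evalW_cons, evalW_cons, evalW_nil, mul_one, letter_invL n hn, mul_inv_rev]

theorem evalW_hom {K : Type} [Group K] (f : H →* K) (n : ℕ) (x : ℕ → H) (w : List ℕ) :
    evalW n (fun i => f (x i)) w = f (evalW n x w) := by
  induction w with
  | nil => simp [evalW]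
  | cons l w ih =>
    rw [evalW_cons, evalW_cons, ih, map_mul]
    congr 1
    unfold letter
    split_ifs <;> simp

theorem letter_even (n : ℕ) (x : ℕ → H) (l i : ℕ) (h : l % (2 * n) = 2 * i) :
    letter n x l = x i := by
  unfold letter
  rw [h, if_pos (by omega)]
  congr 1
  omega

theorem letter_odd (n : ℕ) (x : ℕ → H) (l i : ℕ) (h : l % (2 * n) = 2 * i + 1) :
    letter n x l = (x i)⁻¹ := by
  unfold letter
  rw [h, if_neg (by omega)]
  congr 2
  omega

theorem evalW_cW (n : ℕ) (hn : 2 ≤ n) (x : ℕ → H) : evalW n x cW = cc x := by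
  unfold cW cc
  rw [evalW_cons, evalW_cons, evalW_cons, evalW_cons, evalW_nil,
    letter_even n x 0 0 (Nat.mod_eq_of_lt (by omega)),
    letter_even n x 2 1 (Nat.mod_eq_of_lt (by omega)),
    letter_odd n x 1 0 (Nat.mod_eq_of_lt (by omega)),
    letter_odd n x 3 1 (Nat.mod_eq_of_lt (by omega))]
  simp [mul_assoc]

end

end EvalAux

open EvalAux

theorem evalW_yW {H : Type} [Group H] (n : ℕ) (hn : 2 ≤ n) (x : ℕ → H) (w : List ℕ) :
    evalW n x (yW n w) = yy x (evalW n x w) := by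
  have hu : evalW n x (uW n w) = cj (evalW n x w) (cc x) := by
    unfold uW cj
    rw [evalW_append, evalW_append, evalW_invW n (by omega), evalW_cW n hn]
  unfold yW yy
  rw [evalW_append, evalW_append, evalW_append, evalW_invW n (by omega), evalW_invW n (by omega),
    evalW_cW n hn, hu]

theorem EvalAux.pr_evalW (n : ℕ) (w : List ℕ) : pr n (evalW n (x3 n) w) = evalW n (x2 n) w := by
  rw [← evalW_hom]
  rfl

namespace EvalAux

theorem sg_one (n : ℕ) : (sg (1 : G2 n) : Lam n) = 1 := by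
  unfold sg
  exact map_one _

theorem sg_mul {n : ℕ} (a b : G2 n) : (sg (a * b) : Lam n) = sg a * sg b := by
  unfold sg
  exact map_mul _ _ _

theorem sg_inj {n : ℕ} {a b : G2 n} (h : (sg a : Lam n) = sg b) : a = b :=
  MonoidAlgebra.of_injective h

theorem D3_one (n : ℕ) (i : Fin n) : D3 n 1 i = 0 := by
  have h := D3_mul n 1 1 i
  rw [mul_one, map_one, sg_one, mul_one] at h
  simpa using h

theorem D3_inv (n : ℕ) (g : G3 n) (i : Fin n) : D3 n g⁻¹ i = - (D3 n g i * sg (pr n g)⁻¹) := by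
  have h := D3_mul n g g⁻¹ i
  rw [mul_inv_cancel, D3_one, map_inv] at h
  rw [eq_neg_iff_add_eq_zero, add_comm]
  exact h.symm

theorem pr_x3 (n : ℕ) (i : ℕ) : pr n (x3 n i) = x2 n i := rfl

end EvalAux

theorem fox_eval (n : ℕ) (hn : 2 ≤ n) (w : List ℕ) (i : Fin n) :
    D3 n (evalW n (x3 n) w) i = toLam n (foxPos n i w, foxNeg n i w) := by
  induction w with
  | nil => 
    rw [evalW_nil, D3_one]
    simp [toLam, foxPos, foxNeg]
  | cons l s ih =>
    rw [evalW_cons, D3_mul, ih, pr_evalW]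
    have hr : l % (2 * n) < 2 * n := Nat.mod_lt _ (by omega)
    obtain ⟨j, hj⟩ := Nat.even_or_odd' (l % (2 * n))
    rcases hj with hj | hj
    · rw [letter_even n _ l j hj]
      have hjn : j < n := by omega
      have e1 : D3 n (x3 n j) = Pi.single (⟨j, hjn⟩ : Fin n) 1 := D3_x n ⟨j, hjn⟩
      rw [e1]
      have e3 : foxNeg n i (l :: s) = foxNeg n i s := by
        unfold foxNeg
        rw [if_neg (by omega)]
        split <;> rfl
      by_cases hij : j = i
      · have e2 : foxPos n i (l :: s) = s :: foxPos n i s := by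
          rw [foxPos, if_pos (by omega)]
        have e4 : (⟨j, hjn⟩ : Fin n) = i := Fin.ext hij
        rw [e2, e3, e4, Pi.single_eq_same, one_mul]
        unfold toLam
        simp only [List.map_cons, List.sum_cons]
        abel
      · have e2 : foxPos n i (l :: s) = foxPos n i s := by
          rw [foxPos, if_neg (by omega)]
        have e4 : i ≠ (⟨j, hjn⟩ : Fin n) := fun h => hij (by rw [h])
        rw [e2, e3, Pi.single_eq_of_ne e4, zero_mul, zero_add]
    · rw [letter_odd n _ l j hj]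
      have hjn : j < n := by omega
      have e1 : D3 n (x3 n j) = Pi.single (⟨j, hjn⟩ : Fin n) 1 := D3_x n ⟨j, hjn⟩
      rw [D3_inv, e1, pr_x3]
      have e2 : foxPos n i (l :: s) = foxPos n i s := by
        rw [foxPos, if_neg (by omega)]
      by_cases hij : j = i
      · have e3 : foxNeg n i (l :: s) = (l :: s) :: foxNeg n i s := by
          rw [foxNeg, if_pos (by omega)]
        have e4 : (⟨j, hjn⟩ : Fin n) = i := Fin.ext hij
        rw [e2, e3, e4, Pi.single_eq_same, one_mul]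
        unfold toLam
        simp only [List.map_cons, List.sum_cons]
        rw [evalW_cons, letter_odd n _ l j hj, sg_mul, neg_mul]
        abel
      · have e3 : foxNeg n i (l :: s) = foxNeg n i s := by
          rw [foxNeg, if_neg (by omega)]
        have e4 : i ≠ (⟨j, hjn⟩ : Fin n) := fun h => hij (by rw [h])
        rw [e2, e3, Pi.single_eq_of_ne e4, zero_mul, neg_zero, zero_mul, zero_add]

namespace EvalAux

/-- commutators in the metabelian group commute -/
theorem comm_of_derived (n : ℕ) (a b : G2 n) (ha : a ∈ commutator (G2 n)) (hb : b ∈ commutator (G2 n)) :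
    a * b = b * a := by
  have hs : Function.Surjective (QuotientGroup.mk' (derivedSeries (FF n) 2)) :=
    QuotientGroup.mk'_surjective _
  have h1 : commutator (G2 n) = (commutator (FF n)).map (QuotientGroup.mk' (derivedSeries (FF n) 2)) := by
    rw [commutator_def, commutator_def, Subgroup.map_commutator,
      ← MonoidHom.range_eq_map, MonoidHom.range_eq_top.2 hs]
  rw [h1] at ha hb
  obtain ⟨u, hu, rfl⟩ := ha
  obtain ⟨v, hv, rfl⟩ := hb
  rw [← map_mul, ← map_mul]
  apply (QuotientGroup.eq).2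
  have h2 : (u * v)⁻¹ * (v * u) = ⁅v⁻¹, u⁻¹⁆ := by
    rw [commutatorElement_def]; group
  rw [h2]
  have h3 : derivedSeries (FF n) 2 = ⁅commutator (FF n), commutator (FF n)⁆ := by
    rw [commutator_def]; rfl
  rw [h3]
  exact Subgroup.commutator_mem_commutator (inv_mem hv) (inv_mem hu)

theorem cc_mem (n : ℕ) : cc (x2 n) ∈ commutator (G2 n) := by
  have : cc (x2 n) = ⁅x2 n 0, x2 n 1⁆ := by rw [commutatorElement_def]; rfl
  rw [this, commutator_def]
  exact Subgroup.commutator_mem_commutator (Subgroup.mem_top _) (Subgroup.mem_top _)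

theorem cj_mem (n : ℕ) (g : G2 n) : cj g (cc (x2 n)) ∈ commutator (G2 n) := by
  have h := (inferInstance : (commutator (G2 n)).Normal).conj_mem _ (cc_mem n) g⁻¹
  rw [inv_inv] at h
  exact h

theorem pr_cc (n : ℕ) : pr n (cc (x3 n)) = cc (x2 n) := by
  unfold cc
  simp only [map_mul, map_inv, pr_x3]

theorem pr_cj (n : ℕ) (g a : G3 n) : pr n (cj g a) = cj (pr n g) (pr n a) := by
  unfold cj
  simp only [map_mul, map_inv]

theorem pr_yy (n : ℕ) (g : G3 n) : pr n (yy (x3 n) g) = 1 := by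
  unfold yy
  simp only [map_mul, map_inv, pr_cj, pr_cc]
  have h := comm_of_derived n _ _ (cj_mem n (pr n g)) (cc_mem n)
  rw [mul_assoc, mul_assoc, inv_mul_eq_one, eq_inv_mul_iff_mul_eq]
  exact h.symm

theorem cc_ne (n : ℕ) (hn : 2 ≤ n) : cc (x2 n) ≠ 1 := by
  intro h
  have := cc2_order n hn 1 (by rw [zpow_one]; exact h)
  exact one_ne_zero this

theorem x0_ne (n : ℕ) (hn : 2 ≤ n) : x2 n 0 ≠ 1 := by
  intro h
  apply cc_ne n hn
  unfold cc
  rw [h]
  group

/-- derivative of a conjugate -/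
theorem D3_cj (n : ℕ) (g a : G3 n) (ha : pr n a = 1) (i : Fin n) :
    D3 n (cj g a) i = D3 n a i * sg (pr n g) := by
  unfold cj
  rw [D3_mul, D3_mul, D3_inv, ha, sg_one, mul_one, add_mul, neg_mul, mul_assoc, ← sg_mul,
    inv_mul_cancel, sg_one, mul_one]
  abel

theorem D3_mul_M (n : ℕ) (a b : G3 n) (hb : pr n b = 1) (i : Fin n) :
    D3 n (a * b) i = D3 n a i + D3 n b i := by
  rw [D3_mul, hb, sg_one, mul_one]

theorem D3_inv_M (n : ℕ) (b : G3 n) (hb : pr n b = 1) (i : Fin n) :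
    D3 n b⁻¹ i = - D3 n b i := by
  rw [D3_inv, hb, inv_one, sg_one, mul_one]

theorem sum_zero (n : ℕ) (b : G3 n) (hb : pr n b = 1) :
    ∑ i : Fin n, (sg (x2 n i) - 1) * D3 n b i = 0 := by
  rw [D3_sum, hb, sg_one, sub_self]

/-- a vector annihilated by all components `≥ 1` and by the sum is zero -/
theorem vec_zero (n : ℕ) (hn : 2 ≤ n) (E : Fin n → Lam n)
    (h1 : ∀ i : Fin n, 1 ≤ (i : ℕ) → E i = 0)
    (h2 : ∑ i : Fin n, (sg (x2 n i) - 1) * E i = 0) : E = 0 := by
  have := lam_noZeroDivisors n hn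
  have hpos : 0 < n := by omega
  have h3 : (sg (x2 n 0) - 1) * E ⟨0, hpos⟩ = 0 := by
    rw [Finset.sum_eq_single (⟨0, hpos⟩ : Fin n)] at h2
    · exact h2
    · intro j _ hj
      rw [h1 j, mul_zero]
      rcases Nat.eq_zero_or_pos (j : ℕ) with h | h
      · exact absurd (Fin.ext h) hj
      · exact h
    · intro h; exact absurd (Finset.mem_univ _) h
  have h4 : (sg (x2 n 0) - 1 : Lam n) ≠ 0 := by
    intro h
    rw [sub_eq_zero, ← sg_one] at h
    exact x0_ne n hn (sg_inj h)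
  have h5 : E ⟨0, hpos⟩ = 0 := (mul_eq_zero.1 h3).resolve_left h4
  ext1 i
  rcases Nat.eq_zero_or_pos (i : ℕ) with h | h
  · have : i = ⟨0, hpos⟩ := Fin.ext h
    rw [this]; exact h5
  · exact h1 i h

theorem D3_eq_zero (n : ℕ) (b : G3 n) (h : ∀ i, D3 n b i = 0) : b = 1 := by
  apply D3_injective n
  ext1 i
  rw [h i, D3_one]

theorem exists_comp (n : ℕ) (b : G3 n) (h : b ≠ 1) : ∃ i, D3 n b i ≠ 0 := by
  by_contra hc
  push Not at hc
  exact h (D3_eq_zero n b hc)

/-! ### the action of the group ring -/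

/-- ring elements acting on `M` -/
noncomputable def actSub (n : ℕ) (a : G3 n) : AddSubgroup (Lam n) where
  carrier := {f | ∃ b, pr n b = 1 ∧ ∀ i, D3 n b i = D3 n a i * f}
  zero_mem' := ⟨1, map_one _, fun i => by rw [D3_one, mul_zero]⟩
  add_mem' := by
    rintro f g ⟨b, hb, hb'⟩ ⟨c, hc, hc'⟩
    refine ⟨b * c, by rw [map_mul, hb, hc, mul_one], fun i => ?_⟩
    rw [D3_mul_M n b c hc, hb' i, hc' i, mul_add]
  neg_mem' := by
    rintro f ⟨b, hb, hb'⟩
    refine ⟨b⁻¹, by rw [map_inv, hb, inv_one], fun i => ?_⟩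
    rw [D3_inv_M n b hb, hb' i, mul_neg]

theorem pr_surj (n : ℕ) (g : G2 n) : ∃ h : G3 n, pr n h = g := by
  obtain ⟨u, rfl⟩ := QuotientGroup.mk_surjective g
  exact ⟨QuotientGroup.mk u, rfl⟩

theorem exists_act' (n : ℕ) (hn : 2 ≤ n) (a : G3 n) (ha : InM a) (f : Lam n) :
    ∃ b, InM b ∧ ∀ i, D3 n b i = D3 n a i * f := by
  have hapr := (InM_iff n hn a).1 ha
  have : f ∈ actSub n a := by
    induction f using MonoidAlgebra.induction_on with
    | of g =>
      obtain ⟨h, rfl⟩ := pr_surj n g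
      refine ⟨cj h a, ?_, fun i => ?_⟩
      · rw [pr_cj, hapr]; unfold cj; group
      · rw [D3_cj n h a hapr]; rfl
    | add f g hf hg => exact add_mem hf hg
    | smul r f hf => exact zsmul_mem hf r
  obtain ⟨b, hb, hb'⟩ := this
  exact ⟨b, (InM_iff n hn b).2 hb, hb'⟩

/-! ### the elements `z_i` -/

theorem zz_eq {H : Type} [Group H] (n : ℕ) (x : ℕ → H) (m : ℕ) (hm : m < n) :
    zz n x m = ((x 0)⁻¹ * (x 0 * x m * (x 0)⁻¹ * (x m)⁻¹) * x 0)⁻¹ *
      (x 0 * x m * (x 0)⁻¹ * (x m)⁻¹)⁻¹ * ((x 0)⁻¹ * (x 0 * x m * (x 0)⁻¹ * (x m)⁻¹) * x 0) *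
      (x 0 * x m * (x 0)⁻¹ * (x m)⁻¹) := by
  have hpos : 0 < n := by omega
  have l0 : letter n x 0 = x 0 := letter_even n x 0 0 (Nat.mod_eq_of_lt (by omega))
  have l1 : letter n x 1 = (x 0)⁻¹ := letter_odd n x 1 0 (Nat.mod_eq_of_lt (by omega))
  have l2 : letter n x (2 * m) = x m := letter_even n x (2 * m) m (Nat.mod_eq_of_lt (by omega))
  have l3 : letter n x (2 * m + 1) = (x m)⁻¹ :=
    letter_odd n x (2 * m + 1) m (Nat.mod_eq_of_lt (by omega))
  have hd : evalW n x (dW m) = x 0 * x m * (x 0)⁻¹ * (x m)⁻¹ := by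
    unfold dW
    rw [evalW_cons, evalW_cons, evalW_cons, evalW_cons, evalW_nil, l0, l1, l2, l3]
    simp [mul_assoc]
  have hu : evalW n x (([1] : List ℕ) ++ dW m ++ [0]) =
      (x 0)⁻¹ * (x 0 * x m * (x 0)⁻¹ * (x m)⁻¹) * x 0 := by
    rw [evalW_append, evalW_append, hd, evalW_cons, evalW_cons, evalW_nil, l0, l1, mul_one, mul_one]
  unfold zz zW
  rw [evalW_append, evalW_append, evalW_append, evalW_invW n hpos, evalW_invW n hpos, hd, hu]

/-- the subgroup of elements whose `j`-th derivative vanishes -/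
noncomputable def Kj (n : ℕ) (j : Fin n) : Subgroup (G3 n) where
  carrier := {g | D3 n g j = 0}
  one_mem' := D3_one n j
  mul_mem' := by
    intro a b ha hb
    change D3 n a j = 0 at ha
    change D3 n b j = 0 at hb
    change D3 n (a * b) j = 0
    rw [D3_mul, ha, hb, zero_mul, zero_add]
  inv_mem' := by
    intro a ha
    change D3 n a j = 0 at ha
    change D3 n a⁻¹ j = 0
    rw [D3_inv, ha, zero_mul, neg_zero]

theorem mem_Kj (n : ℕ) (j : Fin n) (g : G3 n) : g ∈ Kj n j ↔ D3 n g j = 0 := Iff.rfl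

theorem x3_mem_Kj (n : ℕ) (j : Fin n) (i : ℕ) (hi : i < n) (h : i ≠ j) : x3 n i ∈ Kj n j := by
  rw [mem_Kj]
  have e1 : D3 n (x3 n i) = Pi.single (⟨i, hi⟩ : Fin n) 1 := D3_x n ⟨i, hi⟩
  rw [e1]
  exact Pi.single_eq_of_ne (fun h' => h (by rw [h'])) _

theorem zz_comp (n : ℕ) (m : ℕ) (hm : m < n) (j : Fin n) (h0 : (j : ℕ) ≠ 0)
    (hj : (j : ℕ) ≠ m) : D3 n (zz n (x3 n) m) j = 0 := by
  rw [← mem_Kj, zz_eq n _ m hm]
  have h0' := x3_mem_Kj n j 0 (by omega) (fun h => h0 h.symm)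
  have hm' := x3_mem_Kj n j m hm (fun h => hj h.symm)
  have hd : x3 n 0 * x3 n m * (x3 n 0)⁻¹ * (x3 n m)⁻¹ ∈ Kj n j :=
    mul_mem (mul_mem (mul_mem h0' hm') (inv_mem h0')) (inv_mem hm')
  have hu : (x3 n 0)⁻¹ * (x3 n 0 * x3 n m * (x3 n 0)⁻¹ * (x3 n m)⁻¹) * x3 n 0 ∈ Kj n j :=
    mul_mem (mul_mem (inv_mem h0') hd) h0'
  exact mul_mem (mul_mem (mul_mem (inv_mem hu) (inv_mem hd)) hu) hd

theorem zz_self_ne (n : ℕ) (hn : 2 ≤ n) (m : ℕ) (h1 : 1 ≤ m) (hm : m < n) :
    D3 n (zz n (x3 n) m) ⟨m, hm⟩ ≠ 0 := by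
  intro h
  obtain ⟨hM, hne⟩ := exists_M n hn m h1 hm
  apply hne
  apply D3_eq_zero
  intro i
  have := vec_zero n hn (D3 n (zz n (x3 n) m)) (by
    intro j hj
    by_cases hjm : (j : ℕ) = m
    · have : j = ⟨m, hm⟩ := Fin.ext hjm
      rw [this]; exact h
    · exact zz_comp n m hm j (by omega) hjm) (sum_zero n _ ((InM_iff n hn _).1 hM))
  rw [this]; rfl

/-! ### Span -/

theorem SpanS_D (n : ℕ) (hn : 2 ≤ n) (s : ℕ → RCode) (k : ℕ) : ∀ (Y : G3 n), SpanS n s k Y →
    ∀ i, D3 n Y i = ∑ m ∈ Finset.range k, D3 n (zz n (x3 n) (m + 1)) i * toLam n (s (m + 1)) := by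
  induction k with
  | zero =>
    intro Y h i
    have h' : Y = 1 := h
    rw [h', D3_one, Finset.range_zero, Finset.sum_empty]
  | succ k ih =>
    rintro Y ⟨b, ⟨hb, hb'⟩, hS⟩ i
    have h1 := ih _ hS i
    have hb1 := (InM_iff n hn b).1 hb
    have h2 : D3 n (Y * b⁻¹) i = D3 n Y i - D3 n b i := by
      rw [D3_mul_M n Y b⁻¹ (by rw [map_inv, hb1, inv_one]), D3_inv_M n b hb1]
      abel
    rw [h2, hb' i] at h1
    rw [Finset.sum_range_succ, ← h1]
    abel

theorem SpanS_of (n : ℕ) (hn : 2 ≤ n) (s : ℕ → RCode) (k : ℕ) (hk : k < n) : ∀ (Y : G3 n),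
    (∀ i, D3 n Y i = ∑ m ∈ Finset.range k, D3 n (zz n (x3 n) (m + 1)) i * toLam n (s (m + 1))) →
    SpanS n s k Y := by
  induction k with
  | zero =>
    intro Y h
    apply D3_eq_zero
    intro i
    rw [h i, Finset.range_zero, Finset.sum_empty]
  | succ k ih =>
    intro Y h
    obtain ⟨b, hb, hb'⟩ := exists_act' n hn (zz n (x3 n) (k + 1))
      (exists_M n hn (k + 1) (by omega) (by omega)).1 (toLam n (s (k + 1)))
    refine ⟨b, ⟨hb, hb'⟩, ih (by omega) _ ?_⟩
    intro i
    have hb1 := (InM_iff n hn b).1 hb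
    have h2 : D3 n (Y * b⁻¹) i = D3 n Y i - D3 n b i := by
      rw [D3_mul_M n Y b⁻¹ (by rw [map_inv, hb1, inv_one]), D3_inv_M n b hb1]
      abel
    rw [h2, hb' i, h i, Finset.sum_range_succ]
    abel

/-! ### codes -/

theorem exists_word_FF (n : ℕ) (u : FF n) : ∃ w, evalW n (xF n) w = u := by
  rcases Nat.eq_zero_or_pos n with hn | hn
  · subst hn
    refine ⟨[], ?_⟩
    induction u using FreeGroup.induction_on with
    | C1 => rfl
    | of i => exact i.elim0
    | inv_of i _ => exact i.elim0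
    | mul u v hu hv => rw [← hu, ← hv]; rfl
  · induction u using FreeGroup.induction_on with
    | C1 => exact ⟨[], rfl⟩
    | of i =>
      refine ⟨[2 * i], ?_⟩
      rw [evalW_cons, evalW_nil, mul_one, letter_even n _ (2 * i) i (Nat.mod_eq_of_lt (by omega))]
      unfold xF
      rw [dif_pos i.2]
    | inv_of i h =>
      obtain ⟨w, hw⟩ := h
      exact ⟨invW n w, by rw [evalW_invW n hn, hw]⟩
    | mul u v hu hv =>
      obtain ⟨w, hw⟩ := hu
      obtain ⟨w', hw'⟩ := hv
      exact ⟨w ++ w', by rw [evalW_append, hw, hw']⟩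

theorem exists_word (n : ℕ) (g : G2 n) : ∃ w, evalW n (x2 n) w = g := by
  obtain ⟨u, rfl⟩ := QuotientGroup.mk_surjective g
  obtain ⟨w, rfl⟩ := exists_word_FF n u
  exact ⟨w, evalW_hom (QuotientGroup.mk' (derivedSeries (FF n) 2)) n (xF n) w⟩

noncomputable def codeSub (n : ℕ) : AddSubgroup (Lam n) where
  carrier := {f | ∃ ρ, toLam n ρ = f}
  zero_mem' := ⟨([], []), by simp [toLam]⟩
  add_mem' := by
    rintro a b ⟨ρ, rfl⟩ ⟨σ, rfl⟩
    refine ⟨(ρ.1 ++ σ.1, ρ.2 ++ σ.2), ?_⟩
    unfold toLam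
    simp only [List.map_append, List.sum_append]
    abel
  neg_mem' := by
    rintro a ⟨ρ, rfl⟩
    refine ⟨(ρ.2, ρ.1), ?_⟩
    unfold toLam
    abel

theorem exists_code (n : ℕ) (f : Lam n) : ∃ ρ, toLam n ρ = f := by
  have : f ∈ codeSub n := by
    induction f using MonoidAlgebra.induction_on with
    | of g =>
      obtain ⟨w, hw⟩ := exists_word n g
      refine ⟨([w], []), ?_⟩
      simp only [toLam, List.map_cons, List.map_nil, List.sum_cons, List.sum_nil, add_zero, sub_zero,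
        hw]
      rfl
    | add f g hf hg => exact add_mem hf hg
    | smul r f hf => exact zsmul_mem hf r
  exact this

/-! ### Ore -/

noncomputable def phi0 (n : ℕ) : FF n →* Multiplicative (Fin n → ℤ) where
  toFun u := Multiplicative.ofAdd (fun i => SepAux.eqv n (QuotientGroup.mk u) i)
  map_one' := by
    have : SepAux.eqv n (QuotientGroup.mk (1 : FF n)) = 0 := SepAux.eqv_one n
    rw [this]; rfl
  map_mul' u v := by
    have : SepAux.eqv n (QuotientGroup.mk (u * v)) =
      SepAux.eqv n (QuotientGroup.mk u) + SepAux.eqv n (QuotientGroup.mk v) :=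
        SepAux.eqv_mul n (QuotientGroup.mk u) (QuotientGroup.mk v)
    rw [this]; rfl

theorem phi0_eq_one (n : ℕ) (u : FF n) : phi0 n u = 1 ↔ u ∈ commutator (FF n) := by
  rw [← QuotientGroup.eq_one_iff u]
  constructor
  · intro h
    apply SepAux.eqv_inj n
    rw [SepAux.eqv_one]
    ext i
    exact congrFun h i
  · intro h
    have : SepAux.eqv n (QuotientGroup.mk u) = 0 := by rw [h]; exact SepAux.eqv_one n
    change Multiplicative.ofAdd (fun i => SepAux.eqv n (QuotientGroup.mk u) i) = 1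
    rw [this]; rfl

noncomputable def phiA (n : ℕ) : G2 n →* Multiplicative (Fin n → ℤ) :=
  QuotientGroup.lift (derivedSeries (FF n) 2) (phi0 n) (by
    intro u hu
    rw [MonoidHom.mem_ker, phi0_eq_one, ← derivedSeries_one]
    exact derivedSeries_antitone (FF n) (by norm_num : 1 ≤ 2) hu)

theorem phiA_ker (n : ℕ) (a b : G2 n) (ha : phiA n a = 1) (hb : phiA n b = 1) : a * b = b * a := by
  have key : ∀ a : G2 n, phiA n a = 1 → a ∈ commutator (G2 n) := by
    intro a ha
    obtain ⟨u, rfl⟩ := QuotientGroup.mk_surjective a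
    have h1 : phi0 n u = 1 := ha
    rw [phi0_eq_one] at h1
    have hs : Function.Surjective (QuotientGroup.mk' (derivedSeries (FF n) 2)) :=
      QuotientGroup.mk'_surjective _
    have h2 : commutator (G2 n) =
        (commutator (FF n)).map (QuotientGroup.mk' (derivedSeries (FF n) 2)) := by
      rw [commutator_def, commutator_def, Subgroup.map_commutator,
        ← MonoidHom.range_eq_map, MonoidHom.range_eq_top.2 hs]
    rw [h2]
    exact ⟨u, h1, rfl⟩
  exact comm_of_derived n a b (key a ha) (key b hb)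

theorem ore_list (n : ℕ) (hn : 2 ≤ n) (k : ℕ) (p q : ℕ → Lam n)
    (hq : ∀ j, 1 ≤ j → j < k → q j ≠ 0) :
    ∃ r : Lam n, r ≠ 0 ∧ ∀ j, 1 ≤ j → j < k → ∃ s, p j * r = q j * s := by
  have := lam_noZeroDivisors n hn
  induction k with
  | zero => exact ⟨1, one_ne_zero, fun j _ h => absurd h (by omega)⟩
  | succ k ih =>
    obtain ⟨r, hr, h⟩ := ih (fun j h1 h2 => hq j h1 (by omega))
    rcases Nat.eq_zero_or_pos k with hk | hk
    · subst hk
      exact ⟨1, one_ne_zero, fun j _ h => absurd h (by omega)⟩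
    · obtain ⟨a, b, ha, hab⟩ := ore_general n (phiA n) (phiA_ker n) (p k * r) (q k)
        (hq k hk (by omega))
      refine ⟨r * a, mul_ne_zero hr ha, ?_⟩
      intro j h1 h2
      rcases Nat.lt_or_ge j k with hjk | hjk
      · obtain ⟨s, hs⟩ := h j h1 hjk
        exact ⟨s * a, by rw [← mul_assoc, hs, mul_assoc]⟩
      · have : j = k := by omega
        subst this
        exact ⟨b, by rw [← mul_assoc, hab]⟩

end EvalAux

theorem EVs_iff (n : ℕ) (hn : 2 ≤ n) (w : List ℕ) (g : G3 n) :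
    EVs n w g ↔ g = evalW n (x3 n) w := by
  have hdom := lam_noZeroDivisors n hn
  obtain ⟨hz1, hz1'⟩ := exists_M n hn 1 le_rfl (by omega)
  obtain ⟨k0, hk0⟩ := exists_comp n _ hz1'
  have hz1pr := (InM_iff n hn _).1 hz1
  have htw : toLam n ([w], []) = sg (evalW n (x2 n) w) := by
    simp [toLam]
  have hyW : evalW n (x3 n) (yW n w) = yy (x3 n) (evalW n (x3 n) w) := evalW_yW n hn _ w
  constructor
  · rintro ⟨h1, r, s, hr, ⟨Y, ⟨hYM, hY⟩, hS⟩, h3⟩
    -- the images in the metabelian group agree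
    have hprg : pr n g = evalW n (x2 n) w := by
      have h4 := (h1 _ hz1).2 k0
      rw [D3_cj n g _ hz1pr, htw] at h4
      have h5 : D3 n (zz n (x3 n) 1) k0 * (sg (pr n g) - sg (evalW n (x2 n) w)) = 0 := by
        rw [mul_sub, h4, sub_self]
      have h6 := (mul_eq_zero.1 h5).resolve_left hk0
      exact sg_inj (sub_eq_zero.1 h6)
    have hr0 : toLam n r ≠ 0 := by
      intro h
      apply hr
      refine ⟨(InM_iff n hn 1).2 (map_one _), ?_⟩
      intro i
      rw [D3_one, h, mul_zero]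
    have hyy : yy (x3 n) g = yy (x3 n) (evalW n (x3 n) w) := by
      apply D3_injective n
      have h7 := vec_zero n hn
        (fun i => D3 n (yy (x3 n) g) i - D3 n (yy (x3 n) (evalW n (x3 n) w)) i) ?_ ?_
      · ext1 i
        exact sub_eq_zero.1 (congrFun h7 i)
      · intro j hj
        have hj2 := j.2
        obtain ⟨a1, a2, a3, e1, e2, e3, e4⟩ := h3 j hj hj2 _ hz1
        have f1 := e1.2 k0
        have f2 := e2.2 k0
        have f3 := e3.2 k0
        have f4 := e4.2 k0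
        rw [← fox_eval n hn (yW n w) j, hyW] at f1
        rw [← fox_eval n hn (zW n j) j] at f3
        rw [f1] at f2
        rw [f3, f2, mul_assoc, mul_assoc] at f4
        have f5 : D3 n (yy (x3 n) (evalW n (x3 n) w)) j * toLam n r =
            D3 n (zz n (x3 n) j) j * toLam n (s j) := by
          have : D3 n (zz n (x3 n) 1) k0 * (D3 n (yy (x3 n) (evalW n (x3 n) w)) j * toLam n r -
            D3 n (zz n (x3 n) j) j * toLam n (s j)) = 0 := by
            rw [mul_sub, sub_eq_zero]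
            exact f4
          exact sub_eq_zero.1 ((mul_eq_zero.1 this).resolve_left hk0)
        have f6 := SpanS_D n hn s (n - 1) Y hS j
        rw [Finset.sum_eq_single ((j : ℕ) - 1)] at f6
        · rw [hY j, show (j : ℕ) - 1 + 1 = j by omega, ← f5] at f6
          have : (D3 n (yy (x3 n) g) j - D3 n (yy (x3 n) (evalW n (x3 n) w)) j) * toLam n r = 0 := by
            rw [sub_mul, f6, sub_self]
          exact (mul_eq_zero.1 this).resolve_right hr0
        · intro m hm hm2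
          rw [Finset.mem_range] at hm
          rw [zz_comp n (m + 1) (by omega) j (by omega) (by omega), zero_mul]
        · intro hmem
          exact absurd (Finset.mem_range.2 (by omega)) hmem
      · simp only [mul_sub, Finset.sum_sub_distrib]
        rw [sum_zero n _ (pr_yy n _), sum_zero n _ (pr_yy n _), sub_zero]
    -- conclusion
    set W := evalW n (x3 n) w with hW
    have hm : pr n (W⁻¹ * g) = 1 := by
      rw [map_mul, map_inv, hprg, hW, pr_evalW, inv_mul_cancel]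
    obtain ⟨m, rfl⟩ : ∃ m, g = W * m := ⟨W⁻¹ * g, by group⟩
    rw [inv_mul_cancel_left] at hm
    set c := cc (x3 n) with hc
    set u := cj W c with hu
    have hcj : cj (W * m) c = m⁻¹ * u * m := by
      rw [hu]; unfold cj; group
    -- t = u' u⁻¹ commutes with c
    have ht : (m⁻¹ * u * m * u⁻¹) * c = c * (m⁻¹ * u * m * u⁻¹) := by
      unfold yy at hyy
      rw [← hc, hcj, ← hu] at hyy
      have h8 : (m⁻¹ * u * m)⁻¹ * c⁻¹ * (m⁻¹ * u * m) = u⁻¹ * c⁻¹ * u := mul_right_cancel hyy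
      have h9 : c⁻¹ * (m⁻¹ * u * m * u⁻¹) = (m⁻¹ * u * m * u⁻¹) * c⁻¹ := by
        have : c⁻¹ * (m⁻¹ * u * m) = (m⁻¹ * u * m) * (u⁻¹ * c⁻¹ * u) := by
          rw [← h8]; group
        calc c⁻¹ * (m⁻¹ * u * m * u⁻¹) = c⁻¹ * (m⁻¹ * u * m) * u⁻¹ := by group
          _ = (m⁻¹ * u * m) * (u⁻¹ * c⁻¹ * u) * u⁻¹ := by rw [this]
          _ = _ := by group
      calc (m⁻¹ * u * m * u⁻¹) * c = c * (c⁻¹ * (m⁻¹ * u * m * u⁻¹)) * c := by group
        _ = c * ((m⁻¹ * u * m * u⁻¹) * c⁻¹) * c := by rw [h9]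
        _ = _ := by group
    have htpr : pr n (m⁻¹ * u * m * u⁻¹) = 1 := by
      simp only [map_mul, map_inv, hm, inv_one, one_mul, mul_one, mul_inv_cancel]
    have ht1 : m⁻¹ * u * m * u⁻¹ = 1 := by
      apply D3_eq_zero
      intro i
      have h10 := congrArg (fun z => D3 n z i) ht
      rw [D3_mul, D3_mul n c, htpr, sg_one, mul_one, hc, pr_cc] at h10
      have h11 : D3 n (m⁻¹ * u * m * u⁻¹) i * (sg (cc (x2 n)) - 1) = 0 := by
        rw [mul_sub, mul_one, sub_eq_zero]
        have : D3 n (m⁻¹ * u * m * u⁻¹) i * sg (cc (x2 n)) + D3 n (cc (x3 n)) i =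
          D3 n (m⁻¹ * u * m * u⁻¹) i + D3 n (cc (x3 n)) i := by
          rw [h10]; abel
        exact add_right_cancel this
      refine (mul_eq_zero.1 h11).resolve_right ?_
      intro h
      rw [sub_eq_zero, ← sg_one] at h
      exact cc_ne n hn (sg_inj h)
    have hmu : m * u = u * m := by
      have : u * m = m * (m⁻¹ * u * m * u⁻¹) * u := by group
      rw [this, ht1, mul_one]
    have hm1 : m = 1 := by
      apply D3_eq_zero
      intro i
      have h10 := congrArg (fun z => D3 n z i) hmu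
      rw [D3_mul, D3_mul n u, hm, sg_one, mul_one] at h10
      have h11 : D3 n m i * (sg (pr n u) - 1) = 0 := by
        rw [mul_sub, mul_one, sub_eq_zero]
        have : D3 n m i * sg (pr n u) + D3 n u i = D3 n m i + D3 n u i := by
          rw [h10]; abel
        exact add_right_cancel this
      refine (mul_eq_zero.1 h11).resolve_right ?_
      intro h
      rw [sub_eq_zero, ← sg_one] at h
      have h12 := sg_inj h
      rw [hu, pr_cj, hc, pr_cc] at h12
      apply cc_ne n hn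
      unfold cj at h12
      have h13 : cc (x2 n) = pr n W * ((pr n W)⁻¹ * cc (x2 n) * pr n W) * (pr n W)⁻¹ := by group
      rw [h13, h12, mul_one, mul_inv_cancel]
    rw [hm1, mul_one]
  · rintro rfl
    set W := evalW n (x3 n) w with hW
    refine ⟨?_, ?_⟩
    · intro a ha
      have hapr := (InM_iff n hn a).1 ha
      refine ⟨?_, ?_⟩
      · rw [InM_iff n hn, pr_cj, hapr]
        unfold cj
        group
      · intro i
        rw [D3_cj n _ _ hapr, htw, hW, pr_evalW]
    · obtain ⟨r, hr, h⟩ := ore_list n hn n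
        (fun j => if hj : j < n then D3 n (yy (x3 n) W) ⟨j, hj⟩ else 0)
        (fun j => if hj : j < n then D3 n (zz n (x3 n) j) ⟨j, hj⟩ else 0) (by
          intro j h1 h2
          simp only [dif_pos h2]
          exact zz_self_ne n hn j h1 h2)
      obtain ⟨ρ, rfl⟩ := exists_code n r
      have h' : ∀ j, ∃ s : RCode, ∀ (h1 : 1 ≤ j) (h2 : j < n),
          D3 n (yy (x3 n) W) ⟨j, h2⟩ * toLam n ρ = D3 n (zz n (x3 n) j) ⟨j, h2⟩ * toLam n s := by
        intro j
        by_cases hj : 1 ≤ j ∧ j < n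
        · obtain ⟨s, hs⟩ := h j hj.1 hj.2
          simp only [dif_pos hj.2] at hs
          obtain ⟨σ, rfl⟩ := exists_code n s
          exact ⟨σ, fun _ _ => hs⟩
        · exact ⟨([], []), fun h1 h2 => absurd ⟨h1, h2⟩ hj⟩
      choose s hs using h'
      have hyyM : InM (yy (x3 n) W) := (InM_iff n hn _).2 (pr_yy n W)
      refine ⟨ρ, s, ?_, ?_, ?_⟩
      · intro hcon
        have := hcon.2 k0
        rw [D3_one] at this
        rcases mul_eq_zero.1 this.symm with h | h
        · exact hk0 h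
        · exact hr h
      · obtain ⟨Y, hYM, hY⟩ := exists_act' n hn _ hyyM (toLam n ρ)
        refine ⟨Y, ⟨hYM, hY⟩, SpanS_of n hn s (n - 1) (by omega) Y ?_⟩
        have h7 := vec_zero n hn (fun i => D3 n Y i -
          ∑ m ∈ Finset.range (n - 1), D3 n (zz n (x3 n) (m + 1)) i * toLam n (s (m + 1))) ?_ ?_
        · intro i
          exact sub_eq_zero.1 (congrFun h7 i)
        · intro j hj
          have hj2 := j.2
          rw [sub_eq_zero, hY j, Finset.sum_eq_single ((j : ℕ) - 1)]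
          · rw [show (j : ℕ) - 1 + 1 = j by omega]
            exact hs j hj hj2
          · intro m hm hm2
            rw [Finset.mem_range] at hm
            rw [zz_comp n (m + 1) (by omega) j (by omega) (by omega), zero_mul]
          · intro hmem
            exact absurd (Finset.mem_range.2 (by omega)) hmem
        · simp only [mul_sub, Finset.sum_sub_distrib]
          rw [sum_zero n _ ((InM_iff n hn _).1 hYM), zero_sub, neg_eq_zero]
          simp only [Finset.mul_sum]
          rw [Finset.sum_comm]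
          apply Finset.sum_eq_zero
          intro m hm
          rw [Finset.mem_range] at hm
          simp only [← mul_assoc]
          rw [← Finset.sum_mul, sum_zero n _
            ((InM_iff n hn _).1 (exists_M n hn (m + 1) (by omega) (by omega)).1), zero_mul]
      · intro i h1 h2 a ha
        obtain ⟨a1, ha1, e1⟩ := exists_act' n hn a ha
          (toLam n (foxPos n i (yW n w), foxNeg n i (yW n w)))
        obtain ⟨a2, ha2, e2⟩ := exists_act' n hn a1 ha1 (toLam n ρ)
        obtain ⟨a3, ha3, e3⟩ := exists_act' n hn a ha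
          (toLam n (foxPos n i (zW n i), foxNeg n i (zW n i)))
        refine ⟨a1, a2, a3, ⟨ha1, e1⟩, ⟨ha2, e2⟩, ⟨ha3, e3⟩, ha2, ?_⟩
        intro k
        rw [e2 k, e1 k, e3 k]
        have f1 := fox_eval n hn (yW n w) ⟨i, h2⟩
        have f2 := fox_eval n hn (zW n i) ⟨i, h2⟩
        simp only at f1 f2
        rw [← f1, ← f2, hyW, mul_assoc, mul_assoc]
        congr 1
        exact hs i h1 h2

end Pool.Agent.Lib.MP_21db1f_lc
end

section

/-!
The free solvable group of class 3 satisfies the axioms.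
-/

set_option autoImplicit false

namespace Pool.Agent.Lib.MP_21db1f_lc
set_option linter.all false

section
variable (n : ℕ) (hn : 2 ≤ n)
include hn

theorem cc3_inj (k l : ℤ) (h : cc (x3 n) ^ k = cc (x3 n) ^ l) : k = l := by
  have h1 : cc (x2 n) = pr n (cc (x3 n)) := by
    simp [cc, Scalars.pr_x3]
  have h2 : cc (x2 n) ^ (k - l) = 1 := by
    rw [h1, zpow_sub, ← map_zpow, ← map_zpow, h, mul_inv_cancel]
  have := cc2_order n hn _ h2
  omega

theorem Sc_nat (k : ℕ) (a b : G3 n) (ha : InM a) :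
    Sc (cc (x3 n)) (cc (x3 n) ^ k) a b ↔ b = a ^ k := by
  have := Sc_iff n hn (k : ℤ) a b ha
  rwa [zpow_natCast, zpow_natCast] at this

theorem std3 : Std (cc (x3 n)) := by
  refine ⟨NN_iff n hn, ?_, ?_⟩
  · intro k l h
    have h' : cc (x3 n) ^ (k : ℤ) = cc (x3 n) ^ (l : ℤ) := by
      rw [zpow_natCast, zpow_natCast]; exact h
    exact_mod_cast cc3_inj n hn _ _ h'
  · intro k l m
    have h := MulR_iff n hn (k : ℤ) (l : ℤ) (cc (x3 n) ^ (m : ℤ))
    rw [zpow_natCast, zpow_natCast, zpow_natCast] at h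
    rw [h]
    constructor
    · intro h1
      rw [← zpow_natCast] at h1
      have := cc3_inj n hn _ _ h1
      exact_mod_cast this
    · rintro rfl
      rw [← Nat.cast_mul, zpow_natCast]

theorem InDr_iff (D : AData n) (t : ℕ) (i : ℕ) : ∀ b : G3 n,
    InDr D (x3 n) (cc (x3 n) ^ t) i b ↔ InDs (x3 n) (dl t) i b := by
  have hstd := std3 n hn
  have key : ∀ (m : ℕ) (κ : G3 n), (NN (cc (x3 n)) κ ∧
      (D.get m).interp (cc (x3 n)) (env [cc (x3 n) ^ t, κ])) ↔ κ = cc (x3 n) ^ ((dl t).getD m 0) := by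
    intro m κ
    constructor
    · rintro ⟨h1, h2⟩
      obtain ⟨k, rfl⟩ := (hstd.nn _).1 h1
      have h3 : (D.get m).holds (envN [t, k]) := (hstd.interpL (D.get m) [t, k]).1 h2
      rw [D.h_get] at h3
      exact congrArg (fun z => cc (x3 n) ^ z) h3
    · rintro rfl
      refine ⟨(hstd.nn _).2 ⟨_, rfl⟩, ?_⟩
      refine (hstd.interpL (D.get m) [t, (dl t).getD m 0]).2 ?_
      rw [D.h_get]
      rfl
  induction i with
  | zero =>
    intro b
    constructor
    · rintro ⟨κ, h1, h2, h3⟩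
      have := (key 0 κ).1 ⟨h1, h2⟩
      rw [this] at h3
      exact h3
    · intro h
      exact ⟨_, ((key 0 _).2 rfl).1, ((key 0 _).2 rfl).2, h⟩
  | succ i ih =>
    intro b
    constructor
    · rintro ⟨κ, l, b1, b2, h1, h2, h3, h4, h5, h6, h7⟩
      have e1 := (key _ κ).1 ⟨h1, h3⟩
      have e2 := (key _ l).1 ⟨h2, h4⟩
      rw [e1] at h5
      rw [e2] at h6
      exact ⟨b1, b2, h5, h6, (ih _).1 h7⟩
    · rintro ⟨b1, b2, h5, h6, h7⟩
      exact ⟨_, _, b1, b2, ((key (2 + 4 * i) _).2 rfl).1, ((key (3 + 4 * i) _).2 rfl).1,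
        ((key (2 + 4 * i) _).2 rfl).2, ((key (3 + 4 * i) _).2 rfl).2, h5, h6, (ih _).2 h7⟩

theorem ActR_iff (D : AData n) {A : AF} {F : ℕ → RCode} (hA : IsVal n F A) (w : ℕ) (a b : G3 n)
    (ha : InM a) : ActR D (x3 n) A a (cc (x3 n) ^ w) b ↔ ActL n a (F w) b := by
  have hstd := std3 n hn
  rw [← ActS_iff n hn a b ha (F w)]
  unfold ActR ActS
  refine and_congr_right ?_
  intro hb
  constructor
  · intro h θ hθ
    obtain ⟨t, rfl⟩ := dl_surj θ
    have hadm : D.adm.interp (cc (x3 n)) (env [cc (x3 n) ^ t]) := by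
      refine (hstd.interpL D.adm [t]).2 ?_
      rw [D.h_adm]; exact hθ
    obtain ⟨e, he, h1, h2⟩ := h _ ((hstd.nn _).2 ⟨t, rfl⟩) hadm
    refine ⟨e, he, ?_, (InDr_iff n hn D t n _).1 h2⟩
    intro j
    obtain ⟨p, p', hp, hp', hv, v, α, α', ν, hv1, hα, hα', hν, heq⟩ := h1 _ ((hstd.nn _).2 ⟨j, rfl⟩)
    obtain ⟨k, rfl⟩ := (hstd.nn _).1 hp
    obtain ⟨k', rfl⟩ := (hstd.nn _).1 hp'
    have h3 : A.holds (envN [w, t, j, k, k']) := (hstd.interpL A [w, t, j, k, k']).1 hv
    rw [hA] at h3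
    rw [Sc_nat n hn _ _ _ ha] at hα hα'
    rw [Sc_nat n hn _ _ _ hv1] at hν
    refine ⟨v, hv1, ?_⟩
    have h4 : k = pval n (dl t) j (F w).1 := h3.1
    have h5 : k' = pval n (dl t) j (F w).2 := h3.2
    show e * a ^ pval n (dl t) j (F w).2 * (a ^ pval n (dl t) j (F w).1)⁻¹ = _
    rw [← h4, ← h5, ← hα, ← hα', ← hν]
    exact heq
  · intro h θ hθN hθ
    obtain ⟨t, rfl⟩ := (hstd.nn _).1 hθN
    have hadm : Adm n (dl t) := by
      have := (hstd.interpL D.adm [t]).1 hθ
      rw [D.h_adm] at this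
      exact this
    obtain ⟨e, he, h1, h2⟩ := h _ hadm
    refine ⟨e, he, ?_, (InDr_iff n hn D t n _).2 h2⟩
    intro j hj
    obtain ⟨j, rfl⟩ := (hstd.nn _).1 hj
    obtain ⟨v, hv, heq⟩ := h1 j
    refine ⟨cc (x3 n) ^ pval n (dl t) j (F w).1, cc (x3 n) ^ pval n (dl t) j (F w).2,
      (hstd.nn _).2 ⟨_, rfl⟩, (hstd.nn _).2 ⟨_, rfl⟩, ?_, v, a ^ pval n (dl t) j (F w).1,
      a ^ pval n (dl t) j (F w).2, v ^ j, hv, (Sc_nat n hn _ _ _ ha).2 rfl,
      (Sc_nat n hn _ _ _ ha).2 rfl, (Sc_nat n hn _ _ _ hv).2 rfl, heq⟩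
    refine (hstd.interpL A [w, t, j, pval n (dl t) j (F w).1, pval n (dl t) j (F w).2]).2 ?_
    rw [hA]
    exact ⟨rfl, rfl⟩

theorem SpanS_congr (s s' : ℕ → RCode) (k : ℕ) (hs : ∀ i, 1 ≤ i → i ≤ k → s i = s' i) :
    ∀ Y, SpanS n s k Y ↔ SpanS n s' k Y := by
  induction k with
  | zero => intro Y; exact Iff.rfl
  | succ k ih =>
    intro Y
    have ih' := ih (fun i h1 h2 => hs i h1 (by omega))
    show (∃ b, ActL n _ (s (k + 1)) b ∧ SpanS n s k (Y * b⁻¹)) ↔ (∃ b, ActL n _ (s' (k + 1)) b ∧ _)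
    rw [hs (k + 1) (by omega) le_rfl]
    simp only [ih']

theorem SpanR_iff (D : AData n) (m : ℕ) (k : ℕ) (hk : k < n) : ∀ Y : G3 n,
    SpanR D (x3 n) (cc (x3 n) ^ m) k Y ↔ SpanS n (fun i => ds i m) k Y := by
  induction k with
  | zero => intro Y; exact Iff.rfl
  | succ k ih =>
    intro Y
    show (∃ b, ActR D (x3 n) (D.gets (k + 1)) (zz n (x3 n) (k + 1)) (cc (x3 n) ^ m) b ∧ _) ↔
      (∃ b, ActL n (zz n (x3 n) (k + 1)) (ds (k + 1) m) b ∧ _)
    have hz := (exists_M n hn (k + 1) (by omega) hk).1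
    simp only [ActR_iff n hn D (D.h_gets (k + 1)) m _ _ hz, ih (by omega)]

theorem InM_yy (g : G3 n) : InM (yy (x3 n) g) := by
  rw [InM_iff n hn]
  have h1 : pr n (cc (x3 n)) = cc (x2 n) := by
    simp [cc, Scalars.pr_x3]
  have h2 : cc (x2 n) ∈ commutator (G2 n) := by
    have := Subgroup.commutator_mem_commutator (Subgroup.mem_top (x2 n 0)) (Subgroup.mem_top (x2 n 1))
    exact this
  have h3 : (pr n g)⁻¹ * cc (x2 n) * pr n g ∈ commutator (G2 n) := by
    have := (inferInstance : (commutator (G2 n)).Normal).conj_mem _ h2 (pr n g)⁻¹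
    rwa [inv_inv] at this
  have h4 := EvalAux.comm_of_derived n _ _ h3 h2
  unfold yy cj
  rw [map_mul, map_mul, map_mul, map_inv, map_inv, map_mul, map_mul, map_inv, h1]
  set a := (pr n g)⁻¹ * cc (x2 n) * pr n g with ha
  rw [mul_assoc, h4]
  group

theorem EVr_iff (D : AData n) (w : ℕ) (g : G3 n) :
    EVr D (x3 n) (cc (x3 n) ^ w) g ↔ g = evalW n (x3 n) (dl w) := by
  have hstd := std3 n hn
  rw [← EVs_iff n hn]
  unfold EVr EVs
  have hz := (exists_M n hn 1 le_rfl (by omega)).1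
  have hone : (1 : G3 n) = cc (x3 n) ^ 0 := (pow_zero _).symm
  refine and_congr ?_ ?_
  · refine forall_congr' (fun a => imp_congr_right (fun ha => ?_))
    exact ActR_iff n hn D D.h_word w a _ ha
  · constructor
    · rintro ⟨r, s, hr, hs, h1, ⟨Y, h2, h3⟩, h4⟩
      obtain ⟨k, rfl⟩ := (hstd.nn _).1 hr
      obtain ⟨m, rfl⟩ := (hstd.nn _).1 hs
      refine ⟨dr k, fun i => ds i m, ?_, ⟨Y, ?_, ?_⟩, ?_⟩
      · rw [← ActR_iff n hn D D.h_ring k _ _ hz]; exact h1
      · rw [← ActR_iff n hn D D.h_ring k _ _ (InM_yy n hn g)]; exact h2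
      · exact (SpanR_iff n hn D m (n - 1) (by omega) Y).1 h3
      · intro i hi1 hi2 a ha
        obtain ⟨a1, a2, a3, h5, h6, h7, h8⟩ := h4 i hi2 hi1 a ha
        have e5 := (ActR_iff n hn D (D.h_foxY i) w _ _ ha).1 h5
        rw [hone] at h7
        have e7 := (ActR_iff n hn D (D.h_const i) 0 _ _ ha).1 h7
        exact ⟨a1, a2, a3, e5, (ActR_iff n hn D D.h_ring k _ _ e5.1).1 h6, e7,
          (ActR_iff n hn D (D.h_gets i) m _ _ e7.1).1 h8⟩
    · rintro ⟨r, s, h1, ⟨Y, h2, h3⟩, h4⟩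
      obtain ⟨k, rfl⟩ := dr_surj r
      choose f hf using fun i => dr_surj (s i)
      obtain ⟨m, hm⟩ := dl_surj ((List.range n).map f)
      have hds : ∀ i, i < n → ds i m = s i := by
        intro i hi
        unfold ds
        rw [hm, ← hf i]
        congr 1
        simp [List.getD, hi]
      refine ⟨cc (x3 n) ^ k, cc (x3 n) ^ m, (hstd.nn _).2 ⟨_, rfl⟩, (hstd.nn _).2 ⟨_, rfl⟩, ?_,
        ⟨Y, ?_, ?_⟩, ?_⟩
      · rw [ActR_iff n hn D D.h_ring k _ _ hz]; exact h1
      · rw [ActR_iff n hn D D.h_ring k _ _ (InM_yy n hn g)]; exact h2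
      · rw [SpanR_iff n hn D m (n - 1) (by omega) Y]
        rw [SpanS_congr n hn (fun i => ds i m) s (n - 1) (fun i _ hi => hds i (by omega))]
        exact h3
      · intro i hi2 hi1 a ha
        obtain ⟨a1, a2, a3, e5, e6, e7, e8⟩ := h4 i hi1 hi2 a ha
        refine ⟨a1, a2, a3, (ActR_iff n hn D (D.h_foxY i) w _ _ ha).2 e5,
          (ActR_iff n hn D D.h_ring k _ _ e5.1).2 e6, ?_,
          (ActR_iff n hn D (D.h_gets i) m _ _ e7.1).2 ?_⟩
        · rw [hone]
          exact (ActR_iff n hn D (D.h_const i) 0 _ _ ha).2 e7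
        · rw [hds i hi2]; exact e8

theorem BR_iff (D : AData n) (k : ℕ) (g : G3 n) :
    BR D (x3 n) (cc (x3 n) ^ k) g ↔ ∃ L : List ℕ, L.length ≤ k ∧ g = evalW n (x3 n) L := by
  have hstd := std3 n hn
  constructor
  · rintro ⟨w, hw, h1, h2⟩
    obtain ⟨w, rfl⟩ := (hstd.nn _).1 hw
    have h3 : D.len.holds (envN [w, k]) := (hstd.interpL D.len [w, k]).1 h1
    rw [D.h_len] at h3
    exact ⟨dl w, h3, (EVr_iff n hn D w g).1 h2⟩
  · rintro ⟨L, h1, h2⟩
    obtain ⟨w, rfl⟩ := dl_surj L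
    refine ⟨cc (x3 n) ^ w, (hstd.nn _).2 ⟨_, rfl⟩, ?_, (EVr_iff n hn D w g).2 h2⟩
    refine (hstd.interpL D.len [w, k]).2 ?_
    rw [D.h_len]
    exact h1

/-- balls are not everything -/
theorem not_ball (k : ℕ) : ∃ g : G3 n, ∀ L : List ℕ, L.length ≤ k → g ≠ evalW n (x3 n) L := by
  let f : FF n →* Multiplicative ℤ := FreeGroup.lift (fun _ => Multiplicative.ofAdd (1 : ℤ))
  have hf : derivedSeries (FF n) 3 ≤ f.ker := by
    refine (derivedSeries_antitone (FF n) (by norm_num : 1 ≤ 3)).trans ?_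
    rw [derivedSeries_one]
    exact Abelianization.commutator_subset_ker f
  let F : G3 n →* Multiplicative ℤ := QuotientGroup.lift _ f hf
  have hx : ∀ i < n, F (x3 n i) = Multiplicative.ofAdd (1 : ℤ) := by
    intro i hi
    show f (xF n i) = _
    unfold xF
    rw [dif_pos hi]
    simp [f]
  have hl : ∀ l, F (letter n (x3 n) l) = Multiplicative.ofAdd (1 : ℤ) ∨
      F (letter n (x3 n) l) = Multiplicative.ofAdd (-1 : ℤ) := by
    intro l
    have hlt : l % (2 * n) / 2 < n := by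
      have := Nat.mod_lt l (by omega : 0 < 2 * n)
      omega
    unfold letter
    split_ifs
    · left; exact hx _ hlt
    · right; rw [map_inv, hx _ hlt]; rfl
  have hL : ∀ L : List ℕ, |Multiplicative.toAdd (F (evalW n (x3 n) L))| ≤ L.length := by
    intro L
    induction L with
    | nil => simp [evalW_nil]
    | cons l L ih =>
      rw [evalW_cons, map_mul, toAdd_mul, List.length_cons]
      have h1 := abs_add_le (Multiplicative.toAdd (F (letter n (x3 n) l)))
        (Multiplicative.toAdd (F (evalW n (x3 n) L)))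
      have h2 : |Multiplicative.toAdd (F (letter n (x3 n) l))| = 1 := by
        rcases hl l with h | h <;> rw [h] <;> simp
      push_cast
      linarith
  refine ⟨x3 n 0 ^ (k + 1), fun L hLk h => ?_⟩
  have h1 := hL L
  rw [← h, map_pow, hx 0 (by omega)] at h1
  simp at h1
  rw [abs_of_nonneg (by positivity)] at h1
  omega

theorem G_side (D : AData n) : Ax D (x3 n) := by
  have hstd := std3 n hn
  set c := cc (x3 n) with hc
  have hNN : ∀ k : ℕ, NN c (c ^ k) := fun k => (hstd.nn _).2 ⟨k, rfl⟩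
  have hone : (1 : G3 n) = c ^ 0 := (pow_zero _).symm
  constructor
  · rw [hone]; exact hNN 0
  · intro κ hκ
    obtain ⟨k, rfl⟩ := (hstd.nn _).1 hκ
    rw [← pow_succ]; exact hNN _
  · intro κ l hκ hl
    obtain ⟨k, rfl⟩ := (hstd.nn _).1 hκ
    obtain ⟨l, rfl⟩ := (hstd.nn _).1 hl
    exact ⟨by rw [← pow_add]; exact hNN _, by rw [← pow_add, ← pow_add, add_comm]⟩
  · intro κ hκ
    obtain ⟨k, rfl⟩ := (hstd.nn _).1 hκ
    cases k with
    | zero => left; exact pow_zero _
    | succ k => right; exact ⟨c ^ k, hNN k, pow_succ _ _⟩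
  · intro κ hκ h
    obtain ⟨k, rfl⟩ := (hstd.nn _).1 hκ
    rw [← pow_succ, hone] at h
    have := hstd.inj h
    omega
  · intro κ l hκ hl
    obtain ⟨k, rfl⟩ := (hstd.nn _).1 hκ
    obtain ⟨l, rfl⟩ := (hstd.nn _).1 hl
    exact ⟨c ^ (k * l), hNN _, (hstd.mul _ _ _).2 rfl⟩
  · intro κ l p p' hκ hl hp hp' h h'
    obtain ⟨k, rfl⟩ := (hstd.nn _).1 hκ
    obtain ⟨l, rfl⟩ := (hstd.nn _).1 hl
    obtain ⟨p, rfl⟩ := (hstd.nn _).1 hp
    obtain ⟨p', rfl⟩ := (hstd.nn _).1 hp'
    rw [(hstd.mul _ _ _).1 h, (hstd.mul _ _ _).1 h']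
  · intro κ hκ
    obtain ⟨k, rfl⟩ := (hstd.nn _).1 hκ
    rw [hone]
    exact (hstd.mul _ _ _).2 (by simp)
  · intro κ l p hκ hl hp h
    obtain ⟨k, rfl⟩ := (hstd.nn _).1 hκ
    obtain ⟨l, rfl⟩ := (hstd.nn _).1 hl
    obtain ⟨p, rfl⟩ := (hstd.nn _).1 hp
    have h1 := (hstd.mul _ _ _).1 h
    rw [← pow_succ, ← pow_add]
    exact (hstd.mul _ _ _).2 (by rw [h1]; ring)
  · have := (BR_iff n hn D 0 1).2 ⟨[], by simp, rfl⟩
    rw [pow_zero] at this
    exact this
  · intro κ l h h' hκ hl h1 h2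
    obtain ⟨k, rfl⟩ := (hstd.nn _).1 hκ
    obtain ⟨l, rfl⟩ := (hstd.nn _).1 hl
    obtain ⟨L, hL, rfl⟩ := (BR_iff n hn D _ _).1 h1
    obtain ⟨L', hL', rfl⟩ := (BR_iff n hn D _ _).1 h2
    rw [← pow_add]
    refine (BR_iff n hn D _ _).2 ⟨L ++ L', ?_, (evalW_append _ _ _ _).symm⟩
    rw [List.length_append]; omega
  · intro κ l h hκ hl h1
    obtain ⟨k, rfl⟩ := (hstd.nn _).1 hκ
    obtain ⟨l, rfl⟩ := (hstd.nn _).1 hl
    obtain ⟨L, hL, rfl⟩ := (BR_iff n hn D _ _).1 h1
    rw [← pow_add]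
    exact (BR_iff n hn D _ _).2 ⟨L, by omega, rfl⟩
  · intro h
    obtain ⟨L, rfl⟩ := exists_word3 n h
    exact ⟨c ^ L.length, hNN _, (BR_iff n hn D _ _).2 ⟨L, le_rfl, rfl⟩⟩
  · intro κ hκ
    obtain ⟨k, rfl⟩ := (hstd.nn _).1 hκ
    obtain ⟨g, hg⟩ := not_ball n hn k
    refine ⟨g, fun h => ?_⟩
    obtain ⟨L, hL, h2⟩ := (BR_iff n hn D _ _).1 h
    exact hg L hL h2
  · intro w g g' hw h1 h2
    obtain ⟨w, rfl⟩ := (hstd.nn _).1 hw
    rw [(EVr_iff n hn D w g).1 h1, (EVr_iff n hn D w g').1 h2]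
  · have := (EVr_iff n hn D 0 1).2 (by rw [dl_zero]; rfl)
    rw [pow_zero] at this
    exact this
  · intro l hl w w' g hw hw' hext h
    obtain ⟨w, rfl⟩ := (hstd.nn _).1 hw
    obtain ⟨w', rfl⟩ := (hstd.nn _).1 hw'
    have h1 : (D.ext l).holds (envN [w, w']) := (hstd.interpL (D.ext l) [w, w']).1 hext
    rw [D.h_ext] at h1
    obtain ⟨l', hl', h2⟩ := h1
    have h3 : dl w' = dl w ++ [l'] := h2
    rw [EVr_iff n hn D] at h ⊢
    rw [h3, evalW_append, evalW_cons, evalW_nil, mul_one, ← letter_mod n (x3 n) l', hl', ← h]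
  · intro g
    obtain ⟨L, rfl⟩ := exists_word3 n g
    obtain ⟨w, rfl⟩ := dl_surj L
    exact ⟨c ^ w, hNN w, (EVr_iff n hn D w _).2 rfl⟩
  · intro w hw
    obtain ⟨w, rfl⟩ := (hstd.nn _).1 hw
    rw [EVr_iff n hn D w 1]
    have h1 : D.triv.interp c (env [c ^ w]) ↔ D.triv.holds (envN [w]) := hstd.interpL D.triv [w]
    rw [h1, D.h_triv, eq_comm]
    exact triv_iff n hn (dl w)

end

end Pool.Agent.Lib.MP_21db1f_lc
end
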