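import Mathlib
import Pool.Agent.Lib.MP_21db1f_lc.Defs
import Pool.Agent.Lib.MP_21db1f_lc.Axioms
import Pool.Agent.Lib.MP_21db1f_lc.AData

section

/-!
# A finitely generated group forces the interpreted arithmetic to be standard
-/

set_option autoImplicit false

namespace Pool.Agent.Lib.MP_21db1f_lc

theorem standard_of_axioms {H : Type} [Group H] (hfg : Group.FG H) (c : H) (N : H → Prop)
    (Mul : H → H → H → Prop) (B : H → H → Prop)
    (n1 : N 1) (nc : ∀ κ, N κ → N (κ * c)) (nadd : ∀ κ l, N κ → N l → N (κ * l) ∧ κ * l = l * κ)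
    (pred : ∀ κ, N κ → κ = 1 ∨ ∃ l, N l ∧ κ = l * c) (ne : ∀ κ, N κ → κ * c ≠ 1)
    (mulex : ∀ κ l, N κ → N l → ∃ p, N p ∧ Mul κ l p)
    (muluniq : ∀ κ l p p', N κ → N l → N p → N p' → Mul κ l p → Mul κ l p' → p = p')
    (mul0 : ∀ κ, N κ → Mul κ 1 1)
    (mulS : ∀ κ l p, N κ → N l → N p → Mul κ l p → Mul κ (l * c) (p * κ))
    (b0 : B 1 1) (b1 : ∀ κ l h h', N κ → N l → B κ h → B l h' → B (κ * l) (h * h'))
    (bmon : ∀ κ l h, N κ → N l → B κ h → B (κ * l) h)
    (bsurj : ∀ h, ∃ κ, N κ ∧ B κ h) (bnot : ∀ κ, N κ → ∃ h, ¬ B κ h) :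
    (∀ κ, N κ ↔ ∃ k : ℕ, κ = c ^ k) ∧ Function.Injective (fun k : ℕ => c ^ k) ∧
      ∀ k l m : ℕ, Mul (c ^ k) (c ^ l) (c ^ m) ↔ m = k * l := by
  classical
  have npow : ∀ k : ℕ, N (c ^ k) := by
    intro k
    induction k with
    | zero => simpa using n1
    | succ k ih => rw [pow_succ]; exact nc _ ih
  have kpow : ∀ K, N K → ∀ j : ℕ, N (K ^ j) := by
    intro K hK j
    induction j with
    | zero => simpa using n1
    | succ j ih => rw [pow_succ]; exact (nadd _ _ ih hK).1
  have hstd : ∀ κ, N κ ↔ ∃ k : ℕ, κ = c ^ k := by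
    intro κ
    constructor
    · intro hκ
      by_contra hne
      -- descending sequence
      have hdesc : ∀ j : ℕ, ∃ μ, N μ ∧ κ = μ * c ^ j := by
        intro j
        induction j with
        | zero => exact ⟨κ, hκ, by simp⟩
        | succ j ih =>
          obtain ⟨μ, hμ, h⟩ := ih
          rcases pred μ hμ with rfl | ⟨l, hl, rfl⟩
          · exact absurd ⟨j, by simpa using h⟩ hne
          · exact ⟨l, hl, by rw [h, pow_succ', mul_assoc]⟩
      -- bound for the generators
      obtain ⟨S, hS⟩ := hfg.out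
      have hK : ∀ T : Finset H, ∃ K, N K ∧ ∀ s ∈ T, B K s := by
        intro T
        induction T using Finset.induction_on with
        | empty => exact ⟨1, n1, by simp⟩
        | insert a T _ ih =>
          obtain ⟨K, hK, hK'⟩ := ih
          obtain ⟨L, hL, hL'⟩ := bsurj a
          refine ⟨L * K, (nadd _ _ hL hK).1, ?_⟩
          intro s hs
          rcases Finset.mem_insert.1 hs with rfl | hs
          · exact bmon _ _ _ hL hK hL'
          · rw [(nadd _ _ hL hK).2]
            exact bmon _ _ _ hK hL (hK' s hs)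
      obtain ⟨K, hKN, hKB⟩ := hK (S ∪ S.image (fun s => s⁻¹))
      have hB : ∀ h : H, ∃ j : ℕ, B (K ^ j) h := by
        intro h
        have hh : h ∈ Subgroup.closure (S : Set H) := by rw [hS]; trivial
        induction hh using Subgroup.closure_induction'' with
        | one => exact ⟨0, by simpa using b0⟩
        | mem x hx => exact ⟨1, by simpa using hKB x (Finset.mem_union_left _ (by simpa using hx))⟩
        | inv_mem x hx => exact ⟨1, by
            simpa using hKB x⁻¹ (Finset.mem_union_right _ (by simpa using hx))⟩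
        | mul x y _ _ hx hy =>
          obtain ⟨i, hi⟩ := hx
          obtain ⟨j, hj⟩ := hy
          exact ⟨i + j, by rw [pow_add]; exact b1 _ _ _ _ (kpow K hKN i) (kpow K hKN j) hi hj⟩
      obtain ⟨p, hp, hM⟩ := mulex K κ hKN hκ
      obtain ⟨h, hh⟩ := bnot p hp
      obtain ⟨j, hj⟩ := hB h
      obtain ⟨μ, hμ, hμj⟩ := hdesc j
      obtain ⟨p', hp', hM'⟩ := mulex K μ hKN hμ
      have hstep : ∀ i : ℕ, N (μ * c ^ i) ∧ N (p' * K ^ i) ∧ Mul K (μ * c ^ i) (p' * K ^ i) := by
        intro i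
        induction i with
        | zero => simpa using ⟨hμ, hp', hM'⟩
        | succ i ih =>
          obtain ⟨h1, h2, h3⟩ := ih
          rw [pow_succ, pow_succ, ← mul_assoc, ← mul_assoc]
          exact ⟨nc _ h1, (nadd _ _ h2 hKN).1, mulS _ _ _ hKN h1 h2 h3⟩
      obtain ⟨h1, h2, h3⟩ := hstep j
      rw [← hμj] at h3
      have hpe : p = p' * K ^ j := muluniq K κ _ _ hKN hκ hp h2 hM h3
      apply hh
      rw [hpe, (nadd _ _ hp' (kpow K hKN j)).2]
      exact bmon _ _ _ (kpow K hKN j) hp' hj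
    · rintro ⟨k, rfl⟩
      exact npow k
  have hinj : Function.Injective (fun k : ℕ => c ^ k) := by
    have key : ∀ k d : ℕ, c ^ k ≠ c ^ (k + d + 1) := by
      intro k d h
      have h1 : c ^ (k + d + 1) = c ^ k * (c ^ d * c) := by
        rw [add_assoc, pow_add, pow_succ]
      rw [h1] at h
      have h2 : c ^ d * c = 1 := by
        have := mul_left_cancel (a := c ^ k) (b := (1 : H)) (c := c ^ d * c) (by simpa using h)
        exact this.symm
      exact ne _ (npow d) h2
    intro a b hab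
    rcases lt_trichotomy a b with h | h | h
    · exact absurd hab (by
        have := key a (b - a - 1)
        rwa [show a + (b - a - 1) + 1 = b by omega] at this)
    · exact h
    · exact absurd hab.symm (by
        have := key b (a - b - 1)
        rwa [show b + (a - b - 1) + 1 = a by omega] at this)
  refine ⟨hstd, hinj, ?_⟩
  have hmul : ∀ k l : ℕ, Mul (c ^ k) (c ^ l) (c ^ (k * l)) := by
    intro k l
    induction l with
    | zero => simpa using mul0 _ (npow k)
    | succ l ih =>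
      have := mulS _ _ _ (npow k) (npow l) (npow (k * l)) ih
      rw [← pow_succ, ← pow_add] at this
      exact this
  intro k l m
  constructor
  · intro h
    exact hinj (muluniq _ _ _ _ (npow k) (npow l) (npow m) (npow (k * l)) h (hmul k l))
  · rintro rfl
    exact hmul k l

end Pool.Agent.Lib.MP_21db1f_lc
end

section

set_option autoImplicit false

namespace Pool.Agent.Lib.MP_21db1f_lc
set_option linter.all false

theorem DFun.cj {t s : (H : Type) → [Group H] → (ℕ → H) → H} (ht : DFun t) (hs : DFun s) :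
    DFun (fun H _ v => cj (t H v) (s H v)) := by
  unfold Pool.Agent.Lib.MP_21db1f_lc.cj
  exact DFun.mul (DFun.mul (DFun.inv ht) hs) ht

theorem Def.InM {t : (H : Type) → [Group H] → (ℕ → H) → H} (ht : DFun t) :
    Def (fun H _ v => InM (t H v)) := by
  unfold Pool.Agent.Lib.MP_21db1f_lc.InM
  refine Def.all ?_
  exact Def.eqf (DFun.mul ht.shift (DFun.cj (DFun.var 0) ht.shift))
    (DFun.mul (DFun.cj (DFun.var 0) ht.shift) ht.shift)

theorem Def.InT {t b : (H : Type) → [Group H] → (ℕ → H) → H} (ht : DFun t) (hb : DFun b) :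
    Def (fun H _ v => InT (t H v) (b H v)) := by
  unfold Pool.Agent.Lib.MP_21db1f_lc.InT
  refine Def.ex (Def.and (Def.InM (DFun.var 0)) ?_)
  exact Def.eqf hb.shift (DFun.mul (DFun.cj ht.shift (DFun.var 0)) (DFun.inv (DFun.var 0)))

theorem Def.Sc {c κ a b : (H : Type) → [Group H] → (ℕ → H) → H}
    (hc : DFun c) (hκ : DFun κ) (ha : DFun a) (hb : DFun b) :
    Def (fun H _ v => Sc (c H v) (κ H v) (a H v) (b H v)) := by
  unfold Pool.Agent.Lib.MP_21db1f_lc.Sc
  refine Def.all (Def.ex (Def.and (Def.InM (DFun.var 0)) (Def.and ?_ ?_)))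
  · exact Def.eqf (DFun.mul (DFun.cj (DFun.cj (DFun.var 1) hc.shift.shift) (DFun.var 0)) (DFun.inv (DFun.var 0)))
      (DFun.mul (DFun.cj (DFun.cj (DFun.var 1) hκ.shift.shift) ha.shift.shift) (DFun.inv ha.shift.shift))
  · exact Def.InT (DFun.cj (DFun.var 1) hc.shift.shift) (DFun.mul hb.shift.shift (DFun.inv (DFun.var 0)))

theorem Def.MulR {c κ l p : (H : Type) → [Group H] → (ℕ → H) → H}
    (hc : DFun c) (hκ : DFun κ) (hl : DFun l) (hp : DFun p) :
    Def (fun H _ v => MulR (c H v) (κ H v) (l H v) (p H v)) := by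
  unfold Pool.Agent.Lib.MP_21db1f_lc.MulR
  refine Def.and (Def.eqf (DFun.mul hp hc) (DFun.mul hc hp)) ?_
  refine Def.all (Def.all (Def.all (Def.imp (Def.InM (DFun.var 2)) (Def.imp ?_ (Def.imp ?_ ?_)))))
  · exact Def.Sc hc.shift.shift.shift hl.shift.shift.shift (DFun.var 2) (DFun.var 1)
  · exact Def.Sc hc.shift.shift.shift hκ.shift.shift.shift (DFun.var 1) (DFun.var 0)
  · exact Def.Sc hc.shift.shift.shift hp.shift.shift.shift (DFun.var 2) (DFun.var 0)

theorem Def.SqR {c s : (H : Type) → [Group H] → (ℕ → H) → H}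
    (hc : DFun c) (hs : DFun s) :
    Def (fun H _ v => SqR (c H v) (s H v)) := by
  unfold Pool.Agent.Lib.MP_21db1f_lc.SqR
  refine Def.ex (Def.and (Def.eqf (DFun.mul (DFun.var 0) hc.shift) (DFun.mul hc.shift (DFun.var 0))) ?_)
  exact Def.MulR hc.shift (DFun.var 0) (DFun.var 0) hs.shift

theorem Def.NN {c κ : (H : Type) → [Group H] → (ℕ → H) → H}
    (hc : DFun c) (hκ : DFun κ) :
    Def (fun H _ v => NN (c H v) (κ H v)) := by
  unfold Pool.Agent.Lib.MP_21db1f_lc.NN
  have h4 := hc.shift.shift.shift.shift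
  refine Def.ex (Def.ex (Def.ex (Def.ex (Def.and ?_ (Def.and ?_ (Def.and ?_ (Def.and ?_ ?_)))))))
  · exact Def.SqR h4 (DFun.var 3)
  · exact Def.SqR h4 (DFun.var 2)
  · exact Def.SqR h4 (DFun.var 1)
  · exact Def.SqR h4 (DFun.var 0)
  · exact Def.eqf hκ.shift.shift.shift.shift
      (DFun.mul (DFun.mul (DFun.mul (DFun.var 3) (DFun.var 2)) (DFun.var 1)) (DFun.var 0))

theorem Def.interp (φ : AF) : ∀ {c : (H : Type) → [Group H] → (ℕ → H) → H}
    {E : ℕ → (H : Type) → [Group H] → (ℕ → H) → H} (hc : DFun c) (hE : ∀ i, DFun (E i)),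
    Def (fun H _ v => φ.interp (c H v) (fun i => E i H v)) := by
  induction φ with
  | eq i j => intro c E hc hE; exact Def.eqf (hE i) (hE j)
  | one i => intro c E hc hE; exact Def.eqf (hE i) hc
  | add i j k => intro c E hc hE; exact Def.eqf (DFun.mul (hE i) (hE j)) (hE k)
  | mul i j k => intro c E hc hE; exact Def.MulR hc (hE i) (hE j) (hE k)
  | fal => intro c E hc hE; exact Def.false
  | imp φ ψ hφ hψ => intro c E hc hE; exact Def.imp (hφ hc hE) (hψ hc hE)
  | all φ hφ =>
    intro c E hc hE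
    refine Def.all (Def.imp (Def.NN hc.shift (DFun.var 0)) ?_)
    let E' : ℕ → (H : Type) → [Group H] → (ℕ → H) → H := fun i => match i with
      | 0 => fun _ _ v => v 0
      | i + 1 => fun H _ v => E i H (fun k => v (k + 1))
    have hE' : ∀ i, DFun (E' i) := by
      intro i
      cases i with
      | zero => exact DFun.var 0
      | succ i => exact (hE i).shift
    refine (hφ hc.shift hE').of_iff ?_
    intro H _ v
    have : (fun i => E' i H v) = cons (v 0) (fun i => E i H (fun k => v (k + 1))) := by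
      funext i
      cases i <;> rfl
    rw [this]

theorem DFun.env {l : List ((H : Type) → [Group H] → (ℕ → H) → H)} (hl : ∀ t ∈ l, DFun t) (i : ℕ) :
    DFun (fun H _ v => env (l.map (fun t => t H v)) i) := by
  induction l generalizing i with
  | nil => exact DFun.one
  | cons a l ih =>
    cases i with
    | zero => exact hl a (by simp)
    | succ i => exact ih (fun t ht => hl t (by simp [ht])) i

/-- interpretation with a list environment -/
theorem Def.interpL (φ : AF) {c : (H : Type) → [Group H] → (ℕ → H) → H} (hc : DFun c)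
    (l : List ((H : Type) → [Group H] → (ℕ → H) → H)) (hl : ∀ t ∈ l, DFun t) :
    Def (fun H _ v => φ.interp (c H v) (env (l.map (fun t => t H v)))) :=
  Def.interp φ hc (fun i => DFun.env hl i)

theorem DFun.cc {X : ℕ → (H : Type) → [Group H] → (ℕ → H) → H} (hX : ∀ i, DFun (X i)) :
    DFun (fun H _ v => cc (fun i => X i H v)) := by
  unfold Pool.Agent.Lib.MP_21db1f_lc.cc
  exact DFun.mul (DFun.mul (DFun.mul (hX 0) (hX 1)) (DFun.inv (hX 0))) (DFun.inv (hX 1))

theorem DFun.letter {X : ℕ → (H : Type) → [Group H] → (ℕ → H) → H} (hX : ∀ i, DFun (X i)) (n l : ℕ) :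
    DFun (fun H _ v => letter n (fun i => X i H v) l) := by
  unfold Pool.Agent.Lib.MP_21db1f_lc.letter
  by_cases h : (l % (2 * n)) % 2 = 0
  · simp only [h, if_true]; exact hX _
  · simp only [h, if_false]; exact DFun.inv (hX _)

theorem DFun.evalW {X : ℕ → (H : Type) → [Group H] → (ℕ → H) → H} (hX : ∀ i, DFun (X i)) (n : ℕ)
    (w : List ℕ) : DFun (fun H _ v => evalW n (fun i => X i H v) w) := by
  unfold Pool.Agent.Lib.MP_21db1f_lc.evalW
  induction w with
  | nil => exact DFun.one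
  | cons l w ih =>
    simp only [List.map_cons, List.prod_cons]
    exact DFun.mul (DFun.letter hX n l) ih

theorem DFun.yy {X : ℕ → (H : Type) → [Group H] → (ℕ → H) → H} (hX : ∀ i, DFun (X i))
    {g : (H : Type) → [Group H] → (ℕ → H) → H} (hg : DFun g) :
    DFun (fun H _ v => yy (fun i => X i H v) (g H v)) := by
  unfold Pool.Agent.Lib.MP_21db1f_lc.yy
  have hc := DFun.cc hX
  exact DFun.mul (DFun.mul (DFun.mul (DFun.inv (DFun.cj hg hc)) (DFun.inv hc)) (DFun.cj hg hc)) hc

/-- finite conjunctions -/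
theorem Def.ball {P : ℕ → (H : Type) → [Group H] → (ℕ → H) → Prop} (hP : ∀ i, Def (P i)) (n : ℕ) :
    Def (fun H _ v => ∀ i, i < n → P i H v) := by
  induction n with
  | zero => exact Def.true.of_iff (by intro H _ v; simp)
  | succ n ih =>
    exact (ih.and (hP n)).of_iff (by
      intro H _ v
      constructor
      · rintro ⟨h1, h2⟩ i hi
        rcases Nat.lt_succ_iff_lt_or_eq.1 hi with h | rfl
        · exact h1 i h
        · exact h2
      · intro h
        exact ⟨fun i hi => h i (Nat.lt_succ_of_lt hi), h n (Nat.lt_succ_self n)⟩)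

theorem Def.pimp {p : Prop} {P : (H : Type) → [Group H] → (ℕ → H) → Prop} (hP : Def P) :
    Def (fun H _ v => p → P H v) := by
  by_cases h : p
  · exact hP.of_iff (by intro H _ v; simp [h])
  · exact Def.true.of_iff (by intro H _ v; simp [h])

theorem Def.InDr {n : ℕ} (D : AData n) (i : ℕ) :
    ∀ {X : ℕ → (H : Type) → [Group H] → (ℕ → H) → H} (hX : ∀ i, DFun (X i))
    {θ b : (H : Type) → [Group H] → (ℕ → H) → H} (hθ : DFun θ) (hb : DFun b),
    Def (fun H _ v => InDr D (fun i => X i H v) (θ H v) i (b H v)) := by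
  induction i with
  | zero =>
    intro X hX θ b hθ hb
    unfold Pool.Agent.Lib.MP_21db1f_lc.InDr
    have hX1 : ∀ i, DFun (fun H _ v => X i H (fun k => v (k + 1))) := fun i => (hX i).shift
    refine Def.ex (Def.and (Def.NN (DFun.cc hX1) (DFun.var 0)) (Def.and ?_ ?_))
    · exact Def.interpL (D.get 0) (DFun.cc hX1) [fun H _ v => θ H (fun k => v (k + 1)), fun H _ v => v 0]
        (by
          intro t ht
          simp only [List.mem_cons, List.not_mem_nil, or_false] at ht
          rcases ht with rfl | rfl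
          · exact hθ.shift
          · exact DFun.var 0)
    · exact Def.InT (DFun.var 0) hb.shift
  | succ i ih =>
    intro X hX θ b hθ hb
    unfold Pool.Agent.Lib.MP_21db1f_lc.InDr
    have hX4 : ∀ i, DFun (fun H _ v => X i H (fun k => v (k + 1 + 1 + 1 + 1))) :=
      fun i => (hX i).shift.shift.shift.shift
    have hθ4 : DFun (fun H _ v => θ H (fun k => v (k + 1 + 1 + 1 + 1))) := hθ.shift.shift.shift.shift
    have hb4 : DFun (fun H _ v => b H (fun k => v (k + 1 + 1 + 1 + 1))) := hb.shift.shift.shift.shift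
    refine Def.ex (Def.ex (Def.ex (Def.ex (Def.and ?_ (Def.and ?_ (Def.and ?_ (Def.and ?_
      (Def.and ?_ (Def.and ?_ ?_)))))))))
    · exact Def.NN (DFun.cc hX4) (DFun.var 3)
    · exact Def.NN (DFun.cc hX4) (DFun.var 2)
    · exact Def.interpL (D.get (2 + 4 * i)) (DFun.cc hX4)
        [fun H _ v => θ H (fun k => v (k + 1 + 1 + 1 + 1)), fun H _ v => v 3]
        (by
          intro t ht
          simp only [List.mem_cons, List.not_mem_nil, or_false] at ht
          rcases ht with rfl | rfl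
          · exact hθ4
          · exact DFun.var 3)
    · exact Def.interpL (D.get (3 + 4 * i)) (DFun.cc hX4)
        [fun H _ v => θ H (fun k => v (k + 1 + 1 + 1 + 1)), fun H _ v => v 2]
        (by
          intro t ht
          simp only [List.mem_cons, List.not_mem_nil, or_false] at ht
          rcases ht with rfl | rfl
          · exact hθ4
          · exact DFun.var 2)
    · exact Def.InT (DFun.mul (DFun.inv (DFun.var 3)) (hX4 i)) (DFun.var 1)
    · exact Def.InT (DFun.mul (DFun.mul (DFun.mul (DFun.inv (hX4 i)) (DFun.cc hX4)) (hX4 i))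
        (DFun.inv (DFun.var 2))) (DFun.var 0)
    · exact ih hX4 hθ4 (DFun.mul hb4 (DFun.inv (DFun.mul (DFun.var 1) (DFun.var 0))))

theorem Def.ActR {n : ℕ} (D : AData n) (A : AF)
    {X : ℕ → (H : Type) → [Group H] → (ℕ → H) → H} (hX : ∀ i, DFun (X i))
    {a w b : (H : Type) → [Group H] → (ℕ → H) → H} (ha : DFun a) (hw : DFun w) (hb : DFun b) :
    Def (fun H _ v => ActR D (fun i => X i H v) A (a H v) (w H v) (b H v)) := by
  unfold Pool.Agent.Lib.MP_21db1f_lc.ActR
  have hX1 : ∀ i, DFun (fun H _ v => X i H (fun k => v (k + 1))) := fun i => (hX i).shift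
  have hX2 : ∀ i, DFun (fun H _ v => X i H (fun k => v (k + 1 + 1))) := fun i => (hX i).shift.shift
  have hX3 : ∀ i, DFun (fun H _ v => X i H (fun k => v (k + 1 + 1 + 1))) :=
    fun i => (hX i).shift.shift.shift
  have hX5 : ∀ i, DFun (fun H _ v => X i H (fun k => v (k + 1 + 1 + 1 + 1 + 1))) :=
    fun i => (hX i).shift.shift.shift.shift.shift
  have hX9 : ∀ i, DFun (fun H _ v => X i H (fun k => v (k + 1 + 1 + 1 + 1 + 1 + 1 + 1 + 1 + 1))) :=
    fun i => (hX i).shift.shift.shift.shift.shift.shift.shift.shift.shift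
  have ha9 : DFun (fun H _ v => a H (fun k => v (k + 1 + 1 + 1 + 1 + 1 + 1 + 1 + 1 + 1))) :=
    ha.shift.shift.shift.shift.shift.shift.shift.shift.shift
  have hw5 : DFun (fun H _ v => w H (fun k => v (k + 1 + 1 + 1 + 1 + 1))) :=
    hw.shift.shift.shift.shift.shift
  refine Def.and (Def.InM hb) (Def.all (Def.imp (Def.NN (DFun.cc hX1) (DFun.var 0)) (Def.imp ?_
    (Def.ex (Def.and (Def.InM (DFun.var 0)) (Def.and ?_ ?_))))))
  · exact Def.interpL D.adm (DFun.cc hX1) [fun H _ v => v 0]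
      (by
        intro t ht
        simp only [List.mem_cons, List.not_mem_nil, or_false] at ht
        rcases ht with rfl
        exact DFun.var 0)
  · refine Def.all (Def.imp (Def.NN (DFun.cc hX3) (DFun.var 0)) (Def.ex (Def.ex
      (Def.and ?_ (Def.and ?_ (Def.and ?_ ?_))))))
    · exact Def.NN (DFun.cc hX5) (DFun.var 1)
    · exact Def.NN (DFun.cc hX5) (DFun.var 0)
    · exact Def.interpL A (DFun.cc hX5) [fun H _ v => w H (fun k => v (k + 1 + 1 + 1 + 1 + 1)),
        fun H _ v => v 4, fun H _ v => v 2, fun H _ v => v 1, fun H _ v => v 0]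
        (by
          intro t ht
          simp only [List.mem_cons, List.not_mem_nil, or_false] at ht
          rcases ht with rfl | rfl | rfl | rfl | rfl
          · exact hw5
          · exact DFun.var 4
          · exact DFun.var 2
          · exact DFun.var 1
          · exact DFun.var 0)
    · refine Def.ex (Def.ex (Def.ex (Def.ex (Def.and ?_ (Def.and ?_ (Def.and ?_ (Def.and ?_ ?_)))))))
      · exact Def.InM (DFun.var 3)
      · exact Def.Sc (DFun.cc hX9) (DFun.var 5) ha9 (DFun.var 2)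
      · exact Def.Sc (DFun.cc hX9) (DFun.var 4) ha9 (DFun.var 1)
      · exact Def.Sc (DFun.cc hX9) (DFun.var 6) (DFun.var 3) (DFun.var 0)
      · exact Def.eqf (DFun.mul (DFun.mul (DFun.var 7) (DFun.var 1)) (DFun.inv (DFun.var 2)))
          (DFun.mul (DFun.cj (DFun.cc hX9) (DFun.var 3)) (DFun.inv (DFun.var 0)))
  · exact Def.InDr D n hX2 (DFun.var 1) (DFun.mul hb.shift.shift (DFun.inv (DFun.var 0)))

theorem Def.SpanR {n : ℕ} (D : AData n) (i : ℕ) :
    ∀ {X : ℕ → (H : Type) → [Group H] → (ℕ → H) → H} (hX : ∀ i, DFun (X i))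
    {s Y : (H : Type) → [Group H] → (ℕ → H) → H} (hs : DFun s) (hY : DFun Y),
    Def (fun H _ v => SpanR D (fun i => X i H v) (s H v) i (Y H v)) := by
  induction i with
  | zero =>
    intro X hX s Y hs hY
    unfold Pool.Agent.Lib.MP_21db1f_lc.SpanR
    exact Def.eqf hY DFun.one
  | succ i ih =>
    intro X hX s Y hs hY
    unfold Pool.Agent.Lib.MP_21db1f_lc.SpanR
    have hX1 : ∀ i, DFun (fun H _ v => X i H (fun k => v (k + 1))) := fun i => (hX i).shift
    refine Def.ex (Def.and ?_ ?_)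
    · exact Def.ActR D _ hX1 (DFun.evalW hX1 n (zW n (i + 1))) hs.shift (DFun.var 0)
    · exact ih hX1 hs.shift (DFun.mul hY.shift (DFun.inv (DFun.var 0)))

theorem Def.EVr {n : ℕ} (D : AData n)
    {X : ℕ → (H : Type) → [Group H] → (ℕ → H) → H} (hX : ∀ i, DFun (X i))
    {w g : (H : Type) → [Group H] → (ℕ → H) → H} (hw : DFun w) (hg : DFun g) :
    Def (fun H _ v => EVr D (fun i => X i H v) (w H v) (g H v)) := by
  unfold Pool.Agent.Lib.MP_21db1f_lc.EVr
  have hX1 : ∀ i, DFun (fun H _ v => X i H (fun k => v (k + 1))) := fun i => (hX i).shift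
  have hX2 : ∀ i, DFun (fun H _ v => X i H (fun k => v (k + 1 + 1))) := fun i => (hX i).shift.shift
  have hX3 : ∀ i, DFun (fun H _ v => X i H (fun k => v (k + 1 + 1 + 1))) :=
    fun i => (hX i).shift.shift.shift
  have hX6 : ∀ i, DFun (fun H _ v => X i H (fun k => v (k + 1 + 1 + 1 + 1 + 1 + 1))) :=
    fun i => (hX i).shift.shift.shift.shift.shift.shift
  refine Def.and (Def.all (Def.imp (Def.InM (DFun.var 0)) ?_)) (Def.ex (Def.ex (Def.and ?_
    (Def.and ?_ (Def.and (Def.not ?_) (Def.and (Def.ex (Def.and ?_ ?_)) ?_))))))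
  · exact Def.ActR D _ hX1 (DFun.var 0) hw.shift (DFun.cj hg.shift (DFun.var 0))
  · exact Def.NN (DFun.cc hX2) (DFun.var 1)
  · exact Def.NN (DFun.cc hX2) (DFun.var 0)
  · exact Def.ActR D _ hX2 (DFun.evalW hX2 n (zW n 1)) (DFun.var 1) DFun.one
  · exact Def.ActR D _ hX3 (DFun.yy hX3 hg.shift.shift.shift) (DFun.var 2) (DFun.var 0)
  · exact Def.SpanR D (n - 1) hX3 (DFun.var 1) (DFun.var 0)
  · refine Def.ball (fun i => Def.pimp (Def.all (Def.imp (Def.InM (DFun.var 0)) (Def.ex (Def.ex (Def.ex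
      (Def.and ?_ (Def.and ?_ (Def.and ?_ ?_)))))))) ) n
    · exact Def.ActR D _ hX6 (DFun.var 3) hw.shift.shift.shift.shift.shift.shift (DFun.var 2)
    · exact Def.ActR D _ hX6 (DFun.var 2) (DFun.var 5) (DFun.var 1)
    · exact Def.ActR D _ hX6 (DFun.var 3) DFun.one (DFun.var 0)
    · exact Def.ActR D _ hX6 (DFun.var 0) (DFun.var 4) (DFun.var 1)

theorem Def.BR {n : ℕ} (D : AData n)
    {X : ℕ → (H : Type) → [Group H] → (ℕ → H) → H} (hX : ∀ i, DFun (X i))
    {κ h : (H : Type) → [Group H] → (ℕ → H) → H} (hκ : DFun κ) (hh : DFun h) :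
    Def (fun H _ v => BR D (fun i => X i H v) (κ H v) (h H v)) := by
  unfold Pool.Agent.Lib.MP_21db1f_lc.BR
  have hX1 : ∀ i, DFun (fun H _ v => X i H (fun k => v (k + 1))) := fun i => (hX i).shift
  refine Def.ex (Def.and (Def.NN (DFun.cc hX1) (DFun.var 0)) (Def.and ?_ ?_))
  · exact Def.interpL D.len (DFun.cc hX1) [fun H _ v => v 0, fun H _ v => κ H (fun k => v (k + 1))]
      (by
        intro t ht
        simp only [List.mem_cons, List.not_mem_nil, or_false] at ht
        rcases ht with rfl | rfl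
        · exact DFun.var 0
        · exact hκ.shift)
  · exact Def.EVr D hX1 (DFun.var 0) hh.shift

end Pool.Agent.Lib.MP_21db1f_lc
end

section

set_option autoImplicit false

namespace Pool.Agent.Lib.MP_21db1f_lc
set_option linter.all false

/-- The axioms are expressible by a formula. -/
theorem defAx {n : ℕ} (D : AData n) : Def (fun H _ v => Ax D v) := by
  have hX0 : ∀ i, DFun (fun H _ v => v i) := fun i => DFun.var i
  have hX1 : ∀ i, DFun (fun H _ v => v (i + 1)) := fun i => DFun.var _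
  have hX2 : ∀ i, DFun (fun H _ v => v (i + 1 + 1)) := fun i => DFun.var _
  have hX3 : ∀ i, DFun (fun H _ v => v (i + 1 + 1 + 1)) := fun i => DFun.var _
  have hX4 : ∀ i, DFun (fun H _ v => v (i + 1 + 1 + 1 + 1)) := fun i => DFun.var _
  have n1 : Def (fun H _ v => NN (cc (fun i => v i)) (1 : H)) := Def.NN (DFun.cc hX0) DFun.one
  have nc : Def (fun H _ v => ∀ κ, NN (cc (fun i => v i)) κ → NN (cc (fun i => v i)) (κ * cc (fun i => v i))) :=
    Def.all (Def.imp (Def.NN (DFun.cc hX1) (DFun.var 0))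
      (Def.NN (DFun.cc hX1) (DFun.mul (DFun.var 0) (DFun.cc hX1))))
  have nadd : Def (fun H _ v => ∀ κ l, NN (cc (fun i => v i)) κ → NN (cc (fun i => v i)) l →
      NN (cc (fun i => v i)) (κ * l) ∧ κ * l = l * κ) :=
    Def.all (Def.all (Def.imp (Def.NN (DFun.cc hX2) (DFun.var 1)) (Def.imp (Def.NN (DFun.cc hX2) (DFun.var 0))
      (Def.and (Def.NN (DFun.cc hX2) (DFun.mul (DFun.var 1) (DFun.var 0)))
        (Def.eqf (DFun.mul (DFun.var 1) (DFun.var 0)) (DFun.mul (DFun.var 0) (DFun.var 1)))))))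
  have pred : Def (fun H _ v => ∀ κ, NN (cc (fun i => v i)) κ → κ = 1 ∨ ∃ l, NN (cc (fun i => v i)) l ∧
      κ = l * cc (fun i => v i)) :=
    Def.all (Def.imp (Def.NN (DFun.cc hX1) (DFun.var 0)) (Def.or (Def.eqf (DFun.var 0) DFun.one)
      (Def.ex (Def.and (Def.NN (DFun.cc hX2) (DFun.var 0))
        (Def.eqf (DFun.var 1) (DFun.mul (DFun.var 0) (DFun.cc hX2)))))))
  have ne : Def (fun H _ v => ∀ κ, NN (cc (fun i => v i)) κ → κ * cc (fun i => v i) ≠ 1) :=
    Def.all (Def.imp (Def.NN (DFun.cc hX1) (DFun.var 0))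
      (Def.not (Def.eqf (DFun.mul (DFun.var 0) (DFun.cc hX1)) DFun.one)))
  have mulex : Def (fun H _ v => ∀ κ l, NN (cc (fun i => v i)) κ → NN (cc (fun i => v i)) l →
      ∃ p, NN (cc (fun i => v i)) p ∧ MulR (cc (fun i => v i)) κ l p) :=
    Def.all (Def.all (Def.imp (Def.NN (DFun.cc hX2) (DFun.var 1)) (Def.imp (Def.NN (DFun.cc hX2) (DFun.var 0))
      (Def.ex (Def.and (Def.NN (DFun.cc hX3) (DFun.var 0))
        (Def.MulR (DFun.cc hX3) (DFun.var 2) (DFun.var 1) (DFun.var 0)))))))
  have muluniq : Def (fun H _ v => ∀ κ l p p', NN (cc (fun i => v i)) κ → NN (cc (fun i => v i)) l →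
      NN (cc (fun i => v i)) p → NN (cc (fun i => v i)) p' →
      MulR (cc (fun i => v i)) κ l p → MulR (cc (fun i => v i)) κ l p' → p = p') :=
    Def.all (Def.all (Def.all (Def.all (Def.imp (Def.NN (DFun.cc hX4) (DFun.var 3))
      (Def.imp (Def.NN (DFun.cc hX4) (DFun.var 2)) (Def.imp (Def.NN (DFun.cc hX4) (DFun.var 1))
      (Def.imp (Def.NN (DFun.cc hX4) (DFun.var 0))
      (Def.imp (Def.MulR (DFun.cc hX4) (DFun.var 3) (DFun.var 2) (DFun.var 1))
      (Def.imp (Def.MulR (DFun.cc hX4) (DFun.var 3) (DFun.var 2) (DFun.var 0))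
        (Def.eqf (DFun.var 1) (DFun.var 0)))))))))))
  have mul0 : Def (fun H _ v => ∀ κ, NN (cc (fun i => v i)) κ → MulR (cc (fun i => v i)) κ 1 1) :=
    Def.all (Def.imp (Def.NN (DFun.cc hX1) (DFun.var 0))
      (Def.MulR (DFun.cc hX1) (DFun.var 0) DFun.one DFun.one))
  have mulS : Def (fun H _ v => ∀ κ l p, NN (cc (fun i => v i)) κ → NN (cc (fun i => v i)) l →
      NN (cc (fun i => v i)) p → MulR (cc (fun i => v i)) κ l p →
      MulR (cc (fun i => v i)) κ (l * cc (fun i => v i)) (p * κ)) :=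
    Def.all (Def.all (Def.all (Def.imp (Def.NN (DFun.cc hX3) (DFun.var 2))
      (Def.imp (Def.NN (DFun.cc hX3) (DFun.var 1)) (Def.imp (Def.NN (DFun.cc hX3) (DFun.var 0))
      (Def.imp (Def.MulR (DFun.cc hX3) (DFun.var 2) (DFun.var 1) (DFun.var 0))
        (Def.MulR (DFun.cc hX3) (DFun.var 2) (DFun.mul (DFun.var 1) (DFun.cc hX3))
          (DFun.mul (DFun.var 0) (DFun.var 2)))))))))
  have b0 : Def (fun H _ v => BR D (fun i => v i) (1 : H) 1) := Def.BR D hX0 DFun.one DFun.one
  have b1 : Def (fun H _ v => ∀ κ l h h', NN (cc (fun i => v i)) κ → NN (cc (fun i => v i)) l →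
      BR D (fun i => v i) κ h → BR D (fun i => v i) l h' → BR D (fun i => v i) (κ * l) (h * h')) :=
    Def.all (Def.all (Def.all (Def.all (Def.imp (Def.NN (DFun.cc hX4) (DFun.var 3))
      (Def.imp (Def.NN (DFun.cc hX4) (DFun.var 2))
      (Def.imp (Def.BR D hX4 (DFun.var 3) (DFun.var 1)) (Def.imp (Def.BR D hX4 (DFun.var 2) (DFun.var 0))
        (Def.BR D hX4 (DFun.mul (DFun.var 3) (DFun.var 2)) (DFun.mul (DFun.var 1) (DFun.var 0))))))))))
  have bmon : Def (fun H _ v => ∀ κ l h, NN (cc (fun i => v i)) κ → NN (cc (fun i => v i)) l →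
      BR D (fun i => v i) κ h → BR D (fun i => v i) (κ * l) h) :=
    Def.all (Def.all (Def.all (Def.imp (Def.NN (DFun.cc hX3) (DFun.var 2))
      (Def.imp (Def.NN (DFun.cc hX3) (DFun.var 1))
      (Def.imp (Def.BR D hX3 (DFun.var 2) (DFun.var 0))
        (Def.BR D hX3 (DFun.mul (DFun.var 2) (DFun.var 1)) (DFun.var 0)))))))
  have bsurj : Def (fun H _ v => ∀ h, ∃ κ, NN (cc (fun i => v i)) κ ∧ BR D (fun i => v i) κ h) :=
    Def.all (Def.ex (Def.and (Def.NN (DFun.cc hX2) (DFun.var 0)) (Def.BR D hX2 (DFun.var 0) (DFun.var 1))))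
  have bnot : Def (fun H _ v => ∀ κ, NN (cc (fun i => v i)) κ → ∃ h, ¬ BR D (fun i => v i) κ h) :=
    Def.all (Def.imp (Def.NN (DFun.cc hX1) (DFun.var 0))
      (Def.ex (Def.not (Def.BR D hX2 (DFun.var 1) (DFun.var 0)))))
  have e1 : Def (fun H _ v => ∀ w g g', NN (cc (fun i => v i)) w → EVr D (fun i => v i) w g →
      EVr D (fun i => v i) w g' → g = g') :=
    Def.all (Def.all (Def.all (Def.imp (Def.NN (DFun.cc hX3) (DFun.var 2))
      (Def.imp (Def.EVr D hX3 (DFun.var 2) (DFun.var 1)) (Def.imp (Def.EVr D hX3 (DFun.var 2) (DFun.var 0))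
        (Def.eqf (DFun.var 1) (DFun.var 0)))))))
  have e2 : Def (fun H _ v => EVr D (fun i => v i) (1 : H) 1) := Def.EVr D hX0 DFun.one DFun.one
  have e3 : Def (fun H _ v => ∀ l, l < 2 * n → ∀ w w' g, NN (cc (fun i => v i)) w →
      NN (cc (fun i => v i)) w' → (D.ext l).interp (cc (fun i => v i)) (env [w, w']) →
      EVr D (fun i => v i) w g → EVr D (fun i => v i) w' (g * letter n (fun i => v i) l)) :=
    Def.ball (fun l => Def.all (Def.all (Def.all (Def.imp (Def.NN (DFun.cc hX3) (DFun.var 2))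
      (Def.imp (Def.NN (DFun.cc hX3) (DFun.var 1)) (Def.imp
        (Def.interpL (D.ext l) (DFun.cc hX3) [fun H _ v => v 2, fun H _ v => v 1]
          (by
            intro t ht
            simp only [List.mem_cons, List.not_mem_nil, or_false] at ht
            rcases ht with rfl | rfl
            · exact DFun.var 2
            · exact DFun.var 1))
        (Def.imp (Def.EVr D hX3 (DFun.var 2) (DFun.var 0))
          (Def.EVr D hX3 (DFun.var 1) (DFun.mul (DFun.var 0) (DFun.letter hX3 n l)))))))))) (2 * n)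
  have e4 : Def (fun H _ v => ∀ g, ∃ w, NN (cc (fun i => v i)) w ∧ EVr D (fun i => v i) w g) :=
    Def.all (Def.ex (Def.and (Def.NN (DFun.cc hX2) (DFun.var 0)) (Def.EVr D hX2 (DFun.var 0) (DFun.var 1))))
  have e5 : Def (fun H _ v => ∀ w, NN (cc (fun i => v i)) w →
      (EVr D (fun i => v i) w 1 ↔ D.triv.interp (cc (fun i => v i)) (env [w]))) :=
    Def.all (Def.imp (Def.NN (DFun.cc hX1) (DFun.var 0)) (Def.iff
      (Def.EVr D hX1 (DFun.var 0) DFun.one)
      (Def.interpL D.triv (DFun.cc hX1) [fun H _ v => v 0]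
          (by
            intro t ht
            simp only [List.mem_cons, List.not_mem_nil, or_false] at ht
            rcases ht with rfl
            exact DFun.var 0))))
  refine (n1.and (nc.and (nadd.and (pred.and (ne.and (mulex.and (muluniq.and (mul0.and (mulS.and
    (b0.and (b1.and (bmon.and (bsurj.and (bnot.and (e1.and (e2.and (e3.and (e4.and e5)))))))))))))))))).of_iff ?_
  intro H _ v
  constructor
  · rintro ⟨n1, nc, nadd, pred, ne, mulex, muluniq, mul0, mulS, b0, b1, bmon, bsurj, bnot, e1, e2, e3, e4, e5⟩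
    exact ⟨n1, nc, nadd, pred, ne, mulex, muluniq, mul0, mulS, b0, b1, bmon, bsurj, bnot, e1, e2, e3, e4, e5⟩
  · rintro ⟨n1, nc, nadd, pred, ne, mulex, muluniq, mul0, mulS, b0, b1, bmon, bsurj, bnot, e1, e2, e3, e4, e5⟩
    exact ⟨n1, nc, nadd, pred, ne, mulex, muluniq, mul0, mulS, b0, b1, bmon, bsurj, bnot, e1, e2, e3, e4, e5⟩

end Pool.Agent.Lib.MP_21db1f_lc
end

section

/-!
A finitely generated group satisfying the axioms is the free solvable group of class 3.
-/

set_option autoImplicit false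

namespace Pool.Agent.Lib.MP_21db1f_lc
set_option linter.all false

theorem Ax.std {n : ℕ} {D : AData n} {H : Type} [Group H] (hfg : Group.FG H) {x : ℕ → H}
    (hx : Ax D x) : Std (cc x) := by
  obtain ⟨h1, h2, h3⟩ := standard_of_axioms hfg (cc x) (NN (cc x)) (MulR (cc x)) (BR D x) hx.n1 hx.nc
    hx.nadd hx.pred hx.ne hx.mulex hx.muluniq hx.mul0 hx.mulS hx.b0 hx.b1 hx.bmon hx.bsurj hx.bnot
  exact ⟨h1, h2, h3⟩

theorem Ax.ev {n : ℕ} (hn : 0 < n) {D : AData n} {H : Type} [Group H] {x : ℕ → H} (hx : Ax D x)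
    (hstd : Std (cc x)) (L : List ℕ) : ∀ w : ℕ, dl w = L → EVr D x (cc x ^ w) (evalW n x L) := by
  induction L using List.reverseRecOn with
  | nil =>
    intro w hw
    rw [dl_eq_nil hw, pow_zero]
    exact hx.e2
  | append_singleton L l ih =>
    intro w hw
    obtain ⟨w0, hw0⟩ := dl_surj L
    have h1 := ih w0 hw0
    rw [evalW_append, evalW_cons, evalW_nil, mul_one, ← letter_mod]
    refine hx.e3 (l % (2 * n)) (Nat.mod_lt _ (by omega)) (cc x ^ w0) (cc x ^ w) _
      ((hstd.nn _).2 ⟨w0, rfl⟩) ((hstd.nn _).2 ⟨w, rfl⟩) ?_ h1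
    have h2 := hstd.interpL (D.ext (l % (2 * n))) [w0, w]
    refine h2.2 ?_
    rw [D.h_ext]
    refine ⟨l, rfl, ?_⟩
    show dl w = dl w0 ++ [l]
    rw [hw, hw0]

theorem H_side {n : ℕ} (hn : 2 ≤ n)
    (htriv : ∀ w : List ℕ, evalW n (x3 n) w = 1 ↔ ∀ i < n, ∀ θ, Adm n θ → ∀ j : ℕ,
      pval n θ j (foxPos n i w) = pval n θ j (foxNeg n i w))
    (D : AData n) {H : Type} [Group H] (hfg : Group.FG H) (x : ℕ → H) (hx : Ax D x) :
    Nonempty (H ≃* G3 n) := by
  have hn0 : 0 < n := by omega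
  have hstd := hx.std hfg
  have hev : ∀ w : ℕ, EVr D x (cc x ^ w) (evalW n x (dl w)) := fun w => hx.ev hn0 hstd _ w rfl
  -- the canonical homomorphism
  let f : FF n →* H := FreeGroup.lift (fun i : Fin n => x i)
  have hfx : ∀ i < n, f (xF n i) = x i := by
    intro i hi
    unfold xF
    rw [dif_pos hi]
    simp [f]
  have hfw : ∀ w : List ℕ, f (evalW n (xF n) w) = evalW n x w := by
    intro w
    rw [map_evalW]
    unfold evalW
    congr 1
    apply List.map_congr_left
    intro l _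
    have hlt : l % (2 * n) / 2 < n := by
      have := Nat.mod_lt l (by omega : 0 < 2 * n)
      omega
    unfold letter
    show (if l % (2 * n) % 2 = 0 then f (xF n (l % (2 * n) / 2)) else (f (xF n (l % (2 * n) / 2)))⁻¹) = _
    rw [hfx _ hlt]
  have hsurj : Function.Surjective f := by
    intro g
    obtain ⟨κ, hκ, h⟩ := hx.e4 g
    obtain ⟨w, rfl⟩ := (hstd.nn _).1 hκ
    have := hx.e1 _ _ _ hκ h (hev w)
    exact ⟨evalW n (xF n) (dl w), by rw [hfw, this]⟩
  have hker : f.ker = derivedSeries (FF n) 3 := by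
    ext u
    obtain ⟨L, rfl⟩ := exists_word n u
    obtain ⟨w, rfl⟩ := dl_surj L
    rw [MonoidHom.mem_ker, hfw]
    have h1 : evalW n (x3 n) (dl w) = QuotientGroup.mk (evalW n (xF n) (dl w)) :=
      (map_evalW (QuotientGroup.mk' (derivedSeries (FF n) 3)) n (xF n) (dl w)).symm
    have h2 : evalW n x (dl w) = 1 ↔ EVr D x (cc x ^ w) 1 := by
      constructor
      · intro h
        have := hev w
        rw [h] at this
        exact this
      · intro h
        exact hx.e1 _ _ _ ((hstd.nn _).2 ⟨w, rfl⟩) (hev w) h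
    have h3 : D.triv.interp (cc x) (env [cc x ^ w]) ↔ D.triv.holds (envN [w]) :=
      hstd.interpL D.triv [w]
    rw [h2, hx.e5 _ ((hstd.nn _).2 ⟨w, rfl⟩), h3, D.h_triv]
    show (∀ i < n, ∀ θ, Adm n θ → ∀ j : ℕ,
      pval n θ j (foxPos n i (dl w)) = pval n θ j (foxNeg n i (dl w))) ↔ _
    rw [← htriv, h1, QuotientGroup.eq_one_iff]
  have e1 : FF n ⧸ f.ker ≃* H := QuotientGroup.quotientKerEquivOfSurjective f hsurj
  have e2 : FF n ⧸ f.ker ≃* G3 n := QuotientGroup.quotientMulEquivOfEq hker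
  exact ⟨e1.symm.trans e2⟩

end Pool.Agent.Lib.MP_21db1f_lc
end
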