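import Pool.Agent.Lib.MP_21db1f_lc.Defs

section

/-!
A calculus of uniformly first-order definable relations in groups.
-/

set_option autoImplicit false

namespace Pool.Agent.Lib.MP_21db1f_lc
open FirstOrder
set_option linter.all false

/-- The language of the frozen statement: one binary function symbol. -/
abbrev L0 : FirstOrder.Language.{0, 0} := ⟨fun k => if k = 2 then Unit else Empty, fun _ => Empty⟩

/-- A group as a structure for `L0`. -/
abbrev strL (H : Type) [Group H] : L0.Structure H :=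
  { funMap := fun _ xs => (List.ofFn xs).prod, RelMap := fun _ _ => False }

/-- Uniformly definable relations between the elements of a group. -/
def Def (P : (H : Type) → [Group H] → (ℕ → H) → Prop) : Prop :=
  ∃ φ : L0.Formula ℕ, ∀ (H : Type) [Group H] (v : ℕ → H),
    (@FirstOrder.Language.Formula.Realize L0 H (strL H) ℕ φ v ↔ P H v)

theorem Def.of_iff {P Q : (H : Type) → [Group H] → (ℕ → H) → Prop} (hP : Def P)
    (h : ∀ (H : Type) [Group H] (v : ℕ → H), P H v ↔ Q H v) : Def Q := by
  obtain ⟨φ, hφ⟩ := hP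
  exact ⟨φ, fun H _ v => (hφ H v).trans (h H v)⟩

def mulSym : L0.Functions 2 := (() : Unit)

theorem Def.mul (i j k : ℕ) : Def (fun H _ v => v i * v j = v k) := by
  refine ⟨(FirstOrder.Language.Term.equal
    (FirstOrder.Language.Functions.apply₂ (L := L0) mulSym (FirstOrder.Language.Term.var i) (FirstOrder.Language.Term.var j))
    (FirstOrder.Language.Term.var k)), ?_⟩
  intro H _ v
  letI := strL H
  rw [FirstOrder.Language.Formula.realize_equal]
  simp only [FirstOrder.Language.Functions.apply₂, FirstOrder.Language.Term.realize_func, FirstOrder.Language.Term.realize_var]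
  show (List.ofFn _).prod = v k ↔ v i * v j = v k
  simp

theorem Def.eq (i j : ℕ) : Def (fun H _ v => v i = v j) := by
  refine ⟨(FirstOrder.Language.Term.equal (FirstOrder.Language.Term.var i) (FirstOrder.Language.Term.var j)), ?_⟩
  intro H _ v
  letI := strL H
  rw [FirstOrder.Language.Formula.realize_equal]
  simp

theorem Def.false : Def (fun _ _ _ => False) := by
  refine ⟨⊥, ?_⟩
  intro H _ v
  letI := strL H
  simp [FirstOrder.Language.Formula.Realize, FirstOrder.Language.BoundedFormula.realize_bot]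

theorem Def.imp {P Q : (H : Type) → [Group H] → (ℕ → H) → Prop} (hP : Def P) (hQ : Def Q) :
    Def (fun H _ v => P H v → Q H v) := by
  obtain ⟨φ, hφ⟩ := hP
  obtain ⟨ψ, hψ⟩ := hQ
  refine ⟨φ.imp ψ, ?_⟩
  intro H _ v
  letI := strL H
  rw [FirstOrder.Language.Formula.realize_imp, hφ, hψ]

theorem Def.not {P : (H : Type) → [Group H] → (ℕ → H) → Prop} (hP : Def P) :
    Def (fun H _ v => ¬ P H v) := hP.imp Def.false

theorem Def.and {P Q : (H : Type) → [Group H] → (ℕ → H) → Prop} (hP : Def P) (hQ : Def Q) :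
    Def (fun H _ v => P H v ∧ Q H v) :=
  ((hP.imp hQ.not).not).of_iff (by intro H _ v; tauto)

theorem Def.or {P Q : (H : Type) → [Group H] → (ℕ → H) → Prop} (hP : Def P) (hQ : Def Q) :
    Def (fun H _ v => P H v ∨ Q H v) :=
  (hP.not.imp hQ).of_iff (by intro H _ v; tauto)

theorem Def.iff {P Q : (H : Type) → [Group H] → (ℕ → H) → Prop} (hP : Def P) (hQ : Def Q) :
    Def (fun H _ v => (P H v ↔ Q H v)) :=
  ((hP.imp hQ).and (hQ.imp hP)).of_iff (by intro H _ v; tauto)

theorem Def.true : Def (fun _ _ _ => True) := Def.false.not.of_iff (by intro H _ v; tauto)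

theorem Def.rename {P : (H : Type) → [Group H] → (ℕ → H) → Prop} (hP : Def P) (σ : ℕ → ℕ) :
    Def (fun H _ v => P H (fun i => v (σ i))) := by
  obtain ⟨φ, hφ⟩ := hP
  refine ⟨φ.relabel σ, ?_⟩
  intro H _ v
  letI := strL H
  rw [FirstOrder.Language.Formula.realize_relabel]
  exact hφ H (v ∘ σ)

/-- Quantification over a new variable. -/
theorem Def.all {Q : (H : Type) → [Group H] → (ℕ → H) → H → Prop}
    (hQ : Def (fun H _ v => Q H (fun i => v (i + 1)) (v 0))) :
    Def (fun H _ v => ∀ h, Q H v h) := by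
  obtain ⟨φ, hφ⟩ := hQ
  let f : ℕ → ℕ ⊕ Fin 1 := fun i => match i with
    | 0 => Sum.inr 0
    | i + 1 => Sum.inl i
  refine ⟨(φ.relabel f).iAlls (Fin 1), ?_⟩
  intro H _ v
  letI := strL H
  rw [FirstOrder.Language.Formula.realize_iAlls]
  constructor
  · intro h a
    have := h (fun _ => a)
    rw [FirstOrder.Language.Formula.realize_relabel] at this
    exact (hφ H _).1 this
  · intro h a
    rw [FirstOrder.Language.Formula.realize_relabel]
    exact (hφ H _).2 (h (a 0))

theorem Def.ex {Q : (H : Type) → [Group H] → (ℕ → H) → H → Prop}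
    (hQ : Def (fun H _ v => Q H (fun i => v (i + 1)) (v 0))) :
    Def (fun H _ v => ∃ h, Q H v h) := by
  have := (Def.all (Q := fun H _ v h => ¬ Q H v h) hQ.not).not
  exact this.of_iff (by intro H _ v; push Not; rfl)

/-- Definable functions. -/
def DFun (t : (H : Type) → [Group H] → (ℕ → H) → H) : Prop :=
  Def (fun H _ v => v 0 = t H (fun i => v (i + 1)))

theorem DFun.var (i : ℕ) : DFun (fun _ _ v => v i) := Def.eq 0 (i + 1)

/-- substitution of a definable function -/
theorem Def.subst {Q : (H : Type) → [Group H] → (ℕ → H) → H → Prop}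
    {t : (H : Type) → [Group H] → (ℕ → H) → H} (ht : DFun t)
    (hQ : Def (fun H _ v => Q H (fun i => v (i + 1)) (v 0))) :
    Def (fun H _ v => Q H v (t H v)) := by
  have := Def.ex (Q := fun H _ v h => h = t H v ∧ Q H v h) (ht.and hQ)
  exact this.of_iff (by intro H _ v; simp)

theorem DFun.rename {t : (H : Type) → [Group H] → (ℕ → H) → H} (ht : DFun t) (σ : ℕ → ℕ) :
    DFun (fun H _ v => t H (fun i => v (σ i))) := by
  have := Def.rename ht (fun i => match i with | 0 => 0 | i + 1 => σ i + 1)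
  exact this

theorem DFun.shift {t : (H : Type) → [Group H] → (ℕ → H) → H} (ht : DFun t) :
    DFun (fun H _ v => t H (fun i => v (i + 1))) := ht.rename (fun i => i + 1)

theorem Def.eqf {t s : (H : Type) → [Group H] → (ℕ → H) → H} (ht : DFun t) (hs : DFun s) :
    Def (fun H _ v => t H v = s H v) := by
  refine Def.subst (Q := fun H _ v h => h = s H v) ht ?_
  exact hs

theorem DFun.mul {t s : (H : Type) → [Group H] → (ℕ → H) → H} (ht : DFun t) (hs : DFun s) :
    DFun (fun H _ v => t H v * s H v) := by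
  unfold DFun
  refine Def.subst (Q := fun H _ v h => v 0 = h * s H (fun i => v (i + 1))) ht.shift ?_
  refine Def.subst (t := fun H _ v => s H (fun i => v (i + 2)))
    (Q := fun H _ v h => v 1 = v 0 * h) (ht := ?_) ?_
  · exact hs.rename (fun i => i + 2)
  · exact (Def.mul 1 0 2).of_iff (by intro H _ v; exact eq_comm)

theorem DFun.one : DFun (fun _ _ _ => 1) := by
  unfold DFun
  exact (Def.mul 0 0 0).of_iff (by intro H _ v; simp)

theorem DFun.inv {t : (H : Type) → [Group H] → (ℕ → H) → H} (ht : DFun t) :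
    DFun (fun H _ v => (t H v)⁻¹) := by
  unfold DFun
  refine Def.subst (Q := fun H _ v h => v 0 = h⁻¹) ht.shift ?_
  have := Def.eqf (DFun.mul (DFun.var 1) (DFun.var 0)) DFun.one
  exact this.of_iff (by intro H _ v; exact mul_eq_one_iff_eq_inv)

/-- Every definable relation yields a sentence expressing that the relation is satisfiable. -/
theorem Def.exists_sentence {P : (H : Type) → [Group H] → (ℕ → H) → Prop} (hP : Def P) :
    ∃ φ : L0.Sentence, ∀ (H : Type) [Group H],
      (@FirstOrder.Language.Sentence.Realize L0 H (strL H) φ ↔ ∃ v : ℕ → H, P H v) := by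
  classical
  obtain ⟨φ, hφ⟩ := hP
  let s := φ.freeVarFinset
  let ψ : L0.Formula s := φ.restrictFreeVar id
  refine ⟨(ψ.relabel (Sum.inr : s → Empty ⊕ s)).iExs s, ?_⟩
  intro H _
  letI := strL H
  unfold FirstOrder.Language.Sentence.Realize
  rw [FirstOrder.Language.Formula.realize_iExs]
  constructor
  · rintro ⟨i, hi⟩
    rw [FirstOrder.Language.Formula.realize_relabel] at hi
    refine ⟨fun k => if h : k ∈ s then i ⟨k, h⟩ else 1, ?_⟩
    rw [← hφ H]
    unfold FirstOrder.Language.Formula.Realize at hi ⊢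
    rw [FirstOrder.Language.BoundedFormula.realize_restrictFreeVar (v' := fun k => if h : k ∈ s then i ⟨k, h⟩ else 1)] at hi
    · exact hi
    · intro a
      simp
  · rintro ⟨v, hv⟩
    refine ⟨fun k => v k, ?_⟩
    rw [FirstOrder.Language.Formula.realize_relabel]
    rw [← hφ H] at hv
    unfold FirstOrder.Language.Formula.Realize at hv ⊢
    rw [FirstOrder.Language.BoundedFormula.realize_restrictFreeVar (v' := v)]
    · exact hv
    · intro a
      simp

end Pool.Agent.Lib.MP_21db1f_lc
end

section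

/-!
The Magnus embedding, for `F/[R,R]`, `F` free of finite rank.
-/

set_option autoImplicit false
set_option linter.unusedSectionVars false

namespace Pool.Agent.Lib.MP_21db1f_lc
open MonoidAlgebra
open scoped commutatorElement

section Magnus
variable {ι : Type} [DecidableEq ι] (R : Subgroup (FreeGroup ι)) [hR : R.Normal]

/-- The permutation `(d, g) ↦ (d + e_i g, x_i g)`. -/
noncomputable def genPerm (i : ι) :
    Equiv.Perm ((ι → MonoidAlgebra ℤ (FreeGroup ι ⧸ R)) × (FreeGroup ι ⧸ R)) where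
  toFun p := (p.1 + Pi.single i (MonoidAlgebra.of ℤ _ p.2), QuotientGroup.mk (FreeGroup.of i) * p.2)
  invFun p := (p.1 - Pi.single i (MonoidAlgebra.of ℤ _ ((QuotientGroup.mk (FreeGroup.of i))⁻¹ * p.2)),
    (QuotientGroup.mk (FreeGroup.of i))⁻¹ * p.2)
  left_inv p := by
    ext1
    · simp
    · simp
  right_inv p := by
    ext1
    · simp
    · simp

noncomputable def actP : FreeGroup ι →*
    Equiv.Perm ((ι → MonoidAlgebra ℤ (FreeGroup ι ⧸ R)) × (FreeGroup ι ⧸ R)) :=
  FreeGroup.lift (genPerm R)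

noncomputable def DD (u : FreeGroup ι) : ι → MonoidAlgebra ℤ (FreeGroup ι ⧸ R) :=
  (actP R u (0, 1)).1

theorem actP_of (i : ι) (p) : actP R (FreeGroup.of i) p = genPerm R i p := by
  simp [actP]

theorem actP_inv_of (i : ι) (p) : actP R (FreeGroup.of i)⁻¹ p = (genPerm R i).symm p := by
  simp only [actP, map_inv, FreeGroup.lift_apply_of]
  rfl

theorem actP_apply (u : FreeGroup ι) : ∀ d g, actP R u (d, g) =
    (d + fun i => DD R u i * MonoidAlgebra.of ℤ _ g, QuotientGroup.mk u * g) := by
  induction u using FreeGroup.induction_on with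
  | C1 =>
    intro d g
    have : DD R (1 : FreeGroup ι) = 0 := by simp [DD]
    rw [this]
    ext1
    · ext1 i; simp
    · simp
  | of i =>
    intro d g
    have h : DD R (FreeGroup.of i) = Pi.single i 1 := by
      unfold DD
      rw [actP_of]
      simp [genPerm]
      rfl
    rw [h, actP_of]
    ext1
    · ext1 j
      by_cases hj : j = i
      · subst hj; simp [genPerm]
      · simp [genPerm, Pi.single_eq_of_ne hj]
    · simp [genPerm]
  | inv_of i _ =>
    intro d g
    have h : DD R (FreeGroup.of i)⁻¹ = - Pi.single i (MonoidAlgebra.of ℤ _ (QuotientGroup.mk (FreeGroup.of i))⁻¹) := by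
      unfold DD
      rw [actP_inv_of]
      simp [genPerm]
    rw [h, actP_inv_of]
    ext1
    · ext1 j
      by_cases hj : j = i
      · subst hj
        simp [genPerm, sub_eq_add_neg, MonoidAlgebra.single_mul_single]
      · simp [genPerm, Pi.single_eq_of_ne hj]
    · simp [genPerm]
  | mul u v hu hv =>
    intro d g
    have h : DD R (u * v) = fun i => DD R u i * MonoidAlgebra.of ℤ _ (QuotientGroup.mk v) + DD R v i := by
      unfold DD
      rw [map_mul, Equiv.Perm.mul_apply, hv 0 1, hu]
      ext1 i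
      simp only [Pi.add_apply, Pi.zero_apply, mul_one, zero_add]
      simp [add_comm, DD]
    rw [h, map_mul, Equiv.Perm.mul_apply, hv, hu]
    ext1
    · ext1 i
      simp only [Pi.add_apply, add_mul, map_mul, mul_assoc]
      abel
    · simp [mul_assoc]

theorem DD_mul (u v : FreeGroup ι) (i : ι) :
    DD R (u * v) i = DD R u i * MonoidAlgebra.of ℤ _ (QuotientGroup.mk v) + DD R v i := by
  have h : DD R (u * v) = fun i => DD R u i * MonoidAlgebra.of ℤ _ (QuotientGroup.mk v) + DD R v i := by
    unfold DD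
    rw [map_mul, Equiv.Perm.mul_apply, actP_apply R v 0 1, actP_apply R u]
    ext1 i
    simp only [Pi.add_apply, Pi.zero_apply, mul_one, zero_add]
    simp [add_comm, DD]
  rw [h]

theorem DD_of (i : ι) : DD R (FreeGroup.of i) = Pi.single i 1 := by
  unfold DD
  rw [actP_of]
  simp [genPerm]
  rfl

theorem DD_one : DD R 1 = 0 := by simp [DD]

theorem DD_inv (u : FreeGroup ι) (i : ι) :
    DD R u⁻¹ i = - (DD R u i * MonoidAlgebra.of ℤ _ (QuotientGroup.mk u)⁻¹) := by
  have h := DD_mul R u u⁻¹ i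
  rw [mul_inv_cancel, DD_one] at h
  have h2 : DD R u⁻¹ i = - (DD R u i * MonoidAlgebra.of ℤ _ (QuotientGroup.mk u⁻¹)) := by
    rw [eq_neg_iff_add_eq_zero, add_comm]; exact h.symm
  rw [h2]
  rfl

end Magnus

section Kernel
variable {ι : Type} [DecidableEq ι] [Fintype ι] (R : Subgroup (FreeGroup ι)) [hR : R.Normal]

/-- projection `F/[R,R] → F/R` -/
def pE : FreeGroup ι ⧸ ⁅R, R⁆ →* FreeGroup ι ⧸ R :=
  QuotientGroup.map _ _ (MonoidHom.id _) (by
    rw [Subgroup.comap_id]
    exact Subgroup.commutator_le_left R R)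

theorem pE_mk (u : FreeGroup ι) : pE R (QuotientGroup.mk u) = QuotientGroup.mk u := rfl

theorem pE_surj : Function.Surjective (pE R) := by
  intro g
  obtain ⟨u, rfl⟩ := QuotientGroup.mk_surjective g
  exact ⟨QuotientGroup.mk u, rfl⟩

theorem pE_comm (a b : FreeGroup ι ⧸ ⁅R, R⁆) (ha : pE R a = 1) (hb : pE R b = 1) : a * b = b * a := by
  obtain ⟨u, rfl⟩ := QuotientGroup.mk_surjective a
  obtain ⟨v, rfl⟩ := QuotientGroup.mk_surjective b
  rw [pE_mk, QuotientGroup.eq_one_iff] at ha hb
  rw [← QuotientGroup.mk_mul, ← QuotientGroup.mk_mul, QuotientGroup.eq]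
  have := Subgroup.commutator_mem_commutator (inv_mem hb) (inv_mem ha)
  have h2 : (u * v)⁻¹ * (v * u) = v⁻¹ * u⁻¹ * v⁻¹⁻¹ * u⁻¹⁻¹ := by group
  rw [h2]
  exact this

instance pEComm : CommGroup (pE R).ker :=
  { (inferInstance : Group (pE R).ker) with
    mul_comm := by
      rintro ⟨a, ha⟩ ⟨b, hb⟩
      exact Subtype.ext (pE_comm R a b ha hb) }

noncomputable def sec (g : FreeGroup ι ⧸ R) : FreeGroup ι ⧸ ⁅R, R⁆ := (pE_surj R g).choose

theorem pE_sec (g) : pE R (sec R g) = g := (pE_surj R g).choose_spec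

noncomputable def th0 (i : ι) (g : FreeGroup ι ⧸ R) : Additive (pE R).ker :=
  Additive.ofMul ⟨(sec R (QuotientGroup.mk (FreeGroup.of i) * g))⁻¹ *
    (QuotientGroup.mk (FreeGroup.of i) : FreeGroup ι ⧸ ⁅R, R⁆) * sec R g, by
      rw [MonoidHom.mem_ker]
      simp [pE_sec, pE_mk, mul_assoc]⟩

noncomputable def th1 (i : ι) : MonoidAlgebra ℤ (FreeGroup ι ⧸ R) →+ Additive (pE R).ker :=
  (Finsupp.liftAddHom (fun g => zmultiplesHom _ (th0 R i g))).comp
    (MonoidAlgebra.coeffAddEquiv).toAddMonoidHom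

theorem th1_of (i : ι) (g) : th1 R i (MonoidAlgebra.of ℤ _ g) = th0 R i g := by
  simp [th1]

noncomputable def th (d : ι → MonoidAlgebra ℤ (FreeGroup ι ⧸ R)) : Additive (pE R).ker :=
  ∑ i, th1 R i (d i)

theorem th_add (d e) : th R (d + e) = th R d + th R e := by
  simp [th, Finset.sum_add_distrib]

theorem th_neg (d) : th R (-d) = - th R d := by
  simp [th]

theorem th_single (i : ι) (g) :
    th R (Pi.single i (MonoidAlgebra.of ℤ _ g)) = th0 R i g := by
  unfold th
  rw [Finset.sum_eq_single i]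
  · rw [Pi.single_eq_same, th1_of]
  · intro j _ hj
    rw [Pi.single_eq_of_ne hj, map_zero]
  · intro h; exact absurd (Finset.mem_univ i) h

theorem th_DD (w : FreeGroup ι) : ∀ v : FreeGroup ι ⧸ R,
    th R (fun i => DD R w i * MonoidAlgebra.of ℤ _ v) =
      Additive.ofMul ⟨(sec R (QuotientGroup.mk w * v))⁻¹ *
        (QuotientGroup.mk w : FreeGroup ι ⧸ ⁅R, R⁆) * sec R v, by
          rw [MonoidHom.mem_ker]
          simp [pE_sec, pE_mk, mul_assoc]⟩ := by
  induction w using FreeGroup.induction_on with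
  | C1 =>
    intro v
    have h1 : (fun i => DD R 1 i * MonoidAlgebra.of ℤ _ v) = 0 := by
      ext1 i; simp [DD_one]
    rw [h1]
    have h2 : th R 0 = 0 := by simp [th]
    rw [h2]
    apply Additive.toMul.injective
    apply Subtype.ext
    simp
  | of i =>
    intro v
    have h1 : (fun j => DD R (FreeGroup.of i) j * MonoidAlgebra.of ℤ _ v) =
        Pi.single i (MonoidAlgebra.of ℤ _ v) := by
      ext1 j
      rw [DD_of]
      by_cases hj : j = i
      · subst hj; simp
      · simp [Pi.single_eq_of_ne hj]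
    rw [h1, th_single]
    rfl
  | inv_of i _ =>
    intro v
    have h1 : (fun j => DD R (FreeGroup.of i)⁻¹ j * MonoidAlgebra.of ℤ _ v) =
        - Pi.single i (MonoidAlgebra.of ℤ _ ((QuotientGroup.mk (FreeGroup.of i))⁻¹ * v)) := by
      ext1 j
      rw [DD_inv, DD_of]
      by_cases hj : j = i
      · subst hj; simp [MonoidAlgebra.single_mul_single]
      · simp [Pi.single_eq_of_ne hj]
    rw [h1, th_neg, th_single]
    apply Additive.toMul.injective
    apply Subtype.ext
    simp [th0, mul_assoc]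
  | mul u w hu hw =>
    intro v
    have h1 : (fun j => DD R (u * w) j * MonoidAlgebra.of ℤ _ v) =
        (fun j => DD R u j * MonoidAlgebra.of ℤ _ (QuotientGroup.mk w * v)) +
        (fun j => DD R w j * MonoidAlgebra.of ℤ _ v) := by
      ext1 j
      simp only [DD_mul, Pi.add_apply, add_mul, mul_assoc, map_mul]
    rw [h1, th_add, hu, hw]
    apply Additive.toMul.injective
    apply Subtype.ext
    simp [mul_assoc]

/-- The kernel of the Fox derivative on `R` is `[R,R]`. -/
theorem DD_ker (u : FreeGroup ι) (hu : u ∈ R) (h : DD R u = 0) : u ∈ ⁅R, R⁆ := by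
  have h1 := th_DD R u 1
  have h2 : (fun i => DD R u i * MonoidAlgebra.of ℤ (FreeGroup ι ⧸ R) 1) = 0 := by
    ext1 i; simp [h]
  have h3 : th R 0 = 0 := by simp [th]
  rw [h2, h3] at h1
  have h4 := congrArg (fun z => ((Additive.toMul z : (pE R).ker) : FreeGroup ι ⧸ ⁅R, R⁆)) h1
  have h5 : (QuotientGroup.mk u : FreeGroup ι ⧸ R) = 1 := (QuotientGroup.eq_one_iff u).2 hu
  simp only [toMul_zero, OneMemClass.coe_one, toMul_ofMul, h5, mul_one] at h4
  have h6 : (QuotientGroup.mk u : FreeGroup ι ⧸ ⁅R, R⁆) = 1 := by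
    have h7 := h4.symm
    rw [mul_assoc, inv_mul_eq_one] at h7
    exact (mul_eq_right.mp h7.symm)
  exact (QuotientGroup.eq_one_iff u).1 h6

/-- `∑ (x_i - 1) D_i(u) = u - 1` -/
theorem DD_sum (u : FreeGroup ι) :
    ∑ i, (MonoidAlgebra.of ℤ _ (QuotientGroup.mk (FreeGroup.of i)) - 1) * DD R u i =
      MonoidAlgebra.of ℤ _ (QuotientGroup.mk u : FreeGroup ι ⧸ R) - 1 := by
  induction u using FreeGroup.induction_on with
  | C1 => simp [DD_one, MonoidAlgebra.one_def]
  | of i =>
    rw [DD_of, Finset.sum_eq_single i]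
    · simp
    · intro j _ hj
      rw [Pi.single_eq_of_ne hj, mul_zero]
    · intro h; exact absurd (Finset.mem_univ i) h
  | inv_of i _ =>
    rw [Finset.sum_eq_single i]
    · rw [DD_inv, DD_of, Pi.single_eq_same, one_mul]
      have h1 : (QuotientGroup.mk (FreeGroup.of i)⁻¹ : FreeGroup ι ⧸ R) =
        (QuotientGroup.mk (FreeGroup.of i))⁻¹ := rfl
      rw [h1, mul_neg, sub_mul, one_mul, ← map_mul, mul_inv_cancel, map_one]
      abel
    · intro j _ hj
      rw [DD_inv, DD_of, Pi.single_eq_of_ne hj, zero_mul, neg_zero, mul_zero]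
    · intro h; exact absurd (Finset.mem_univ i) h
  | mul u v hu hv =>
    have h1 : (QuotientGroup.mk (u * v) : FreeGroup ι ⧸ R) =
      QuotientGroup.mk u * QuotientGroup.mk v := rfl
    simp only [DD_mul, mul_add, Finset.sum_add_distrib, ← mul_assoc]
    rw [← Finset.sum_mul, hu, hv, h1, map_mul]
    noncomm_ring

/-- Elements of `[R,R]` have zero derivative. -/
theorem DD_comm (u : FreeGroup ι) (hu : u ∈ ⁅R, R⁆) : DD R u = 0 := by
  let K : Subgroup (FreeGroup ι) :=
    { carrier := {v | v ∈ R ∧ DD R v = 0}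
      one_mem' := ⟨one_mem R, DD_one R⟩
      mul_mem' := by
        rintro a b ⟨ha, ha'⟩ ⟨hb, hb'⟩
        refine ⟨mul_mem ha hb, ?_⟩
        ext1 i
        rw [DD_mul, ha', hb']; simp
      inv_mem' := by
        rintro a ⟨ha, ha'⟩
        refine ⟨inv_mem ha, ?_⟩
        ext1 i
        rw [DD_inv, ha']; simp }
  have hK : ⁅R, R⁆ ≤ K := by
    rw [Subgroup.commutator_le]
    intro a ha b hb
    have ha' : (QuotientGroup.mk a : FreeGroup ι ⧸ R) = 1 := (QuotientGroup.eq_one_iff a).2 ha
    have hb' : (QuotientGroup.mk b : FreeGroup ι ⧸ R) = 1 := (QuotientGroup.eq_one_iff b).2 hb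
    refine ⟨?_, ?_⟩
    · exact Subgroup.commutator_le_left R R (Subgroup.commutator_mem_commutator ha hb)
    · ext1 i
      have e : ⁅a, b⁆ = a * b * a⁻¹ * b⁻¹ := rfl
      rw [e, DD_mul, DD_mul, DD_mul, DD_inv, DD_inv]
      simp only [QuotientGroup.mk_inv, ha', hb', inv_one, map_one, mul_one, Pi.zero_apply]
      abel
  exact (hK hu).2

/-- Magnus embedding, packaged. -/
theorem magnus_general : ∃ D : FreeGroup ι → ι → MonoidAlgebra ℤ (FreeGroup ι ⧸ R),
      (∀ g h i, D (g * h) i = D g i * MonoidAlgebra.of ℤ _ (QuotientGroup.mk h) + D h i) ∧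
      (∀ i, D (FreeGroup.of i) = Pi.single i 1) ∧
      (∀ u, ∑ i, (MonoidAlgebra.of ℤ _ (QuotientGroup.mk (FreeGroup.of i)) - 1) * D u i =
        MonoidAlgebra.of ℤ _ (QuotientGroup.mk u : FreeGroup ι ⧸ R) - 1) ∧
      (∀ u ∈ R, D u = 0 ↔ u ∈ ⁅R, R⁆) :=
  ⟨DD R, DD_mul R, DD_of R, DD_sum R, fun u hu => ⟨DD_ker R u hu, DD_comm R u⟩⟩

end Kernel

/-! ## The free solvable group of class 3 -/

section G3
variable (n : ℕ)

theorem derived3 : derivedSeries (FF n) 3 = ⁅derivedSeries (FF n) 2, derivedSeries (FF n) 2⁆ := rfl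

/-- The Magnus embedding of the free solvable group of class `3` (right version). -/
theorem exists_D3 : ∃ D : G3 n → Fin n → Lam n, Function.Injective D ∧
    (∀ g h i, D (g * h) i = D g i * sg (pr n h) + D h i) ∧
    (∀ i : Fin n, D (x3 n i) = Pi.single i 1) ∧
    (∀ g, ∑ i : Fin n, (sg (x2 n i) - 1) * D g i = sg (pr n g) - 1) := by
  have hwd : ∀ a b : FF n, (QuotientGroup.leftRel (derivedSeries (FF n) 3)) a b →
      DD (derivedSeries (FF n) 2) a = DD (derivedSeries (FF n) 2) b := by
    intro a b hab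
    rw [QuotientGroup.leftRel_apply] at hab
    have h0 := DD_comm (derivedSeries (FF n) 2) (a⁻¹ * b) hab
    ext1 i
    have h1 := DD_mul (derivedSeries (FF n) 2) a (a⁻¹ * b) i
    rw [mul_inv_cancel_left, h0] at h1
    have h2 : (QuotientGroup.mk (a⁻¹ * b) : G2 n) = 1 := by
      rw [QuotientGroup.eq_one_iff]
      exact derivedSeries_antitone (FF n) (by norm_num : 2 ≤ 3) hab
    rw [h1, h2, map_one, mul_one, Pi.zero_apply, add_zero]
  let D : G3 n → Fin n → Lam n := fun g => Quotient.liftOn' g (DD (derivedSeries (FF n) 2)) hwd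
  have hD : ∀ u : FF n, D (QuotientGroup.mk u) = DD (derivedSeries (FF n) 2) u := fun u => rfl
  have hpr : ∀ u : FF n, pr n (QuotientGroup.mk u) = (QuotientGroup.mk u : G2 n) := fun u => rfl
  refine ⟨D, ?_, ?_, ?_, ?_⟩
  · intro g h hgh
    obtain ⟨u, rfl⟩ := QuotientGroup.mk_surjective g
    obtain ⟨v, rfl⟩ := QuotientGroup.mk_surjective h
    rw [hD, hD] at hgh
    have h1 : (QuotientGroup.mk u : G2 n) = QuotientGroup.mk v := by
      have e1 := DD_sum (derivedSeries (FF n) 2) u
      have e2 := DD_sum (derivedSeries (FF n) 2) v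
      rw [hgh, e2] at e1
      exact (MonoidAlgebra.of_injective (sub_left_injective e1)).symm
    rw [QuotientGroup.eq] at h1 ⊢
    have h1' : (QuotientGroup.mk u : G2 n) = QuotientGroup.mk v := by
      rw [QuotientGroup.eq]; exact h1
    have h2 : DD (derivedSeries (FF n) 2) (u⁻¹ * v) = 0 := by
      ext1 i
      rw [DD_mul, DD_inv, hgh, neg_mul, mul_assoc, ← map_mul, h1', inv_mul_cancel, map_one, mul_one,
        Pi.zero_apply, neg_add_cancel]
    exact DD_ker _ _ h1 h2
  · intro g h i
    obtain ⟨u, rfl⟩ := QuotientGroup.mk_surjective g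
    obtain ⟨v, rfl⟩ := QuotientGroup.mk_surjective h
    rw [← QuotientGroup.mk_mul, hD, hD, hD, hpr, DD_mul]
    rfl
  · intro i
    have : x3 n i = QuotientGroup.mk (FreeGroup.of i) := by
      unfold x3 xF
      rw [dif_pos i.2]
    rw [this, hD, DD_of]
  · intro g
    obtain ⟨u, rfl⟩ := QuotientGroup.mk_surjective g
    rw [hD, hpr]
    have := DD_sum (derivedSeries (FF n) 2) u
    refine Eq.trans ?_ this
    apply Finset.sum_congr rfl
    intro i _
    have e : x2 n i = QuotientGroup.mk (FreeGroup.of i) := by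
      unfold x2 xF
      rw [dif_pos i.2]
    rw [e]
    rfl

end G3
end Pool.Agent.Lib.MP_21db1f_lc
end
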